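import Pool.Agent.MP_6600f1_ag.ce.Spec

/-! The links between the first and the last triangle at a positive side vertex. -/

namespace Pool.Agent.MP_6600f1_ag.ce

open MvPolynomial Metric Set Complex
open scoped ComplexConjugate Real

namespace BDp

lemma core_real (R J a1 a2 b1 b2 P1 q1 P2 q2 D e : ℝ) (hR : 0 < R) (he0 : 0 ≤ e)
    (he : e ≤ 1 / 1000) (hD0 : 0 ≤ D) (hJ : |J| ≤ e * R * D) (ha : a1 ^ 2 + a2 ^ 2 = 1)
    (hb : b1 ^ 2 + b2 ^ 2 = 1) (hP1 : 0 ≤ P1) (hq1 : 0 < q1) (hP2 : 0 ≤ P2)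
    (E2 : P1 * a2 + q1 * (R * a2 + J * a1) = 0)
    (E1 : b2 = 0 ∨ (0 < q2 ∧ P2 * b2 = q2 * ((J * (a1 ^ 2 - a2 ^ 2) - R * (2 * a1 * a2)) * b1 -
      (R * (a1 ^ 2 - a2 ^ 2) + J * (2 * a1 * a2)) * b2)))
    (hD : D ≤ 6 * (|a2| + |b2|)) : D = 0 := by
  have ha1 : |a1| ≤ 1 := by rw [abs_le]; constructor <;> nlinarith [sq_nonneg a2]
  have ha2 : |a2| ≤ 1 := by rw [abs_le]; constructor <;> nlinarith [sq_nonneg a1]
  have hb1 : |b1| ≤ 1 := by rw [abs_le]; constructor <;> nlinarith [sq_nonneg b2]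
  have hb2 : |b2| ≤ 1 := by rw [abs_le]; constructor <;> nlinarith [sq_nonneg b1]
  have hD12 : D ≤ 12 := by linarith
  have hε0 : 0 ≤ e * D := mul_nonneg he0 hD0
  have hε : e * D ≤ 12 / 1000 := by nlinarith
  have hJ' : |J| ≤ R * (e * D) := by linarith [hJ, show e * R * D = R * (e * D) by ring]
  -- first equation
  have h1 : |a2| ≤ e * D := by
    have h : a2 * (P1 + q1 * R) = -(q1 * (J * a1)) := by linarith
    have hpos : 0 < q1 * R := mul_pos hq1 hR
    have h2 : |a2| * (P1 + q1 * R) = q1 * (|J| * |a1|) := by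
      rw [← abs_of_pos (show 0 < P1 + q1 * R by linarith), ← abs_mul, h, abs_neg, abs_mul,
        abs_mul, abs_of_pos hq1]
    have h3 : |J| * |a1| ≤ R * (e * D) := by
      calc |J| * |a1| ≤ |J| * 1 := by gcongr
        _ ≤ R * (e * D) := by linarith
    have h4 : |a2| * (q1 * R) ≤ (e * D) * (q1 * R) := by
      have h5 : 0 ≤ |a2| * P1 := mul_nonneg (abs_nonneg _) hP1
      have h6 : q1 * (|J| * |a1|) ≤ q1 * (R * (e * D)) := by gcongr
      nlinarith
    exact le_of_mul_le_mul_right h4 hpos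
  have h2 : |b2| ≤ 6 * (e * D) := by
    rcases E1 with h | ⟨hq2, h⟩
    · rw [h, abs_zero]; positivity
    have hsq : a2 ^ 2 ≤ (e * D) ^ 2 := by
      rw [← sq_abs a2]; gcongr
    have hc : |2 * a1 * a2| ≤ 2 * (e * D) := by
      rw [abs_mul, abs_mul, abs_two]
      calc 2 * |a1| * |a2| ≤ 2 * 1 * (e * D) := by gcongr
        _ = 2 * (e * D) := by ring
    have hd : |a1 ^ 2 - a2 ^ 2| ≤ 1 := by
      rw [abs_le]; constructor <;> nlinarith [sq_nonneg a1, sq_nonneg a2]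
    have hd' : 3 / 4 ≤ a1 ^ 2 - a2 ^ 2 := by nlinarith
    set c := 2 * a1 * a2 with hcdef
    set d := a1 ^ 2 - a2 ^ 2 with hddef
    have hJc : |J * c| ≤ R / 4 := by
      rw [abs_mul]
      calc |J| * |c| ≤ (R * (e * D)) * (2 * (e * D)) := by gcongr
        _ = R * (2 * (e * D) * (e * D)) := by ring
        _ ≤ R * (1 / 4) := by gcongr; nlinarith
        _ = R / 4 := by ring
    have hre : R / 2 ≤ R * d + J * c := by
      have := (abs_le.1 hJc).1
      nlinarith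
    have him : |J * d - R * c| ≤ 3 * (R * (e * D)) := by
      calc |J * d - R * c| ≤ |J * d| + |R * c| := abs_sub _ _
        _ = |J| * |d| + R * |c| := by rw [abs_mul, abs_mul, abs_of_pos hR]
        _ ≤ (R * (e * D)) * 1 + R * (2 * (e * D)) := by gcongr
        _ = 3 * (R * (e * D)) := by ring
    have h' : b2 * (P2 + q2 * (R * d + J * c)) = q2 * ((J * d - R * c) * b1) := by linarith
    have hpos : 0 < q2 * (R / 2) := by positivity
    have hle : q2 * (R / 2) ≤ P2 + q2 * (R * d + J * c) := by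
      have : q2 * (R / 2) ≤ q2 * (R * d + J * c) := by gcongr
      linarith
    have h3 : |b2| * (P2 + q2 * (R * d + J * c)) = q2 * (|J * d - R * c| * |b1|) := by
      rw [← abs_of_pos (show 0 < P2 + q2 * (R * d + J * c) by linarith), ← abs_mul, h', abs_mul,
        abs_mul, abs_of_pos hq2]
    have h4 : |J * d - R * c| * |b1| ≤ 3 * (R * (e * D)) := by
      calc |J * d - R * c| * |b1| ≤ |J * d - R * c| * 1 := by gcongr
        _ ≤ 3 * (R * (e * D)) := by linarith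
    have h5 : |b2| * (q2 * (R / 2)) ≤ (6 * (e * D)) * (q2 * (R / 2)) := by
      calc |b2| * (q2 * (R / 2)) ≤ |b2| * (P2 + q2 * (R * d + J * c)) := by gcongr
        _ = q2 * (|J * d - R * c| * |b1|) := h3
        _ ≤ q2 * (3 * (R * (e * D))) := by gcongr
        _ = (6 * (e * D)) * (q2 * (R / 2)) := by ring
    exact le_of_mul_le_mul_right h5 hpos
  nlinarith

lemma ph_two (u : V) (a b c : Fin 21) (h : ∀ i, ex a i + ex b i = 2 * ex c i) :
    ph u a * ph u b = ph u c ^ 2 := by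
  unfold ph
  rw [← Finset.prod_mul_distrib, ← Finset.prod_pow]
  refine Finset.prod_congr rfl fun i _ => ?_
  rw [← pow_add, h i, ← pow_mul, mul_comm]

lemma ph_three (u : V) (a b c d : Fin 21) (h : ∀ i, ex a i + 2 * ex b i = ex c i + 2 * ex d i) :
    ph u a * ph u b ^ 2 = ph u c * ph u d ^ 2 := by
  unfold ph
  rw [← Finset.prod_pow, ← Finset.prod_pow, ← Finset.prod_mul_distrib, ← Finset.prod_mul_distrib]
  refine Finset.prod_congr rfl fun i _ => ?_
  rw [← pow_mul, ← pow_mul, ← pow_add, ← pow_add, mul_comm _ 2, mul_comm _ 2, h i]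

lemma dl_pos : 0 < dl := by unfold dl; positivity

lemma xi_ne_zero_iff (n : Fin 21) (x : V) : xi D1 n x ≠ 0 ↔ ∀ i, ex n i ≠ 0 → x i ≠ 0 := by
  unfold xi
  have h : ((dl : ℂ)) ^ (4 * D1.nu n) ≠ 0 := pow_ne_zero _ (by exact_mod_cast dl_pos.ne')
  rw [mul_ne_zero_iff, Finset.prod_ne_zero_iff]
  constructor
  · rintro ⟨-, h2⟩ i hi h0
    exact h2 i (Finset.mem_univ _) (by rw [h0, zero_pow hi])
  · intro h2
    refine ⟨h, fun i _ => ?_⟩
    by_cases hi : ex n i = 0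
    · rw [hi, pow_zero]; exact one_ne_zero
    · exact pow_ne_zero _ (h2 i hi)

lemma unit_sq (z : ℂ) (h : ‖z‖ = 1) : z.re ^ 2 + z.im ^ 2 = 1 := by
  have := Complex.sq_norm z
  rw [h, normSq_apply] at this
  nlinarith

lemma unit_conj (z : ℂ) (h : ‖z‖ = 1) : z * conj z = 1 := by
  rw [mul_conj, normSq_eq_norm_sq, h]; simp

/-- near a positive vertex `w` is almost `± xi n` -/
lemma near (hP : PhS) (n : Fin 21) (hn : n ∉ D1.ngl) (x u : V) (w : ℂ)
    (hp : (x, w) ∈ MM (tp D1)) (hx : x ∈ VS D1 {n}) (hu : Pol x u) :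
    xi D1 n x ≠ 0 ∧ (w * conj (ph u n)).re ≠ 0 ∧
      |(w * conj (ph u n)).im| ≤ 210 * dl ^ 2 * |(w * conj (ph u n)).re| * dd u := by
  obtain ⟨-, h2, -, -, h5, h6, -, -, -⟩ := hP
  obtain ⟨n', hn', hne, -, hE, hEi⟩ := h5 x u {n} n hp.1.1 hu hx
  rw [Finset.mem_singleton] at hn'
  subst hn'
  obtain ⟨hν, hξ⟩ := h2 x u n' hu
  have hw : w ^ 2 = xi D1 n' x ^ 2 + Er {n'} x := by
    have h := hp.1.2
    simp only at h
    rw [h, h6 x {n'}, Finset.sum_singleton]
    simp [sg, hn]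
  set r : ℝ := ‖xi D1 n' x‖ with hr
  set ν := ph u n' with hνdef
  have hr0 : 0 < r := norm_pos_iff.2 hne
  have hω : (w * conj ν) ^ 2 = (r : ℂ) ^ 2 + Er {n'} x * conj ν ^ 2 := by
    have h1 := unit_conj ν hν
    rw [mul_pow, hw, hξ]
    linear_combination ((r : ℂ) ^ 2 * (ν * conj ν + 1)) * h1
  set E := Er {n'} x * conj ν ^ 2 with hEdef
  set ω := w * conj ν with hωdef
  have hEn : ‖E‖ ≤ 21 * dl ^ 2 * r ^ 2 := by
    rw [hEdef, norm_mul, norm_pow, Complex.norm_conj, hν]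
    simpa using hE
  have hre : ω.re ^ 2 - ω.im ^ 2 = r ^ 2 + E.re := by
    have := congrArg Complex.re hω
    simp only [sq, mul_re, add_re, ofReal_re, ofReal_im] at this ⊢
    linarith
  have him : 2 * (ω.re * ω.im) = E.im := by
    have := congrArg Complex.im hω
    simp only [sq, mul_im, add_im, ofReal_re, ofReal_im] at this ⊢
    linarith
  have hdl : 21 * dl ^ 2 ≤ 1 / 2 := by unfold dl; norm_num
  have hEre : -(r ^ 2 / 2) ≤ E.re := by
    have h1 := (abs_le.1 ((abs_re_le_norm E).trans hEn)).1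
    have h3 : 21 * dl ^ 2 * r ^ 2 ≤ 1 / 2 * r ^ 2 := by gcongr
    linarith
  have hsq : r ^ 2 / 2 ≤ ω.re ^ 2 := by nlinarith [sq_nonneg ω.im]
  have hne0 : ω.re ≠ 0 := by
    intro h0
    rw [h0] at hsq
    nlinarith [sq_pos_of_pos hr0]
  refine ⟨hne, hne0, ?_⟩
  have hpos : 0 < |ω.re| := abs_pos.2 hne0
  have hd0 : 0 ≤ dd u := by unfold dd; positivity
  have h1 : 2 * (|ω.re| * |ω.im|) ≤ 210 * dl ^ 2 * r ^ 2 * dd u := by
    rw [← abs_mul, ← abs_two, ← abs_mul, him]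
    exact hEi
  have h3 : 210 * dl ^ 2 * r ^ 2 * dd u ≤ 210 * dl ^ 2 * (2 * |ω.re| ^ 2) * dd u := by
    rw [sq_abs]
    gcongr
    linarith
  have h4 : |ω.im| * |ω.re| ≤ (210 * dl ^ 2 * |ω.re| * dd u) * |ω.re| := by nlinarith
  exact le_of_mul_le_mul_right h4 hpos

lemma key (hP : PhS) (n m A B m' : Fin 21) (hn : n ∉ D1.ngl)
    (hB : ∀ i, ex m i + ex B i = 2 * ex n i)
    (hm' : ∀ i, ex m' i + 2 * ex m i = ex A i + 2 * ex n i)
    (h4 : ∀ u, Un u →
      dd u ≤ 6 * (|(ph u m * conj (ph u n)).im| + |(ph u A * conj (ph u n)).im|))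
    (h8 : ∀ (x : V) (i : Fin 3) (z : ℂ), x i = 0 → ex n i = 0 → ‖z‖ = 1 → ∀ u, Pol x u →
      ∃ u', Pol x u' ∧ (∀ j, j ≠ i → u' j = u j) ∧ ph u' A = z)
    (x : V) (w : ℂ) (hp : (x, w) ∈ MM (tp D1)) (hx : x ∈ VS D1 {n}) (s : ℝ)
    (hs : s = 1 ∨ s = -1) (hsw : 0 < s * (w * conj (xi D1 n x)).re) (p1 q1 p2 q2 : ℝ)
    (hp1 : 0 ≤ p1) (hq1 : 0 < q1) (hp2 : 0 ≤ p2) (hq2 : 0 < q2)
    (E2 : p1 * s * (xi D1 B x * conj (xi D1 n x)).im + q1 * (w * conj (xi D1 m x)).im = 0)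
    (E1 : p2 * s * (xi D1 A x * conj (xi D1 n x)).im = q2 * (w * conj (xi D1 m' x)).im) :
    False := by
  have hP' := hP
  obtain ⟨h1, h2, -, -, -, -, h7, -, -⟩ := hP'
  obtain ⟨u0, hu0⟩ := h1 x
  have hnx : xi D1 n x ≠ 0 := (near hP n hn x u0 w hp hx hu0).1
  have hnx' := (xi_ne_zero_iff n x).1 hnx
  have hmx : xi D1 m x ≠ 0 := by
    rw [xi_ne_zero_iff]
    intro i hi
    refine hnx' i ?_
    have := hB i
    omega
  obtain ⟨u, hu, hcase⟩ : ∃ u, Pol x u ∧ (xi D1 m' x ≠ 0 ∨ ph u A = ph u n) := by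
    by_cases h0 : xi D1 m' x ≠ 0
    · exact ⟨u0, hu0, Or.inl h0⟩
    rw [xi_ne_zero_iff] at h0
    push Not at h0
    obtain ⟨i, -, hi⟩ := h0
    have hni : ex n i = 0 := by
      by_contra hc
      exact hnx' i hc hi
    obtain ⟨u', hu', hj, hA⟩ := h8 x i (ph u0 n) hi hni (h2 x u0 n hu0).1 u0 hu0
    refine ⟨u', hu', Or.inr ?_⟩
    rw [hA]
    unfold ph
    refine Finset.prod_congr rfl fun j _ => ?_
    by_cases hji : j = i
    · rw [hji, hni, pow_zero, pow_zero]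
    · rw [hj j hji]
  obtain ⟨-, hre, him⟩ := near hP n hn x u w hp hx hu
  obtain ⟨hν, hξn⟩ := h2 x u n hu
  obtain ⟨hμ, hξm⟩ := h2 x u m hu
  obtain ⟨hA, hξA⟩ := h2 x u A hu
  obtain ⟨hBn, hξB⟩ := h2 x u B hu
  obtain ⟨hM, hξM⟩ := h2 x u m' hu
  have hD := h4 u hu.1
  have e2 := ph_two u m B n hB
  have e3 := ph_three u m' m A n hm'
  have hrn : 0 < ‖xi D1 n x‖ := norm_pos_iff.2 hnx
  have hrm : 0 < ‖xi D1 m x‖ := norm_pos_iff.2 hmx
  have hrA : 0 ≤ ‖xi D1 A x‖ := norm_nonneg _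
  have hrB : 0 ≤ ‖xi D1 B x‖ := norm_nonneg _
  have hcase' : 0 < ‖xi D1 m' x‖ ∨ ph u A = ph u n := hcase.imp norm_pos_iff.2 id
  have hfin : dd u = 0 → False := by
    intro h0
    rw [h0, mul_zero] at him
    exact hp.2 (h7 x u w n hu h0 (abs_nonpos_iff.1 him))
  rw [hξn] at hsw
  rw [hξn, hξB, hξm] at E2
  rw [hξn, hξA, hξM] at E1
  generalize ‖xi D1 n x‖ = rn at *
  generalize ‖xi D1 m x‖ = rm at *
  generalize ‖xi D1 A x‖ = rA at *
  generalize ‖xi D1 B x‖ = rB at *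
  generalize ‖xi D1 m' x‖ = rM at *
  generalize ph u n = ν at *
  generalize ph u m = μ at *
  generalize ph u A = a at *
  generalize ph u B = b at *
  generalize ph u m' = M at *
  have cν := unit_conj ν hν
  have cμ := unit_conj μ hμ
  have ca := unit_conj a hA
  have e3' : conj M * conj μ ^ 2 = conj a * conj ν ^ 2 := by
    have := congrArg conj e3
    simpa using this
  set α := ν * conj μ with hα
  set β := a * conj ν with hβ
  set ω := w * conj ν with hω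
  have hαn : ‖α‖ = 1 := by rw [hα, norm_mul, Complex.norm_conj, hν, hμ, one_mul]
  have hβn : ‖β‖ = 1 := by rw [hβ, norm_mul, Complex.norm_conj, hν, hA, one_mul]
  have f1 : (rB : ℂ) * b * conj ((rn : ℂ) * ν) = (rB * rn : ℝ) * α := by
    rw [map_mul, conj_ofReal, hα]
    push_cast
    linear_combination ((rB : ℂ) * rn * conj ν * conj μ) * e2 -
      ((rB : ℂ) * rn * b * conj ν) * cμ + ((rB : ℂ) * rn * ν * conj μ) * cν
  have f2 : w * conj ((rm : ℂ) * μ) = (rm : ℝ) * (ω * α) := by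
    rw [map_mul, conj_ofReal, hα, hω]
    linear_combination (-(rm : ℂ) * w * conj μ) * cν
  have f3 : (rA : ℂ) * a * conj ((rn : ℂ) * ν) = (rA * rn : ℝ) * β := by
    rw [map_mul, conj_ofReal, hβ]
    push_cast
    ring
  have f4 : w * conj ((rM : ℂ) * M) = (rM : ℝ) * (ω * conj α ^ 2 * conj β) := by
    rw [map_mul, conj_ofReal, hα, hβ, hω]
    simp only [map_mul, conj_conj]
    linear_combination ((rM : ℂ) * w * μ ^ 2) * e3' -
      ((rM : ℂ) * w * conj M * (μ * conj μ + 1)) * cμ -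
      ((rM : ℂ) * w * conj a * conj ν ^ 2 * μ ^ 2) * cν
  have f5 : w * conj ((rn : ℂ) * ν) = (rn : ℝ) * ω := by
    rw [map_mul, conj_ofReal, hω]
    ring
  have f6 : |(μ * conj ν).im| = |α.im| := by
    have : μ * conj ν = conj α := by rw [hα]; simp [mul_comm]
    rw [this, conj_im, abs_neg]
  rw [f5, re_ofReal_mul] at hsw
  rw [f1, f2, im_ofReal_mul, im_ofReal_mul] at E2
  rw [f3, f4, im_ofReal_mul, im_ofReal_mul] at E1
  rw [f6] at hD
  have hs2 : s * s = 1 := by rcases hs with h | h <;> rw [h] <;> norm_num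
  have hsa : |s| = 1 := by rcases hs with h | h <;> rw [h] <;> norm_num
  have hR : 0 < s * ω.re := by
    have : 0 < rn * (s * ω.re) := by linarith
    exact (mul_pos_iff_of_pos_left hrn).1 this
  have hRa : |ω.re| = s * ω.re := by
    rw [← abs_of_pos hR, abs_mul, hsa, one_mul]
  have hd0 : 0 ≤ dd u := by unfold dd; positivity
  refine hfin (core_real (s * ω.re) (s * ω.im) α.re α.im β.re β.im (p1 * (rB * rn)) (q1 * rm)
    (p2 * (rA * rn)) (q2 * rM) (dd u) (210 * dl ^ 2) hR (by positivity)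
    (by unfold dl; norm_num) hd0 ?_ (unit_sq α hαn) (unit_sq β hβn) (by positivity)
    (by positivity) (by positivity) ?_ ?_ hD)
  · rw [abs_mul, hsa, one_mul, ← hRa]
    exact him
  · simp only [mul_im] at E2
    linear_combination s * E2 - (p1 * (rB * rn) * α.im) * hs2
  · rcases hcase' with h | h
    · refine Or.inr ⟨by positivity, ?_⟩
      simp only [sq, mul_im, mul_re, conj_re, conj_im] at E1
      linear_combination s * E1 - (p2 * (rA * rn) * β.im) * hs2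
    · left
      rw [hβ, h, cν, one_im]

lemma slit (z z' : ℂ) (s : ℝ) (hs : s = 1 ∨ s = -1) (hz : z ≠ 0) (hz' : z' ≠ 0)
    (h : ∀ c : ℝ, 0 < c → s * z'.im = c * z.re → s * z'.re = -(c * z.im) → False) :
    z' / ((I * s) ^ 3 * z) ∈ slitPlane := by
  by_contra hc
  rw [mem_slitPlane_iff] at hc
  push Not at hc
  have hs2 : (s : ℂ) * s = 1 := by rcases hs with h | h <;> rw [h] <;> norm_num
  have hs0 : (s : ℂ) ≠ 0 := fun h0 => by rw [h0] at hs2; simp at hs2
  have hden : (I * s) ^ 3 * z ≠ 0 := mul_ne_zero (pow_ne_zero _ (mul_ne_zero I_ne_zero hs0)) hz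
  set q := z' / ((I * s) ^ 3 * z) with hq
  have hq0 : q ≠ 0 := div_ne_zero hz' hden
  have hqr : q = (q.re : ℂ) := by
    apply Complex.ext <;> simp [hc.2]
  have hlt : q.re < 0 := by
    refine lt_of_le_of_ne hc.1 fun h0 => hq0 ?_
    rw [hqr, h0, ofReal_zero]
  have h1 : z' = q * ((I * s) ^ 3 * z) := by rw [hq, div_mul_cancel₀ _ hden]
  have h2 : (s : ℂ) * z' = ((-q.re : ℝ) : ℂ) * (I * z) := by
    rw [h1]
    nth_rw 1 [hqr]
    push_cast
    linear_combination ((q.re : ℂ) * z * I ^ 3 * (s * s + 1)) * hs2 +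
      ((q.re : ℂ) * z * I) * I_sq
  have h3 := congrArg Complex.re h2
  have h4 := congrArg Complex.im h2
  rw [re_ofReal_mul, re_ofReal_mul] at h3
  rw [im_ofReal_mul, im_ofReal_mul] at h4
  refine h (-q.re) (by linarith) ?_ ?_
  · rw [h4]; simp
  · rw [h3]; simp

lemma pre (hB : BasicS) (hP : PhS) (t t' : Fin 25) (n : Fin 21) (hn : n ∉ D1.ngl)
    (hint : D1.vs t ∩ D1.vs t' = {n}) (p : V × ℂ) (hp : p ∈ DD t ∩ DD t') :
    p.1 ∈ VS D1 {n} ∧ (p.2 * conj (XI n p)).re ≠ 0 ∧ ∃ s : ℝ, (s = 1 ∨ s = -1) ∧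
      0 < s * (p.2 * conj (XI n p)).re ∧ vv n p = I * s := by
  have hx : p.1 ∈ VS D1 {n} := by
    rw [← hint, ← (hB D1).2.2.2.2.2.1]
    exact ⟨hp.1.2.1, hp.2.2.1⟩
  obtain ⟨u, hu⟩ := hP.1 p.1
  obtain ⟨h0, hre, -⟩ := near hP n hn p.1 u p.2 hp.1.1 hx hu
  have hne : (p.2 * conj (XI n p)).re ≠ 0 := by
    unfold XI
    rw [(hP.2.1 p.1 u n hu).2, map_mul, conj_ofReal, mul_left_comm, re_ofReal_mul]
    exact mul_ne_zero (norm_ne_zero_iff.2 h0) hre
  refine ⟨hx, hne, ?_⟩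
  unfold vv
  rcases lt_or_gt_of_ne hne with h | h
  · refine ⟨-1, Or.inr rfl, by linarith, ?_⟩
    rw [abs_of_neg h, div_neg, div_self hne]
  · refine ⟨1, Or.inl rfl, by linarith, ?_⟩
    rw [abs_of_pos h, div_self hne]

lemma ff_re (t : Fin 25) (p : V × ℂ) : (ff t p).re = (XI (ta t) p * conj (XI (tb t) p)).im := by
  simp [ff, fa]

lemma ff_im (t : Fin 25) (h : ¬ St (tm t)) (p : V × ℂ) :
    (ff t p).im = (p.2 * conj (XI (tm t) p)).im := by
  simp [ff, fb, h]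

lemma im_swap (a b : ℂ) : (a * conj b).im = -(b * conj a).im := by
  simp only [mul_im, conj_re, conj_im]
  ring

/-- first triangle `(m; A, n)`, last triangle `(m'; B, n)` -/
lemma type1 (hB : BasicS) (hP : PhS) (t t' : Fin 25) (n : Fin 21) (hn : n ∉ D1.ngl)
    (hb : tb t = n) (hb' : tb t' = n) (hS : ¬ St (tm t)) (hS' : ¬ St (tm t'))
    (hint : D1.vs t ∩ D1.vs t' = {n})
    (h2 : ∀ i, ex (tm t) i + ex (ta t') i = 2 * ex n i)
    (h3 : ∀ i, ex (tm t') i + 2 * ex (tm t) i = ex (ta t) i + 2 * ex n i)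
    (p : V × ℂ) (hp : p ∈ DD t ∩ DD t') :
    (p.2 * conj (XI n p)).re ≠ 0 ∧ ff t' p / (vv n p ^ 3 * ff t p) ∈ slitPlane := by
  obtain ⟨hx, hne, s, hs, hsw, hv⟩ := pre hB hP t t' n hn hint p hp
  refine ⟨hne, ?_⟩
  rw [hv]
  refine slit _ _ s hs hp.1.2.2 hp.2.2.2 fun c hc e1 e2 => ?_
  rw [ff_im t' hS', ff_re t, hb] at e1
  rw [ff_re t', ff_im t hS, hb'] at e2
  have hs2 : s * s = 1 := by rcases hs with h | h <;> rw [h] <;> norm_num
  refine key hP n (tm t) (ta t) (ta t') (tm t') hn h2 h3 ?_ ?_ p.1 p.2 hp.1.1 hx s hs hsw 1 c c 1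
    zero_le_one hc hc.le one_pos ?_ ?_
  · intro u hu
    have := hP.2.2.2.1 u t 0 1 2 hu (by decide) (by decide) (by decide)
    rw [← hb]
    exact this
  · intro x i z hi hni hz u hu
    refine hP.2.2.2.2.2.2.2.1 x t i 1 z hi ?_ hz u hu
    intro k hk
    have h0 := h2 i
    fin_cases k
    · change ex (tm t) i = 0
      omega
    · exact absurd rfl hk
    · change ex (tb t) i = 0
      rw [hb, hni]
  · unfold XI at e2
    linarith
  · unfold XI at e1
    linear_combination (-s) * e1 + (p.2 * conj (xi D1 (tm t') p.1)).im * hs2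

/-- first triangle `(m'; n, B)`, last triangle `(m; n, A)` -/
lemma type2 (hB : BasicS) (hP : PhS) (t t' : Fin 25) (n : Fin 21) (hn : n ∉ D1.ngl)
    (hb : ta t = n) (hb' : ta t' = n) (hS : ¬ St (tm t)) (hS' : ¬ St (tm t'))
    (hint : D1.vs t ∩ D1.vs t' = {n})
    (h2 : ∀ i, ex (tm t') i + ex (tb t) i = 2 * ex n i)
    (h3 : ∀ i, ex (tm t) i + 2 * ex (tm t') i = ex (tb t') i + 2 * ex n i)
    (p : V × ℂ) (hp : p ∈ DD t ∩ DD t') :
    (p.2 * conj (XI n p)).re ≠ 0 ∧ ff t' p / (vv n p ^ 3 * ff t p) ∈ slitPlane := by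
  obtain ⟨hx, hne, s, hs, hsw, hv⟩ := pre hB hP t t' n hn hint p hp
  refine ⟨hne, ?_⟩
  rw [hv]
  refine slit _ _ s hs hp.1.2.2 hp.2.2.2 fun c hc e1 e2 => ?_
  rw [ff_im t' hS', ff_re t, hb, im_swap (XI n p)] at e1
  rw [ff_re t', ff_im t hS, hb', im_swap (XI n p)] at e2
  have hs2 : s * s = 1 := by rcases hs with h | h <;> rw [h] <;> norm_num
  refine key hP n (tm t') (tb t') (tb t) (tm t) hn h2 h3 ?_ ?_ p.1 p.2 hp.1.1 hx s hs hsw c 1 1 c
    hc.le one_pos zero_le_one hc ?_ ?_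
  · intro u hu
    have := hP.2.2.2.1 u t' 0 2 1 hu (by decide) (by decide) (by decide)
    rw [← hb']
    exact this
  · intro x i z hi hni hz u hu
    refine hP.2.2.2.2.2.2.2.1 x t' i 2 z hi ?_ hz u hu
    intro k hk
    have h0 := h2 i
    fin_cases k
    · change ex (tm t') i = 0
      omega
    · change ex (ta t') i = 0
      rw [hb', hni]
    · exact absurd rfl hk
  · unfold XI at e1
    linear_combination s * e1 - (p.2 * conj (xi D1 (tm t') p.1)).im * hs2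
  · unfold XI at e2
    linarith

lemma bd_of_kd (t t' : Fin 25) (h : kd t t' = 5) : Bd t t' := by
  unfold kd at h
  split_ifs at h with h1 h2 h3 h4 h5 h6 <;> first | assumption | omega

end BDp

open BDp in
theorem bdS : BDS := by
  intro hB hP t t' hk p hp
  rcases bd_of_kd t t' hk with ⟨rfl, rfl⟩ | ⟨rfl, rfl⟩ | ⟨rfl, rfl⟩ | ⟨rfl, rfl⟩
  · exact type1 hB hP 10 6 (bn 10) (by decide) (by decide) (by decide) (by decide) (by decide)
      (by decide) (by decide) (by decide) p hp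
  · exact type2 hB hP 15 13 (bn 15) (by decide) (by decide) (by decide) (by decide) (by decide)
      (by decide) (by decide) (by decide) p hp
  · exact type1 hB hP 5 1 (bn 5) (by decide) (by decide) (by decide) (by decide) (by decide)
      (by decide) (by decide) (by decide) p hp
  · exact type2 hB hP 1 3 (bn 1) (by decide) (by decide) (by decide) (by decide) (by decide)
      (by decide) (by decide) (by decide) p hp

end Pool.Agent.MP_6600f1_ag.ce
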