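import Pool.Agent.MP_6600f1_ag.Defs

/-! Unnested real plane curves: the real locus is the boundary of disjoint closed discs. -/

namespace Pool.Agent.MP_6600f1_ag

open MvPolynomial Metric

/-- There are `r` pairwise disjoint embedded closed discs in the real projective plane, given by
continuous lifts `D i` to `ℝ³ \ 0`, whose boundary circles form the real locus of `F`. -/
def Unnested (F : Form) (r : ℕ) : Prop :=
  ∃ D : Fin r → ℂ → Fin 3 → ℝ,
    (∀ i, ContinuousOn (D i) (closedBall 0 1)) ∧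
    (∀ i, ∀ a ∈ closedBall (0 : ℂ) 1, D i a ≠ 0) ∧
    (∀ i j, ∀ a ∈ closedBall (0 : ℂ) 1, ∀ b ∈ closedBall (0 : ℂ) 1, ∀ l : ℝ,
      D i a = l • D j b → i = j ∧ a = b) ∧
    ∀ v : Fin 3 → ℝ, v ≠ 0 →
      (eval v F = 0 ↔ ∃ i, ∃ a ∈ sphere (0 : ℂ) 1, ∃ l : ℝ, v = l • D i a)

end Pool.Agent.MP_6600f1_ag
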