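import Mathlib
import Pool.Agent.MP_6600f1_ag.ce.Defs

/-! Two unnested curves of degree 10 with 28 ovals that are not rigidly isotopic:
definitions and statements of the steps. -/

namespace Pool.Agent.MP_6600f1_ag.ce

open MvPolynomial Metric Set Complex
open scoped ComplexConjugate Real

noncomputable section

abbrev V : Type := Fin 3 → ℂ

/-- points of the cone over the double plane -/
def YY (F : Form) : Set (V × ℂ) := {p | p.1 ≠ 0 ∧ p.2 ^ 2 = aeval p.1 F}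

def RealPt (p : V × ℂ) : Prop :=
  ∃ l : ℂ, l ≠ 0 ∧ star (l • p.1) = l • p.1 ∧ (l ^ 5 * p.2).im = 0

def MM (F : Form) : Set (V × ℂ) := {p | p ∈ YY F ∧ ¬ RealPt p}

/-- near some real point the non-real points can be pushed into `w = 0` -/
def NN (F : Form) : Prop :=
  ∃ p ∈ YY F, RealPt p ∧ ∃ U : Set (V × ℂ), IsOpen U ∧ p ∈ U ∧
    ∃ g : C(↥(U ∩ MM F), ↥(MM F)),
      (ContinuousMap.inclusion (inter_subset_right : U ∩ MM F ⊆ MM F)).Homotopic g ∧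
        ∀ q, (g q).1.2 = 0

/-! ### T-polynomials -/

def e0 (n : Fin 21) : ℕ :=
  [0, 0, 0, 0, 0, 0, 1, 1, 1, 1, 1, 2, 2, 2, 2, 3, 3, 3, 4, 4, 5].getD n 0

def e1 (n : Fin 21) : ℕ :=
  [0, 1, 2, 3, 4, 5, 0, 1, 2, 3, 4, 0, 1, 2, 3, 0, 1, 2, 0, 1, 0].getD n 0

def ex (n : Fin 21) (i : Fin 3) : ℕ :=
  if i = 0 then e0 n else if i = 1 then e1 n else 5 - e0 n - e1 n

/-- heights, negative vertices, triangles -/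
structure TD where
  nul : List ℕ
  ngl : List (Fin 21)
  trl : List (Fin 21 × Fin 21 × Fin 21)

def TD.nu (D : TD) (n : Fin 21) : ℕ := D.nul.getD n 0

def TD.tr (D : TD) (t : Fin 25) (k : Fin 3) : Fin 21 :=
  if k = 0 then (D.trl.getD t (0, 0, 0)).1
  else if k = 1 then (D.trl.getD t (0, 0, 0)).2.1 else (D.trl.getD t (0, 0, 0)).2.2

def D1 : TD where
  nul := [22, 16, 11, 9, 12, 20, 16, 7, 0, 4, 10, 11, 0, 0, 1, 9, 4, 1, 12, 10, 20]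
  ngl := [1, 3, 6, 7, 9, 10, 13, 15, 16, 19]
  trl := [(13, 14, 8), (13, 17, 14), (13, 12, 17), (19, 17, 18), (1, 0, 8), (10, 4, 14),
    (10, 5, 4), (13, 8, 12), (1, 8, 2), (3, 2, 8), (3, 8, 4), (6, 12, 0), (6, 11, 12),
    (15, 18, 12), (15, 12, 11), (19, 18, 20), (7, 12, 8), (7, 8, 0), (7, 0, 12), (9, 8, 14),
    (9, 14, 4), (9, 4, 8), (16, 18, 17), (16, 17, 12), (16, 12, 18)]

def D2 : TD where
  nul := [0, 0, 2, 6, 22, 39, 0, 5, 17, 32, 59, 14, 30, 54, 80, 51, 78, 106, 105, 134, 163]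
  ngl := [2, 4, 7, 8, 10, 12, 13, 16, 19]
  trl := [(0, 6, 1), (2, 1, 6), (2, 6, 3), (4, 3, 9), (7, 3, 6), (7, 11, 3), (8, 9, 3),
    (8, 3, 11), (4, 9, 5), (10, 5, 9), (7, 6, 11), (8, 11, 9), (10, 9, 14), (12, 9, 11),
    (12, 15, 9), (13, 14, 9), (13, 9, 15), (12, 11, 15), (13, 15, 14), (16, 14, 15),
    (16, 17, 14), (16, 15, 18), (16, 18, 17), (19, 17, 18), (19, 18, 20)]

def dl : ℝ := 1 / 10 ^ 8

def sg (D : TD) (n : Fin 21) : ℝ := if n ∈ D.ngl then -1 else 1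

def xi (D : TD) (n : Fin 21) (x : V) : ℂ := (dl : ℂ) ^ (4 * D.nu n) * ∏ i, x i ^ ex n i

def tp (D : TD) : Form :=
  ∑ n, C (sg D n * dl ^ (8 * D.nu n)) * ∏ i, X i ^ (2 * ex n i)

/-- the vertex `n` is light at `x` -/
def Lt (D : TD) (n : Fin 21) (x : V) : Prop := ∃ n', ‖xi D n x‖ < dl * ‖xi D n' x‖

/-- all vertices outside `S` are light -/
def VS (D : TD) (S : Finset (Fin 21)) : Set V := {x | ∀ n, n ∉ S → Lt D n x}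

def TD.vs (D : TD) (t : Fin 25) : Finset (Fin 21) := {D.tr t 0, D.tr t 1, D.tr t 2}

def Tor (x : V) : Prop := ∀ i, x i ≠ 0

def Good (D : TD) (t : Fin 25) (x : V) : Prop :=
  Tor x ∨ ∃ i k k', x i = 0 ∧ k ≠ k' ∧ ex (D.tr t k) i = 0 ∧ ex (D.tr t k') i = 0

def cx (y : Fin 3 → ℝ) : V := fun i => (y i : ℂ)

def BasicS : Prop := ∀ D : TD, (tp D).IsHomogeneous 10 ∧
  (∀ x : V, aeval x (tp D) = ∑ n, (sg D n : ℂ) * xi D n x ^ 2) ∧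
  (∀ y : Fin 3 → ℝ, ((eval y (tp D) : ℝ) : ℂ) = aeval (cx y) (tp D)) ∧
  (∀ n, Continuous (xi D n)) ∧ (∀ S, IsOpen (VS D S)) ∧
  (∀ S S', VS D S ∩ VS D S' = VS D (S ∩ S')) ∧
  ∀ x : V, x ≠ 0 → ∃ n, xi D n x ≠ 0 ∧ (∀ n', ‖xi D n' x‖ ≤ ‖xi D n x‖) ∧ ¬ Lt D n x

def CovS (D : TD) : Prop := ∀ x : V, x ≠ 0 → ∃ t, x ∈ VS D (D.vs t) ∧ Good D t x

def NsS (D : TD) : Prop := BasicS → CovS D → Nonsing (tp D)

/-! ### the ovals -/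

def StarS : Prop := ∀ ψ : ℂ → ℝ, Continuous ψ →
  (∀ u ∈ sphere (0 : ℂ) 1, ∃ r : ℝ, 0 < r ∧ (∀ t : ℝ, 0 ≤ t → t < r → ψ (t * u) < 0) ∧
    ψ (r * u) = 0 ∧ ∀ t : ℝ, r < t → 0 < ψ (t * u)) →
  (∃ ρ : ℂ → ℝ, ContinuousOn ρ (sphere 0 1) ∧ ∀ u ∈ sphere (0 : ℂ) 1, 0 < ρ u ∧
    ψ (ρ u * u) = 0 ∧ ∀ t : ℝ, 0 ≤ t → (ψ (t * u) < 0 ↔ t < ρ u)) ∧
  ∃ Φ : ℂ → ℂ, ContinuousOn Φ (closedBall 0 1) ∧ InjOn Φ (closedBall 0 1) ∧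
    Φ '' closedBall 0 1 = {z | ψ z ≤ 0} ∧ Φ '' sphere 0 1 = {z | ψ z = 0}

/-- the part of `F ≤ 0` where `m` is heavy -/
def KK (D : TD) (m : Fin 21) : Set (Fin 3 → ℝ) :=
  {y | y ≠ 0 ∧ eval y (tp D) ≤ 0 ∧ ¬ Lt D m (cx y)}

/-- the sum of the positive terms -/
def PP (D : TD) (x : V) : ℝ := ∑ n with n ∉ D.ngl, ‖xi D n x‖ ^ 2

def DomS (D : TD) : Prop :=
  (∀ m ∈ D.ngl, ∀ x : V, xi D m x ≠ 0 → PP D x ≤ 2 * ‖xi D m x‖ ^ 2 →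
    ¬ Lt D m x ∧ ∀ m' ∈ D.ngl, m' ≠ m → ‖xi D m' x‖ ≤ 2 * dl * ‖xi D m x‖) ∧
  (∀ m ∈ D.ngl, ∀ y ∈ KK D m, xi D m (cx y) ≠ 0 ∧ PP D (cx y) ≤ 2 * ‖xi D m (cx y)‖ ^ 2) ∧
  (∀ y : Fin 3 → ℝ, y ≠ 0 → eval y (tp D) ≤ 0 → ∃ m ∈ D.ngl, y ∈ KK D m) ∧
  ∀ m ∈ D.ngl, ∀ m' ∈ D.ngl, ∀ y ∈ KK D m, y ∈ KK D m' → m = m'

def DomS' (D : TD) : Prop := BasicS → CovS D → DomS D

/-- one disc for the negative vertex `m` -/
def Ov (D : TD) (m : Fin 21) : Prop :=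
  ∃ Δ : ℂ → Fin 3 → ℝ, ContinuousOn Δ (closedBall 0 1) ∧
    (∀ a ∈ closedBall (0 : ℂ) 1, Δ a ∈ KK D m ∧ ∀ i, ex m i ≠ 0 → 0 < Δ a i) ∧
    (∀ a ∈ closedBall (0 : ℂ) 1, ∀ b ∈ closedBall (0 : ℂ) 1, ∀ l : ℝ, Δ a = l • Δ b → a = b) ∧
    (∀ a ∈ sphere (0 : ℂ) 1, eval (Δ a) (tp D) = 0) ∧
    ∀ y ∈ KK D m, (∀ i, ex m i ≠ 0 → 0 < y i) → eval y (tp D) = 0 →
      ∃ a ∈ sphere (0 : ℂ) 1, ∃ l : ℝ, y = l • Δ a

def OvIS (D : TD) : Prop :=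
  BasicS → StarS → DomS D → ∀ m ∈ D.ngl, (∀ i, ex m i ≠ 0) → Ov D m

def OvBS (D : TD) : Prop :=
  BasicS → StarS → DomS D → ∀ m ∈ D.ngl, (∃ i, ex m i = 0) → Ov D m

def UnnS (D : TD) : Prop := BasicS → DomS D → (∀ m ∈ D.ngl, Ov D m) → Unnested (tp D) 28

def QS : Prop := BasicS → DomS D1 → ∀ γ : ℝ → Fin 3 → ℝ, Continuous γ →
  (∀ t, γ t ≠ 0 ∧ eval (γ t) (tp D1) ≤ 0) → γ 1 ≠ -γ 0

def Q2S : Prop := BasicS → ∃ γ : ℝ → Fin 3 → ℝ, Continuous γ ∧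
  (∀ t, γ t ≠ 0 ∧ 0 < eval (γ t) (tp D2)) ∧ γ 1 = -γ 0

def N2S : Prop := BasicS → StarS → NN (tp D2)

/-! ### transport -/

def TNS : Prop := (∀ (F G : Form) (φ : V ≃ₜ V), (∀ (l : ℂ) x, φ (l • x) = l • φ x) →
    (∀ x, φ (star x) = star (φ x)) → (∀ x, aeval (φ x) G = aeval x F) → NN G → NN F) ∧
  ∀ (G : Form) (c : ℝ), 0 < c → NN G → NN (c • G)

/-! ### gluing of cube roots -/

def GlS : Prop := ∀ (M Z : Set (V × ℂ)) (D : Fin 25 → Set (V × ℂ)) (f : Fin 25 → V × ℂ → ℂ)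
  (G : Fin 25 → Fin 25 → V × ℂ → ℂ),
  (∀ i, ∃ O, IsOpen O ∧ D i = M ∩ O) → (∀ p ∈ M, ∃ i, p ∈ D i) →
  (∀ i, Continuous (f i)) → (∀ i, ∀ p ∈ D i, f i p ≠ 0) →
  (∀ i j, ContinuousOn (G i j) (D i ∩ D j)) →
  (∀ i j, ∀ p ∈ D i ∩ D j, G i j p ^ 3 * f i p = f j p) →
  (∀ i j k, ∀ p ∈ D i ∩ D j ∩ D k, G i j p * G j k p = G i k p) →
  (∀ i, ∀ p ∈ Z, (f i p).im = 0) → (∀ i j, ∀ p ∈ D i ∩ D j, p ∈ Z → (G i j p).im = 0) →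
  ∀ (A : Type) [TopologicalSpace A] (g0 g1 : C(A, ↥M)), g0.Homotopic g1 →
    (∀ a, (g1 a).1 ∈ Z) → ∀ i, ∃ ζ : A → ℂ, ContinuousOn ζ {a | (g0 a).1 ∈ D i} ∧
      ∀ a, (g0 a).1 ∈ D i → ζ a ^ 3 = f i (g0 a).1

/-! ### phases -/

def Un (u : V) : Prop := ∀ i, ‖u i‖ = 1

def ph (u : V) (n : Fin 21) : ℂ := ∏ i, u i ^ ex n i

def dd (u : V) : ℝ := |(u 0 * conj (u 2)).im| + |(u 1 * conj (u 2)).im|

/-- `u` is a vector of phases of `x` -/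
def Pol (x u : V) : Prop := Un u ∧ ∀ i, x i = (‖x i‖ : ℂ) * u i

/-- the terms outside `S` -/
def Er (S : Finset (Fin 21)) (x : V) : ℂ := ∑ n with n ∉ S, (sg D1 n : ℂ) * xi D1 n x ^ 2

def PhS : Prop :=
  (∀ x : V, ∃ u, Pol x u) ∧
  (∀ x u n, Pol x u → ‖ph u n‖ = 1 ∧ xi D1 n x = (‖xi D1 n x‖ : ℂ) * ph u n) ∧
  (∀ u n n', Un u → |(ph u n * conj (ph u n')).im| ≤ 5 * dd u) ∧
  (∀ u t k k' k'', Un u → k ≠ k' → k ≠ k'' → k' ≠ k'' →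
    dd u ≤ 6 * (|(ph u (D1.tr t k) * conj (ph u (D1.tr t k''))).im| +
      |(ph u (D1.tr t k') * conj (ph u (D1.tr t k''))).im|)) ∧
  (∀ x u S n0, x ≠ 0 → Pol x u → x ∈ VS D1 S → ∃ n ∈ S, xi D1 n x ≠ 0 ∧
    (∀ n', ‖xi D1 n' x‖ ≤ ‖xi D1 n x‖) ∧ ‖Er S x‖ ≤ 21 * dl ^ 2 * ‖xi D1 n x‖ ^ 2 ∧
    |(Er S x * conj (ph u n0) ^ 2).im| ≤ 210 * dl ^ 2 * ‖xi D1 n x‖ ^ 2 * dd u) ∧
  (∀ x S, aeval x (tp D1) = ∑ n ∈ S, (sg D1 n : ℂ) * xi D1 n x ^ 2 + Er S x) ∧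
  (∀ x u w n, Pol x u → dd u = 0 → (w * conj (ph u n)).im = 0 → RealPt (x, w)) ∧
  (∀ x t i k (z : ℂ), x i = 0 → (∀ k', k' ≠ k → ex (D1.tr t k') i = 0) → ‖z‖ = 1 →
    ∀ u, Pol x u → ∃ u', Pol x u' ∧ (∀ j, j ≠ i → u' j = u j) ∧ ph u' (D1.tr t k) = z) ∧
  ∀ (z : ℂ) (j : ℤ), ‖z‖ = 1 → |(z ^ j).im| ≤ |(j : ℝ)| * |z.im|

/-! ### the chart functions and links of the first curve -/

def tm (t : Fin 25) : Fin 21 := D1.tr t 0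
def ta (t : Fin 25) : Fin 21 := D1.tr t 1
def tb (t : Fin 25) : Fin 21 := D1.tr t 2

/-- star centres -/
def St (n : Fin 21) : Prop := n = 7 ∨ n = 9 ∨ n = 16

instance : DecidablePred St := fun n => by unfold St; infer_instance

def XI (n : Fin 21) (p : V × ℂ) : ℂ := xi D1 n p.1

def fa (t : Fin 25) (p : V × ℂ) : ℝ := (XI (ta t) p * conj (XI (tb t) p)).im

def fb (t : Fin 25) (p : V × ℂ) : ℝ :=
  if St (tm t) then (p.2 * conj (XI (tm t) p) * XI (ta t) p * conj (XI (tb t) p)).im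
  else (p.2 * conj (XI (tm t) p)).im

def ff (t : Fin 25) (p : V × ℂ) : ℂ := fa t p + fb t p * I

def DD (t : Fin 25) : Set (V × ℂ) := {p | p ∈ MM (tp D1) ∧ p.1 ∈ VS D1 (D1.vs t) ∧ ff t p ≠ 0}

def XX (n : Fin 21) : Set (V × ℂ) := {p | p ∈ MM (tp D1) ∧ p.1 ∈ VS D1 {n} ∧ Tor p.1}

def cr (z : ℂ) : ℂ := exp (log z / 3)

def pz (z : ℂ) : ℂ := z / (‖z‖ : ℂ)

def WW (t : Fin 25) (p : V × ℂ) : ℂ := p.2 / XI (tm t) p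

def eta (t : Fin 25) (p : V × ℂ) : ℂ := pz (XI (tb t) p) / pz (XI (tm t) p)

def ppi (t : Fin 25) (p : V × ℂ) : ℂ := pz (XI (ta t) p) / pz (XI (tb t) p)

def Phi (t : Fin 25) (j : ℕ) (p : V × ℂ) : ℂ :=
  (ppi t p * eta t p ^ j).im + (WW t p * (ppi t p * eta t p ^ j)).im * I

def gg (t : Fin 25) (p : V × ℂ) : ℂ :=
  -I * (conj (eta t p) * (WW t p + I) + conj (conj (eta t p) * (WW t p - I)))

def GS (t t' : Fin 25) (p : V × ℂ) : ℂ :=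
  gg t p * cr (Phi t 0 p / ff t p) * cr (Phi t 1 p / (gg t p * Phi t 0 p)) *
    cr (Phi t 2 p / (gg t p * Phi t 1 p)) * cr (Phi t 3 p / (gg t p * Phi t 2 p)) *
    cr (ff t' p / Phi t 3 p)

def vv (n : Fin 21) (p : V × ℂ) : ℂ :=
  I * (((p.2 * conj (XI n p)).re / |(p.2 * conj (XI n p)).re| : ℝ) : ℂ)

/-- the common vertex of a boundary pair -/
def bn (t : Fin 25) : Fin 21 := if t = 10 then 4 else if t = 15 then 18 else if t = 5 then 14 else 17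

def GB (t t' : Fin 25) (p : V × ℂ) : ℂ :=
  vv (bn t) p * cr (ff t' p / (vv (bn t) p ^ 3 * ff t p))

def Bd (t t' : Fin 25) : Prop :=
  (t = 10 ∧ t' = 6) ∨ (t = 15 ∧ t' = 13) ∨ (t = 5 ∧ t' = 1) ∨ (t = 1 ∧ t' = 3)

instance (t t' : Fin 25) : Decidable (Bd t t') := by unfold Bd; infer_instance

/-- kind of an ordered pair of triangles -/
def kd (t t' : Fin 25) : ℕ :=
  if tm t = tm t' ∧ ¬ St (tm t) ∧ (tb t = ta t' ∨ ta t = tb t') then 1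
  else if ta t = tb t' ∧ tb t = ta t' then 2
  else if tm t = tm t' ∧ St (tm t) ∧ tb t = ta t' then 3
  else if tm t = tm t' ∧ St (tm t) ∧ ta t = tb t' then 4
  else if Bd t t' then 5 else if Bd t' t then 6 else 0

def EE (t t' : Fin 25) (p : V × ℂ) : ℂ :=
  if kd t t' = 1 then cr (ff t' p / ff t p)
  else if kd t t' = 2 then -cr (-(ff t' p / ff t p))
  else if kd t t' = 3 then GS t t' p
  else if kd t t' = 4 then (GS t' t p)⁻¹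
  else if kd t t' = 5 then GB t t' p else (GB t' t p)⁻¹

def NV : Prop := ∀ t p, p ∈ MM (tp D1) → p.1 ∈ VS D1 (D1.vs t) → Good D1 t p.1 → ff t p ≠ 0

def PN : Prop := ∀ t t', kd t t' = 1 → ∀ p ∈ DD t ∩ DD t', ff t' p / ff t p ∈ slitPlane

def PPk : Prop := ∀ t t', kd t t' = 2 → ∀ p ∈ DD t ∩ DD t', -(ff t' p / ff t p) ∈ slitPlane

def SS : Prop := ∀ t t', kd t t' = 3 → ∀ p ∈ DD t ∩ DD t', Tor p.1 ∧
  Phi t 0 p / ff t p ∈ slitPlane ∧ (∀ j < 3, Phi t (j + 1) p / (gg t p * Phi t j p) ∈ slitPlane) ∧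
  ff t' p / Phi t 3 p ∈ slitPlane

def BD : Prop := ∀ t t', kd t t' = 5 → ∀ p ∈ DD t ∩ DD t',
  (p.2 * conj (XI (bn t) p)).re ≠ 0 ∧ ff t' p / (vv (bn t) p ^ 3 * ff t p) ∈ slitPlane

def NVS : Prop := BasicS → PhS → NV
def PNS : Prop := BasicS → PhS → PN
def PPS : Prop := BasicS → PhS → PPk
def SSS : Prop := BasicS → PhS → SS
def BDS : Prop := BasicS → PhS → BD

def Link : Prop := (∀ t, Continuous (ff t)) ∧ ∀ t t', kd t t' ≠ 0 →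
  ContinuousOn (EE t t') (DD t ∩ DD t') ∧ ∀ p ∈ DD t ∩ DD t',
    EE t t' p ^ 3 * ff t p = ff t' p ∧ EE t t' p * EE t' t p = 1 ∧ (p.2 = 0 → (EE t t' p).im = 0)

def LinkS : Prop := BasicS → PN → PPk → SS → BD → Link

/-- the reflection in the coordinate `i` -/
def rf (i : Fin 3) (p : V × ℂ) : V × ℂ := (Function.update p.1 i (-p.1 i), p.2)

def Sym : Prop := (∀ i t p, p ∈ DD t → rf i p ∈ DD t) ∧
  ∀ i t t', kd t t' ≠ 0 → (kd t t' = 5 → Even (ex (bn t) i)) → (kd t t' = 6 → Even (ex (bn t') i)) →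
    ∀ p ∈ DD t ∩ DD t', EE t t' (rf i p) = conj (EE t t' p) ∨ EE t t' (rf i p) = -conj (EE t t' p)

def SymS : Prop := BasicS → PN → PPk → SS → BD → Sym

def EqPh (p : V × ℂ) : Prop := ∀ i, ∃ r : ℝ, 0 < r ∧ p.1 i = r * p.1 2

def Pos : Prop := ∀ t t', tm t = tm t' → kd t t' ≠ 0 → ∀ p ∈ XX (tm t), EqPh p →
  0 < (EE t t' p).re ∧ (EE t t' p).im = 0

def PosS : Prop := BasicS → PhS → Pos

def Con : Prop :=
  (∀ n, n ∉ D1.ngl → ∀ i : Fin 3, i ≠ 2 → Even (ex n i) → ∀ h : V × ℂ → ℂ,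
    ContinuousOn h (XX n) → (∀ p ∈ XX n, h p ^ 3 = 1) →
      ∀ p ∈ XX n, rf i p ∈ XX n ∧ h (rf i p) = h p) ∧
  ∀ n ∈ D1.ngl, ∀ h : V × ℂ → ℂ, ContinuousOn h (XX n) → (∀ p ∈ XX n, h p ^ 3 = 1) →
    ∀ p ∈ XX n, ∃ q ∈ XX n, EqPh q ∧ h q = h p

def ConS : Prop := BasicS → PhS → Con

def Coc : Prop := ∃ G : Fin 25 → Fin 25 → V × ℂ → ℂ,
  (∀ i j, ContinuousOn (G i j) (DD i ∩ DD j)) ∧
  (∀ i j, ∀ p ∈ DD i ∩ DD j, G i j p ^ 3 * ff i p = ff j p) ∧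
  (∀ i j k, ∀ p ∈ DD i ∩ DD j ∩ DD k, G i j p * G j k p = G i k p) ∧
  ∀ i j, ∀ p ∈ DD i ∩ DD j, p.2 = 0 → (G i j p).im = 0

def CocS : Prop := BasicS → PhS → NV → Link → Sym → Pos → Con → Coc

def Dens : Prop := ∀ p ∈ YY (tp D1), RealPt p → ∀ U : Set (V × ℂ), IsOpen U → p ∈ U →
  ∃ q ∈ U, q ∈ YY (tp D1) ∧ RealPt q ∧ Tor q.1 ∧ q.2 ≠ 0

def DensS : Prop := BasicS → Nonsing (tp D1) → Dens

def NoRoot : Prop := ∀ (h ζ : ℝ → ℂ) (c c' : ℝ), (c = 1 ∨ c = -1) → (c' = 1 ∨ c' = -1) →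
  Continuous ζ → ζ 0 = ζ (2 * π) → (∀ θ, ζ θ ^ 3 = h θ) →
  (∀ θ, h θ / (c * Real.cos θ + c' * Real.sin θ * I) ∈ slitPlane) → False

def Loop : Prop := ∀ t, ∀ p ∈ YY (tp D1), RealPt p → Tor p.1 → p.2 ≠ 0 → p.1 ∈ VS D1 (D1.vs t) →
  ∀ U : Set (V × ℂ), IsOpen U → p ∈ U → ∃ (γ : ℝ → V × ℂ) (c c' : ℝ), Continuous γ ∧
    γ 0 = γ (2 * π) ∧ (c = 1 ∨ c = -1) ∧ (c' = 1 ∨ c' = -1) ∧ ∀ θ, γ θ ∈ U ∩ DD t ∧
      ff t (γ θ) / (c * Real.cos θ + c' * Real.sin θ * I) ∈ slitPlane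

def LoopS : Prop := BasicS → PhS → Loop

end

end Pool.Agent.MP_6600f1_ag.ce
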