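import Mathlib
import Pool.Agent.MP_6600f1_ag.ce.Spec

/-! Basic facts on T-polynomials and on phases. -/

namespace Pool.Agent.MP_6600f1_ag.ce

open MvPolynomial Metric Set Complex
open scoped ComplexConjugate Real

namespace Bas

lemma ex_sum : ∀ n : Fin 21, ∑ i, ex n i = 5 := by decide

lemma ex_pure : ∀ i : Fin 3, ∃ n : Fin 21, ∀ j, j ≠ i → ex n j = 0 := by decide

lemma dl_pos : 0 < dl := by unfold dl; positivity

lemma dl_le : dl ≤ 1 := by unfold dl; norm_num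

lemma cont (D : TD) (n : Fin 21) : Continuous (xi D n) := by
  unfold xi; fun_prop

lemma open_lt (D : TD) (n : Fin 21) : IsOpen {x | Lt D n x} := by
  have : {x | Lt D n x} = ⋃ n', {x | ‖xi D n x‖ < dl * ‖xi D n' x‖} := by
    ext x; simp [Lt]
  rw [this]
  exact isOpen_iUnion fun n' =>
    isOpen_lt (cont D n).norm (continuous_const.mul (cont D n').norm)

end Bas

open Bas

theorem basicS : BasicS := by
  intro D
  refine ⟨?_, fun x => ?_, fun y => ?_, cont D, fun S => ?_, fun S S' => ?_, fun x hx => ?_⟩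
  · refine IsHomogeneous.sum _ _ _ fun n _ => IsHomogeneous.C_mul ?_ _
    have h := IsHomogeneous.prod Finset.univ (fun i : Fin 3 => (X i : Form) ^ (2 * ex n i))
      (fun i => 2 * ex n i) fun i _ => isHomogeneous_X_pow i _
    rwa [← Finset.mul_sum, ex_sum] at h
  · simp only [tp, xi, map_sum, map_mul, map_prod, map_pow, aeval_C, aeval_X, coe_algebraMap]
    refine Finset.sum_congr rfl fun n _ => ?_
    rw [mul_pow, ← Finset.prod_pow, ← pow_mul, mul_assoc]
    simp only [← pow_mul, mul_comm _ 2]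
    rw [show 2 * (4 * D.nu n) = 8 * D.nu n by ring]
  · exact (aeval_algebraMap_apply ℂ y (tp D)).symm
  · have : VS D S = ⋂ n ∈ Sᶜ, {x | Lt D n x} := by
      ext x; simp [VS]
    rw [this]
    exact isOpen_biInter_finset fun n _ => open_lt D n
  · ext x
    simp only [VS, mem_inter_iff, mem_ofPred_eq, Finset.mem_inter, not_and_or]
    exact ⟨fun h n hn => hn.elim (h.1 n) (h.2 n),
      fun h => ⟨fun n hn => h n (Or.inl hn), fun n hn => h n (Or.inr hn)⟩⟩
  · obtain ⟨n, hn⟩ := Finite.exists_max fun n => ‖xi D n x‖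
    obtain ⟨i, hi⟩ := Function.ne_iff.1 hx
    obtain ⟨m, hm⟩ := ex_pure i
    have h1 : xi D m x ≠ 0 := by
      refine mul_ne_zero (pow_ne_zero _ (ofReal_ne_zero.2 dl_pos.ne'))
        (Finset.prod_ne_zero_iff.2 fun j _ => ?_)
      by_cases h : j = i
      · exact pow_ne_zero _ (h ▸ hi)
      · rw [hm j h, pow_zero]; exact one_ne_zero
    refine ⟨n, norm_pos_iff.1 ((norm_pos_iff.2 h1).trans_le (hn m)), hn, fun ⟨n', h⟩ => ?_⟩
    have := hn n'
    nlinarith [dl_pos, dl_le, norm_nonneg (xi D n' x)]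

namespace Bas

lemma im_mul_le {z w : ℂ} (hz : ‖z‖ = 1) (hw : ‖w‖ = 1) : |(z * w).im| ≤ |z.im| + |w.im| := by
  have h1 : |z.re| ≤ 1 := hz ▸ abs_re_le_norm z
  have h2 : |w.re| ≤ 1 := hw ▸ abs_re_le_norm w
  rw [mul_im]
  refine (abs_add_le _ _).trans ?_
  rw [abs_mul, abs_mul]
  nlinarith [abs_nonneg z.im, abs_nonneg w.im]

lemma im_pow_le {z : ℂ} (hz : ‖z‖ = 1) (n : ℕ) : |(z ^ n).im| ≤ n * |z.im| := by
  induction n with
  | zero => simp
  | succ n ih =>
    rw [pow_succ]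
    have := im_mul_le (z := z ^ n) (by rw [norm_pow, hz, one_pow]) hz
    push_cast
    linarith

lemma im_zpow_le (z : ℂ) (j : ℤ) (hz : ‖z‖ = 1) : |(z ^ j).im| ≤ |(j : ℝ)| * |z.im| := by
  obtain ⟨n, rfl | rfl⟩ := j.eq_nat_or_neg
  · simpa using im_pow_le hz n
  · have h := im_pow_le (z := conj z) (by rw [norm_conj, hz]) n
    rw [zpow_neg, zpow_natCast, ← inv_pow, inv_eq_conj hz]
    simpa using h

lemma im_two {a b : ℂ} (ha : ‖a‖ = 1) (hb : ‖b‖ = 1) (p q : ℤ) :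
    |(a ^ p * b ^ q).im| ≤ |(p : ℝ)| * |a.im| + |(q : ℝ)| * |b.im| :=
  (im_mul_le (by rw [norm_zpow, ha, one_zpow]) (by rw [norm_zpow, hb, one_zpow])).trans
    (add_le_add (im_zpow_le a p ha) (im_zpow_le b q hb))

lemma norm_ph {u : V} (hu : Un u) (n : Fin 21) : ‖ph u n‖ = 1 := by
  simp [ph, norm_prod, hu _]

lemma norm_mc {z w : ℂ} (hz : ‖z‖ = 1) (hw : ‖w‖ = 1) : ‖z * conj w‖ = 1 := by
  rw [norm_mul, norm_conj, hz, hw, one_mul]

lemma mc_one {z : ℂ} (hz : ‖z‖ = 1) : z * conj z = 1 := by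
  rw [mul_conj, normSq_eq_norm_sq, hz]; simp

lemma ph_eq {u : V} (hu : Un u) (n : Fin 21) :
    ph u n * conj (u 2) ^ 5 = (u 0 * conj (u 2)) ^ ex n 0 * (u 1 * conj (u 2)) ^ ex n 1 := by
  have h : (u 2 * conj (u 2)) ^ ex n 2 = 1 := by rw [mc_one (hu 2), one_pow]
  rw [← ex_sum n, ph, Fin.prod_univ_three, Fin.sum_univ_three,
    ← mul_one ((u 0 * conj (u 2)) ^ ex n 0 * _), ← h]
  ring

lemma ph_ratio {u : V} (hu : Un u) (n n' : Fin 21) : ph u n * conj (ph u n') =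
    (u 0 * conj (u 2)) ^ ((ex n 0 : ℤ) - ex n' 0) *
      (u 1 * conj (u 2)) ^ ((ex n 1 : ℤ) - ex n' 1) := by
  have h0 : ∀ z : ℂ, ‖z‖ = 1 → z ≠ 0 := fun z hz e => by simp [e] at hz
  have ha := h0 _ (norm_mc (hu 0) (hu 2))
  have hb := h0 _ (norm_mc (hu 1) (hu 2))
  have h2 : conj (u 2) ≠ 0 := h0 _ (by rw [norm_conj, hu 2])
  rw [zpow_sub₀ ha, zpow_sub₀ hb, div_mul_div_comm]
  simp only [zpow_natCast]
  rw [← ph_eq hu, ← ph_eq hu, mul_div_mul_right _ _ (pow_ne_zero _ h2),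
    ← inv_eq_conj (norm_ph hu n'), div_eq_mul_inv]

lemma ex_diff : ∀ (n n' : Fin 21) (i : Fin 3), |(ex n i : ℤ) - ex n' i| ≤ 5 := by
  intro n n' i
  have h : ∀ m : Fin 21, ex m i ≤ 5 := fun m =>
    ex_sum m ▸ Finset.single_le_sum (fun _ _ => Nat.zero_le _) (Finset.mem_univ i)
  have := h n
  have := h n'
  rw [abs_le]; omega

lemma ph_im {u : V} (hu : Un u) (n n' : Fin 21) :
    |(ph u n * conj (ph u n')).im| ≤ 5 * dd u := by
  rw [ph_ratio hu]
  refine (im_two (norm_mc (hu 0) (hu 2)) (norm_mc (hu 1) (hu 2)) _ _).trans ?_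
  have h0 : |(((ex n 0 : ℤ) - ex n' 0 : ℤ) : ℝ)| ≤ 5 := by exact_mod_cast ex_diff n n' 0
  have h1 : |(((ex n 1 : ℤ) - ex n' 1 : ℤ) : ℝ)| ≤ 5 := by exact_mod_cast ex_diff n n' 1
  rw [dd, mul_add]
  exact add_le_add (mul_le_mul_of_nonneg_right h0 (abs_nonneg _))
    (mul_le_mul_of_nonneg_right h1 (abs_nonneg _))

/-- the difference of two exponents -/
def df (t : Fin 25) (k k' : Fin 3) (i : Fin 3) : ℤ := (ex (D1.tr t k) i : ℤ) - ex (D1.tr t k') i

lemma uni : ∀ (t : Fin 25) (k k' k'' : Fin 3), k ≠ k' → k ≠ k'' → k' ≠ k'' →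
    (df t k k'' 0 * df t k' k'' 1 - df t k k'' 1 * df t k' k'' 0) ^ 2 = 1 ∧
      |df t k k'' 0| + |df t k k'' 1| ≤ 6 ∧ |df t k' k'' 0| + |df t k' k'' 1| ≤ 6 := by
  decide +kernel

lemma third : ∀ (t : Fin 25) (i k : Fin 3), (∀ k', k' ≠ k → ex (D1.tr t k') i = 0) →
    ex (D1.tr t k) i = 1 := by
  decide +kernel

lemma inv_uni {a b : ℂ} (ha : ‖a‖ = 1) (hb : ‖b‖ = 1) {p q r s : ℤ} (h : (p * s - q * r) ^ 2 = 1)
    (h1 : |p| + |q| ≤ 6) (h2 : |r| + |s| ≤ 6) :
    |a.im| + |b.im| ≤ 6 * (|(a ^ p * b ^ q).im| + |(a ^ r * b ^ s).im|) := by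
  have h0 : ∀ z : ℂ, ‖z‖ = 1 → z ≠ 0 := fun z hz e => by simp [e] at hz
  have hA : ‖a ^ p * b ^ q‖ = 1 := by simp [norm_zpow, ha, hb]
  have hB : ‖a ^ r * b ^ s‖ = 1 := by simp [norm_zpow, ha, hb]
  have key : ∀ i j : ℤ, (a ^ p * b ^ q) ^ i * (a ^ r * b ^ s) ^ j =
      a ^ (p * i + r * j) * b ^ (q * i + s * j) := fun i j => by
    rw [mul_zpow, mul_zpow, zpow_add₀ (h0 a ha), zpow_add₀ (h0 b hb)]
    simp only [zpow_mul]
    ring
  set e := p * s - q * r with he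
  have he1 : |e| = 1 := by
    rcases sq_eq_one_iff.1 h with h | h <;> simp [h]
  have e1 := im_two hA hB (s * e) (-q * e)
  have e2 := im_two hA hB (-r * e) (p * e)
  rw [key, show p * (s * e) + r * (-q * e) = 1 by linear_combination h,
    show q * (s * e) + s * (-q * e) = 0 by ring, zpow_one, zpow_zero, mul_one] at e1
  rw [key, show p * (-r * e) + r * (p * e) = 0 by ring,
    show q * (-r * e) + s * (p * e) = 1 by linear_combination h, zpow_one, zpow_zero,
    one_mul] at e2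
  simp only [← Int.cast_abs, abs_mul, abs_neg, he1, mul_one] at e1 e2
  have h1' : ((|p| : ℤ) : ℝ) + (|q| : ℤ) ≤ 6 := by exact_mod_cast h1
  have h2' : ((|r| : ℤ) : ℝ) + (|s| : ℤ) ≤ 6 := by exact_mod_cast h2
  nlinarith [abs_nonneg (a ^ p * b ^ q).im, abs_nonneg (a ^ r * b ^ s).im]

lemma xi_pol {x u : V} (h : Pol x u) (D : TD) (n : Fin 21) :
    xi D n x = (‖xi D n x‖ : ℂ) * ph u n := by
  have h1 : xi D n x = ((dl ^ (4 * D.nu n) * ∏ i, ‖x i‖ ^ ex n i : ℝ) : ℂ) * ph u n := by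
    rw [xi, ph, Finset.prod_congr rfl fun i _ => by rw [h.2 i, mul_pow], Finset.prod_mul_distrib]
    push_cast
    ring
  have h2 : 0 ≤ dl ^ (4 * D.nu n) * ∏ i, ‖x i‖ ^ ex n i :=
    mul_nonneg (pow_nonneg dl_pos.le _) (Finset.prod_nonneg fun _ _ => by positivity)
  have h3 : ‖xi D n x‖ = dl ^ (4 * D.nu n) * ∏ i, ‖x i‖ ^ ex n i := by
    rw [h1, norm_mul, norm_ph h.1, mul_one, norm_real, Real.norm_of_nonneg h2]
  rw [h3]; exact h1

lemma abs_sg (D : TD) (n : Fin 21) : |sg D n| = 1 := by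
  unfold sg; split_ifs <;> simp

lemma sum_le (S : Finset (Fin 21)) {f : Fin 21 → ℝ} {c : ℝ} (hc : 0 ≤ c)
    (h : ∀ n, n ∉ S → f n ≤ c) : ∑ n with n ∉ S, f n ≤ 21 * c := by
  refine (Finset.sum_le_card_nsmul _ _ c fun n hn => h n (Finset.mem_filter.1 hn).2).trans ?_
  have : ((Finset.univ.filter fun n => n ∉ S).card : ℝ) ≤ 21 := by
    exact_mod_cast (Finset.card_le_univ _).trans (Fintype.card_fin 21).le
  rw [nsmul_eq_mul]
  exact mul_le_mul_of_nonneg_right this hc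

end Bas

theorem phS : BasicS → PhS := by
  intro hB
  obtain ⟨-, h2, -, -, -, -, h7⟩ := hB D1
  refine ⟨fun x => ?_, fun x u n h => ⟨norm_ph h.1 n, xi_pol h D1 n⟩, fun u n n' hu => ph_im hu n n',
    fun u t k k' k'' hu a b c => ?_, fun x u S n0 hx hp hS => ?_, fun x S => ?_,
    fun x u w n hp hd hw => ?_, fun x t i k z hx hk hz u hp => ?_, im_zpow_le⟩
  · refine ⟨fun i => if x i = 0 then 1 else x i / ‖x i‖, fun i => ?_, fun i => ?_⟩
    · by_cases h : x i = 0 <;> simp [h]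
    · by_cases h : x i = 0
      · simp [h]
      · have : (‖x i‖ : ℂ) ≠ 0 := by simpa using h
        simp only [h, if_false]
        field_simp
  · obtain ⟨e1, e2, e3⟩ := uni t k k' k'' a b c
    rw [ph_ratio hu, ph_ratio hu]
    exact inv_uni (norm_mc (hu 0) (hu 2)) (norm_mc (hu 1) (hu 2)) e1 e2 e3
  · obtain ⟨n, h0, hm, hl⟩ := h7 x hx
    have hb : ∀ n', n' ∉ S → ‖xi D1 n' x‖ ^ 2 ≤ dl ^ 2 * ‖xi D1 n x‖ ^ 2 := fun n' hn' => by
      obtain ⟨m, h⟩ := hS n' hn'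
      rw [← mul_pow]
      exact pow_le_pow_left₀ (norm_nonneg _)
        (h.le.trans (mul_le_mul_of_nonneg_left (hm m) dl_pos.le)) 2
    have hdd : 0 ≤ dd u := add_nonneg (abs_nonneg _) (abs_nonneg _)
    refine ⟨n, by_contra fun h => hl (hS n h), h0, hm, ?_, ?_⟩
    · rw [mul_assoc]
      refine (norm_sum_le _ _).trans (sum_le S (by positivity) fun n' hn' => ?_)
      rw [norm_mul, norm_real, Real.norm_eq_abs, abs_sg, one_mul, norm_pow]
      exact hb n' hn'
    · rw [Er, Finset.sum_mul, im_sum]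
      refine (Finset.abs_sum_le_sum_abs _ _).trans ((sum_le S
        (c := dl ^ 2 * ‖xi D1 n x‖ ^ 2 * (10 * dd u)) (by positivity) fun n' hn' => ?_).trans_eq
        (by ring))
      have e : (sg D1 n' : ℂ) * xi D1 n' x ^ 2 * conj (ph u n0) ^ 2 =
          ((sg D1 n' * ‖xi D1 n' x‖ ^ 2 : ℝ) : ℂ) * (ph u n' * conj (ph u n0)) ^ 2 := by
        conv_lhs => rw [xi_pol hp D1 n']
        push_cast
        ring
      rw [e, im_ofReal_mul, abs_mul, abs_mul, abs_sg, one_mul, abs_of_nonneg (sq_nonneg _)]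
      refine mul_le_mul (hb n' hn') ?_ (abs_nonneg _) (by positivity)
      have := im_pow_le (norm_mc (norm_ph hp.1 n') (norm_ph hp.1 n0)) 2
      have := ph_im hp.1 n' n0
      push_cast at *
      linarith
  · rw [h2, Er, ← Finset.sum_filter_add_sum_filter_not Finset.univ (· ∈ S)]
    simp
  · have ha : (u 0 * conj (u 2)).im = 0 :=
      abs_eq_zero.1 (le_antisymm (hd ▸ le_add_of_nonneg_right (abs_nonneg _)) (abs_nonneg _))
    have hb : (u 1 * conj (u 2)).im = 0 :=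
      abs_eq_zero.1 (le_antisymm (hd ▸ le_add_of_nonneg_left (abs_nonneg _)) (abs_nonneg _))
    have hc : (u 2 * conj (u 2)).im = 0 := by rw [mc_one (hp.1 2)]; rfl
    have hi : ∀ i, (u i * conj (u 2)).im = 0 := fun i => by
      fin_cases i
      exacts [ha, hb, hc]
    refine ⟨conj (u 2), fun e => by simpa [e] using mc_one (hp.1 2), funext fun i => ?_, ?_⟩
    · refine conj_eq_iff_im.2 ?_
      change (conj (u 2) * x i).im = 0
      rw [hp.2 i, show conj (u 2) * (‖x i‖ * u i) = ‖x i‖ * (u i * conj (u 2)) by ring,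
        im_ofReal_mul, hi, mul_zero]
    · change (conj (u 2) ^ 5 * w).im = 0
      have e : conj (u 2) ^ 5 * w = w * conj (ph u n) * (ph u n * conj (u 2) ^ 5) := by
        linear_combination (-(conj (u 2) ^ 5 * w)) * mc_one (norm_ph hp.1 n)
      rw [e, ph_eq hp.1, ← conj_eq_iff_im, map_mul, map_mul _ (_ ^ _), map_pow, map_pow,
        conj_eq_iff_im.2 hw, conj_eq_iff_im.2 ha, conj_eq_iff_im.2 hb]
  · have h1 := third t i k hk
    refine ⟨Function.update u i (z * conj (ph u (D1.tr t k)) * u i), ⟨fun j => ?_, fun j => ?_⟩,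
      fun j hj => Function.update_of_ne hj _ _, ?_⟩
    · by_cases h : j = i
      · rw [h, Function.update_self, norm_mul, norm_mc hz (norm_ph hp.1 _), hp.1 i, one_mul]
      · rw [Function.update_of_ne h]; exact hp.1 j
    · by_cases h : j = i
      · rw [h, hx]; simp
      · rw [Function.update_of_ne h]; exact hp.2 j
    · have e : ∀ v : V, ph v (D1.tr t k) =
          v i * ∏ j ∈ Finset.univ.erase i, v j ^ ex (D1.tr t k) j := fun v => by
        rw [ph, ← Finset.mul_prod_erase _ _ (Finset.mem_univ i), h1, pow_one]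
      rw [e (Function.update _ _ _), Function.update_self, Finset.prod_congr rfl fun j hj => by
        rw [Function.update_of_ne (Finset.ne_of_mem_erase hj)], mul_assoc, ← e]
      linear_combination z * mc_one (norm_ph hp.1 (D1.tr t k))

end Pool.Agent.MP_6600f1_ag.ce
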