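import Pool.Agent.MP_6600f1_ag.ce.Fan

/-! The links extend to a cocycle. -/

namespace Pool.Agent.MP_6600f1_ag.ce

open Set Complex Finset
open scoped ComplexConjugate

noncomputable section

/-- product of the first `k` links of the fan -/
def Gk (n : Fin 21) (k : ℕ) (p : V × ℂ) : ℂ := ∏ i ∈ range k, EE (nth n i) (nth n (i + 1)) p

def GG (i j : Fin 25) (p : V × ℂ) : ℂ :=
  if i = j then 1 else if kd i j ≠ 0 then EE i j p
  else Gk (cv i j) (pos (cv i j) j) p / Gk (cv i j) (pos (cv i j) i) p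

theorem xx_sub (hN : NV) {n t} (h : In n t) : XX n ⊆ DD t := by
  intro p hp
  have h1 : p.1 ∈ VS D1 (D1.vs t) := fun n' hn' => hp.2.1 n' (by
    intro h'
    rw [Finset.mem_singleton] at h'
    exact hn' (h' ▸ in_iff.2 h))
  exact ⟨hp.1, h1, hN t p hp.1 h1 (Or.inl hp.2.2)⟩

theorem xi_zero {n : Fin 21} {i : Fin 3} {x : V} (hx : x i = 0) (h : ex n i ≠ 0) :
    xi D1 n x = 0 := by
  unfold xi
  rw [Finset.prod_eq_zero (Finset.mem_univ i) (by rw [hx, zero_pow h]), mul_zero]

theorem can_of {t i p} (hp : p ∈ DD t) (hx : p.1 i = 0) : Can t i := by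
  by_contra h
  unfold Can at h
  rw [not_or, not_and_or] at h
  apply hp.2.2
  have hm : XI (tm t) p = 0 := xi_zero hx h.2
  have hb : fb t p = 0 := by unfold fb; split_ifs <;> simp [hm]
  have ha : fa t p = 0 := by
    unfold fa
    rcases h.1 with h1 | h1
    · have : XI (ta t) p = 0 := xi_zero hx h1
      simp [this]
    · have : XI (tb t) p = 0 := xi_zero hx h1
      simp [this]
  simp [ff, ha, hb]

theorem common (hB : BasicS) {p : V × ℂ} (hp : p ∈ MM (tp D1)) :
    ∃ n, xi D1 n p.1 ≠ 0 ∧ ∀ t, p ∈ DD t → In n t := by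
  obtain ⟨n, h0, -, h2⟩ := (hB D1).2.2.2.2.2.2 p.1 hp.1.1
  refine ⟨n, h0, fun t ht => ?_⟩
  by_contra h
  exact h2 (ht.2.1 n (fun h' => h (in_iff.1 h')))

theorem ex_of {n : Fin 21} {i : Fin 3} {x : V} (h : xi D1 n x ≠ 0) (hx : x i = 0) : ex n i = 0 := by
  by_contra h'
  exact h (xi_zero hx h')

theorem pair_xx (hB : BasicS) {i j p} (hij : i ≠ j) (hk : kd i j = 0) (hp : p ∈ DD i ∩ DD j) :
    p ∈ XX (cv i j) ∧ In (cv i j) i ∧ In (cv i j) j := by
  obtain ⟨n, h0, h1⟩ := common hB hp.1.1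
  have hi := h1 i hp.1
  have hj := h1 j hp.2
  obtain ⟨e, hc⟩ := pair_cv i j hij hk n hi hj
  rw [← e]
  refine ⟨⟨hp.1.1, fun n' hn' => ?_, fun c hx => hc c ⟨can_of hp.1 hx, can_of hp.2 hx, ex_of h0 hx⟩⟩,
    hi, hj⟩
  rw [Finset.mem_singleton] at hn'
  by_cases a : In n' i
  · by_cases b : In n' j
    · exact absurd ((pair_cv i j hij hk n' a b).1.trans e.symm) hn'
    · exact hp.2.2.1 n' (fun h' => b (in_iff.1 h'))
  · exact hp.1.2.1 n' (fun h' => a (in_iff.1 h'))

theorem triple_xx (hB : BasicS) {i j k p} (hij : i ≠ j) (hik : i ≠ k) (hjk : j ≠ k)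
    (hp : p ∈ DD i ∩ DD j ∩ DD k) : ∃ n, p ∈ XX n ∧ In n i ∧ In n j ∧ In n k := by
  obtain ⟨n, h0, h1⟩ := common hB hp.1.1.1
  have hi := h1 i hp.1.1
  have hj := h1 j hp.1.2
  have hk := h1 k hp.2
  obtain ⟨e, hc⟩ := triple_cv n i hi j hj hij k hk hik hjk
  refine ⟨n, ⟨hp.1.1.1, fun n' hn' => ?_, fun c hx =>
    hc c ⟨can_of hp.1.1 hx, can_of hp.1.2 hx, can_of hp.2 hx, ex_of h0 hx⟩⟩, hi, hj, hk⟩
  rw [Finset.mem_singleton] at hn'
  by_cases a : In n' i
  · by_cases b : In n' j
    · by_cases c : In n' k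
      · exact absurd (e n' a b c) hn'
      · exact hp.2.2.1 n' (fun h' => c (in_iff.1 h'))
    · exact hp.1.2.2.1 n' (fun h' => b (in_iff.1 h'))
  · exact hp.1.1.2.1 n' (fun h' => a (in_iff.1 h'))

theorem xx_ne (hP : PhS) {n p} (hp : p ∈ XX n) : p.2 ≠ 0 := by
  intro h0
  obtain ⟨u, hu⟩ := hP.1 p.1
  obtain ⟨n', hn', hne, -, hE, -⟩ := hP.2.2.2.2.1 p.1 u {n} n hp.1.1.1 hu hp.2.1
  rw [Finset.mem_singleton] at hn'
  subst hn'
  have h1 := hP.2.2.2.2.2.1 p.1 {n'}
  rw [← hp.1.1.2, h0, Finset.sum_singleton] at h1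
  have h2 : Er {n'} p.1 = -((sg D1 n' : ℂ) * xi D1 n' p.1 ^ 2) := by linear_combination -h1
  have h3 : ‖(sg D1 n' : ℂ)‖ = 1 := by unfold sg; split_ifs <;> simp
  rw [h2, norm_neg, norm_mul, h3, norm_pow, one_mul] at hE
  have h4 : 0 < ‖xi D1 n' p.1‖ ^ 2 := by positivity
  have h5 : 21 * dl ^ 2 < 1 := by unfold dl; norm_num
  nlinarith

section fan

variable (hN : NV) (hL : Link) {n : Fin 21}
include hN hL

theorem step_sub {i : ℕ} (h : i + 1 < len n) : XX n ⊆ DD (nth n i) ∩ DD (nth n (i + 1)) :=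
  subset_inter (xx_sub hN (fan_in n i (by omega))) (xx_sub hN (fan_in n _ h))

theorem step_kd {i : ℕ} (h : i + 1 < len n) : kd (nth n i) (nth n (i + 1)) ≠ 0 :=
  (fan_step n i (by have := (len_le n).1; omega) h).1

theorem gk_cont : ∀ k, k < len n → ContinuousOn (Gk n k) (XX n) := by
  intro k hk
  unfold Gk
  refine continuousOn_finsetProd _ fun i hi => ?_
  have h : i + 1 < len n := by have := Finset.mem_range.1 hi; omega
  exact (hL.2 _ _ (step_kd hN hL h)).1.mono (step_sub hN hL h)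

theorem gk_cube : ∀ k, k < len n → ∀ p ∈ XX n, Gk n k p ^ 3 * ff (nth n 0) p = ff (nth n k) p := by
  intro k
  induction k with
  | zero => intro _ p _; simp [Gk]
  | succ k ih =>
    intro hk p hp
    have h1 := ih (by omega) p hp
    have h2 := ((hL.2 _ _ (step_kd hN hL hk)).2 p (step_sub hN hL hk hp)).1
    unfold Gk at h1 ⊢
    rw [Finset.prod_range_succ, ← h2, ← h1]
    ring

theorem gk_ne {k} (hk : k < len n) {p} (hp : p ∈ XX n) : Gk n k p ≠ 0 := by
  intro h
  have h1 := gk_cube hN hL k hk p hp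
  rw [h] at h1
  exact (xx_sub hN (fan_in n k hk) hp).2.2 (by rw [← h1]; ring)

theorem gk_sym (hS : Sym) (c : Fin 3) : ∀ k, k < len n → ∀ p ∈ XX n,
    Gk n k (rf c p) = conj (Gk n k p) ∨ Gk n k (rf c p) = -conj (Gk n k p) := by
  intro k
  induction k with
  | zero => intro _ p _; simp [Gk]
  | succ k ih =>
    intro hk p hp
    have hs := fan_step n k (by have := (len_le n).1; omega) hk
    have h2 := hS.2 c _ _ hs.1 (fun h => absurd h hs.2.1) (fun h => absurd h hs.2.2) p
      (step_sub hN hL hk hp)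
    have h1 := ih (by omega) p hp
    unfold Gk at h1 ⊢
    rw [Finset.prod_range_succ, Finset.prod_range_succ, map_mul]
    rcases h1 with h1 | h1 <;> rcases h2 with h2 | h2 <;> rw [h1, h2] <;> simp

theorem gk_pos (hPo : Pos) (hn : n ∈ D1.ngl) : ∀ k, k < len n → ∀ p ∈ XX n, EqPh p →
    0 < (Gk n k p).re ∧ (Gk n k p).im = 0 := by
  intro k
  induction k with
  | zero => intro _ p _ _; simp [Gk]
  | succ k ih =>
    intro hk p hp he
    have h1 := ih (by omega) p hp he
    have e1 := fan_neg n hn k (by omega)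
    have e2 := fan_neg n hn (k + 1) hk
    have h2 := hPo _ _ (e1.trans e2.symm) (step_kd hN hL hk) p (by rw [e1]; exact hp) he
    unfold Gk at h1 ⊢
    rw [Finset.prod_range_succ, mul_re, mul_im, h1.2, h2.2]
    exact ⟨by simpa using mul_pos h1.1 h2.1, by simp⟩

theorem closing (hS : Sym) (hPo : Pos) (hC : Con) (hc : Cl n) : ∀ p ∈ XX n,
    Gk n (len n - 1) p * EE (nth n (len n - 1)) (nth n 0) p = 1 := by
  have hl : len n - 1 < len n := by have := (len_le n).2; omega
  have hsub : XX n ⊆ DD (nth n (len n - 1)) ∩ DD (nth n 0) :=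
    subset_inter (xx_sub hN (fan_in n _ hl)) (xx_sub hN (fan_in n _ (len_le n).2))
  set h : V × ℂ → ℂ := fun p => Gk n (len n - 1) p * EE (nth n (len n - 1)) (nth n 0) p with hh
  have hcont : ContinuousOn h (XX n) :=
    (gk_cont hN hL _ hl).mul ((hL.2 _ _ hc.1).1.mono hsub)
  have hcube : ∀ p ∈ XX n, h p ^ 3 = 1 := by
    intro p hp
    have h1 := gk_cube hN hL _ hl p hp
    have h2 := ((hL.2 _ _ hc.1).2 p (hsub hp)).1
    have h3 := (hsub hp).2.2.2
    apply mul_right_cancel₀ h3
    rw [one_mul]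
    conv_rhs => rw [← h2, ← h1]
    simp only [hh]
    ring
  intro p hp
  change h p = 1
  by_cases hn : n ∈ D1.ngl
  · obtain ⟨q, hq, he, e⟩ := hC.2 n hn h hcont hcube p hp
    rw [← e]
    have h1 := gk_pos hN hL hPo hn _ hl q hq he
    have e1 := fan_neg n hn _ hl
    have e2 := fan_neg n hn _ (len_le n).2
    have h2 := hPo _ _ (e1.trans e2.symm) hc.1 q (by rw [e1]; exact hq) he
    have hi : (h q).im = 0 := by simp only [hh]; rw [mul_im, h1.2, h2.2]; simp
    have h3 := hcube q hq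
    have h4 : h q = ((h q).re : ℂ) := Complex.ext (by simp) (by simp [hi])
    rw [h4] at h3 ⊢
    have h5 : (h q).re ^ 3 = 1 := by exact_mod_cast h3
    have h6 : (h q).re = 1 := by
      have := (Odd.pow_inj (R := ℝ) (n := 3) (by decide) (a := (h q).re) (b := 1)).1 (by simpa using h5)
      exact this
    rw [h6]; simp
  · obtain ⟨c, hc2, hev, h5, h6⟩ := hc.2.resolve_left hn
    have hev' : Even (ex n c) := Nat.even_iff.2 hev
    obtain ⟨-, e⟩ := hC.1 n hn c hc2 hev' h hcont hcube p hp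
    have h1 := gk_sym hN hL hS c _ hl p hp
    have h2 := hS.2 c _ _ hc.1 (fun h => absurd h h5) (fun h => by rw [h6 h]; exact hev') p (hsub hp)
    have h3 : h p = conj (h p) ∨ h p = -conj (h p) := by
      conv => enter [1, 1]; rw [← e]
      conv => enter [2, 1]; rw [← e]
      simp only [hh, map_mul]
      rcases h1 with h1 | h1 <;> rcases h2 with h2 | h2 <;> rw [h1, h2] <;> simp
    have h4 := hcube p hp
    have h7 : conj (h p) ^ 3 = 1 := by rw [← map_pow, h4, map_one]
    rcases h3 with h3 | h3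
    · have hi : (h p).im = 0 := conj_eq_iff_im.1 h3.symm
      have h8 : h p = ((h p).re : ℂ) := Complex.ext (by simp) (by simp [hi])
      rw [h8] at h4 ⊢
      have h5 : (h p).re ^ 3 = 1 := by exact_mod_cast h4
      have h6 : (h p).re = 1 := by
        have := (Odd.pow_inj (R := ℝ) (n := 3) (by decide) (a := (h p).re) (b := 1)).1
          (by simpa using h5)
        exact this
      rw [h6]; simp
    · exfalso
      rw [h3] at h4
      have : (2 : ℂ) = 0 := by linear_combination -h4 - h7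
      norm_num at this

theorem gg_eq (hS : Sym) (hPo : Pos) (hC : Con) {i j} (hi : In n i) (hj : In n j) {p}
    (hp : p ∈ XX n) : GG i j p * Gk n (pos n i) p = Gk n (pos n j) p := by
  obtain ⟨ei, li⟩ := fan_pos n i hi
  obtain ⟨ej, lj⟩ := fan_pos n j hj
  have hpp : p ∈ DD i ∩ DD j := ⟨xx_sub hN hi hp, xx_sub hN hj hp⟩
  unfold GG
  split_ifs with h1 h2
  · rw [h1, one_mul]
  · have hinv := ((hL.2 i j h2).2 p hpp).2.1
    rcases link_pos i j h2 n hi hj with h | h | ⟨h, h', hc⟩ | ⟨h, h', hc⟩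
    · rw [h]
      unfold Gk
      rw [Finset.prod_range_succ, ← h, ei, ej, mul_comm]
    · rw [h]
      unfold Gk
      rw [Finset.prod_range_succ, ← h, ei, ej]
      linear_combination (∏ i ∈ range (pos n j), EE (nth n i) (nth n (i + 1)) p) * hinv
    · have := closing hN hL hS hPo hC hc p hp
      have e : len n - 1 = pos n i := by omega
      rw [e, ei, ← h, ej] at this
      rw [mul_comm, this, h]
      simp [Gk]
    · have := closing hN hL hS hPo hC hc p hp
      have e : len n - 1 = pos n j := by omega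
      rw [e, ej, ← h, ei] at this
      have e0 : Gk n (pos n i) p = 1 := by rw [h]; simp [Gk]
      rw [e0]
      linear_combination (-EE i j p) * this + Gk n (pos n j) p * hinv
  · have h3 : kd i j = 0 := by simpa using h2
    rw [← (pair_cv i j h1 h3 n hi hj).1]
    exact div_mul_cancel₀ _ (gk_ne hN hL li hp)

end fan

theorem cocS : CocS := by
  intro hB hP hN hL hS hPo hC
  refine ⟨GG, fun i j => ?_, fun i j p hp => ?_, fun i j k p hp => ?_, fun i j p hp h0 => ?_⟩
  · by_cases h1 : i = j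
    · have : GG i j = fun _ => 1 := by funext p; simp [GG, h1]
      rw [this]; exact continuousOn_const
    by_cases h2 : kd i j = 0
    · have : GG i j = fun p => Gk (cv i j) (pos (cv i j) j) p / Gk (cv i j) (pos (cv i j) i) p := by
        funext p; simp [GG, h1, h2]
      rw [this]
      intro p hp
      obtain ⟨-, a, b⟩ := pair_xx hB h1 h2 hp
      have hsub : DD i ∩ DD j ⊆ XX (cv i j) := fun q hq => (pair_xx hB h1 h2 hq).1
      exact (((gk_cont hN hL _ (fan_pos _ _ b).2).div (gk_cont hN hL _ (fan_pos _ _ a).2)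
        fun q hq => gk_ne hN hL (fan_pos _ _ a).2 hq).mono hsub) p hp
    · have : GG i j = EE i j := by funext p; simp [GG, h1, h2]
      rw [this]; exact (hL.2 i j h2).1
  · by_cases h1 : i = j
    · simp [GG, h1]
    by_cases h2 : kd i j = 0
    · obtain ⟨hx, a, b⟩ := pair_xx hB h1 h2 hp
      have e := gg_eq hN hL hS hPo hC a b hx
      have c1 := gk_cube hN hL _ (fan_pos _ _ a).2 p hx
      have c2 := gk_cube hN hL _ (fan_pos _ _ b).2 p hx
      rw [(fan_pos _ _ a).1] at c1
      rw [(fan_pos _ _ b).1, ← e] at c2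
      rw [← c1, ← c2]; ring
    · have : GG i j p = EE i j p := by simp [GG, h1, h2]
      rw [this]; exact ((hL.2 i j h2).2 p hp).1
  · by_cases h1 : i = j
    · subst h1; simp [GG]
    by_cases h2 : j = k
    · subst h2
      have : GG j j p = 1 := by simp [GG]
      rw [this, mul_one]
    by_cases h3 : i = k
    · subst h3
      have e : GG i i p = 1 := by simp [GG]
      rw [e]
      by_cases h4 : kd i j = 0
      · obtain ⟨hx, a, b⟩ := pair_xx hB h1 h4 hp.1
        have e1 := gg_eq hN hL hS hPo hC a b hx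
        have e2 := gg_eq hN hL hS hPo hC b a hx
        apply mul_right_cancel₀ (gk_ne hN hL (fan_pos _ _ a).2 hx)
        linear_combination GG j i p * e1 + e2
      · have a : GG i j p = EE i j p := by simp [GG, h1, h4]
        have b : GG j i p = EE j i p := by simp [GG, h2, kd_symm i j h4]
        rw [a, b]; exact ((hL.2 i j h4).2 p hp.1).2.1
    · obtain ⟨n, hx, a, b, c⟩ := triple_xx hB h1 h3 h2 hp
      have e1 := gg_eq hN hL hS hPo hC a b hx
      have e2 := gg_eq hN hL hS hPo hC b c hx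
      have e3 := gg_eq hN hL hS hPo hC a c hx
      apply mul_right_cancel₀ (gk_ne hN hL (fan_pos _ _ a).2 hx)
      linear_combination GG j k p * e1 + e2 - e3
  · by_cases h1 : i = j
    · simp [GG, h1]
    by_cases h2 : kd i j = 0
    · exact absurd h0 (xx_ne hP (pair_xx hB h1 h2 hp).1)
    · have : GG i j p = EE i j p := by simp [GG, h1, h2]
      rw [this]; exact ((hL.2 i j h2).2 p hp).2.2 h0

end

end Pool.Agent.MP_6600f1_ag.ce
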