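import Mathlib
import Pool.Agent.MP_6600f1_ag.ce.Spec

/-! Continuous cube roots of unity on the vertex regions: variation of the phases. -/

namespace Pool.Agent.MP_6600f1_ag.ce

open MvPolynomial Metric Set Complex
open scoped ComplexConjugate Real

noncomputable section

namespace ConAux

/-- the phases of the first two coordinates are turned by `θ.re` and `θ.im` -/
def rot (x : V) (θ : ℂ) : V := fun i =>
  x i * exp ((if i = 0 then θ.re else if i = 1 then θ.im else 0 : ℝ) * I)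

lemma norm_rot (x : V) (θ : ℂ) (i : Fin 3) : ‖rot x θ i‖ = ‖x i‖ := by
  simp only [rot, norm_mul, norm_exp_ofReal_mul_I, mul_one]

lemma rot_zero (x : V) : rot x 0 = x := by
  funext i
  simp [rot]

lemma continuous_rot (x : V) : Continuous (rot x) := by
  refine continuous_pi fun i => continuous_const.mul (Continuous.cexp (Continuous.mul ?_
    continuous_const))
  refine continuous_ofReal.comp ?_
  split_ifs
  · exact continuous_re
  · exact continuous_im
  · exact continuous_const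

lemma norm_xi_rot (n : Fin 21) (x : V) (θ : ℂ) : ‖xi D1 n (rot x θ)‖ = ‖xi D1 n x‖ := by
  simp only [xi, norm_mul, norm_prod, norm_pow, norm_rot]

lemma vs_rot {S : Finset (Fin 21)} {x : V} (h : x ∈ VS D1 S) (θ : ℂ) : rot x θ ∈ VS D1 S := by
  intro n hn
  obtain ⟨n', h'⟩ := h n hn
  exact ⟨n', by rwa [norm_xi_rot, norm_xi_rot]⟩

lemma tor_rot {x : V} (h : Tor x) (θ : ℂ) : Tor (rot x θ) := fun i =>
  mul_ne_zero (h i) (exp_ne_zero _)

lemma tor_ne {x : V} (h : Tor x) : x ≠ 0 := fun h0 => h 0 (by rw [h0]; rfl)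

lemma xi_ne {x : V} (h : Tor x) (n : Fin 21) : xi D1 n x ≠ 0 := by
  have hd : (dl : ℂ) ≠ 0 := by
    rw [ofReal_ne_zero]
    unfold dl
    positivity
  exact mul_ne_zero (pow_ne_zero _ hd) (Finset.prod_ne_zero_iff.2 fun i _ => pow_ne_zero _ (h i))

lemma sg_sq (n : Fin 21) : (sg D1 n : ℂ) * sg D1 n = 1 := by
  unfold sg
  split_ifs <;> simp

/-- the normalised value of the form -/
def GG (n : Fin 21) (x : V) : ℂ := sg D1 n * aeval x (tp D1) / xi D1 n x ^ 2

lemma re_GG (hP : PhS) {n : Fin 21} {x : V} (hx : Tor x) (hv : x ∈ VS D1 {n}) :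
    0 < (GG n x).re := by
  obtain ⟨u, hu⟩ := hP.1 x
  obtain ⟨m, hm, -, -, hE, -⟩ := hP.2.2.2.2.1 x u {n} n (tor_ne hx) hu hv
  rw [Finset.mem_singleton] at hm
  subst hm
  have hF := hP.2.2.2.2.2.1 x {m}
  rw [Finset.sum_singleton] at hF
  have h0 := xi_ne hx m
  have h1 : GG m x = 1 + sg D1 m * Er {m} x / xi D1 m x ^ 2 := by
    unfold GG
    rw [hF, mul_add, ← mul_assoc, sg_sq]
    field_simp
  have h2 : ‖(sg D1 m : ℂ)‖ = 1 := by
    unfold sg
    split_ifs <;> simp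
  have h3 : ‖sg D1 m * Er {m} x / xi D1 m x ^ 2‖ ≤ 21 * dl ^ 2 := by
    rw [norm_div, norm_mul, h2, one_mul, norm_pow, div_le_iff₀ (by positivity)]
    exact hE
  have h4 := (abs_le.1 ((abs_re_le_norm _).trans h3)).1
  have h5 : 21 * dl ^ 2 < 1 := by
    unfold dl
    norm_num
  rw [h1, add_re, one_re]
  linarith

/-- a square root of `± F` -/
def RR (n : Fin 21) (x : V) : ℂ := xi D1 n x * exp (log (GG n x) / 2)

lemma RR_sq (hP : PhS) {n : Fin 21} {x : V} (hx : Tor x) (hv : x ∈ VS D1 {n}) :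
    RR n x ^ 2 = sg D1 n * aeval x (tp D1) := by
  have h0 : GG n x ≠ 0 := fun h => by simpa [h] using re_GG hP hx hv
  have h1 : exp (log (GG n x) / 2) ^ 2 = GG n x := by
    rw [sq, ← Complex.exp_add, add_halves, exp_log h0]
  have h2 := xi_ne hx n
  rw [RR, mul_pow, h1, GG]
  field_simp

lemma RR_ne {n : Fin 21} {x : V} (hx : Tor x) : RR n x ≠ 0 :=
  mul_ne_zero (xi_ne hx n) (exp_ne_zero _)

/-- the family of points with the same moduli -/
def fam (n : Fin 21) (p : V × ℂ) (θ : ℂ) : V × ℂ :=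
  (rot p.1 θ, p.2 / RR n p.1 * RR n (rot p.1 θ))

lemma fam_zero {n : Fin 21} {p : V × ℂ} (hx : Tor p.1) : fam n p 0 = p := by
  rw [fam, rot_zero, div_mul_cancel₀ _ (RR_ne hx)]

lemma fam_mem (hP : PhS) {n : Fin 21} {p : V × ℂ} (hp : p ∈ XX n) (θ : ℂ) :
    fam n p θ ∈ YY (tp D1) := by
  obtain ⟨⟨⟨-, hw⟩, -⟩, hv, hx⟩ := hp
  refine ⟨tor_ne (tor_rot hx θ), ?_⟩
  have h1 := RR_sq hP hx hv
  have h2 := RR_sq hP (tor_rot hx θ) (vs_rot hv θ)
  have h3 : RR n p.1 ^ 2 ≠ 0 := pow_ne_zero _ (RR_ne hx)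
  have h4 : p.2 ^ 2 = sg D1 n * RR n p.1 ^ 2 := by
    rw [h1, ← mul_assoc, sg_sq, one_mul, hw]
  show (p.2 / RR n p.1 * RR n (rot p.1 θ)) ^ 2 = aeval (rot p.1 θ) (tp D1)
  rw [mul_pow, div_pow, h4, mul_div_cancel_right₀ _ h3, h2, ← mul_assoc, sg_sq, one_mul]

lemma continuous_fam (hB : BasicS) (hP : PhS) {n : Fin 21} {p : V × ℂ} (hp : p ∈ XX n) :
    Continuous (fam n p) := by
  obtain ⟨-, hv, hx⟩ := hp
  obtain ⟨-, hF, -, hc, -⟩ := hB D1
  have hr := continuous_rot p.1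
  have h1 : ∀ m, Continuous fun θ => xi D1 m (rot p.1 θ) := fun m => (hc m).comp hr
  have h2 : Continuous fun θ => GG n (rot p.1 θ) := by
    unfold GG
    simp only [hF]
    refine Continuous.div (continuous_const.mul (continuous_finsetSum _ fun m _ =>
      continuous_const.mul ((h1 m).pow 2))) ((h1 n).pow 2) fun θ => ?_
    exact pow_ne_zero _ (xi_ne (tor_rot hx θ) n)
  have h3 : Continuous fun θ => log (GG n (rot p.1 θ)) :=
    h2.clog fun θ => Or.inl (re_GG hP (tor_rot hx θ) (vs_rot hv θ))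
  exact hr.prodMk (continuous_const.mul ((h1 n).mul (h3.div_const 2).cexp))

lemma const_on (hB : BasicS) (hP : PhS) {n : Fin 21} {p : V × ℂ} (hp : p ∈ XX n) {h : V × ℂ → ℂ}
    (hc : ContinuousOn h (XX n)) (h3 : ∀ q ∈ XX n, h q ^ 3 = 1) {S : Set ℂ}
    (hS : IsPreconnected S) (hr : ∀ θ ∈ S, ¬ RealPt (fam n p θ)) (h0 : 0 ∈ S) {θ : ℂ}
    (hθ : θ ∈ S) : fam n p θ ∈ XX n ∧ h (fam n p θ) = h p := by
  have hm : MapsTo (fam n p) S (XX n) := fun t ht =>
    ⟨⟨fam_mem hP hp t, hr t ht⟩, vs_rot hp.2.1 t, tor_rot hp.2.2 t⟩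
  have hf : {z : ℂ | z ^ 3 = 1}.Finite := by
    refine (Polynomial.nthRoots 3 (1 : ℂ)).toFinset.finite_toSet.subset fun z hz => ?_
    simpa [Polynomial.mem_nthRoots] using hz
  refine ⟨hm hθ, ?_⟩
  have := hS.constant_of_mapsTo hf.isDiscrete (f := h ∘ fam n p)
    (hc.comp (continuous_fam hB hP hp).continuousOn hm) (fun t ht => h3 _ (hm ht)) hθ h0
  simpa [fam_zero hp.2.2] using this

lemma im_eq {l : ℂ} {x : V} (h : star (l • x) = l • x) (i : Fin 3) : (l * x i).im = 0 :=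
  conj_eq_iff_im.1 (congrFun h i)

lemma countable_im {a : ℂ} (ha : a ≠ 0) : {t : ℝ | (a * exp (t * I)).im = 0}.Countable := by
  refine (countable_range fun k : ℤ => k * π - arg a).mono fun t ht => ?_
  have h1 : a * exp (t * I) = (‖a‖ : ℝ) * exp ((arg a + t : ℝ) * I) := by
    conv_lhs => rw [← norm_mul_exp_arg_mul_I a]
    rw [mul_assoc, ← Complex.exp_add]
    push_cast
    ring_nf
  have h2 : (a * exp (t * I)).im = 0 := ht
  rw [h1, im_ofReal_mul, exp_ofReal_mul_I_im, mul_eq_zero] at h2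
  obtain ⟨k, hk⟩ := Real.sin_eq_zero_iff.1 (h2.resolve_left (norm_ne_zero_iff.2 ha))
  exact ⟨k, by linarith⟩

lemma im_div {a b : ℂ} (ha : a.im = 0) (hb : b.im = 0) : (a / b).im = 0 := by
  simp [div_im, ha, hb]

lemma countable_real {n : Fin 21} {p : V × ℂ} (hx : Tor p.1) :
    {θ | RealPt (fam n p θ)}.Countable := by
  have h0 := countable_im (div_ne_zero (hx 0) (hx 2))
  have h1 := countable_im (div_ne_zero (hx 1) (hx 2))
  refine ((h0.prod h1).image fun q : ℝ × ℝ => (⟨q.1, q.2⟩ : ℂ)).mono fun θ hθ => ?_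
  obtain ⟨l, hl, hs, -⟩ := hθ
  have h2 := hx 2
  refine ⟨(θ.re, θ.im), ⟨?_, ?_⟩, rfl⟩
  · have := im_div (im_eq hs 0) (im_eq hs 2)
    show (p.1 0 / p.1 2 * exp (θ.re * I)).im = 0
    rw [← this]
    congr 1
    simp only [fam, rot]
    simp
    field_simp
  · have := im_div (im_eq hs 1) (im_eq hs 2)
    show (p.1 1 / p.1 2 * exp (θ.im * I)).im = 0
    rw [← this]
    congr 1
    simp only [fam, rot]
    simp
    field_simp

lemma xi_update (n : Fin 21) (x : V) (i : Fin 3) :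
    xi D1 n (Function.update x i (-x i)) = (-1) ^ ex n i * xi D1 n x := by
  unfold xi
  fin_cases i <;> simp [Fin.prod_univ_three, neg_pow (x _)] <;> ring

lemma RR_update (hB : BasicS) {n : Fin 21} (x : V) {i : Fin 3} (he : Even (ex n i)) :
    RR n (Function.update x i (-x i)) = RR n x := by
  have h1 : ∀ m, xi D1 m (Function.update x i (-x i)) ^ 2 = xi D1 m x ^ 2 := fun m => by
    rw [xi_update, mul_pow, ← pow_mul, mul_comm (ex m i) 2, pow_mul]
    simp
  unfold RR GG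
  rw [(hB D1).2.1, (hB D1).2.1]
  simp only [h1]
  rw [xi_update, he.neg_one_pow, one_mul]

lemma rf_real {p : V × ℂ} {i : Fin 3} (h : RealPt (rf i p)) : RealPt p := by
  obtain ⟨l, hl, hs, hw⟩ := h
  refine ⟨l, hl, funext fun j => conj_eq_iff_im.2 ?_, hw⟩
  have := im_eq hs j
  show (l * p.1 j).im = 0
  by_cases hj : j = i
  · subst hj
    simp only [rf, Function.update_self, mul_neg, neg_im, neg_eq_zero] at this
    exact this
  · simpa [rf, Function.update_of_ne hj] using this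

lemma exists_rf (hB : BasicS) {n : Fin 21} {p : V × ℂ} (hx : Tor p.1) {i : Fin 3} (hi : i ≠ 2)
    (he : Even (ex n i)) : ∃ θ, fam n p θ = rf i p := by
  obtain ⟨θ, hθ⟩ : ∃ θ, rot p.1 θ = Function.update p.1 i (-p.1 i) := by
    fin_cases i
    · refine ⟨⟨π, 0⟩, funext fun j => ?_⟩
      fin_cases j <;> simp [rot]
    · refine ⟨⟨0, π⟩, funext fun j => ?_⟩
      fin_cases j <;> simp [rot]
    · exact absurd rfl hi
  exact ⟨θ, by rw [fam, hθ, RR_update hB _ he, div_mul_cancel₀ _ (RR_ne hx), rf]⟩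

lemma sum_ex : ∀ n : Fin 21, ex n 0 + ex n 1 + ex n 2 = 5 := by decide

lemma not_real (hP : PhS) {n : Fin 21} (hn : n ∈ D1.ngl) {p : V × ℂ} (hp : p ∈ YY (tp D1))
    (hv : p.1 ∈ VS D1 {n}) (hx : Tor p.1) : ¬ RealPt p := by
  rintro ⟨l, hl, hs, hw⟩
  have h1 := re_GG hP hx hv
  have h2 : l ^ 5 * xi D1 n p.1 = ((dl ^ (4 * D1.nu n) * ∏ i, (l * p.1 i).re ^ ex n i : ℝ) : ℂ) := by
    have h3 : ∀ i, (((l * p.1 i).re : ℝ) : ℂ) = l * p.1 i := fun i =>
      Complex.ext (by simp) (by rw [ofReal_im, im_eq hs i])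
    push_cast
    simp only [h3, xi, Fin.prod_univ_three, mul_pow]
    rw [← sum_ex n]
    ring
  have h4 : (l ^ 5 * p.2 / (l ^ 5 * xi D1 n p.1)).im = 0 := im_div hw (by rw [h2, ofReal_im])
  rw [mul_div_mul_left _ _ (pow_ne_zero _ hl)] at h4
  have h5 : GG n p.1 = -(p.2 / xi D1 n p.1) ^ 2 := by
    rw [GG, ← hp.2, sg, if_pos hn, div_pow]
    push_cast
    ring
  rw [h5, neg_re, sq, mul_re, h4] at h1
  nlinarith [mul_self_nonneg (p.2 / xi D1 n p.1).re]

lemma turn {a b : ℂ} (ha : a ≠ 0) (hb : b ≠ 0) :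
    ∃ r : ℝ, 0 < r ∧ a * exp (arg (b / a) * I) = r * b := by
  have h0 : b / a ≠ 0 := div_ne_zero hb ha
  have h1 : (‖b / a‖ : ℂ) ≠ 0 := ofReal_ne_zero.2 (norm_ne_zero_iff.2 h0)
  have h2 := norm_mul_exp_arg_mul_I (b / a)
  refine ⟨‖b / a‖⁻¹, inv_pos.2 (norm_pos_iff.2 h0), ?_⟩
  rw [ofReal_inv, eq_inv_mul_iff_mul_eq₀ h1, mul_left_comm, h2, mul_div_cancel₀ _ ha]

end ConAux

open ConAux in
theorem conS : ConS := by
  refine fun hB hP => ⟨fun n _ i hi he h hc h3 p hp => ?_, fun n hn h hc h3 p hp => ?_⟩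
  · obtain ⟨θ, hθ⟩ := exists_rf hB hp.2.2 hi he
    have hS := (countable_real (n := n) hp.2.2).isPathConnected_compl_of_one_lt_rank
      (by rw [Complex.rank_real_complex]; exact Cardinal.one_lt_two)
    rw [← hθ]
    refine const_on hB hP hp hc h3 hS.isConnected.isPreconnected (fun _ ht => ht) ?_ ?_
    · show ¬ RealPt (fam n p 0)
      rw [fam_zero hp.2.2]
      exact hp.1.2
    · show ¬ RealPt (fam n p θ)
      rw [hθ]
      exact fun hr => hp.1.2 (rf_real hr)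
  · have hx := hp.2.2
    have := const_on hB hP hp hc h3 isPreconnected_univ
      (fun t _ => not_real hP hn (fam_mem hP hp t) (vs_rot hp.2.1 t) (tor_rot hx t)) (mem_univ _)
      (mem_univ ⟨arg (p.1 2 / p.1 0), arg (p.1 2 / p.1 1)⟩)
    refine ⟨_, this.1, fun i => ?_, this.2⟩
    fin_cases i
    · simpa [fam, rot] using turn (hx 0) (hx 2)
    · simpa [fam, rot] using turn (hx 1) (hx 2)
    · exact ⟨1, one_pos, by simp⟩

end

end Pool.Agent.MP_6600f1_ag.ce
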