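import Pool.Agent.MP_6600f1_ag.ce.Spec

/-! The heavy vertices lie in a triangle, and the two curves are nonsingular. -/

namespace Pool.Agent.MP_6600f1_ag.ce

open MvPolynomial

noncomputable section

namespace Cov

theorem dl_pos : 0 < dl := by unfold dl; positivity

theorem dl_le : dl ≤ 1 / 10 ^ 8 := le_rfl

theorem dl_lt_one : dl < 1 := by unfold dl; norm_num

theorem norm_xi (D : TD) (n : Fin 21) (x : V) :
    ‖xi D n x‖ = dl ^ (4 * D.nu n) * (‖x 0‖ ^ ex n 0 * ‖x 1‖ ^ ex n 1 * ‖x 2‖ ^ ex n 2) := by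
  simp only [xi, Fin.prod_univ_three, norm_mul, norm_pow, Complex.norm_real, Real.norm_eq_abs,
    abs_of_pos dl_pos]

/-- a cheaper pair with the same sum -/
def Bad2 (D : TD) (a b : Fin 21) : Prop :=
  ∃ q r : Fin 21, ex a 0 + ex b 0 = ex q 0 + ex r 0 ∧ ex a 1 + ex b 1 = ex q 1 + ex r 1 ∧
    ex a 2 + ex b 2 = ex q 2 + ex r 2 ∧ D.nu q + D.nu r < D.nu a + D.nu b

/-- a cheaper centre of a triple -/
def Bad3 (D : TD) (a b c : Fin 21) : Prop :=
  ∃ m : Fin 21, ex a 0 + ex b 0 + ex c 0 = 3 * ex m 0 ∧ ex a 1 + ex b 1 + ex c 1 = 3 * ex m 1 ∧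
    ex a 2 + ex b 2 + ex c 2 = 3 * ex m 2 ∧ 3 * D.nu m < D.nu a + D.nu b + D.nu c

def In (D : TD) (t : Fin 25) (a : Fin 21) : Prop := a = D.tr t 0 ∨ a = D.tr t 1 ∨ a = D.tr t 2

def Adj (D : TD) (a b : Fin 21) : Prop := ∃ t, In D t a ∧ In D t b

instance (D : TD) (a b : Fin 21) : Decidable (Bad2 D a b) := by unfold Bad2; infer_instance

instance (D : TD) (a b c : Fin 21) : Decidable (Bad3 D a b c) := by unfold Bad3; infer_instance

instance (D : TD) (t : Fin 25) (a : Fin 21) : Decidable (In D t a) := by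
  unfold In; infer_instance

instance (D : TD) (a b : Fin 21) : Decidable (Adj D a b) := by unfold Adj; infer_instance

theorem mem_vs (D : TD) (t : Fin 25) (a : Fin 21) : a ∈ D.vs t ↔ In D t a := by
  simp [TD.vs, In]

theorem pow_le_of_lt {u v : ℕ} (h : u < v) : dl ^ (4 * v) ≤ dl ^ 4 * dl ^ (4 * u) := by
  rw [← pow_add]
  exact pow_le_pow_of_le_one dl_pos.le dl_lt_one.le (by omega)

theorem bad2_le {D : TD} {a b : Fin 21} (h : Bad2 D a b) (x : V) {M : ℝ}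
    (hM : ∀ n, ‖xi D n x‖ ≤ M) : ‖xi D a x‖ * ‖xi D b x‖ ≤ dl ^ 4 * (M * M) := by
  obtain ⟨q, r, h0, h1, h2, h3⟩ := h
  have hd := dl_pos
  have e1 : ‖xi D a x‖ * ‖xi D b x‖ = dl ^ (4 * (D.nu a + D.nu b)) *
      (‖x 0‖ ^ (ex a 0 + ex b 0) * ‖x 1‖ ^ (ex a 1 + ex b 1) * ‖x 2‖ ^ (ex a 2 + ex b 2)) := by
    rw [norm_xi, norm_xi]; ring
  have e2 : ‖xi D q x‖ * ‖xi D r x‖ = dl ^ (4 * (D.nu q + D.nu r)) *
      (‖x 0‖ ^ (ex q 0 + ex r 0) * ‖x 1‖ ^ (ex q 1 + ex r 1) * ‖x 2‖ ^ (ex q 2 + ex r 2)) := by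
    rw [norm_xi, norm_xi]; ring
  have e3 : ‖xi D q x‖ * ‖xi D r x‖ ≤ M * M :=
    mul_le_mul (hM q) (hM r) (norm_nonneg _) ((norm_nonneg _).trans (hM q))
  calc ‖xi D a x‖ * ‖xi D b x‖ ≤ dl ^ 4 * (‖xi D q x‖ * ‖xi D r x‖) := by
        rw [e1, e2, h0, h1, h2, ← mul_assoc (dl ^ 4)]
        exact mul_le_mul_of_nonneg_right (pow_le_of_lt h3) (by positivity)
    _ ≤ dl ^ 4 * (M * M) := mul_le_mul_of_nonneg_left e3 (by positivity)

theorem bad3_le {D : TD} {a b c : Fin 21} (h : Bad3 D a b c) (x : V) {M : ℝ}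
    (hM : ∀ n, ‖xi D n x‖ ≤ M) :
    ‖xi D a x‖ * ‖xi D b x‖ * ‖xi D c x‖ ≤ dl ^ 4 * (M * M * M) := by
  obtain ⟨m, h0, h1, h2, h3⟩ := h
  have hd := dl_pos
  have e1 : ‖xi D a x‖ * ‖xi D b x‖ * ‖xi D c x‖ = dl ^ (4 * (D.nu a + D.nu b + D.nu c)) *
      (‖x 0‖ ^ (ex a 0 + ex b 0 + ex c 0) * ‖x 1‖ ^ (ex a 1 + ex b 1 + ex c 1) *
        ‖x 2‖ ^ (ex a 2 + ex b 2 + ex c 2)) := by
    rw [norm_xi, norm_xi, norm_xi]; ring
  have e2 : ‖xi D m x‖ ^ 3 = dl ^ (4 * (3 * D.nu m)) *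
      (‖x 0‖ ^ (3 * ex m 0) * ‖x 1‖ ^ (3 * ex m 1) * ‖x 2‖ ^ (3 * ex m 2)) := by
    rw [norm_xi]; ring
  have e3 : ‖xi D m x‖ ^ 3 ≤ M ^ 3 := pow_le_pow_left₀ (norm_nonneg _) (hM m) 3
  calc ‖xi D a x‖ * ‖xi D b x‖ * ‖xi D c x‖ ≤ dl ^ 4 * ‖xi D m x‖ ^ 3 := by
        rw [e1, e2, h0, h1, h2, ← mul_assoc (dl ^ 4)]
        exact mul_le_mul_of_nonneg_right (pow_le_of_lt h3) (by positivity)
    _ ≤ dl ^ 4 * M ^ 3 := mul_le_mul_of_nonneg_left e3 (by positivity)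
    _ = dl ^ 4 * (M * M * M) := by ring

theorem pick {α : Type} (H : α → Prop) (a : α) (ha : H a) :
    (∃ b, H b ∧ ∀ d, H d → d = a ∨ d = b) ∨ ∃ b c, H b ∧ H c ∧ a ≠ b ∧ a ≠ c ∧ b ≠ c := by
  by_cases h1 : ∃ b, H b ∧ a ≠ b
  · obtain ⟨b, hb, hab⟩ := h1
    by_cases h2 : ∃ c, H c ∧ a ≠ c ∧ b ≠ c
    · obtain ⟨c, hc, h⟩ := h2
      exact Or.inr ⟨b, c, hb, hc, hab, h⟩
    · refine Or.inl ⟨b, hb, fun d hd => ?_⟩
      by_contra k
      exact h2 ⟨d, hd, fun e => k (Or.inl e.symm), fun e => k (Or.inr e.symm)⟩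
  · refine Or.inl ⟨a, ha, fun d hd => Or.inl ?_⟩
    by_contra k
    exact h1 ⟨d, hd, fun e => k e.symm⟩

/-- the finite facts about a triangulation -/
def Chk (D : TD) : Prop :=
  (∀ a b, Adj D a b ∨ Bad2 D a b) ∧
  (∀ a b, a ≠ b → Adj D a b → ∀ c, a ≠ c → b ≠ c → Adj D a c → Adj D b c → Bad3 D a b c ∨
    ∀ d, Adj D a d → Adj D b d → Adj D c d → Bad3 D a b d ∨ Bad3 D a c d ∨ Bad3 D b c d ∨
      d = a ∨ d = b ∨ d = c) ∧
  (∀ a b, Adj D a b → ∀ c, Adj D a c → Adj D b c → Bad3 D a b c ∨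
    ∃ t, In D t a ∧ In D t b ∧ In D t c) ∧
  (∀ (i : Fin 3) a b, ex a i = 0 → ex b i = 0 → Adj D a b →
    (∃ t, In D t a ∧ In D t b ∧ ∃ k k', k ≠ k' ∧ ex (D.tr t k) i = 0 ∧ ex (D.tr t k') i = 0) ∧
      ∀ c, ex c i = 0 → Adj D a c → Adj D b c → a = b ∨ a = c ∨ b = c)

theorem chk1 : Chk D1 := by
  refine ⟨?_, ?_, ?_, ?_⟩ <;> decide +kernel

theorem chk2 : Chk D2 := by
  refine ⟨?_, ?_, ?_, ?_⟩ <;> decide +kernel

theorem cov_of (D : TD) (hC : Chk D) (hB : BasicS) : CovS D := by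
  intro x hx
  obtain ⟨c1, c2, c3, c4⟩ := hC
  obtain ⟨a, ha0, haM, ha⟩ := (hB D).2.2.2.2.2.2 x hx
  set M := ‖xi D a x‖ with hM
  have hMpos : 0 < M := norm_pos_iff.2 ha0
  have hd := dl_pos
  have hd1 := dl_lt_one
  have hv : ∀ n, ¬ Lt D n x → dl * M ≤ ‖xi D n x‖ := fun n hn => by
    by_contra k
    exact hn ⟨a, not_le.1 k⟩
  have hdM : 0 < dl * M := by positivity
  have hadj : ∀ n n', ¬ Lt D n x → ¬ Lt D n' x → Adj D n n' := by
    intro n n' hn hn'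
    refine (c1 n n').resolve_right fun hb => ?_
    have k1 := bad2_le hb x haM
    have k2 : dl * M * (dl * M) ≤ ‖xi D n x‖ * ‖xi D n' x‖ :=
      mul_le_mul (hv n hn) (hv n' hn') hdM.le (norm_nonneg _)
    have k3 : dl ^ 4 < dl ^ 2 := pow_lt_pow_right_of_lt_one₀ hd hd1 (by norm_num)
    have k4 : dl ^ 4 * (M * M) < dl ^ 2 * (M * M) := mul_lt_mul_of_pos_right k3 (by positivity)
    nlinarith
  have hb3 : ∀ n n' n'', ¬ Lt D n x → ¬ Lt D n' x → ¬ Lt D n'' x → ¬ Bad3 D n n' n'' := by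
    intro n n' n'' hn hn' hn'' hb
    have k1 := bad3_le hb x haM
    have k2 : dl * M * (dl * M) * (dl * M) ≤ ‖xi D n x‖ * ‖xi D n' x‖ * ‖xi D n'' x‖ :=
      mul_le_mul (mul_le_mul (hv n hn) (hv n' hn') hdM.le (norm_nonneg _)) (hv n'' hn'') hdM.le
        (by positivity)
    have k3 : dl ^ 4 < dl ^ 3 := pow_lt_pow_right_of_lt_one₀ hd hd1 (by norm_num)
    have k4 : dl ^ 4 * (M * M * M) < dl ^ 3 * (M * M * M) :=
      mul_lt_mul_of_pos_right k3 (by positivity)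
    nlinarith
  have hVS : ∀ t, (∀ d, ¬ Lt D d x → In D t d) → x ∈ VS D (D.vs t) := by
    intro t h n hn
    by_contra k
    exact hn ((mem_vs D t n).2 (h n k))
  by_cases hT : Tor x
  · rcases pick (fun n => ¬ Lt D n x) a ha with ⟨b, hb, h⟩ | ⟨b, c, hb, hc, hab, hac, hbc⟩
    · obtain ⟨t, h1, h2⟩ := hadj a b ha hb
      refine ⟨t, hVS t fun d hd => ?_, Or.inl hT⟩
      rcases h d hd with rfl | rfl
      exacts [h1, h2]
    · obtain ⟨t, h1, h2, h3⟩ := (c3 a b (hadj a b ha hb) c (hadj a c ha hc)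
        (hadj b c hb hc)).resolve_left (hb3 a b c ha hb hc)
      have k := (c2 a b hab (hadj a b ha hb) c hac hbc (hadj a c ha hc)
        (hadj b c hb hc)).resolve_left (hb3 a b c ha hb hc)
      refine ⟨t, hVS t fun d hd => ?_, Or.inl hT⟩
      rcases k d (hadj a d ha hd) (hadj b d hb hd) (hadj c d hc hd) with
        e | e | e | rfl | rfl | rfl
      · exact absurd e (hb3 _ _ _ ha hb hd)
      · exact absurd e (hb3 _ _ _ ha hc hd)
      · exact absurd e (hb3 _ _ _ hb hc hd)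
      exacts [h1, h2, h3]
  · obtain ⟨i, hi⟩ : ∃ i, x i = 0 := by
      by_contra k
      exact hT fun i e => k ⟨i, e⟩
    have hz : ∀ n, ¬ Lt D n x → ex n i = 0 := by
      intro n hn
      by_contra k
      have : xi D n x = 0 := by
        unfold xi
        rw [Finset.prod_eq_zero (Finset.mem_univ i) (by rw [hi, zero_pow k]), mul_zero]
      have h2 := hv n hn
      rw [this, norm_zero] at h2
      exact absurd hdM (not_lt.2 h2)
    rcases pick (fun n => ¬ Lt D n x) a ha with ⟨b, hb, h⟩ | ⟨b, c, hb, hc, hab, hac, hbc⟩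
    · obtain ⟨⟨t, h1, h2, k, k', hk, h3, h4⟩, -⟩ := c4 i a b (hz a ha) (hz b hb) (hadj a b ha hb)
      refine ⟨t, hVS t fun d hd => ?_, Or.inr ⟨i, k, k', hi, hk, h3, h4⟩⟩
      rcases h d hd with rfl | rfl
      exacts [h1, h2]
    · rcases (c4 i a b (hz a ha) (hz b hb) (hadj a b ha hb)).2 c (hz c hc) (hadj a c ha hc)
        (hadj b c hb hc) with e | e | e
      exacts [absurd e hab, absurd e hac, absurd e hbc]

/-! ### nonsingularity -/

theorem X_mul_pderiv_prod (r : ℝ) (a : Fin 3 → ℕ) (i : Fin 3) :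
    (X i : Form) * pderiv i (C r * ∏ j, X j ^ a j) = a i • (C r * ∏ j, X j ^ a j) := by
  have e : (C r * ∏ j, X j ^ a j : Form) = monomial (Finsupp.equivFunOnFinite.symm a) r := by
    rw [monomial_eq, Finsupp.prod_fintype _ _ (by simp)]
    simp
  rw [e, X_mul_pderiv_monomial]
  simp

theorem euler (D : TD) (x : V) (i : Fin 3) :
    x i * aeval x (pderiv i (tp D)) = ∑ n, 2 * (ex n i : ℂ) * ((sg D n : ℂ) * xi D n x ^ 2) := by
  have e : x i * aeval x (pderiv i (tp D)) = aeval x ((X i : Form) * pderiv i (tp D)) := by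
    rw [map_mul, aeval_X]
  rw [e, tp, map_sum, Finset.mul_sum, map_sum]
  refine Finset.sum_congr rfl fun n _ => ?_
  rw [X_mul_pderiv_prod (sg D n * dl ^ (8 * D.nu n)) (fun j => 2 * ex n j) i]
  simp only [nsmul_eq_mul, map_mul, map_natCast, aeval_C, map_pow, aeval_X, xi,
    Fin.prod_univ_three, Complex.coe_algebraMap]
  push_cast
  ring

/-- determinant of three exponent vectors -/
def dt (n b c : Fin 21) : ℤ :=
  (ex n 0 : ℤ) * (ex b 1 * ex c 2 - ex b 2 * ex c 1) +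
    (ex n 1 : ℤ) * (ex b 2 * ex c 0 - ex b 0 * ex c 2) +
    (ex n 2 : ℤ) * (ex b 0 * ex c 1 - ex b 1 * ex c 0)

theorem ex_le (n : Fin 21) (i : Fin 3) : ex n i ≤ 5 := by
  revert n i; decide +kernel

theorem dt_le (n b c : Fin 21) : |dt n b c| ≤ 375 := by
  have key : ∀ u v w u' w' : ℕ, u ≤ 5 → v ≤ 5 → w ≤ 5 → u' ≤ 5 → w' ≤ 5 →
      |(u : ℤ) * (v * w - u' * w')| ≤ 125 := by
    intro u v w u' w' h1 h2 h3 h4 h5
    have k1 : v * w ≤ 25 := Nat.mul_le_mul h2 h3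
    have k2 : u' * w' ≤ 25 := Nat.mul_le_mul h4 h5
    have k3 : |(v : ℤ) * w - u' * w'| ≤ 25 := by
      have k1' : (v : ℤ) * w ≤ 25 := by exact_mod_cast k1
      have k2' : (u' : ℤ) * w' ≤ 25 := by exact_mod_cast k2
      have k5 : (0 : ℤ) ≤ (v : ℤ) * w := by positivity
      have k6 : (0 : ℤ) ≤ (u' : ℤ) * w' := by positivity
      rw [abs_le]
      constructor <;> linarith
    have k4 : |(u : ℤ)| ≤ 5 := by rw [abs_le]; omega
    rw [abs_mul]
    calc |(u : ℤ)| * |(v : ℤ) * w - u' * w'| ≤ 5 * 25 :=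
          mul_le_mul k4 k3 (abs_nonneg _) (by norm_num)
      _ = 125 := by norm_num
  have a1 := key _ _ _ _ _ (ex_le n 0) (ex_le b 1) (ex_le c 2) (ex_le b 2) (ex_le c 1)
  have a2 := key _ _ _ _ _ (ex_le n 1) (ex_le b 2) (ex_le c 0) (ex_le b 0) (ex_le c 2)
  have a3 := key _ _ _ _ _ (ex_le n 2) (ex_le b 0) (ex_le c 1) (ex_le b 1) (ex_le c 0)
  unfold dt
  rw [abs_le] at *
  omega

def Chk' (D : TD) : Prop :=
  ∀ t a, In D t a → ∃ k k' : Fin 3, dt a (D.tr t k) (D.tr t k') ≠ 0 ∧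
    ∀ n, In D t n → n ≠ a → dt n (D.tr t k) (D.tr t k') = 0

theorem chk1' : Chk' D1 := by unfold Chk'; decide +kernel

theorem chk2' : Chk' D2 := by unfold Chk'; decide +kernel

theorem norm_sg (D : TD) (n : Fin 21) : ‖(sg D n : ℂ)‖ = 1 := by
  unfold sg; split_ifs <;> simp

theorem ns_of (D : TD) (hC : Chk' D) : NsS D := by
  intro hB hcov x hx _
  by_contra hcon
  have hz : ∀ i, aeval x (pderiv i (tp D)) = 0 := fun i => by
    by_contra k
    exact hcon ⟨i, k⟩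
  obtain ⟨t, ht, -⟩ := hcov x hx
  obtain ⟨a, ha0, haM, ha⟩ := (hB D).2.2.2.2.2.2 x hx
  have hat : In D t a := by
    by_contra k
    exact ha (ht a fun h => k ((mem_vs D t a).1 h))
  obtain ⟨k, k', h1, h2⟩ := hC t a hat
  set b := D.tr t k
  set c := D.tr t k'
  set M := ‖xi D a x‖ with hM
  have hMpos : 0 < M := norm_pos_iff.2 ha0
  have hd := dl_pos
  have he : ∀ i, ∑ n, (ex n i : ℂ) * ((sg D n : ℂ) * xi D n x ^ 2) = 0 := by
    intro i
    have h := euler D x i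
    rw [hz i, mul_zero] at h
    have h' : (2 : ℂ) * ∑ n, (ex n i : ℂ) * ((sg D n : ℂ) * xi D n x ^ 2) = 0 := by
      rw [Finset.mul_sum, h]
      exact Finset.sum_congr rfl fun n _ => by ring
    exact (mul_eq_zero.1 h').resolve_left two_ne_zero
  have hs : ∑ n, (dt n b c : ℂ) * ((sg D n : ℂ) * xi D n x ^ 2) = 0 := by
    have : ∑ n, (dt n b c : ℂ) * ((sg D n : ℂ) * xi D n x ^ 2) =
        ((ex b 1 : ℂ) * ex c 2 - ex b 2 * ex c 1) *
            ∑ n, (ex n 0 : ℂ) * ((sg D n : ℂ) * xi D n x ^ 2) +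
          ((ex b 2 : ℂ) * ex c 0 - ex b 0 * ex c 2) *
            ∑ n, (ex n 1 : ℂ) * ((sg D n : ℂ) * xi D n x ^ 2) +
          ((ex b 0 : ℂ) * ex c 1 - ex b 1 * ex c 0) *
            ∑ n, (ex n 2 : ℂ) * ((sg D n : ℂ) * xi D n x ^ 2) := by
      simp only [Finset.mul_sum, ← Finset.sum_add_distrib]
      refine Finset.sum_congr rfl fun n _ => ?_
      simp only [dt]
      push_cast
      ring
    rw [this, he 0, he 1, he 2]
    ring
  rw [← Finset.add_sum_erase _ _ (Finset.mem_univ a)] at hs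
  have hsmall : ∀ n ∈ Finset.univ.erase a,
      ‖(dt n b c : ℂ) * ((sg D n : ℂ) * xi D n x ^ 2)‖ ≤ 375 * (dl * M) ^ 2 := by
    intro n hn
    by_cases hin : In D t n
    · rw [h2 n hin (Finset.ne_of_mem_erase hn)]
      simp only [Int.cast_zero, zero_mul, norm_zero]
      positivity
    · obtain ⟨n', hn'⟩ := ht n fun h => hin ((mem_vs D t n).1 h)
      have k1 : ‖xi D n x‖ ≤ dl * M :=
        hn'.le.trans (mul_le_mul_of_nonneg_left (haM n') hd.le)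
      have k2 : ‖(dt n b c : ℂ)‖ ≤ 375 := by
        rw [Complex.norm_intCast]
        exact_mod_cast dt_le n b c
      rw [norm_mul, norm_mul, norm_sg, one_mul, norm_pow]
      exact mul_le_mul k2 (pow_le_pow_left₀ (norm_nonneg _) k1 2) (by positivity) (by norm_num)
  have hsum := (norm_sum_le _ _).trans (Finset.sum_le_card_nsmul _ _ _ hsmall)
  rw [Finset.card_erase_of_mem (Finset.mem_univ a), Finset.card_univ, Fintype.card_fin,
    nsmul_eq_mul] at hsum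
  have hbig : M ^ 2 ≤ ‖(dt a b c : ℂ) * ((sg D a : ℂ) * xi D a x ^ 2)‖ := by
    rw [norm_mul, norm_mul, norm_sg, one_mul, norm_pow, Complex.norm_intCast]
    have : (1 : ℝ) ≤ |(dt a b c : ℝ)| := by exact_mod_cast Int.one_le_abs h1
    exact le_mul_of_one_le_left (by positivity) this
  rw [eq_neg_of_add_eq_zero_left hs, norm_neg] at hbig
  have k := hbig.trans hsum
  have hM2 : 0 < M ^ 2 := by positivity
  have e : dl = 1 / 10 ^ 8 := rfl
  rw [e] at k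
  norm_num at k
  nlinarith

end Cov

theorem covS1 : BasicS → CovS D1 := Cov.cov_of D1 Cov.chk1

theorem covS2 : BasicS → CovS D2 := Cov.cov_of D2 Cov.chk2

theorem nsS1 : NsS D1 := Cov.ns_of D1 Cov.chk1'

theorem nsS2 : NsS D2 := Cov.ns_of D2 Cov.chk2'

end

end Pool.Agent.MP_6600f1_ag.ce
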