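import Pool.Agent.MP_6600f1_ag.ce.Spec

/-! Domination of one negative vertex on the set where the T-polynomial is not positive. -/

namespace Pool.Agent.MP_6600f1_ag.ce

open MvPolynomial Metric Set Complex
open scoped ComplexConjugate Real

namespace Dm

abbrev Ce : Type := Fin 21 × Fin 21 × ℕ × ℕ × ℕ × ℕ × Fin 21 × Fin 21

def c1 : List Ce := [
    (1, 3, 1, 1, 0, 2, 0, 2), (1, 6, 2, 1, 1, 2, 8, 0), (1, 7, 1, 1, 1, 1, 0, 8),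
    (1, 9, 1, 1, 1, 1, 2, 8), (1, 10, 2, 1, 1, 2, 8, 2), (1, 13, 1, 1, 1, 1, 2, 12),
    (1, 15, 1, 2, 1, 2, 12, 11), (1, 16, 1, 1, 1, 1, 8, 11), (1, 19, 1, 1, 0, 2, 0, 12),
    (3, 1, 1, 1, 0, 2, 0, 2), (3, 6, 2, 1, 1, 2, 8, 2), (3, 7, 1, 1, 1, 1, 2, 8),
    (3, 9, 1, 1, 1, 1, 4, 8), (3, 10, 2, 1, 1, 2, 8, 4), (3, 13, 2, 1, 1, 2, 4, 8),
    (3, 15, 1, 1, 1, 1, 8, 12), (3, 16, 1, 1, 1, 1, 2, 17), (3, 19, 1, 1, 1, 1, 8, 17),
    (6, 1, 2, 1, 1, 2, 12, 0), (6, 3, 1, 2, 1, 2, 8, 2), (6, 7, 1, 1, 1, 1, 0, 12),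
    (6, 9, 1, 1, 1, 1, 2, 12), (6, 10, 1, 1, 0, 2, 0, 8), (6, 13, 1, 1, 1, 1, 8, 11),
    (6, 15, 1, 1, 0, 2, 0, 11), (6, 16, 1, 1, 1, 1, 11, 12), (6, 19, 2, 1, 1, 2, 12, 11),
    (7, 1, 1, 1, 1, 1, 0, 8), (7, 3, 1, 1, 1, 1, 2, 8), (7, 6, 1, 1, 1, 1, 0, 12),
    (7, 9, 1, 1, 0, 2, 0, 8), (7, 10, 1, 1, 1, 1, 2, 14), (7, 13, 1, 1, 1, 1, 8, 12),
    (7, 15, 1, 1, 1, 1, 11, 12), (7, 16, 1, 1, 0, 2, 0, 12), (7, 19, 1, 1, 1, 1, 8, 18),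
    (9, 1, 1, 1, 1, 1, 2, 8), (9, 3, 1, 1, 1, 1, 4, 8), (9, 6, 1, 1, 1, 1, 2, 12),
    (9, 7, 1, 1, 0, 2, 0, 8), (9, 10, 1, 1, 1, 1, 4, 14), (9, 13, 1, 1, 1, 1, 8, 14),
    (9, 15, 1, 1, 1, 1, 11, 14), (9, 16, 1, 1, 1, 1, 8, 17), (9, 19, 2, 1, 1, 2, 12, 14),
    (10, 1, 2, 1, 1, 2, 5, 8), (10, 3, 2, 1, 1, 2, 14, 4), (10, 6, 1, 1, 0, 2, 0, 8),
    (10, 7, 1, 1, 1, 1, 2, 14), (10, 9, 1, 1, 1, 1, 4, 14), (10, 13, 2, 1, 1, 2, 4, 14),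
    (10, 15, 1, 1, 1, 1, 8, 17), (10, 16, 1, 2, 1, 2, 8, 17), (10, 19, 1, 1, 1, 1, 14, 17),
    (13, 1, 1, 1, 1, 1, 2, 12), (13, 3, 2, 1, 1, 2, 14, 8), (13, 6, 1, 1, 1, 1, 8, 11),
    (13, 7, 1, 1, 1, 1, 8, 12), (13, 9, 1, 1, 1, 1, 8, 14), (13, 10, 2, 1, 1, 2, 8, 14),
    (13, 15, 2, 1, 1, 2, 17, 12), (13, 16, 1, 1, 1, 1, 12, 17), (13, 19, 2, 1, 1, 2, 12, 17),
    (15, 1, 2, 1, 1, 2, 12, 11), (15, 3, 1, 1, 1, 1, 8, 12), (15, 6, 1, 1, 0, 2, 0, 11),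
    (15, 7, 1, 1, 1, 1, 11, 12), (15, 9, 1, 1, 1, 1, 11, 14), (15, 10, 1, 1, 1, 1, 8, 17),
    (15, 13, 2, 1, 1, 2, 18, 12), (15, 16, 1, 1, 1, 1, 12, 18), (15, 19, 2, 1, 1, 2, 12, 18),
    (16, 1, 1, 1, 1, 1, 8, 11), (16, 3, 1, 1, 1, 1, 2, 17), (16, 6, 1, 1, 1, 1, 11, 12),
    (16, 7, 1, 1, 0, 2, 0, 12), (16, 9, 1, 1, 1, 1, 8, 17), (16, 10, 2, 1, 1, 2, 8, 17),
    (16, 13, 1, 1, 1, 1, 12, 17), (16, 15, 1, 1, 1, 1, 12, 18), (16, 19, 1, 1, 1, 1, 17, 18),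
    (19, 1, 1, 1, 0, 2, 0, 12), (19, 3, 1, 1, 1, 1, 8, 17), (19, 6, 2, 1, 1, 2, 8, 18),
    (19, 7, 1, 1, 1, 1, 8, 18), (19, 9, 1, 2, 1, 2, 12, 14), (19, 10, 1, 1, 1, 1, 14, 17),
    (19, 13, 2, 1, 1, 2, 18, 17), (19, 15, 2, 1, 1, 2, 17, 18), (19, 16, 1, 1, 1, 1, 17, 18)]

def c2 : List Ce := [
    (2, 4, 1, 1, 0, 2, 0, 3), (2, 7, 1, 1, 1, 1, 3, 6), (2, 8, 2, 1, 1, 2, 6, 3),
    (2, 10, 1, 1, 1, 1, 3, 9), (2, 12, 1, 1, 1, 1, 3, 11), (2, 13, 2, 1, 1, 2, 11, 3),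
    (2, 16, 1, 1, 1, 1, 3, 15), (2, 19, 1, 1, 1, 1, 3, 18), (4, 2, 1, 1, 0, 2, 0, 3),
    (4, 7, 2, 1, 1, 2, 9, 3), (4, 8, 1, 1, 1, 1, 3, 9), (4, 10, 1, 1, 1, 1, 5, 9),
    (4, 12, 2, 1, 1, 2, 3, 9), (4, 13, 1, 1, 0, 2, 0, 9), (4, 16, 1, 1, 1, 1, 5, 15),
    (4, 19, 1, 1, 1, 1, 5, 18), (7, 2, 1, 1, 1, 1, 3, 6), (7, 4, 2, 1, 1, 2, 11, 3),
    (7, 8, 1, 1, 1, 1, 3, 11), (7, 10, 1, 1, 1, 1, 5, 11), (7, 12, 2, 1, 1, 2, 3, 11),
    (7, 13, 1, 1, 1, 1, 3, 15), (7, 16, 2, 1, 1, 2, 9, 11), (7, 19, 1, 1, 1, 1, 11, 17),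
    (8, 2, 2, 1, 1, 2, 11, 3), (8, 4, 1, 1, 1, 1, 3, 9), (8, 7, 1, 1, 1, 1, 3, 11),
    (8, 10, 1, 1, 0, 2, 0, 9), (8, 12, 1, 1, 1, 1, 9, 11), (8, 13, 2, 1, 1, 2, 11, 9),
    (8, 16, 1, 1, 1, 1, 9, 15), (8, 19, 1, 1, 1, 1, 9, 18), (10, 2, 1, 1, 1, 1, 3, 9),
    (10, 4, 1, 1, 1, 1, 5, 9), (10, 7, 1, 1, 1, 1, 5, 11), (10, 8, 1, 1, 0, 2, 0, 9),
    (10, 12, 2, 1, 1, 2, 14, 9), (10, 13, 1, 1, 1, 1, 9, 14), (10, 16, 2, 1, 1, 2, 9, 14),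
    (10, 19, 1, 1, 1, 1, 14, 17), (12, 2, 1, 1, 1, 1, 3, 11), (12, 4, 2, 1, 1, 2, 11, 9),
    (12, 7, 2, 1, 1, 2, 9, 11), (12, 8, 1, 1, 1, 1, 9, 11), (12, 10, 2, 1, 1, 2, 15, 9),
    (12, 13, 1, 1, 1, 1, 9, 15), (12, 16, 2, 1, 1, 2, 9, 15), (12, 19, 1, 1, 1, 1, 15, 17),
    (13, 2, 2, 1, 1, 2, 11, 9), (13, 4, 1, 1, 0, 2, 0, 9), (13, 7, 1, 1, 1, 1, 3, 15),
    (13, 8, 2, 1, 1, 2, 15, 9), (13, 10, 1, 1, 1, 1, 9, 14), (13, 12, 1, 1, 1, 1, 9, 15),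
    (13, 16, 1, 1, 1, 1, 14, 15), (13, 19, 1, 1, 1, 1, 14, 18), (16, 2, 1, 1, 1, 1, 3, 15),
    (16, 4, 1, 1, 1, 1, 5, 15), (16, 7, 2, 1, 1, 2, 9, 15), (16, 8, 1, 1, 1, 1, 9, 15),
    (16, 10, 2, 1, 1, 2, 15, 14), (16, 12, 2, 1, 1, 2, 14, 15), (16, 13, 1, 1, 1, 1, 14, 15),
    (16, 19, 1, 1, 1, 1, 17, 18), (19, 2, 1, 1, 1, 1, 3, 18), (19, 4, 1, 1, 1, 1, 5, 18),
    (19, 7, 1, 1, 1, 1, 11, 17), (19, 8, 1, 1, 1, 1, 9, 18), (19, 10, 1, 1, 1, 1, 14, 17),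
    (19, 12, 1, 1, 1, 1, 15, 17), (19, 13, 1, 1, 1, 1, 14, 18), (19, 16, 1, 1, 1, 1, 17, 18)]

/-- a relation between two negative and two positive vertices -/
def Rel (D : TD) (m m' : Fin 21) (j i a b : ℕ) (q q' : Fin 21) : Prop :=
  q ∉ D.ngl ∧ q' ∉ D.ngl ∧ 1 ≤ i ∧ j + i = a + b ∧ a + b ≤ 3 ∧
    a * D.nu q + b * D.nu q' < j * D.nu m + i * D.nu m' ∧
    ∀ k, j * ex m k + i * ex m' k = a * ex q k + b * ex q' k

instance (D : TD) (m m' : Fin 21) (j i a b : ℕ) (q q' : Fin 21) :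
    Decidable (Rel D m m' j i a b q q') := by unfold Rel; infer_instance

def Cert (D : TD) (L : List Ce) : Prop :=
  (∀ m ∈ D.ngl, ∀ m' ∈ D.ngl, m' ≠ m → ∃ c ∈ L, c.1 = m ∧ c.2.1 = m') ∧
  (∀ c ∈ L, Rel D c.1 c.2.1 c.2.2.1 c.2.2.2.1 c.2.2.2.2.1 c.2.2.2.2.2.1 c.2.2.2.2.2.2.1
    c.2.2.2.2.2.2.2) ∧
  ∀ t, ∀ m ∈ D.ngl, ∀ m' ∈ D.ngl, m ∈ D.vs t → m' ∈ D.vs t → m = m'

theorem cert1 : Cert D1 c1 := by
  refine ⟨by decide +kernel, by decide +kernel, by decide +kernel⟩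

theorem cert2 : Cert D2 c2 := by
  refine ⟨by decide +kernel, by decide +kernel, by decide +kernel⟩

theorem dl_pos : 0 < dl := by unfold dl; positivity

theorem dl_le : dl ≤ 1 / 100 := by unfold dl; norm_num

theorem ex_sum (n : Fin 21) : ex n 0 + ex n 1 + ex n 2 = 5 := by revert n; decide

theorem norm_xi (D : TD) (n : Fin 21) (x : V) :
    ‖xi D n x‖ = dl ^ (4 * D.nu n) * ∏ k, ‖x k‖ ^ ex n k := by
  simp only [xi, norm_mul, norm_pow, norm_prod, Complex.norm_real, Real.norm_eq_abs,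
    abs_of_pos dl_pos]

theorem pow_xi (D : TD) (n n' : Fin 21) (j i : ℕ) (x : V) :
    ‖xi D n x‖ ^ j * ‖xi D n' x‖ ^ i =
      dl ^ (4 * (j * D.nu n + i * D.nu n')) * ∏ k, ‖x k‖ ^ (j * ex n k + i * ex n' k) := by
  rw [norm_xi, norm_xi]
  simp only [Fin.prod_univ_three]
  ring

theorem rel_le {D : TD} {m m' : Fin 21} {j i a b : ℕ} {q q' : Fin 21}
    (h : Rel D m m' j i a b q q') (x : V) :
    ‖xi D m x‖ ^ j * ‖xi D m' x‖ ^ i ≤ dl * (‖xi D q x‖ ^ a * ‖xi D q' x‖ ^ b) := by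
  obtain ⟨-, -, -, -, -, hn, he⟩ := h
  rw [pow_xi, pow_xi, ← mul_assoc, ← pow_succ']
  simp only [he]
  refine mul_le_mul_of_nonneg_right ?_ (by positivity)
  exact pow_le_pow_of_le_one dl_pos.le (dl_le.trans (by norm_num)) (by omega)

theorem pos_le (D : TD) (x : V) {q : Fin 21} (hq : q ∉ D.ngl) : ‖xi D q x‖ ^ 2 ≤ PP D x := by
  unfold PP
  exact Finset.single_le_sum (f := fun n => ‖xi D n x‖ ^ 2) (fun n _ => by positivity)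
    (by simpa using hq)

theorem ne_zero_of_xi {D : TD} {m : Fin 21} {x : V} (h : xi D m x ≠ 0) : x ≠ 0 := by
  rintro rfl
  apply h
  have h5 := ex_sum m
  have : ∃ k, ex m k ≠ 0 := by
    by_contra hc
    push Not at hc
    rw [hc 0, hc 1, hc 2] at h5
    omega
  obtain ⟨k, hk⟩ := this
  unfold xi
  rw [Finset.prod_eq_zero (Finset.mem_univ k) (by simp [hk]), mul_zero]

theorem cx_ne {y : Fin 3 → ℝ} (h : y ≠ 0) : cx y ≠ 0 := by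
  intro hc
  apply h
  funext i
  have := congrFun hc i
  simpa [cx] using this

/-- the real monomial -/
noncomputable def xr (D : TD) (n : Fin 21) (y : Fin 3 → ℝ) : ℝ :=
  dl ^ (4 * D.nu n) * ∏ k, y k ^ ex n k

theorem xi_cx (D : TD) (n : Fin 21) (y : Fin 3 → ℝ) : xi D n (cx y) = (xr D n y : ℂ) := by
  simp [xi, xr, cx]

theorem eval_tp (hB : BasicS) (D : TD) (y : Fin 3 → ℝ) :
    eval y (tp D) = PP D (cx y) - ∑ n with n ∈ D.ngl, ‖xi D n (cx y)‖ ^ 2 := by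
  obtain ⟨-, h1, h2, -⟩ := hB D
  have h3 : eval y (tp D) = ∑ n, sg D n * ‖xi D n (cx y)‖ ^ 2 := by
    apply Complex.ofReal_injective
    rw [h2, h1, Complex.ofReal_sum]
    refine Finset.sum_congr rfl fun n _ => ?_
    rw [xi_cx, Complex.norm_real, Real.norm_eq_abs, sq_abs]
    push_cast
    ring
  rw [h3, ← Finset.sum_filter_add_sum_filter_not Finset.univ (fun n => n ∈ D.ngl), PP,
    sub_eq_neg_add, ← Finset.sum_neg_distrib]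
  congr 1
  · refine Finset.sum_congr rfl fun n hn => ?_
    rw [sg, if_pos (Finset.mem_filter.1 hn).2]
    ring
  · refine Finset.sum_congr rfl fun n hn => ?_
    rw [sg, if_neg (Finset.mem_filter.1 hn).2]
    ring

theorem light_sum (D : TD) (x : V) (S : Finset (Fin 21)) (M : ℝ) (hM : ∀ n, ‖xi D n x‖ ≤ M)
    (hS : ∀ n ∈ S, Lt D n x) : ∑ n ∈ S, ‖xi D n x‖ ^ 2 ≤ M ^ 2 / 2 := by
  have hM0 : 0 ≤ M := (norm_nonneg _).trans (hM 0)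
  have h1 : ∀ n ∈ S, ‖xi D n x‖ ^ 2 ≤ M ^ 2 / 42 := by
    intro n hn
    obtain ⟨n', hn'⟩ := hS n hn
    have h2 : ‖xi D n x‖ ≤ M / 100 := by
      have := hM n'
      have := dl_le
      have := dl_pos
      nlinarith [norm_nonneg (xi D n' x)]
    have h3 : ‖xi D n x‖ ^ 2 ≤ (M / 100) ^ 2 := pow_le_pow_left₀ (norm_nonneg _) h2 2
    nlinarith [sq_nonneg M]
  have h4 := Finset.sum_le_card_nsmul S _ _ h1
  have h5 : (S.card : ℝ) ≤ 21 := by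
    have := Finset.card_le_univ S
    rw [Fintype.card_fin] at this
    exact_mod_cast this
  rw [nsmul_eq_mul] at h4
  nlinarith [sq_nonneg M]

theorem dom_of_cert {D : TD} {L : List Ce} (hc : Cert D L) : DomS' D := by
  intro hB hC
  obtain ⟨hc1, hc2, hc3⟩ := hc
  have uniq : ∀ x : V, x ≠ 0 → ∀ m ∈ D.ngl, ∀ m' ∈ D.ngl, ¬ Lt D m x → ¬ Lt D m' x → m = m' := by
    intro x hx m hm m' hm' h h'
    obtain ⟨t, ht, -⟩ := hC x hx
    refine hc3 t m hm m' hm' ?_ ?_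
    · by_contra hn
      exact h (ht m hn)
    · by_contra hn
      exact h' (ht m' hn)
  refine ⟨?_, ?_, ?_, ?_⟩
  · intro m hm x hx hP
    have hp : 0 < ‖xi D m x‖ := norm_pos_iff.2 hx
    have hq : ∀ q, q ∉ D.ngl → ‖xi D q x‖ ≤ 2 * ‖xi D m x‖ := by
      intro q hq
      have := pos_le D x hq
      refine le_of_sq_le_sq ?_ (by positivity)
      nlinarith [sq_nonneg ‖xi D m x‖]
    have hall : ∀ n, ‖xi D n x‖ ≤ 2 * ‖xi D m x‖ := by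
      intro n
      by_cases hn : n ∈ D.ngl
      · by_cases hnm : n = m
        · rw [hnm]; linarith
        · obtain ⟨⟨m1, m2, j, i, a, b, q, q'⟩, hcL, rfl, rfl⟩ := hc1 m hm n hn hnm
          have hr := hc2 _ hcL
          have h1 := rel_le hr x
          obtain ⟨k1, k2, k3, k4, k5, -⟩ := hr
          simp only at *
          by_contra hlt
          push Not at hlt
          have h2 : ‖xi D m1 x‖ ^ i ≤ ‖xi D m2 x‖ ^ i :=
            pow_le_pow_left₀ hp.le (by linarith) i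
          have h3 : ‖xi D q x‖ ^ a * ‖xi D q' x‖ ^ b ≤ (2 * ‖xi D m1 x‖) ^ (a + b) := by
            rw [pow_add]
            exact mul_le_mul (pow_le_pow_left₀ (norm_nonneg _) (hq q k1) a)
              (pow_le_pow_left₀ (norm_nonneg _) (hq q' k2) b) (by positivity) (by positivity)
          have h4 : ‖xi D m1 x‖ ^ (a + b) ≤ ‖xi D m1 x‖ ^ j * ‖xi D m2 x‖ ^ i := by
            rw [← k4, pow_add]
            exact mul_le_mul_of_nonneg_left h2 (by positivity)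
          have h5 : (2 : ℝ) ^ (a + b) ≤ 2 ^ 3 := pow_le_pow_right₀ (by norm_num) k5
          have h6 : 0 < ‖xi D m1 x‖ ^ (a + b) := by positivity
          rw [mul_pow] at h3
          have h7 : ‖xi D q x‖ ^ a * ‖xi D q' x‖ ^ b ≤ 8 * ‖xi D m1 x‖ ^ (a + b) := by
            nlinarith
          have h8 := mul_le_mul_of_nonneg_left h7 dl_pos.le
          have := dl_le
          nlinarith
      · exact hq n hn
    have hh : ¬ Lt D m x := by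
      rintro ⟨n, hn⟩
      have := hall n
      have := dl_le
      have := dl_pos
      nlinarith
    refine ⟨hh, fun m' hm' hne => ?_⟩
    have hl : Lt D m' x := by
      by_contra hn
      exact hne (uniq x (ne_zero_of_xi hx) m' hm' m hm hn hh)
    obtain ⟨n, hn⟩ := hl
    have := mul_le_mul_of_nonneg_left (hall n) dl_pos.le
    linarith
  · rintro m hm y ⟨hy, hF, hh⟩
    obtain ⟨n, hn0, hn, hnh⟩ := (hB D).2.2.2.2.2.2 (cx y) (cx_ne hy)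
    have hnp : 0 < ‖xi D n (cx y)‖ := norm_pos_iff.2 hn0
    have hm0 : xi D m (cx y) ≠ 0 := by
      intro h0
      exact hh ⟨n, by rw [h0, norm_zero]; exact mul_pos dl_pos hnp⟩
    refine ⟨hm0, ?_⟩
    rw [eval_tp hB, ← Finset.add_sum_erase _ _
      (show m ∈ Finset.univ.filter (fun n => n ∈ D.ngl) by simpa using hm)] at hF
    have hs := light_sum D (cx y) ((Finset.univ.filter (fun n => n ∈ D.ngl)).erase m) _ hn (by
      intro m' hm'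
      by_contra hl
      rw [Finset.mem_erase, Finset.mem_filter] at hm'
      exact hm'.1 (uniq _ (cx_ne hy) m' hm'.2.2 m hm hl hh))
    by_cases hng : n ∈ D.ngl
    · have := uniq _ (cx_ne hy) n hng m hm hnh hh
      subst this
      nlinarith [sq_nonneg ‖xi D n (cx y)‖]
    · have := pos_le D (cx y) hng
      linarith
  · intro y hy hF
    obtain ⟨n, hn0, hn, hnh⟩ := (hB D).2.2.2.2.2.2 (cx y) (cx_ne hy)
    have hnp : 0 < ‖xi D n (cx y)‖ := norm_pos_iff.2 hn0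
    by_contra hc
    push Not at hc
    have hl : ∀ m ∈ D.ngl, Lt D m (cx y) := by
      intro m hm
      by_contra hh
      exact hc m hm ⟨hy, hF, hh⟩
    have hs := light_sum D (cx y) (Finset.univ.filter (fun n => n ∈ D.ngl)) _ hn
      (fun m hm => hl m (Finset.mem_filter.1 hm).2)
    have hp := pos_le D (cx y) (fun h => hnh (hl n h))
    rw [eval_tp hB] at hF
    nlinarith [pow_pos hnp 2]
  · rintro m hm m' hm' y ⟨hy, -, hh⟩ ⟨-, -, hh'⟩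
    exact uniq _ (cx_ne hy) m hm m' hm' hh hh'

theorem cont_cx : Continuous cx := by
  unfold cx
  fun_prop

theorem xr_neg (D : TD) (n : Fin 21) (y : Fin 3 → ℝ) : xr D n (-y) = -xr D n y := by
  have h := ex_sum n
  have h1 : ∀ k, (-y) k ^ ex n k = (-1) ^ ex n k * y k ^ ex n k := by
    intro k
    rw [Pi.neg_apply, neg_pow]
  have h2 : (-1 : ℝ) ^ ex n 0 * (-1) ^ ex n 1 * (-1) ^ ex n 2 = -1 := by
    rw [← pow_add, ← pow_add, h]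
    norm_num
  simp only [xr, Fin.prod_univ_three, h1]
  linear_combination (dl ^ (4 * D.nu n) * (y 0 ^ ex n 0 * y 1 ^ ex n 1 * y 2 ^ ex n 2)) * h2

end Dm

open Dm

theorem domS1 : DomS' D1 := dom_of_cert cert1

theorem domS2 : DomS' D2 := dom_of_cert cert2

theorem qS : QS := by
  intro hB hD γ hγ h hneg
  obtain ⟨-, h2, h3, h4⟩ := hD
  have hcl : ∀ m, IsClosed {t | ¬ Lt D1 m (cx (γ t))} := by
    intro m
    have : {t | ¬ Lt D1 m (cx (γ t))} =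
        ⋂ n, {t | dl * ‖xi D1 n (cx (γ t))‖ ≤ ‖xi D1 m (cx (γ t))‖} := by
      ext t
      simp [Lt]
    rw [this]
    have hc : ∀ n, Continuous fun t => ‖xi D1 n (cx (γ t))‖ := fun n =>
      (((hB D1).2.2.2.1 n).comp (cont_cx.comp hγ)).norm
    exact isClosed_iInter fun n => isClosed_le (continuous_const.mul (hc n)) (hc m)
  obtain ⟨m, hm, hm0⟩ := h3 (γ 0) (h 0).1 (h 0).2
  have hcomp : {t | ¬ Lt D1 m (cx (γ t))}ᶜ =
      ⋃ m' ∈ {m' | m' ∈ D1.ngl ∧ m' ≠ m}, {t | ¬ Lt D1 m' (cx (γ t))} := by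
    ext t
    simp only [mem_compl_iff, mem_iUnion, exists_prop]
    constructor
    · intro ht
      obtain ⟨m', hm', hk⟩ := h3 (γ t) (h t).1 (h t).2
      exact ⟨m', ⟨hm', fun he => ht (he ▸ hk.2.2)⟩, hk.2.2⟩
    · rintro ⟨m', ⟨hm', hne⟩, hk⟩ ht
      exact hne (h4 m' hm' m hm (γ t) ⟨(h t).1, (h t).2, hk⟩ ⟨(h t).1, (h t).2, ht⟩)
  have hop : IsOpen {t | ¬ Lt D1 m (cx (γ t))} := by
    rw [← isClosed_compl_iff, hcomp]
    exact (Set.toFinite _).isClosed_biUnion fun m' _ => hcl m'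
  have hun : {t | ¬ Lt D1 m (cx (γ t))} = univ :=
    IsClopen.eq_univ ⟨hcl m, hop⟩ ⟨0, hm0.2.2⟩
  have hne : ∀ t, xr D1 m (γ t) ≠ 0 := by
    intro t h0
    have ht : t ∈ {t | ¬ Lt D1 m (cx (γ t))} := hun ▸ mem_univ t
    apply (h2 m hm (γ t) ⟨(h t).1, (h t).2, ht⟩).1
    rw [xi_cx, h0, Complex.ofReal_zero]
  have hcont : Continuous fun t => xr D1 m (γ t) := by
    unfold xr
    fun_prop
  have h01 : xr D1 m (γ 1) = -xr D1 m (γ 0) := by rw [hneg, xr_neg]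
  rcases lt_or_gt_of_ne (hne 0) with hs | hs
  · obtain ⟨t, ht⟩ := intermediate_value_univ 0 1 hcont
      (show (0 : ℝ) ∈ Icc _ _ from ⟨hs.le, by linarith⟩)
    exact hne t ht
  · obtain ⟨t, ht⟩ := intermediate_value_univ 1 0 hcont
      (show (0 : ℝ) ∈ Icc _ _ from ⟨by linarith, hs.le⟩)
    exact hne t ht

theorem q2S : Q2S := by
  intro hB
  refine ⟨fun t => ![Real.cos (π * t), 0, Real.sin (π * t)], ?_, fun t => ?_, ?_⟩
  · refine continuous_pi fun i => ?_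
    fin_cases i <;> simp <;> fun_prop
  · have hy : (![Real.cos (π * t), 0, Real.sin (π * t)] : Fin 3 → ℝ) ≠ 0 := by
      intro h
      have h0 := congrFun h 0
      have h2 := congrFun h 2
      simp only [Matrix.cons_val_zero, Pi.zero_apply, Matrix.cons_val] at h0 h2
      have := Real.cos_sq_add_sin_sq (π * t)
      rw [h0, h2] at this
      norm_num at this
    refine ⟨hy, ?_⟩
    have hz : ∀ n ∈ D2.ngl, xi D2 n (cx ![Real.cos (π * t), 0, Real.sin (π * t)]) = 0 := by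
      intro n hn
      have he : ∀ n ∈ D2.ngl, ex n 1 ≠ 0 := by decide
      unfold xi
      rw [Finset.prod_eq_zero (Finset.mem_univ 1) (by simp [cx, he n hn]), mul_zero]
    obtain ⟨n, hn0, -⟩ := (hB D2).2.2.2.2.2.2 _ (cx_ne hy)
    have hp := pos_le D2 (cx ![Real.cos (π * t), 0, Real.sin (π * t)])
      (fun h => hn0 (hz n h))
    rw [eval_tp hB, Finset.sum_eq_zero fun n hn => by
      rw [hz n (Finset.mem_filter.1 hn).2]; simp]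
    have := pow_pos (norm_pos_iff.2 hn0) 2
    linarith
  · funext i
    fin_cases i <;> simp

end Pool.Agent.MP_6600f1_ag.ce
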