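import Pool.Agent.MP_6600f1_ag.ce.Spec

/-! Finite facts about the fans of the first triangulation. -/

namespace Pool.Agent.MP_6600f1_ag.ce

def fan (n : Fin 21) : List (Fin 25) :=
  [[11, 18, 17, 4], [4, 8], [8, 9], [9, 10], [10, 21, 20, 5, 6], [6], [12, 11], [16, 17, 18],
    [0, 19, 21, 10, 9, 8, 4, 17, 16, 7], [19, 20, 21], [6, 5], [14, 12],
    [2, 7, 16, 18, 11, 12, 14, 13, 24, 23], [0, 7, 2, 1], [5, 20, 19, 0, 1], [13, 14],
    [22, 23, 24], [1, 2, 23, 22, 3], [15, 3, 22, 24, 13], [3, 15], [15]].getD n []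

def nth (n : Fin 21) (i : ℕ) : Fin 25 := (fan n).getD i 0

def pos (n : Fin 21) (t : Fin 25) : ℕ := (fan n).idxOf t

def len (n : Fin 21) : ℕ := (fan n).length

def In (n : Fin 21) (t : Fin 25) : Prop := n = tm t ∨ n = ta t ∨ n = tb t

instance (n : Fin 21) (t : Fin 25) : Decidable (In n t) := by unfold In; infer_instance

theorem in_iff {n : Fin 21} {t : Fin 25} : n ∈ D1.vs t ↔ In n t := by
  simp [TD.vs, In, tm, ta, tb]

/-- the chart function of `t` may be nonzero on `x i = 0` -/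
def Can (t : Fin 25) (i : Fin 3) : Prop :=
  (ex (ta t) i = 0 ∧ ex (tb t) i = 0) ∨ ex (tm t) i = 0

instance (t : Fin 25) (i : Fin 3) : Decidable (Can t i) := by unfold Can; infer_instance

/-- a common vertex -/
def cv (t t' : Fin 25) : Fin 21 :=
  if In (tm t) t' then tm t else if In (ta t) t' then ta t else tb t

/-- vertices where the fan closes -/
def Cl (n : Fin 21) : Prop :=
  kd (nth n (len n - 1)) (nth n 0) ≠ 0 ∧ (n ∈ D1.ngl ∨ ∃ i : Fin 3, i ≠ 2 ∧ ex n i % 2 = 0 ∧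
    kd (nth n (len n - 1)) (nth n 0) ≠ 5 ∧
    (kd (nth n (len n - 1)) (nth n 0) = 6 → bn (nth n 0) = n))

instance (n : Fin 21) : Decidable (Cl n) := by unfold Cl; infer_instance

theorem fan_pos : ∀ n t, In n t → nth n (pos n t) = t ∧ pos n t < len n := by decide +kernel

theorem fan_in : ∀ n, ∀ i < len n, In n (nth n i) := by decide +kernel

theorem fan_neg : ∀ n, n ∈ D1.ngl → ∀ i < len n, tm (nth n i) = n := by decide +kernel

theorem len_le : ∀ n, len n ≤ 10 ∧ 0 < len n := by decide +kernel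

theorem fan_step : ∀ n, ∀ i < 10, i + 1 < len n → kd (nth n i) (nth n (i + 1)) ≠ 0 ∧
    kd (nth n i) (nth n (i + 1)) ≠ 5 ∧ kd (nth n i) (nth n (i + 1)) ≠ 6 := by decide +kernel

theorem kd_symm : ∀ t t', kd t t' ≠ 0 → kd t' t ≠ 0 := by decide +kernel

theorem link_pos : ∀ t t', kd t t' ≠ 0 → ∀ n, In n t → In n t' →
    pos n t' = pos n t + 1 ∨ pos n t = pos n t' + 1 ∨
      (pos n t' = 0 ∧ pos n t + 1 = len n ∧ Cl n) ∨
      (pos n t = 0 ∧ pos n t' + 1 = len n ∧ Cl n) := by decide +kernel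

theorem pair_cv : ∀ t t', t ≠ t' → kd t t' = 0 → ∀ n, In n t → In n t' →
    n = cv t t' ∧ ∀ i, ¬ (Can t i ∧ Can t' i ∧ ex n i = 0) := by decide +kernel

theorem triple_cv : ∀ n t, In n t → ∀ t', In n t' → t ≠ t' → ∀ t'', In n t'' → t ≠ t'' →
    t' ≠ t'' → (∀ n', In n' t → In n' t' → In n' t'' → n' = n) ∧
      ∀ i, ¬ (Can t i ∧ Can t' i ∧ Can t'' i ∧ ex n i = 0) := by decide +kernel

end Pool.Agent.MP_6600f1_ag.ce
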