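import Pool.Agent.MP_6600f1_ag.ce.Spec
import Pool.Agent.MP_6600f1_ag.h64.Transport

/-! Assembly: the two curves are not rigidly isotopic. -/

namespace Pool.Agent.MP_6600f1_ag.ce

open Set Complex MvPolynomial
open scoped Real

theorem not_nn (hB : BasicS) (hCov : CovS D1) (hG : GlS) (hN : NV) (hL : Link) (hC : Coc)
    (hD : Dens) (hR : NoRoot) (hLo : Loop) : ¬ NN (tp D1) := by
  rintro ⟨p, hp, hr, U, hU, hpU, g, hg, h0⟩
  obtain ⟨q, hqU, hq, hqr, hqt, hq0⟩ := hD p hp hr U hU hpU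
  obtain ⟨t, ht, -⟩ := hCov q.1 hq.1
  obtain ⟨γ, c, c', hγ, hper, hc, hc', hm⟩ := hLo t q hq hqr hqt hq0 ht U hU hqU
  obtain ⟨G, g1, g2, g3, g4⟩ := hC
  obtain ⟨ζ, hζ, hζ3⟩ := hG (MM (tp D1)) {p | p.2 = 0} DD ff G
    (fun i => ⟨{p | p.1 ∈ VS D1 (D1.vs i)} ∩ {p | ff i p ≠ 0},
      (((hB D1).2.2.2.2.1 _).preimage continuous_fst).inter (isOpen_ne_fun (hL.1 i) continuous_const),
      rfl⟩)
    (fun p hp => by
      obtain ⟨i, hi, hg⟩ := hCov p.1 hp.1.1
      exact ⟨i, hp, hi, hN i p hp hi hg⟩)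
    hL.1 (fun i p hp => hp.2.2) g1 g2 g3
    (fun i p hp => by
      have : p.2 = 0 := hp
      have hb : fb i p = 0 := by unfold fb; split_ifs <;> simp [this]
      simp [ff, hb])
    (fun i j p hp h => g4 i j p hp h) _ _ g hg h0 t
  let γ' : ℝ → ↥(U ∩ MM (tp D1)) := fun θ => ⟨γ θ, (hm θ).1.1, (hm θ).1.2.1⟩
  have hγ' : Continuous γ' := hγ.subtype_mk _
  refine hR (fun θ => ff t (γ θ)) (fun θ => ζ (γ' θ)) c c' hc hc' ?_ ?_
    (fun θ => hζ3 (γ' θ) (hm θ).1.2) (fun θ => (hm θ).2)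
  · exact hζ.comp_continuous hγ' fun θ => (hm θ).1.2
  · have : γ' 0 = γ' (2 * π) := Subtype.ext hper
    simp only [this]

theorem not_rigid (hB : BasicS) (hT : TNS) (h1 : ¬ NN (tp D1)) (h2 : NN (tp D2))
    (hQ : ∀ γ : ℝ → Fin 3 → ℝ, Continuous γ → (∀ t, γ t ≠ 0 ∧ eval (γ t) (tp D1) ≤ 0) →
      γ 1 ≠ -γ 0) (hQ2 : Q2S) : ¬ RigidIso 10 (tp D1) (tp D2) := by
  intro h
  obtain ⟨c, hc, φ, hl, hs, he⟩ := Tr.transport (by norm_num) h
  rcases lt_or_gt_of_ne hc with hc | hc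
  · obtain ⟨γ, hγ, hpos, hend⟩ := hQ2 hB
    have hcx : Continuous cx := continuous_pi fun i => continuous_ofReal.comp (continuous_apply i)
    have hstar : ∀ y, star (φ.symm (cx y)) = φ.symm (cx y) := by
      intro y
      apply φ.injective
      rw [hs, φ.apply_symm_apply]
      funext i
      simp [cx]
    let δ : ℝ → Fin 3 → ℝ := fun t i => (φ.symm (cx (γ t)) i).re
    have hδ : ∀ t, cx (δ t) = φ.symm (cx (γ t)) := by
      intro t
      funext i
      have := congrFun (hstar (γ t)) i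
      exact conj_eq_iff_re.1 this
    have h0 : φ 0 = 0 := by simpa using hl 0 0
    refine hQ δ (continuous_pi fun i => continuous_re.comp ((continuous_apply i).comp
      (φ.symm.continuous.comp (hcx.comp hγ)))) (fun t => ⟨fun hz => (hpos t).1 ?_, ?_⟩) ?_
    · have e := hδ t
      rw [hz] at e
      have e0 : cx 0 = 0 := by funext i; simp [cx]
      rw [e0] at e
      have e1 : cx (γ t) = 0 := by rw [← φ.apply_symm_apply (cx (γ t)), ← e, h0]
      funext i
      have := congrFun e1 i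
      simpa [cx] using this
    · have e := he (φ.symm (cx (γ t)))
      rw [φ.apply_symm_apply, ← hδ, ← (hB D1).2.2.1, map_smul, ← (hB D2).2.2.1] at e
      have e' : c * eval (γ t) (tp D2) = eval (δ t) (tp D1) := by
        rw [real_smul] at e
        exact_mod_cast e
      rw [← e']
      exact (mul_neg_of_neg_of_pos hc (hpos t).2).le
    · have e : φ.symm (cx (γ 1)) = -φ.symm (cx (γ 0)) := by
        apply φ.injective
        rw [← neg_one_smul ℂ, hl, φ.apply_symm_apply, φ.apply_symm_apply, hend]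
        funext i
        simp [cx]
      funext i
      simp only [δ, e, Pi.neg_apply, neg_re]
  · exact h1 (hT.1 _ _ φ hl hs he (hT.2 _ c hc h2))

end Pool.Agent.MP_6600f1_ag.ce
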