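import Pool.Agent.MP_6600f1_ag.ce.Spec
import Pool.Agent.MP_6600f1_ag.h57.Glue

/-! Gluing of cube roots; a loop that winds once has no cube root. -/

namespace Pool.Agent.MP_6600f1_ag.ce

open Set Complex
open scoped Real

theorem glS : GlS := by
  intro M Z D f G h1 h2 h3 h4 h5 h6 h7 h8 h9 A _ g0 g1 hg hZ i
  obtain ⟨H⟩ := hg.symm
  have e0 : ∀ a, H.toContinuousMap (0, a) = g1 a := H.map_zero_left
  have e1 : ∀ a, H.toContinuousMap (1, a) = g0 a := H.map_one_left
  have := h57.glue (M := M) (fun i => Subtype.val ⁻¹' D i)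
    (fun i => by
      obtain ⟨O, hO, e⟩ := h1 i
      rw [e, preimage_inter, Subtype.coe_preimage_self, univ_inter]
      exact hO.preimage continuous_subtype_val)
    (fun p => h2 p p.2) (fun i p => f i p)
    (fun i => ((h3 i).comp continuous_subtype_val).continuousOn) (fun i p hp => h4 i p hp)
    (fun i j p => G i j p)
    (fun i j => (h5 i j).comp continuous_subtype_val.continuousOn fun _ h => h)
    (fun i j p hp => h6 i j p hp) (fun i j k p hp => h7 i j k p hp) (Subtype.val ⁻¹' Z)
    (fun i p _ hp => h8 i p hp) (fun i j p hp hz => h9 i j p hp hz) H.toContinuousMap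
    (fun a => by rw [e0]; exact hZ a) i
  simpa only [e1, mem_preimage] using this

theorem noRoot : NoRoot := by
  intro h ζ c c' hc hc' h1 h2 h3 h4
  refine h57.no_root ζ h1 h2.symm c (c * c') ?_ ?_ fun θ => ?_
  · rcases hc with rfl | rfl <;> simp
  · rcases hc with rfl | rfl <;> rcases hc' with rfl | rfl <;> simp
  · rw [h3]
    convert h4 θ using 2
    rw [exp_mul_I]
    rcases hc with rfl | rfl <;> rcases hc' with rfl | rfl <;> simp [add_comm]

end Pool.Agent.MP_6600f1_ag.ce
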