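import Mathlib
import Pool.Agent.MP_6600f1_ag.ce.Spec

/-! The links between the chart functions: cubes, symmetry, positivity. -/

namespace Pool.Agent.MP_6600f1_ag.ce

open MvPolynomial Metric Set Complex
open scoped ComplexConjugate Real

noncomputable section

/-! ### the principal cube root -/

theorem cr_ne (z : ℂ) : cr z ≠ 0 := exp_ne_zero _

theorem cr_cube {z : ℂ} (h : z ∈ slitPlane) : cr z ^ 3 = z := by
  unfold cr
  rw [← exp_nat_mul]
  have : ((3 : ℕ) : ℂ) * (log z / 3) = log z := by push_cast; ring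
  rw [this, exp_log (slitPlane_ne_zero h)]

theorem cr_conj {z : ℂ} (h : z ∈ slitPlane) : cr (conj z) = conj (cr z) := by
  unfold cr
  rw [log_conj z (slitPlane_arg_ne_pi h), ← exp_conj, map_div₀]
  congr 2
  exact (map_ofNat (starRingEnd ℂ) 3).symm

theorem cr_inv {z : ℂ} (h : z ∈ slitPlane) : cr z * cr z⁻¹ = 1 := by
  unfold cr
  rw [log_inv z (slitPlane_arg_ne_pi h), ← exp_add]
  have : log z / 3 + -log z / 3 = 0 := by ring
  rw [this, exp_zero]

/-- positive real numbers -/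
def PR (z : ℂ) : Prop := 0 < z.re ∧ z.im = 0

theorem PR.ofReal {r : ℝ} (h : 0 < r) : PR (r : ℂ) := ⟨by simpa using h, by simp⟩

theorem PR.ex {z : ℂ} (h : PR z) : ∃ r : ℝ, 0 < r ∧ z = r :=
  ⟨z.re, h.1, Complex.ext (by simp) (by simpa using h.2)⟩

theorem PR.mul {z w : ℂ} (h : PR z) (k : PR w) : PR (z * w) := by
  obtain ⟨r, hr, rfl⟩ := h.ex
  obtain ⟨s, hs, rfl⟩ := k.ex
  exact_mod_cast PR.ofReal (mul_pos hr hs)

theorem PR.inv {z : ℂ} (h : PR z) : PR z⁻¹ := by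
  obtain ⟨r, hr, rfl⟩ := h.ex
  exact_mod_cast PR.ofReal (inv_pos.2 hr)

theorem PR.cr {z : ℂ} (h : PR z) : PR (cr z) := by
  obtain ⟨r, hr, rfl⟩ := h.ex
  unfold ce.cr
  rw [← ofReal_log hr.le]
  exact_mod_cast PR.ofReal (Real.exp_pos (Real.log r / 3))

theorem cr_im {z : ℂ} (h : z ∈ slitPlane) (h0 : z.im = 0) : (cr z).im = 0 :=
  (PR.cr ⟨(mem_slitPlane_iff.1 h).resolve_right (fun k => k h0), h0⟩).2

theorem cr_cont {S : Set (V × ℂ)} {f : V × ℂ → ℂ} (hf : ContinuousOn f S)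
    (h : ∀ p ∈ S, f p ∈ slitPlane) : ContinuousOn (fun p => cr (f p)) S :=
  ((hf.clog h).div_const 3).cexp

theorem im_mul0 {z w : ℂ} (h : z.im = 0) (k : w.im = 0) : (z * w).im = 0 := by
  rw [mul_im, h, k]; ring

theorem im_inv0 {z : ℂ} (h : z.im = 0) : z⁻¹.im = 0 := by rw [inv_im, h]; simp

theorem im_div0 {z w : ℂ} (h : z.im = 0) (k : w.im = 0) : (z / w).im = 0 := by
  rw [div_eq_mul_inv]; exact im_mul0 h (im_inv0 k)

theorem den_ne {z w : ℂ} (h : z / w ∈ slitPlane) : w ≠ 0 := by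
  rintro rfl
  exact slitPlane_ne_zero h (div_zero z)

/-! ### kinds -/

theorem kd_sym : ∀ t t' : Fin 25, (kd t t' = 1 → kd t' t = 1) ∧ (kd t t' = 2 → kd t' t = 2) ∧
    (kd t t' = 3 → kd t' t = 4) ∧ (kd t t' = 4 → kd t' t = 3) ∧ (kd t t' = 5 → kd t' t = 6) ∧
    (kd t t' = 6 → kd t' t = 5) ∧ kd t t' ≤ 6 := by decide +kernel

theorem kd_tm : ∀ t t' : Fin 25, (tm t = tm t' → kd t t' ≠ 2 ∧ kd t t' ≠ 5 ∧ kd t t' ≠ 6) ∧
    (kd t t' = 1 → ¬ St (tm t)) ∧ (kd t t' = 3 → St (tm t)) := by decide +kernel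

theorem par_ff : ∀ (t : Fin 25) (i : Fin 3),
    (St (tm t) → (-1 : ℤ) ^ ex (tm t) i = -1) ∧ (¬ St (tm t) →
      (-1 : ℤ) ^ ex (tm t) i = -((-1) ^ ex (ta t) i * (-1) ^ ex (tb t) i)) := by decide +kernel

theorem par_kd : ∀ (t t' : Fin 25) (i : Fin 3),
    (kd t t' = 1 ∨ kd t t' = 2 → (-1 : ℤ) ^ ex (ta t') i * (-1) ^ ex (tb t') i =
      (-1) ^ ex (ta t) i * (-1) ^ ex (tb t) i) ∧
    (kd t t' = 3 → (-1 : ℤ) ^ ex (ta t') i * (-1) ^ ex (tb t') i = -(-1) ^ ex (ta t) i) ∧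
    (kd t t' = 5 → Even (ex (bn t) i) → (-1 : ℤ) ^ ex (ta t') i * (-1) ^ ex (tb t') i =
      -((-1) ^ ex (ta t) i * (-1) ^ ex (tb t) i)) := by decide +kernel

theorem ex_sum : ∀ n : Fin 21, ex n 0 + ex n 1 + ex n 2 = 5 := by decide +kernel

theorem EE1 {t t' : Fin 25} (h : kd t t' = 1) : EE t t' = fun p => cr (ff t' p / ff t p) := by
  funext p; simp [EE, h]

theorem EE2 {t t' : Fin 25} (h : kd t t' = 2) :
    EE t t' = fun p => -cr (-(ff t' p / ff t p)) := by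
  funext p; simp [EE, h]

theorem EE3 {t t' : Fin 25} (h : kd t t' = 3) : EE t t' = GS t t' := by
  funext p; simp [EE, h]

theorem EE4 {t t' : Fin 25} (h : kd t t' = 4) : EE t t' = fun p => (GS t' t p)⁻¹ := by
  funext p; simp [EE, h]

theorem EE5 {t t' : Fin 25} (h : kd t t' = 5) : EE t t' = GB t t' := by
  funext p; simp [EE, h]

theorem EE6 {t t' : Fin 25} (h : kd t t' = 6) : EE t t' = fun p => (GB t' t p)⁻¹ := by
  funext p; simp [EE, h]

/-! ### links -/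

theorem XI_cont (hB : BasicS) (n : Fin 21) : Continuous (XI n) :=
  ((hB D1).2.2.2.1 n).comp continuous_fst

theorem ff_cont (hB : BasicS) (t : Fin 25) : Continuous (ff t) := by
  have h := XI_cont hB
  unfold ff fa fb
  split_ifs <;> fun_prop

theorem dl_pos : 0 < dl := by unfold dl; positivity

theorem XI_ne {p : V × ℂ} (h : Tor p.1) (n : Fin 21) : XI n p ≠ 0 :=
  mul_ne_zero (pow_ne_zero _ (by exact_mod_cast dl_pos.ne'))
    (Finset.prod_ne_zero_iff.2 fun i _ => pow_ne_zero _ (h i))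

theorem pz_ne {z : ℂ} (h : z ≠ 0) : pz z ≠ 0 :=
  div_ne_zero h (by exact_mod_cast norm_ne_zero_iff.2 h)

theorem ff_im0 (t : Fin 25) {p : V × ℂ} (h : p.2 = 0) : (ff t p).im = 0 := by
  unfold ff fb
  split_ifs <;> simp [h]

/-- `G` is a link from `t` to `t'` -/
def Gd (G : V × ℂ → ℂ) (t t' : Fin 25) : Prop :=
  ContinuousOn G (DD t ∩ DD t') ∧ ∀ p ∈ DD t ∩ DD t',
    G p ^ 3 * ff t p = ff t' p ∧ (p.2 = 0 → (G p).im = 0)

theorem Gd.ne {G : V × ℂ → ℂ} {t t' : Fin 25} (h : Gd G t t') {p : V × ℂ}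
    (hp : p ∈ DD t ∩ DD t') : G p ≠ 0 := by
  intro k
  have := (h.2 p hp).1
  rw [k] at this
  exact hp.2.2.2 (by rw [← this]; ring)

theorem Gd.inv {G : V × ℂ → ℂ} {t t' : Fin 25} (h : Gd G t t') :
    Gd (fun p => (G p)⁻¹) t' t := by
  unfold Gd
  rw [inter_comm]
  refine ⟨h.1.inv₀ fun p hp => h.ne hp, fun p hp => ⟨?_, fun k => im_inv0 ((h.2 p hp).2 k)⟩⟩
  have := h.ne hp
  rw [← (h.2 p hp).1]
  field_simp

theorem gd1 (hB : BasicS) (h : PN) {t t' : Fin 25} (k : kd t t' = 1) :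
    Gd (fun p => cr (ff t' p / ff t p)) t t' := by
  refine ⟨cr_cont ((ff_cont hB t').continuousOn.div (ff_cont hB t).continuousOn
    fun p hp => hp.1.2.2) (h t t' k), fun p hp => ⟨?_, fun h0 => ?_⟩⟩
  · rw [cr_cube (h t t' k p hp), div_mul_cancel₀ _ hp.1.2.2]
  · exact cr_im (h t t' k p hp) (im_div0 (ff_im0 _ h0) (ff_im0 _ h0))

theorem gd2 (hB : BasicS) (h : PPk) {t t' : Fin 25} (k : kd t t' = 2) :
    Gd (fun p => -cr (-(ff t' p / ff t p))) t t' := by
  refine ⟨(cr_cont ((ff_cont hB t').continuousOn.div (ff_cont hB t).continuousOn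
    fun p hp => hp.1.2.2).neg (h t t' k)).neg, fun p hp => ⟨?_, fun h0 => ?_⟩⟩
  · rw [Odd.neg_pow (by decide), cr_cube (h t t' k p hp), neg_neg, div_mul_cancel₀ _ hp.1.2.2]
  · rw [neg_im, cr_im (h t t' k p hp), neg_zero]
    rw [neg_im, im_div0 (ff_im0 _ h0) (ff_im0 _ h0), neg_zero]

theorem pz_cont (hB : BasicS) (n : Fin 21) {S : Set (V × ℂ)} (hS : ∀ p ∈ S, Tor p.1) :
    ContinuousOn (fun p => pz (XI n p)) S := by
  have h := XI_cont hB n
  refine h.continuousOn.div (by fun_prop) fun p hp => ?_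
  exact_mod_cast norm_ne_zero_iff.2 (XI_ne (hS p hp) n)

theorem gd3 (hB : BasicS) (h : SS) {t t' : Fin 25} (k : kd t t' = 3) : Gd (GS t t') t t' := by
  have hT : ∀ p ∈ DD t ∩ DD t', Tor p.1 := fun p hp => (h t t' k p hp).1
  have cW : ContinuousOn (WW t) (DD t ∩ DD t') :=
    continuous_snd.continuousOn.div (XI_cont hB _).continuousOn fun p hp => XI_ne (hT p hp) _
  have ce : ContinuousOn (eta t) (DD t ∩ DD t') :=
    (pz_cont hB _ hT).div (pz_cont hB _ hT) fun p hp => pz_ne (XI_ne (hT p hp) _)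
  have cp : ContinuousOn (ppi t) (DD t ∩ DD t') :=
    (pz_cont hB _ hT).div (pz_cont hB _ hT) fun p hp => pz_ne (XI_ne (hT p hp) _)
  have cP : ∀ j, ContinuousOn (Phi t j) (DD t ∩ DD t') := by
    intro j
    unfold Phi
    fun_prop
  have cg : ContinuousOn (gg t) (DD t ∩ DD t') := by
    unfold gg
    fun_prop
  have cj : ∀ j < 3, ContinuousOn (fun p => cr (Phi t (j + 1) p / (gg t p * Phi t j p)))
      (DD t ∩ DD t') := fun j hj =>
    cr_cont ((cP _).div (cg.mul (cP _)) fun p hp => den_ne ((h t t' k p hp).2.2.1 j hj))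
      fun p hp => (h t t' k p hp).2.2.1 j hj
  refine ⟨?_, fun p hp => ?_⟩
  · refine ((((cg.mul (cr_cont ((cP 0).div (ff_cont hB t).continuousOn fun p hp => hp.1.2.2)
      fun p hp => (h t t' k p hp).2.1)).mul (cj 0 (by norm_num))).mul (cj 1 (by norm_num))).mul
      (cj 2 (by norm_num))).mul (cr_cont ((ff_cont hB t').continuousOn.div (cP 3)
      fun p hp => den_ne (h t t' k p hp).2.2.2) fun p hp => (h t t' k p hp).2.2.2)
  obtain ⟨-, s0, sj, s4⟩ := h t t' k p hp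
  have s1 : Phi t 1 p / (gg t p * Phi t 0 p) ∈ slitPlane := sj 0 (by norm_num)
  have s2 : Phi t 2 p / (gg t p * Phi t 1 p) ∈ slitPlane := sj 1 (by norm_num)
  have s3 : Phi t 3 p / (gg t p * Phi t 2 p) ∈ slitPlane := sj 2 (by norm_num)
  refine ⟨?_, fun h0 => ?_⟩
  · unfold GS
    simp only [mul_pow]
    rw [cr_cube s0, cr_cube s1, cr_cube s2, cr_cube s3, cr_cube s4]
    have n0 := den_ne s0
    have ng := left_ne_zero_of_mul (den_ne s1)
    have n1 := right_ne_zero_of_mul (den_ne s1)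
    have n2 := right_ne_zero_of_mul (den_ne s2)
    have n3 := right_ne_zero_of_mul (den_ne s3)
    have n4 := den_ne s4
    field_simp
  · have hW : WW t p = 0 := by simp [WW, h0]
    have rP : ∀ j, (Phi t j p).im = 0 := fun j => by simp [Phi, hW]
    have rg : (gg t p).im = 0 := by simp [gg, hW]
    exact im_mul0 (im_mul0 (im_mul0 (im_mul0 (im_mul0 rg
      (cr_im s0 (im_div0 (rP 0) (ff_im0 _ h0)))) (cr_im s1 (im_div0 (rP 1) (im_mul0 rg (rP 0)))))
      (cr_im s2 (im_div0 (rP 2) (im_mul0 rg (rP 1)))))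
      (cr_im s3 (im_div0 (rP 3) (im_mul0 rg (rP 2))))) (cr_im s4 (im_div0 (ff_im0 _ h0) (rP 3)))

theorem gd5 (hB : BasicS) (h : BD) {t t' : Fin 25} (k : kd t t' = 5) : Gd (GB t t') t t' := by
  have cv : ContinuousOn (vv (bn t)) (DD t ∩ DD t') := by
    have h1 := XI_cont hB (bn t)
    refine continuousOn_const.mul (continuous_ofReal.comp_continuousOn
      (ContinuousOn.div (by fun_prop) (by fun_prop) fun p hp => ?_))
    exact abs_ne_zero.2 (h t t' k p hp).1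
  refine ⟨cv.mul (cr_cont ((ff_cont hB t').continuousOn.div ((cv.pow 3).mul
    (ff_cont hB t).continuousOn) fun p hp => den_ne (h t t' k p hp).2)
    fun p hp => (h t t' k p hp).2), fun p hp => ⟨?_, fun h0 => ?_⟩⟩
  · unfold GB
    rw [mul_pow, cr_cube (h t t' k p hp).2, mul_right_comm,
      mul_div_cancel₀ _ (den_ne (h t t' k p hp).2)]
  · exact absurd (by simp [h0]) (h t t' k p hp).1

theorem linkS : LinkS := by
  intro hB h1 h2 h3 h5
  refine ⟨ff_cont hB, fun t t' k0 => ?_⟩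
  obtain ⟨a1, a2, a3, a4, a5, a6, a7⟩ := kd_sym t t'
  have key : Gd (EE t t') t t' ∧ ∀ p ∈ DD t ∩ DD t', EE t t' p * EE t' t p = 1 := by
    have : kd t t' = 1 ∨ kd t t' = 2 ∨ kd t t' = 3 ∨ kd t t' = 4 ∨ kd t t' = 5 ∨ kd t t' = 6 := by
      omega
    rcases this with k | k | k | k | k | k
    · rw [EE1 k, EE1 (a1 k)]
      refine ⟨gd1 hB h1 k, fun p hp => ?_⟩
      have := cr_inv (h1 t t' k p hp)
      rwa [inv_div] at this
    · rw [EE2 k, EE2 (a2 k)]
      refine ⟨gd2 hB h2 k, fun p hp => ?_⟩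
      have := cr_inv (h2 t t' k p hp)
      rw [inv_neg, inv_div] at this
      simpa using this
    · rw [EE3 k, EE4 (a3 k)]
      exact ⟨gd3 hB h3 k, fun p hp => mul_inv_cancel₀ ((gd3 hB h3 k).ne hp)⟩
    · rw [EE4 k, EE3 (a4 k)]
      exact ⟨(gd3 hB h3 (a4 k)).inv, fun p hp =>
        inv_mul_cancel₀ ((gd3 hB h3 (a4 k)).ne ⟨hp.2, hp.1⟩)⟩
    · rw [EE5 k, EE6 (a5 k)]
      exact ⟨gd5 hB h5 k, fun p hp => mul_inv_cancel₀ ((gd5 hB h5 k).ne hp)⟩
    · rw [EE6 k, EE5 (a6 k)]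
      exact ⟨(gd5 hB h5 (a6 k)).inv, fun p hp =>
        inv_mul_cancel₀ ((gd5 hB h5 (a6 k)).ne ⟨hp.2, hp.1⟩)⟩
  exact ⟨key.1.1, fun p hp => ⟨(key.1.2 p hp).1, key.2 p hp, (key.1.2 p hp).2⟩⟩

/-! ### symmetry -/

/-- the sign of a monomial under a reflection -/
def sn (n : Fin 21) (i : Fin 3) : ℝ := (-1) ^ ex n i

theorem sn_or (n : Fin 21) (i : Fin 3) : sn n i = 1 ∨ sn n i = -1 := neg_one_pow_eq_or ℝ _

theorem sn_ne (n : Fin 21) (i : Fin 3) : sn n i ≠ 0 := pow_ne_zero _ (by norm_num)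

theorem xi_rf (D : TD) (n : Fin 21) (i : Fin 3) (x : V) :
    xi D n (Function.update x i (-x i)) = (sn n i : ℂ) * xi D n x := by
  unfold xi sn
  push_cast
  fin_cases i <;> simp [Fin.prod_univ_three, Function.update, neg_pow (x _)] <;> ring

theorem XI_rf (n : Fin 21) (i : Fin 3) (p : V × ℂ) :
    XI n (rf i p) = (sn n i : ℂ) * XI n p := xi_rf D1 n i p.1

theorem rf_snd (i : Fin 3) (p : V × ℂ) : (rf i p).2 = p.2 := rfl

theorem nxi_rf (n : Fin 21) (i : Fin 3) (p : V × ℂ) :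
    ‖xi D1 n (rf i p).1‖ = ‖xi D1 n p.1‖ := by
  have := XI_rf n i p
  unfold XI at this
  rw [this, norm_mul]
  rcases sn_or n i with h | h <;> simp [h]

theorem ff_rf (t : Fin 25) (i : Fin 3) (p : V × ℂ) :
    ff t (rf i p) = ((sn (ta t) i * sn (tb t) i : ℝ) : ℂ) * conj (ff t p) := by
  obtain ⟨h1, h2⟩ := par_ff t i
  unfold ff fa fb
  simp only [XI_rf, rf_snd]
  split_ifs with h
  · have e : sn (tm t) i = -1 := by unfold sn; exact_mod_cast h1 h
    rw [e]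
    apply Complex.ext <;> simp <;> ring
  · have e : sn (tm t) i = -(sn (ta t) i * sn (tb t) i) := by unfold sn; exact_mod_cast h2 h
    rw [e]
    apply Complex.ext <;> simp <;> ring

theorem rf_mem (hB : BasicS) (i : Fin 3) (t : Fin 25) (p : V × ℂ) (hp : p ∈ DD t) :
    rf i p ∈ DD t := by
  obtain ⟨⟨⟨h0, h1⟩, h2⟩, h3, h4⟩ := hp
  refine ⟨⟨⟨fun k => h0 ?_, ?_⟩, ?_⟩, fun n hn => ?_, ?_⟩
  · funext j
    have := congrFun k j
    by_cases e : j = i
    · subst e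
      simpa [rf] using this
    · simpa [rf, e] using this
  · rw [rf_snd, h1, (hB D1).2.1, (hB D1).2.1]
    refine Finset.sum_congr rfl fun n _ => ?_
    have := XI_rf n i p
    unfold XI at this
    rw [this]
    rcases sn_or n i with h | h <;> simp [h]
  · rintro ⟨l, hl, a, b⟩
    refine h2 ⟨l, hl, ?_, b⟩
    funext j
    have := congrFun a j
    by_cases e : j = i
    · subst e
      simpa [rf] using this
    · simpa [rf, e] using this
  · obtain ⟨n', hn'⟩ := h3 n hn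
    exact ⟨n', by rw [nxi_rf, nxi_rf]; exact hn'⟩
  · rw [ff_rf]
    exact mul_ne_zero (by exact_mod_cast mul_ne_zero (sn_ne _ _) (sn_ne _ _))
      ((map_ne_zero _).2 h4)

theorem rat_conj {a b a' b' : ℂ} {c : ℝ} (hc : c ≠ 0) (ha : a' = c * conj a)
    (hb : b' = c * conj b) : a' / b' = conj (a / b) := by
  rw [ha, hb, mul_div_mul_left _ _ (by exact_mod_cast hc), map_div₀]

theorem pz_sn (n : Fin 21) (i : Fin 3) (z : ℂ) : pz (sn n i * z) = sn n i * pz z := by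
  unfold pz
  rcases sn_or n i with h | h <;> simp [h, neg_div]

theorem GS_rf (h : SS) {t t' : Fin 25} (k : kd t t' = 3) (i : Fin 3) {p : V × ℂ}
    (hp : p ∈ DD t ∩ DD t') : GS t t' (rf i p) = -(sn (tb t) i : ℂ) * conj (GS t t' p) := by
  have em : sn (tm t) i = -1 := by
    unfold sn; exact_mod_cast (par_ff t i).1 ((kd_tm t t').2.2 k)
  have e' : sn (ta t') i * sn (tb t') i = -sn (ta t) i := by
    unfold sn; exact_mod_cast (par_kd t t' i).2.1 k
  have hW : WW t (rf i p) = -WW t p := by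
    unfold WW; rw [XI_rf, em, rf_snd]; simp [div_neg]
  have he : eta t (rf i p) = ((-sn (tb t) i : ℝ) : ℂ) * eta t p := by
    unfold eta; rw [XI_rf, XI_rf, pz_sn, pz_sn, em]; simp [div_neg, mul_div_assoc]
  have hq : ppi t (rf i p) = ((sn (ta t) i * sn (tb t) i : ℝ) : ℂ) * ppi t p := by
    unfold ppi; rw [XI_rf, XI_rf, pz_sn, pz_sn]
    rcases sn_or (tb t) i with b | b <;> simp [b, div_neg, mul_div_assoc]
  have hP : ∀ j, Phi t j (rf i p) =
      ((sn (ta t) i * sn (tb t) i * (-sn (tb t) i) ^ j : ℝ) : ℂ) * conj (Phi t j p) := by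
    intro j
    unfold Phi
    have : ppi t (rf i p) * eta t (rf i p) ^ j =
        ((sn (ta t) i * sn (tb t) i * (-sn (tb t) i) ^ j : ℝ) : ℂ) * (ppi t p * eta t p ^ j) := by
      rw [hq, he]; push_cast; ring
    rw [this, hW]
    generalize sn (ta t) i * sn (tb t) i * (-sn (tb t) i) ^ j = c
    generalize ppi t p * eta t p ^ j = z
    apply Complex.ext <;> simp
    ring
  have hg : gg t (rf i p) = ((-sn (tb t) i : ℝ) : ℂ) * conj (gg t p) := by
    unfold gg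
    rw [he, hW]
    apply Complex.ext <;> simp <;> ring
  have nb := sn_ne (tb t) i
  have na := sn_ne (ta t) i
  obtain ⟨-, s0, sj, s4⟩ := h t t' k p hp
  have r0 : Phi t 0 (rf i p) / ff t (rf i p) = conj (Phi t 0 p / ff t p) :=
    rat_conj (mul_ne_zero na nb) (by rw [hP]; simp) (ff_rf t i p)
  have rj : ∀ j, Phi t (j + 1) (rf i p) / (gg t (rf i p) * Phi t j (rf i p)) =
      conj (Phi t (j + 1) p / (gg t p * Phi t j p)) := fun j =>
    rat_conj (mul_ne_zero (mul_ne_zero na nb) (pow_ne_zero _ (neg_ne_zero.2 nb))) (hP (j + 1))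
      (by rw [hg, hP, map_mul]; push_cast; ring)
  have r4 : ff t' (rf i p) / Phi t 3 (rf i p) = conj (ff t' p / Phi t 3 p) := by
    refine rat_conj (neg_ne_zero.2 na) (by rw [ff_rf, e']) ?_
    rw [hP]
    rcases sn_or (tb t) i with b | b <;> rw [b] <;> push_cast <;> ring
  have r1 : Phi t 1 (rf i p) / (gg t (rf i p) * Phi t 0 (rf i p)) = _ := rj 0
  have r2 : Phi t 2 (rf i p) / (gg t (rf i p) * Phi t 1 (rf i p)) = _ := rj 1
  have r3 : Phi t 3 (rf i p) / (gg t (rf i p) * Phi t 2 (rf i p)) = _ := rj 2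
  unfold GS
  rw [r0, r1, r2, r3, r4, cr_conj s0, cr_conj (sj 0 (by norm_num)), cr_conj (sj 1 (by norm_num)),
    cr_conj (sj 2 (by norm_num)), cr_conj s4, hg]
  simp only [map_mul]
  push_cast
  ring

theorem GB_rf (h : BD) {t t' : Fin 25} (k : kd t t' = 5) {i : Fin 3} (ev : Even (ex (bn t) i))
    {p : V × ℂ} (hp : p ∈ DD t ∩ DD t') : GB t t' (rf i p) = -conj (GB t t' p) := by
  have e1 : sn (bn t) i = 1 := ev.neg_one_pow
  have e' : sn (ta t') i * sn (tb t') i = -(sn (ta t) i * sn (tb t) i) := by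
    unfold sn; exact_mod_cast (par_kd t t' i).2.2 k ev
  have hv : vv (bn t) (rf i p) = vv (bn t) p := by
    unfold vv; rw [XI_rf, e1, rf_snd]; simp
  have hc : conj (vv (bn t) p) = -vv (bn t) p := by
    unfold vv; rw [map_mul, conj_ofReal, conj_I, neg_mul]
  have r : ff t' (rf i p) / (vv (bn t) p ^ 3 * ff t (rf i p)) =
      conj (ff t' p / (vv (bn t) p ^ 3 * ff t p)) := by
    refine rat_conj (mul_ne_zero (sn_ne (ta t') i) (sn_ne (tb t') i)) (ff_rf t' i p) ?_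
    rw [ff_rf, e', map_mul, map_pow, hc]
    push_cast
    ring
  unfold GB
  rw [hv, r, cr_conj (h t t' k p hp).2, map_mul, hc]
  ring

theorem pm_inv {a b : ℂ} (h : a = conj b ∨ a = -conj b) :
    a⁻¹ = conj b⁻¹ ∨ a⁻¹ = -conj b⁻¹ := by
  rcases h with h | h
  · left; rw [h, map_inv₀]
  · right; rw [h, map_inv₀, inv_neg]

theorem symS : SymS := by
  intro hB h1 h2 h3 h5
  refine ⟨rf_mem hB, fun i t t' k0 v5 v6 p hp => ?_⟩
  obtain ⟨-, -, -, a4, -, a6, a7⟩ := kd_sym t t'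
  have r : kd t t' = 1 ∨ kd t t' = 2 →
      ff t' (rf i p) / ff t (rf i p) = conj (ff t' p / ff t p) := fun k => by
    have e : sn (ta t') i * sn (tb t') i = sn (ta t) i * sn (tb t) i := by
      unfold sn; exact_mod_cast (par_kd t t' i).1 k
    exact rat_conj (mul_ne_zero (sn_ne (ta t) i) (sn_ne (tb t) i)) (by rw [ff_rf, e])
      (ff_rf t i p)
  have s : ∀ u u', kd u u' = 3 → p ∈ DD u ∩ DD u' →
      GS u u' (rf i p) = conj (GS u u' p) ∨ GS u u' (rf i p) = -conj (GS u u' p) := by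
    intro u u' k hu
    rw [GS_rf h3 k i hu]
    rcases sn_or (tb u) i with b | b <;> simp [b]
  have : kd t t' = 1 ∨ kd t t' = 2 ∨ kd t t' = 3 ∨ kd t t' = 4 ∨ kd t t' = 5 ∨ kd t t' = 6 := by
    omega
  rcases this with k | k | k | k | k | k
  · left
    simp only [EE1 k]
    rw [r (Or.inl k), cr_conj (h1 t t' k p hp)]
  · left
    simp only [EE2 k]
    rw [r (Or.inr k), ← map_neg, cr_conj (h2 t t' k p hp), map_neg]
  · rw [EE3 k]
    exact s t t' k hp
  · simp only [EE4 k]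
    exact pm_inv (s t' t (a4 k) ⟨hp.2, hp.1⟩)
  · right
    rw [EE5 k]
    exact GB_rf h5 k (v5 k) hp
  · simp only [EE6 k]
    exact pm_inv (Or.inr (GB_rf h5 (a6 k) (v6 k) ⟨hp.2, hp.1⟩))

/-! ### positivity -/

theorem XI_eq {p : V × ℂ} (h : EqPh p) (n : Fin 21) :
    ∃ c : ℝ, 0 < c ∧ XI n p = c * p.1 2 ^ 5 := by
  obtain ⟨r0, a0, b0⟩ := h 0
  obtain ⟨r1, a1, b1⟩ := h 1
  refine ⟨dl ^ (4 * D1.nu n) * r0 ^ ex n 0 * r1 ^ ex n 1, by have := dl_pos; positivity, ?_⟩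
  unfold XI xi
  rw [Fin.prod_univ_three, b0, b1, ← ex_sum n]
  push_cast
  ring

theorem pz_pos {c : ℝ} (hc : 0 < c) (z : ℂ) : pz (c * z) = pz z := by
  unfold pz
  rw [norm_mul, Complex.norm_real, Real.norm_of_nonneg hc.le, ofReal_mul,
    mul_div_mul_left _ _ (by exact_mod_cast hc.ne')]

theorem fa_zero {p : V × ℂ} (h : EqPh p) (t : Fin 25) : fa t p = 0 := by
  obtain ⟨a, -, ha⟩ := XI_eq h (ta t)
  obtain ⟨b, -, hb⟩ := XI_eq h (tb t)
  unfold fa
  rw [ha, hb]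
  generalize p.1 2 ^ 5 = z
  simp
  ring

theorem WW_im (hB : BasicS) {p : V × ℂ} (hp : p ∈ MM (tp D1)) (hT : Tor p.1) (h : EqPh p)
    (t : Fin 25) : (WW t p).re = 0 ∧ (WW t p).im ≠ 0 := by
  choose c hc hX using XI_eq h
  have hz : p.1 2 ^ 5 ≠ 0 := pow_ne_zero _ (hT 2)
  have hm : (c (tm t) : ℂ) ≠ 0 := by exact_mod_cast (hc _).ne'
  have hw : p.2 = WW t p * (c (tm t) * p.1 2 ^ 5) := by
    unfold WW; rw [hX, div_mul_cancel₀ _ (mul_ne_zero hm hz)]
  have h2 : WW t p ^ 2 = (((∑ n, sg D1 n * c n ^ 2) / c (tm t) ^ 2 : ℝ) : ℂ) := by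
    have e : p.2 ^ 2 = ((∑ n, sg D1 n * c n ^ 2 : ℝ) : ℂ) * (p.1 2 ^ 5) ^ 2 := by
      rw [hp.1.2, (hB D1).2.1]
      push_cast
      rw [Finset.sum_mul]
      refine Finset.sum_congr rfl fun n _ => ?_
      have := hX n
      unfold XI at this
      rw [this]
      ring
    unfold WW
    rw [div_pow, e, hX, ofReal_div, ofReal_pow, mul_pow, mul_div_mul_right _ _ (pow_ne_zero _ hz)]
  have hi : (WW t p).im ≠ 0 := by
    intro k
    refine hp.2 ⟨conj (p.1 2), (map_ne_zero _).2 (hT 2), ?_, ?_⟩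
    · funext j
      obtain ⟨r, -, hr⟩ := h j
      simp only [Pi.star_apply, Pi.smul_apply, smul_eq_mul]
      rw [hr]
      generalize p.1 2 = z
      apply Complex.ext <;> simp
      ring
    · rw [hw, ← map_pow]
      generalize p.1 2 ^ 5 = z
      simp [k]
      ring
  refine ⟨?_, hi⟩
  have := congrArg Complex.im h2
  rw [ofReal_im, sq, mul_im] at this
  have k : (WW t p).re * (WW t p).im = 0 := by linarith
  exact (mul_eq_zero.1 k).resolve_right hi

theorem GS_pos (hB : BasicS) {t t' : Fin 25} (e : tm t = tm t') (k : St (tm t)) {p : V × ℂ}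
    (hp : p ∈ MM (tp D1)) (hT : Tor p.1) (h : EqPh p) : PR (GS t t' p) := by
  obtain ⟨wr, wi⟩ := WW_im hB hp hT h t
  choose c hc hX using XI_eq h
  have hz : p.1 2 ^ 5 ≠ 0 := pow_ne_zero _ (hT 2)
  have hm : (c (tm t) : ℂ) ≠ 0 := by exact_mod_cast (hc _).ne'
  have hw : p.2 = WW t p * (c (tm t) * p.1 2 ^ 5) := by
    unfold WW; rw [hX, div_mul_cancel₀ _ (mul_ne_zero hm hz)]
  have he : eta t p = 1 := by
    unfold eta; rw [hX, hX, pz_pos (hc _), pz_pos (hc _), div_self (pz_ne hz)]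
  have hq : ppi t p = 1 := by
    unfold ppi; rw [hX, hX, pz_pos (hc _), pz_pos (hc _), div_self (pz_ne hz)]
  have hP : ∀ j, Phi t j p = (WW t p).im * I := fun j => by simp [Phi, he, hq]
  have hg : gg t p = (2 : ℝ) := by
    unfold gg
    rw [he]
    apply Complex.ext <;> simp [wr]
    ring
  have hf : ∀ u, tm u = tm t → ∃ d : ℝ, 0 < d ∧ ff u p = d * ((WW t p).im * I) := by
    intro u hu
    have nz : 0 < normSq (p.1 2 ^ 5) := normSq_pos.2 hz
    refine ⟨c (tm t) ^ 2 * c (ta u) * c (tb u) * normSq (p.1 2 ^ 5) ^ 2,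
      mul_pos (mul_pos (mul_pos (pow_pos (hc _) 2) (hc _)) (hc _)) (pow_pos nz 2), ?_⟩
    have : fb u p = c (tm t) ^ 2 * c (ta u) * c (tb u) * normSq (p.1 2 ^ 5) ^ 2 * (WW t p).im := by
      unfold fb
      rw [hu, if_pos k, hX, hX, hX]
      generalize WW t p = W at *
      rw [hw]
      generalize p.1 2 ^ 5 = z
      simp [normSq_apply]
      ring
    unfold ff
    rw [fa_zero h, this]
    push_cast
    ring
  obtain ⟨d, d0, hd⟩ := hf t rfl
  obtain ⟨d', d0', hd'⟩ := hf t' e.symm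
  have hb : ((WW t p).im : ℂ) * I ≠ 0 := mul_ne_zero (by exact_mod_cast wi) I_ne_zero
  have q : ∀ x : ℝ, 0 < x → PR (cr ((WW t p).im * I / (x * ((WW t p).im * I)))) := fun x hx => by
    rw [div_mul_cancel_right₀ hb]
    exact (PR.ofReal hx).inv.cr
  unfold GS
  simp only [hP]
  rw [hg, hd, hd', mul_div_cancel_right₀ _ hb]
  exact (((((PR.ofReal two_pos).mul (q d d0)).mul (q 2 two_pos)).mul (q 2 two_pos)).mul
    (q 2 two_pos)).mul (PR.ofReal d0').cr

theorem posS : PosS := by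
  intro hB _ t t' e k0 p hp h
  obtain ⟨hM, -, hT⟩ := hp
  obtain ⟨-, -, -, a4, -, -, a7⟩ := kd_sym t t'
  obtain ⟨b0, b1, b3⟩ := kd_tm t t'
  obtain ⟨c2, c5, c6⟩ := b0 e
  change PR (EE t t' p)
  have : kd t t' = 1 ∨ kd t t' = 3 ∨ kd t t' = 4 := by omega
  rcases this with k | k | k
  · have hf : ff t' p = ff t p := by
      unfold ff fb
      rw [fa_zero h, fa_zero h, ← e, if_neg (b1 k), if_neg (b1 k)]
    simp only [EE1 k]
    rw [hf]
    by_cases z : ff t p = 0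
    · simp [z, cr, PR]
    · simp [div_self z, cr, PR]
  · rw [EE3 k]
    exact GS_pos hB e (b3 k) hM hT h
  · simp only [EE4 k]
    exact (GS_pos hB e.symm ((kd_tm t' t).2.2 (a4 k)) hM hT h).inv

end

end Pool.Agent.MP_6600f1_ag.ce
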