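import Pool.Agent.MP_6600f1_ag.ce.Spec

/-! A small loop round the real part on which the chart function winds once. -/

namespace Pool.Agent.MP_6600f1_ag.ce

open MvPolynomial Set Complex Filter Topology
open scoped ComplexConjugate Real

noncomputable section

namespace Lp

def a0 (t : Fin 25) : ℤ := (e1 (tb t) : ℤ) - e1 (tm t)
def a1 (t : Fin 25) : ℤ := (e0 (tm t) : ℤ) - e0 (tb t)
def b0 (t : Fin 25) : ℤ := (e1 (ta t) : ℤ) - e1 (tb t)
def b1 (t : Fin 25) : ℤ := (e0 (tb t) : ℤ) - e0 (ta t)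
def A (t : Fin 25) (n : Fin 21) : ℤ := a0 t * e0 n + a1 t * e1 n
def B (t : Fin 25) (n : Fin 21) : ℤ := b0 t * e0 n + b1 t * e1 n

theorem tab : ∀ t, A t (ta t) - A t (tb t) = 1 ∧ B t (ta t) = B t (tb t) ∧
    B t (tb t) - B t (tm t) = -1 ∧ tm t ∈ D1.ngl ∧ ta t ∉ D1.ngl ∧ tb t ∉ D1.ngl ∧
    ta t ≠ tb t ∧ tm t ≠ ta t ∧ tm t ≠ tb t ∧ ∀ n, |B t n - B t (tm t)| ≤ 50 := by
  decide +kernel

theorem deg : ∀ n, ex n 0 + ex n 1 + ex n 2 = 5 := by decide +kernel

/-- the point with rotated phases -/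
def X (t : Fin 25) (x : V) (s : ℝ × ℝ) : V :=
  ![x 0 * exp ((a0 t * s.1 + b0 t * s.2 : ℝ) * I), x 1 * exp ((a1 t * s.1 + b1 t * s.2 : ℝ) * I), x 2]

theorem xi_X (t : Fin 25) (x : V) (s : ℝ × ℝ) (n : Fin 21) :
    xi D1 n (X t x s) = xi D1 n x * exp ((A t n * s.1 + B t n * s.2 : ℝ) * I) := by
  have : ((A t n * s.1 + B t n * s.2 : ℝ) : ℂ) * I =
      (ex n 0 : ℕ) * ((a0 t * s.1 + b0 t * s.2 : ℝ) * I) +
        (ex n 1 : ℕ) * ((a1 t * s.1 + b1 t * s.2 : ℝ) * I) := by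
    rw [show ex n 0 = e0 n from rfl, show ex n 1 = e1 n from rfl, A, B]
    push_cast
    ring
  rw [this, Complex.exp_add, exp_nat_mul, exp_nat_mul]
  simp only [xi, X, Fin.prod_univ_three, Matrix.cons_val_zero, Matrix.cons_val_one,
    Matrix.cons_val, mul_pow]
  ring

theorem cont_X (t : Fin 25) (x : V) : Continuous (X t x) := by
  refine continuous_pi fun i => ?_
  fin_cases i <;> simp [X] <;> fun_prop

theorem X_zero (t : Fin 25) (x : V) : X t x 0 = x := by
  funext i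
  fin_cases i <;> simp [X]

theorem xi_real {x : V} {l : ℂ} (h : star (l • x) = l • x) (n : Fin 21) :
    ∃ r : ℝ, l ^ 5 * xi D1 n x = r := by
  have e : ∀ i, ∃ r : ℝ, l * x i = r := fun i =>
    ⟨(l * x i).re, (conj_eq_iff_re.1 (congrFun h i)).symm⟩
  choose r hr using e
  refine ⟨dl ^ (4 * D1.nu n) * ∏ i, r i ^ ex n i, ?_⟩
  push_cast
  simp only [← hr, xi, Fin.prod_univ_three, mul_pow, ← deg n, pow_add]
  ring

theorem im_scale {l : ℂ} (u v : ℂ) :
    (l ^ 5 * u * conj (l ^ 5 * v)).im = normSq l ^ 5 * (u * conj v).im := by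
  have : l ^ 5 * u * conj (l ^ 5 * v) = (normSq l ^ 5 : ℝ) * (u * conj v) := by
    push_cast
    rw [← mul_conj, map_mul, map_pow]
    ring
  rw [this, im_ofReal_mul]

theorem real_mul {l u v : ℂ} {r r' : ℝ} (l0 : l ≠ 0) (h : l ^ 5 * u = r) (h' : l ^ 5 * v = r') :
    u * conj v = (r * r' / normSq l ^ 5 : ℝ) := by
  have n0 : (l * conj l) ^ 5 ≠ 0 := pow_ne_zero _ (mul_ne_zero l0 (by simpa using l0))
  have h2 : conj l ^ 5 * conj v = r' := by simpa using congrArg conj h'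
  push_cast
  rw [← mul_conj, eq_div_iff n0, ← h, ← h2]
  ring

theorem ff_real {p : V × ℂ} (h : RealPt p) (t : Fin 25) : ff t p = 0 := by
  obtain ⟨l, l0, h1, h2⟩ := h
  choose r hr using xi_real h1
  have hw : l ^ 5 * p.2 = (l ^ 5 * p.2).re := Complex.ext (by simp) (by simpa using h2)
  have e1 := real_mul l0 (hr (ta t)) (hr (tb t))
  have e2 := real_mul l0 hw (hr (tm t))
  have a : fa t p = 0 := by rw [fa, XI, XI, e1, ofReal_im]
  have b : fb t p = 0 := by
    unfold fb XI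
    split_ifs
    · rw [mul_assoc, e1, e2, ← ofReal_mul, ofReal_im]
    · rw [e2, ofReal_im]
  simp [ff, a, b]

theorem sin_int (hp : PhS) (k : ℤ) (y : ℝ) : |Real.sin (k * y)| ≤ |(k : ℝ)| * |Real.sin y| := by
  have := hp.2.2.2.2.2.2.2.2 (exp (y * I)) k (norm_exp_ofReal_mul_I y)
  rw [← exp_int_mul, exp_ofReal_mul_I_im, ← mul_assoc, ← ofReal_intCast, ← ofReal_mul,
    exp_ofReal_mul_I_im] at this
  exact this

theorem split (t : Fin 25) (g : Fin 21 → ℝ) : ∑ n, sg D1 n * g n =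
    g (ta t) + g (tb t) - g (tm t) + ∑ n with n ∉ D1.vs t, sg D1 n * g n := by
  obtain ⟨-, -, -, h1, h2, h3, h4, h5, h6, -⟩ := tab t
  rw [← Finset.sum_filter_add_sum_filter_not Finset.univ (· ∈ D1.vs t), Finset.filter_mem_eq_inter,
    Finset.univ_inter]
  congr 1
  change ∑ n ∈ {tm t, ta t, tb t}, _ = _
  rw [Finset.sum_insert (by simp [h5, h6]), Finset.sum_pair h4]
  simp only [sg, h1, h2, h3, if_true, if_false]
  ring

theorem small {S : Finset (Fin 21)} {g : Fin 21 → ℝ} {c : ℝ} (c0 : 0 ≤ c) (h : ∀ n ∈ S, |g n| ≤ c) :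
    |∑ n ∈ S, sg D1 n * g n| ≤ 21 * c := by
  refine (Finset.abs_sum_le_sum_abs _ _).trans ((Finset.sum_le_card_nsmul _ _ c fun n hn => ?_).trans ?_)
  · have : |sg D1 n| = 1 := by unfold sg; split_ifs <;> simp
    rw [abs_mul, this, one_mul]
    exact h n hn
  · rw [nsmul_eq_mul]
    have : (S.card : ℝ) ≤ 21 := by exact_mod_cast (Finset.card_le_univ S).trans_eq (by simp)
    exact mul_le_mul_of_nonneg_right this c0

theorem key (hp : PhS) (t : Fin 25) {r : Fin 21 → ℝ} {N : Fin 21} (hN : N ∈ D1.vs t)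
    (N0 : r N ≠ 0) (hl : ∀ n, n ∉ D1.vs t → r n ^ 2 ≤ dl ^ 2 * r N ^ 2)
    (hF : 0 ≤ ∑ n, sg D1 n * r n ^ 2) {y : ℝ} (hy : Real.sin y ≠ 0) :
    (∑ n, sg D1 n * (r n ^ 2 * Real.sin ((B t n - B t (tm t) : ℤ) * y))) * Real.sin y < 0 := by
  obtain ⟨-, k1, k2, -, -, -, -, -, -, k3⟩ := tab t
  have M0 : 0 < r N ^ 2 := by positivity
  have s0 : 0 < |Real.sin y| := abs_pos.2 hy
  have e1 := small (S := Finset.univ.filter (· ∉ D1.vs t)) (g := fun n => r n ^ 2)
    (c := dl ^ 2 * r N ^ 2) (by positivity) fun n hn => by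
      rw [abs_of_nonneg (sq_nonneg _)]
      exact hl n (by simpa using hn)
  have e2 := small (S := Finset.univ.filter (· ∉ D1.vs t))
    (g := fun n => r n ^ 2 * Real.sin ((B t n - B t (tm t) : ℤ) * y))
    (c := dl ^ 2 * r N ^ 2 * (50 * |Real.sin y|)) (by positivity) fun n hn => by
      rw [abs_mul, abs_of_nonneg (sq_nonneg _)]
      refine mul_le_mul (hl n (by simpa using hn)) ((sin_int hp _ y).trans ?_) (abs_nonneg _)
        (by positivity)
      exact mul_le_mul_of_nonneg_right (by exact_mod_cast k3 n) s0.le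
  rw [split t] at hF ⊢
  have big : r N ^ 2 / 2 ≤ r (ta t) ^ 2 + r (tb t) ^ 2 := by
    have d : dl ^ 2 = 1 / 10 ^ 16 := by norm_num [dl]
    have := (abs_le.1 e1).2
    rw [d] at this
    rcases (show N = tm t ∨ N = ta t ∨ N = tb t by simpa [TD.vs, tm, ta, tb] using hN) with
      e | e | e <;> subst e <;> nlinarith [sq_nonneg (r (ta t)), sq_nonneg (r (tb t))]
  generalize (∑ n with n ∉ D1.vs t, sg D1 n *
    (r n ^ 2 * Real.sin ((B t n - B t (tm t) : ℤ) * y))) = R at e2 ⊢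
  rw [k1, k2, sub_self]
  simp only [Int.cast_neg, Int.cast_one, neg_mul, one_mul, Real.sin_neg, Int.cast_zero, zero_mul,
    Real.sin_zero, mul_zero, sub_zero]
  have d : dl ^ 2 = 1 / 10 ^ 16 := by norm_num [dl]
  have a : R * Real.sin y ≤ |R| * |Real.sin y| := by rw [← abs_mul]; exact le_abs_self _
  have b := mul_le_mul_of_nonneg_right e2 s0.le
  have c : |Real.sin y| * |Real.sin y| = Real.sin y ^ 2 := by rw [abs_mul_abs_self, sq]
  have q : 0 < Real.sin y ^ 2 := by positivity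
  rw [d] at b
  nlinarith [mul_pos M0 q, mul_le_mul_of_nonneg_right big q.le]

theorem slit {f g c c' θ : ℝ} (hc : c = 1 ∨ c = -1) (hc' : c' = 1 ∨ c' = -1)
    (h1 : Real.cos θ ≠ 0 → 0 < f * (c * Real.cos θ))
    (h2 : Real.cos θ = 0 → f = 0 ∧ 0 < g * (c' * Real.sin θ)) :
    ((f : ℂ) + g * I) / (c * Real.cos θ + c' * Real.sin θ * I) ∈ slitPlane := by
  have n1 : normSq ((c : ℂ) * Real.cos θ + c' * Real.sin θ * I) = 1 := by
    rw [← ofReal_mul, ← ofReal_mul, normSq_add_mul_I]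
    rcases hc with rfl | rfl <;> rcases hc' with rfl | rfl <;> simp
  rw [mem_slitPlane_iff, div_re, div_im, n1]
  simp only [add_re, add_im, mul_re, mul_im, ofReal_re, ofReal_im, I_re, I_im, mul_zero, mul_one,
    zero_mul, sub_zero, add_zero, zero_add, div_one]
  by_cases z : Real.cos θ = 0
  · exact .inl (by simpa [z] using (h2 z).2)
  · by_contra! H
    have a := h1 z
    have c2 : 0 < (c * Real.cos θ) ^ 2 := by
      rcases hc with rfl | rfl <;> simpa using pow_pos (abs_pos.2 z) 2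
    have e : g * (c * Real.cos θ) = f * (c' * Real.sin θ) := by linarith [H.2]
    have : (f * (c * Real.cos θ) + g * (c' * Real.sin θ)) * (c * Real.cos θ) ^ 2 =
        f * (c * Real.cos θ) * ((c * Real.cos θ) ^ 2 + (c' * Real.sin θ) ^ 2) := by
      linear_combination (c * Real.cos θ) * (c' * Real.sin θ) * e
    nlinarith [mul_nonneg (neg_nonneg.2 H.1) c2.le,
      mul_pos a (add_pos_of_pos_of_nonneg c2 (sq_nonneg (c' * Real.sin θ)))]

theorem sgn {a : ℝ} (h : a ≠ 0) : ∃ c : ℝ, (c = 1 ∨ c = -1) ∧ 0 < a * c := by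
  rcases h.lt_or_gt with h | h
  exacts [⟨-1, .inr rfl, by linarith⟩, ⟨1, .inl rfl, by linarith⟩]

theorem sin_pos {y : ℝ} (h : |y| ≤ 2) (y0 : y ≠ 0) : 0 < Real.sin y * y := by
  have p := Real.two_le_pi
  have p3 := Real.pi_gt_three
  rw [abs_le] at h
  rcases y0.lt_or_gt with l | l
  · exact mul_pos_of_neg_of_neg (Real.sin_neg_of_neg_of_neg_pi_lt l (by linarith)) l
  · exact mul_pos (Real.sin_pos_of_pos_of_lt_pi l (by linarith)) l

end Lp

open Lp

theorem loopS : LoopS := by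
  rintro hb hp t ⟨x, w⟩ ⟨x0, hw⟩ ⟨l, l0, h1, h2⟩ tor w0 hV U oU pU
  obtain ⟨-, hF, -, -, oV, -, hmax⟩ := hb D1
  simp only at x0 hw h1 h2 tor w0 hV
  choose r hr using xi_real h1
  obtain ⟨ω, hω⟩ : ∃ ω : ℝ, l ^ 5 * w = ω := ⟨_, Complex.ext (ofReal_re _).symm (by simpa using h2)⟩
  have l5 : l ^ 5 ≠ 0 := pow_ne_zero _ l0
  have nl : 0 < normSq l ^ 5 := pow_pos (normSq_pos.2 l0) _
  have ω0 : ω ≠ 0 := fun e => mul_ne_zero l5 w0 (by rw [hω, e, ofReal_zero])
  have r0 : ∀ n, r n ≠ 0 := fun n e => mul_ne_zero l5 (mul_ne_zero (pow_ne_zero (4 * D1.nu n)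
    (by norm_num [dl] : (dl : ℂ) ≠ 0)) (Finset.prod_ne_zero_iff.2 fun i _ =>
      pow_ne_zero (ex n i) (tor i))) ((hr n).trans (by rw [e, ofReal_zero]))
  obtain ⟨N, -, mN, hN⟩ := hmax x x0
  have NV : N ∈ D1.vs t := by_contra fun c => hN (hV N c)
  have ab : ∀ n, |r n| = ‖l ^ 5‖ * ‖xi D1 n x‖ := fun n => by
    rw [← norm_mul, hr, norm_real, Real.norm_eq_abs]
  have d0 : 0 < dl := by norm_num [dl]
  have hl : ∀ n, n ∉ D1.vs t → r n ^ 2 ≤ dl ^ 2 * r N ^ 2 := fun n hn => by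
    obtain ⟨n', h⟩ := hV n hn
    rw [← mul_pow, sq_le_sq, abs_mul, abs_of_pos d0, ab, ab, mul_left_comm]
    exact mul_le_mul_of_nonneg_left (h.le.trans (mul_le_mul_of_nonneg_left (mN n') d0.le))
      (norm_nonneg _)
  have base : 0 ≤ ∑ n, sg D1 n * r n ^ 2 := by
    have : ((∑ n, sg D1 n * r n ^ 2 : ℝ) : ℂ) = (ω ^ 2 : ℝ) := by
      push_cast
      simp only [← hr, ← hω, mul_pow, hw, hF, Finset.mul_sum]
      exact Finset.sum_congr rfl fun _ _ => by ring
    rw [ofReal_injective this]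
    positivity
  let q : ℝ × ℝ → ℂ := fun s => aeval (X t x s) (tp D1) / w ^ 2
  have cq : Continuous q := by
    simp only [q, hF]
    exact (continuous_finsetSum _ fun n _ => continuous_const.mul
      ((((hb D1).2.2.2.1 n).comp (cont_X t x)).pow 2)).div_const _
  have q0 : q 0 = 1 := by simp only [q, X_zero, ← hw]; exact div_self (pow_ne_zero _ w0)
  let W : ℝ × ℝ → ℂ := fun s => w * exp (log (q s) / 2)
  have cW : ∀ s, q s ∈ slitPlane → ContinuousAt W s := fun s hs =>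
    continuousAt_const.mul ((cq.continuousAt.clog hs).div_const 2).cexp
  have W2 : ∀ s, q s ∈ slitPlane → W s ^ 2 = aeval (X t x s) (tp D1) := fun s hs => by
    simp only [W, mul_pow]
    rw [← exp_nat_mul, Nat.cast_ofNat, mul_div_cancel₀ _ two_ne_zero, exp_log (slitPlane_ne_zero hs),
      mul_div_cancel₀ _ (pow_ne_zero _ w0)]
  have W0 : W 0 = w := by simp [W, q0]
  have s0 : q 0 ∈ slitPlane := q0 ▸ one_mem_slitPlane
  let Z : ℝ × ℝ → ℂ := fun s => l ^ 5 * W s * exp ((-(B t (tm t) * s.2) : ℝ) * I)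
  have cZ : ContinuousAt (fun s => (Z s).re * ω) 0 :=
    (continuous_re.continuousAt.comp ((continuousAt_const.mul (cW 0 s0)).mul
      (by fun_prop))).mul continuousAt_const
  have ev : ∀ᶠ s in 𝓝 (0 : ℝ × ℝ), (X t x s, W s) ∈ U ∧ X t x s ∈ VS D1 (D1.vs t) ∧
      q s ∈ slitPlane ∧ 0 < (Z s).re * ω := by
    refine (((cont_X t x).continuousAt.prodMk (cW 0 s0)).eventually_mem
      (oU.mem_nhds (by rwa [X_zero, W0]))).and (((cont_X t x).continuousAt.eventually_mem
      ((oV _).mem_nhds (by rwa [X_zero]))).and ((cq.continuousAt.eventually_mem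
      (isOpen_slitPlane.mem_nhds s0)).and (continuousAt_const.eventually_lt cZ ?_)))
    simp [Z, W0, hω, ω0]
  obtain ⟨ε', ε0', hε⟩ := Metric.nhds_basis_closedBall.eventually_iff.1 ev
  obtain ⟨ε, ε0, ε1, ε2⟩ : ∃ ε : ℝ, 0 < ε ∧ ε ≤ 1 ∧ ε ≤ ε' :=
    ⟨min 1 ε', by positivity, min_le_left _ _, min_le_right _ _⟩
  let σ : ℝ → ℝ × ℝ := fun θ => (ε * Real.cos θ, ε * Real.sin θ)
  have bc : ∀ θ, |ε * Real.cos θ| ≤ ε := fun θ => by
    rw [abs_mul, abs_of_pos ε0]; exact mul_le_of_le_one_right ε0.le (Real.abs_cos_le_one θ)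
  have bs : ∀ θ, |ε * Real.sin θ| ≤ ε := fun θ => by
    rw [abs_mul, abs_of_pos ε0]; exact mul_le_of_le_one_right ε0.le (Real.abs_sin_le_one θ)
  have hσ := fun θ => hε (show σ θ ∈ Metric.closedBall 0 ε' by
    rw [mem_closedBall_zero_iff, Prod.norm_def]
    exact max_le ((bc θ).trans ε2) ((bs θ).trans ε2))
  have cσ : Continuous σ := by fun_prop
  obtain ⟨k1, k2, -⟩ := tab t
  let κ := r (ta t) * r (tb t) / normSq l ^ 5
  have κ0 : κ ≠ 0 := div_ne_zero (mul_ne_zero (r0 _) (r0 _)) nl.ne'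
  have eab : ∀ s, xi D1 (ta t) (X t x s) * conj (xi D1 (tb t) (X t x s)) =
      κ * exp (s.1 * I) := fun s => by
    rw [← real_mul l0 (hr _) (hr _), xi_X, xi_X, map_mul, ← exp_conj, mul_mul_mul_comm,
      ← Complex.exp_add, k2, eq_add_of_sub_eq k1]
    congr 2
    simp only [map_mul, conj_ofReal, conj_I]
    push_cast
    ring
  obtain ⟨c, hc, c0⟩ := sgn κ0
  let μ := -(ω * r (tm t) * if St (tm t) then κ else 1)
  obtain ⟨c', hc', c0'⟩ := sgn (a := μ) (neg_ne_zero.2 (mul_ne_zero (mul_ne_zero ω0 (r0 _))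
    (by split_ifs; exacts [κ0, one_ne_zero])))
  have main : ∀ θ, ff t (X t x (σ θ), W (σ θ)) /
      (c * Real.cos θ + c' * Real.sin θ * I) ∈ slitPlane := fun θ => by
    have efa : fa t (X t x (σ θ), W (σ θ)) = κ * Real.sin (ε * Real.cos θ) := by
      simp only [fa, XI]
      rw [eab, im_ofReal_mul, exp_ofReal_mul_I_im]
    refine slit hc hc' (fun z => ?_) fun z => ⟨by simp [efa, z], ?_⟩
    · have := sin_pos ((bc θ).trans (by linarith)) (mul_ne_zero ε0.ne' z)
      rw [efa]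
      refine pos_of_mul_pos_left (b := ε) ?_ ε0.le
      nlinarith [mul_pos this c0]
    · have sn : Real.sin θ ≠ 0 := fun e => by simpa [z, e] using Real.sin_sq_add_cos_sq θ
      obtain ⟨-, -, a3, a4⟩ := hσ θ
      have e0 : (σ θ).1 = 0 := by simp [σ, z]
      have y0 : (σ θ).2 ≠ 0 := mul_ne_zero ε0.ne' sn
      have sp := sin_pos (y := 2 * (σ θ).2) (by
        rw [abs_mul, abs_two]; linarith [bs θ]) (mul_ne_zero two_ne_zero y0)
      have ky := key hp t NV (r0 N) hl base (left_ne_zero_of_mul sp.ne')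
      have eZ : (Z (σ θ) ^ 2).im = ∑ n, sg D1 n *
          (r n ^ 2 * Real.sin ((B t n - B t (tm t) : ℤ) * (2 * (σ θ).2))) := by
        simp only [Z, mul_pow]
        rw [W2 _ a3, hF, Finset.mul_sum, Finset.sum_mul, im_sum]
        refine Finset.sum_congr rfl fun n _ => ?_
        rw [← exp_ofReal_mul_I_im, ← im_ofReal_mul, ← im_ofReal_mul, xi_X, e0, ofReal_pow, ← hr]
        congr 1
        have : exp ((((B t n - B t (tm t) : ℤ) * (2 * (σ θ).2) : ℝ) : ℂ) * I) =
            (exp ((A t n * 0 + B t n * (σ θ).2 : ℝ) * I) *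
              exp ((-(B t (tm t) * (σ θ).2) : ℝ) * I)) ^ 2 := by
          rw [← Complex.exp_add, ← exp_nat_mul]
          congr 1
          push_cast
          ring
        rw [this]
        ring
      have em : W (σ θ) * conj (xi D1 (tm t) (X t x (σ θ))) =
          (r (tm t) / normSq l ^ 5 : ℝ) * Z (σ θ) := by
        have h2 : conj l ^ 5 * conj (xi D1 (tm t) x) = r (tm t) := by
          simpa using congrArg conj (hr (tm t))
        have cl : conj l ≠ 0 := by simpa using l0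
        rw [xi_X, map_mul, ← exp_conj, e0]
        simp only [Z, map_mul, conj_ofReal, conj_I]
        push_cast
        rw [← mul_conj, ← h2]
        simp only [mul_zero, zero_add, mul_neg, neg_mul]
        field_simp
      have efb : fb t (X t x (σ θ), W (σ θ)) = r (tm t) / normSq l ^ 5 * (Z (σ θ)).im *
          if St (tm t) then κ else 1 := by
        simp only [fb, XI]
        split_ifs
        · rw [mul_assoc, eab, em, e0, ofReal_zero, zero_mul, Complex.exp_zero, mul_one,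
            im_mul_ofReal, im_ofReal_mul]
        · rw [em, im_ofReal_mul, mul_one]
      rw [← eZ, sq, mul_im] at ky
      have n1 : (Z (σ θ)).re * (Z (σ θ)).im * (σ θ).2 < 0 := by
        by_contra! H
        nlinarith [mul_nonneg H (sq_nonneg (Real.sin (2 * (σ θ).2))), mul_pos_of_neg_of_neg ky ky,
          mul_pos sp (neg_pos.2 ky)]
      have n2 : ω * (Z (σ θ)).im * (σ θ).2 < 0 := by
        by_contra! H
        nlinarith [mul_nonneg H (sq_nonneg (Z (σ θ)).re), mul_pos a4 (neg_pos.2 n1)]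
      rw [efb]
      simp only [μ] at c0'
      generalize (if St (tm t) then κ else 1) = ν at c0' ⊢
      have n3 := mul_pos c0' (neg_pos.2 n2)
      have w2 : 0 < ω ^ 2 * ε * normSq l ^ 5 := by positivity
      refine pos_of_mul_pos_left (b := ω ^ 2 * ε * normSq l ^ 5) (n3.trans_eq ?_) w2.le
      have := (normSq_pos.2 l0).ne'
      simp only [σ]
      field_simp
  refine ⟨fun θ => (X t x (σ θ), W (σ θ)), c, c', ((cont_X t x).comp cσ).prodMk
    (continuous_iff_continuousAt.2 fun θ => (cW _ (hσ θ).2.2.1).comp cσ.continuousAt),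
    by simp [σ], hc, hc', fun θ => ⟨⟨(hσ θ).1, ⟨⟨fun e => tor 2 (congrFun e 2), W2 _ (hσ θ).2.2.1⟩,
      fun h => ?_⟩, (hσ θ).2.1, fun h => ?_⟩, main θ⟩⟩
  · exact slitPlane_ne_zero (main θ) (by rw [ff_real h, zero_div])
  · exact slitPlane_ne_zero (main θ) (by rw [h, zero_div])

end

end Pool.Agent.MP_6600f1_ag.ce
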