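import Mathlib
import Pool.Agent.MP_6600f1_ag.ce.Spec

/-! A star-shaped region with a continuous defining function is a disc. -/

namespace Pool.Agent.MP_6600f1_ag.ce

open Metric Set Filter Topology

namespace StarA

/-- the direction of a nonzero complex number -/
noncomputable def dir (z : ℂ) : ℂ := z / (‖z‖ : ℂ)

lemma dir_mem {z : ℂ} (hz : z ≠ 0) : dir z ∈ sphere (0 : ℂ) 1 := by
  have h : ‖z‖ ≠ 0 := norm_ne_zero_iff.2 hz
  simp [dir, h]

lemma norm_mul_dir (z : ℂ) : (‖z‖ : ℂ) * dir z = z := by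
  by_cases hz : z = 0
  · simp [hz, dir]
  · have h : (‖z‖ : ℂ) ≠ 0 := by exact_mod_cast norm_ne_zero_iff.2 hz
    unfold dir; field_simp

lemma dir_mul {t : ℝ} (ht : 0 < t) (z : ℂ) : dir (t * z) = dir z := by
  have h : (t : ℂ) ≠ 0 := by exact_mod_cast ht.ne'
  unfold dir
  rw [norm_mul, Complex.norm_real, Real.norm_of_nonneg ht.le, Complex.ofReal_mul,
    mul_div_mul_left _ _ h]

lemma dir_of_mem {u : ℂ} (hu : u ∈ sphere (0 : ℂ) 1) : dir u = u := by
  have h : ‖u‖ = 1 := by simpa using hu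
  simp [dir, h]

lemma dir_cont {z : ℂ} (hz : z ≠ 0) : ContinuousAt dir z := by
  have h : (‖z‖ : ℂ) ≠ 0 := by exact_mod_cast norm_ne_zero_iff.2 hz
  exact continuousAt_id.div (Complex.continuous_ofReal.comp continuous_norm).continuousAt h

lemma rho_dir_cont {ρ : ℂ → ℝ} (hρ : ContinuousOn ρ (sphere 0 1)) {z : ℂ} (hz : z ≠ 0) :
    ContinuousAt (fun w => ρ (dir w)) z := by
  have h1 : ContinuousWithinAt (fun w => ρ (dir w)) {w | w ≠ 0} z :=
    (hρ _ (dir_mem hz)).comp (dir_cont hz).continuousWithinAt fun w hw => dir_mem hw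
  exact h1.continuousAt (isOpen_ne.mem_nhds hz)

end StarA

open StarA

theorem starS : StarS := by
  intro ψ hψ h
  choose! ρ hpos hlt hzero hgt using h
  have hiff : ∀ u ∈ sphere (0 : ℂ) 1, ∀ t : ℝ, 0 ≤ t → (ψ (t * u) < 0 ↔ t < ρ u) := by
    intro u hu t ht
    refine ⟨fun h => ?_, hlt u hu t ht⟩
    rcases lt_trichotomy t (ρ u) with h1 | h1 | h1
    · exact h1
    · rw [h1, hzero u hu] at h; exact absurd h (lt_irrefl _)
    · exact absurd (hgt u hu t h1) (not_lt.2 h.le)
  have hle : ∀ u ∈ sphere (0 : ℂ) 1, ∀ t : ℝ, 0 ≤ t → (ψ (t * u) ≤ 0 ↔ t ≤ ρ u) := by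
    intro u hu t ht
    refine ⟨fun h => not_lt.1 fun h1 => absurd (hgt u hu t h1) (not_lt.2 h), fun h => ?_⟩
    rcases h.lt_or_eq with h1 | h1
    · exact (hlt u hu t ht h1).le
    · rw [h1, hzero u hu]
  have hcont : ContinuousOn ρ (sphere 0 1) := by
    intro u hu
    refine tendsto_order.2 ⟨fun a ha => ?_, fun a ha => ?_⟩
    · by_cases h0 : 0 ≤ a
      · have hc : Continuous fun v : ℂ => ψ (a * v) := hψ.comp (continuous_const.mul continuous_id)
        have := (hc.continuousAt (x := u)).eventually_lt continuousAt_const (hlt u hu a h0 ha)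
        filter_upwards [mem_nhdsWithin_of_mem_nhds this, self_mem_nhdsWithin] with v h1 hv
        exact (hiff v hv a h0).1 h1
      · filter_upwards [self_mem_nhdsWithin] with v hv
        exact (not_le.1 h0).trans (hpos v hv)
    · have hc : Continuous fun v : ℂ => ψ (a * v) := hψ.comp (continuous_const.mul continuous_id)
      have := (continuousAt_const (y := (0 : ℝ))).eventually_lt (hc.continuousAt (x := u))
        (hgt u hu a ha)
      filter_upwards [mem_nhdsWithin_of_mem_nhds this, self_mem_nhdsWithin] with v h1 hv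
      exact not_le.1 fun h2 => absurd h1 (not_lt.2 ((hle v hv a ((hpos u hu).trans ha).le).2 h2))
  refine ⟨⟨ρ, hcont, fun u hu => ⟨hpos u hu, hzero u hu, hiff u hu⟩⟩, ?_⟩
  obtain ⟨M, hM⟩ := (isCompact_sphere (0 : ℂ) 1).exists_bound_of_continuousOn hcont
  have hform : ∀ z : ℂ, (ρ (dir z) : ℂ) * z = ((ρ (dir z) * ‖z‖ : ℝ) : ℂ) * dir z := by
    intro z
    rw [Complex.ofReal_mul, mul_assoc, norm_mul_dir]
  have hsurj : ∀ w : ℂ, w ≠ 0 →
      (ρ (dir (((ρ (dir w))⁻¹ : ℝ) * w)) : ℂ) * (((ρ (dir w))⁻¹ : ℝ) * w) = w ∧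
        ‖(((ρ (dir w))⁻¹ : ℝ) : ℂ) * w‖ = ‖w‖ / ρ (dir w) := by
    intro w hw
    have hp := hpos _ (dir_mem hw)
    have hp' : (ρ (dir w) : ℂ) ≠ 0 := by exact_mod_cast hp.ne'
    refine ⟨?_, ?_⟩
    · rw [dir_mul (inv_pos.2 hp), Complex.ofReal_inv]; field_simp
    · rw [norm_mul, Complex.norm_real, Real.norm_of_nonneg (inv_pos.2 hp).le]; field_simp
  have h1s : (1 : ℂ) ∈ sphere (0 : ℂ) 1 := by simp
  have hψ0 : ψ 0 < 0 := by simpa using hlt 1 h1s 0 le_rfl (hpos 1 h1s)
  refine ⟨fun z => (ρ (dir z) : ℂ) * z, ?_, ?_, ?_, ?_⟩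
  · intro z _
    refine ContinuousAt.continuousWithinAt ?_
    by_cases hz : z = 0
    · subst hz
      have : Tendsto (fun z : ℂ => M * ‖z‖) (𝓝 0) (𝓝 0) := by
        have hc : Continuous fun z : ℂ => M * ‖z‖ := by fun_prop
        simpa using hc.tendsto 0
      unfold ContinuousAt
      simp only [mul_zero]
      refine squeeze_zero_norm (fun z => ?_) this
      by_cases hz : z = 0
      · simp [hz]
      · rw [norm_mul, Complex.norm_real]
        exact mul_le_mul_of_nonneg_right (hM _ (dir_mem hz)) (norm_nonneg _)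
    · exact (Complex.continuous_ofReal.continuousAt.comp (rho_dir_cont hcont hz)).mul
        continuousAt_id
  · have hne : ∀ z : ℂ, z ≠ 0 → (ρ (dir z) : ℂ) * z ≠ 0 := fun z hz =>
      mul_ne_zero (by exact_mod_cast (hpos _ (dir_mem hz)).ne') hz
    intro z _ z' _ he
    dsimp only at he
    by_cases hz : z = 0
    · by_contra h
      exact hne z' (fun h' => h (hz.trans h'.symm)) (by rw [← he, hz, mul_zero])
    by_cases hz' : z' = 0
    · exact absurd (by rw [he, hz', mul_zero]) (hne z hz)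
    have hd : dir z = dir z' := by
      rw [← dir_mul (hpos _ (dir_mem hz)) z, he, dir_mul (hpos _ (dir_mem hz'))]
    rw [hd] at he
    exact mul_left_cancel₀ (by exact_mod_cast (hpos _ (dir_mem hz')).ne') he
  · ext w
    constructor
    · rintro ⟨z, hz, rfl⟩
      by_cases h0 : z = 0
      · simpa [h0] using hψ0.le
      have hp := hpos _ (dir_mem h0)
      have hz1 : ‖z‖ ≤ 1 := by simpa using hz
      show ψ ((ρ (dir z) : ℂ) * z) ≤ 0
      rw [hform]
      exact (hle _ (dir_mem h0) _ (by positivity)).2 (by nlinarith)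
    · intro hw
      by_cases h0 : w = 0
      · exact ⟨0, by simp, by simp [h0]⟩
      have hp := hpos _ (dir_mem h0)
      refine ⟨_, ?_, (hsurj w h0).1⟩
      have : ‖w‖ ≤ ρ (dir w) := (hle _ (dir_mem h0) _ (norm_nonneg _)).1 (by
        rw [norm_mul_dir]; exact hw)
      rw [mem_closedBall_zero_iff, (hsurj w h0).2]
      exact (div_le_one hp).2 this
  · ext w
    constructor
    · rintro ⟨z, hz, rfl⟩
      show ψ ((ρ (dir z) : ℂ) * z) = 0
      rw [dir_of_mem hz]
      exact hzero z hz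
    · intro hw
      have hw0 : ψ w = 0 := hw
      have h0 : w ≠ 0 := fun h => by rw [h] at hw0; exact absurd hw0 hψ0.ne
      have hp := hpos _ (dir_mem h0)
      refine ⟨_, ?_, (hsurj w h0).1⟩
      have h1 : ‖w‖ ≤ ρ (dir w) := (hle _ (dir_mem h0) _ (norm_nonneg _)).1 (by
        rw [norm_mul_dir]; exact hw0.le)
      have h2 : ¬ ‖w‖ < ρ (dir w) := fun h => by
        have := (hiff _ (dir_mem h0) _ (norm_nonneg _)).2 h
        rw [norm_mul_dir, hw0] at this
        exact lt_irrefl _ this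
      rw [mem_sphere_zero_iff_norm, (hsurj w h0).2, le_antisymm h1 (not_lt.1 h2)]
      exact div_self hp.ne'

end Pool.Agent.MP_6600f1_ag.ce
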