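import Mathlib
import Pool.Agent.MP_6600f1_ag.ce.Star

/-! The second curve: near the point `(0:0:1)` the non-real points of the double plane can be
pushed into the branch curve. -/

namespace Pool.Agent.MP_6600f1_ag.ce

open MvPolynomial Metric Set Complex
open scoped ComplexConjugate

noncomputable section

namespace N2A

open StarA

/-- the coefficients -/
def cf (n : Fin 21) : ℝ := sg D2 n * dl ^ (8 * D2.nu n)

/-- the small terms -/
def RR : Finset (Fin 21) := ((Finset.univ.erase 0).erase 1).erase 6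

def PC (p q : ℂ) : ℂ := ∑ n, (cf n : ℂ) * p ^ e0 n * q ^ e1 n

def PR (p q : ℝ) : ℝ := ∑ n, cf n * p ^ e0 n * q ^ e1 n

lemma PC_real (p q : ℝ) : PC p q = (PR p q : ℝ) := by
  simp only [PC, PR]; push_cast; rfl

lemma PR_cont : Continuous fun z : ℝ × ℝ => PR z.1 z.2 := by
  unfold PR; fun_prop

lemma sum_split {M : Type} [AddCommMonoid M] (f : Fin 21 → M) :
    ∑ n, f n = f 0 + (f 1 + (f 6 + ∑ n ∈ RR, f n)) := by
  unfold RR
  rw [Finset.add_sum_erase _ f (by decide), Finset.add_sum_erase _ f (by decide),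
    Finset.add_sum_erase _ f (by decide)]

lemma cf0 : cf 0 = 1 := by
  have h : D2.nu 0 = 0 := by decide
  have h' : (0 : Fin 21) ∉ D2.ngl := by decide
  simp [cf, sg, h, h']

lemma cf1 : cf 1 = 1 := by
  have h : D2.nu 1 = 0 := by decide
  have h' : (1 : Fin 21) ∉ D2.ngl := by decide
  simp [cf, sg, h, h']

lemma cf6 : cf 6 = 1 := by
  have h : D2.nu 6 = 0 := by decide
  have h' : (6 : Fin 21) ∉ D2.ngl := by decide
  simp [cf, sg, h, h']

lemma dl_pos : 0 < dl := by unfold dl; positivity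

lemma dl_le : dl ≤ 1 := by unfold dl; norm_num

lemma cf_small : ∀ n ∈ RR, |cf n| ≤ dl := by
  have h : ∀ n ∈ RR, 8 * D2.nu n ≠ 0 := by decide
  intro n hn
  have h1 : |sg D2 n| = 1 := by unfold sg; split_ifs <;> simp
  rw [cf, abs_mul, h1, one_mul, abs_of_pos (pow_pos dl_pos _)]
  exact pow_le_of_le_one dl_pos.le dl_le (h n hn)

lemma card_RR : RR.card = 18 := by decide

lemma deg_RR : ∀ n ∈ RR, e0 n + e1 n ≠ 0 ∧ e0 n + e1 n ≤ 5 := by decide

lemma PC_eq (p q : ℂ) : PC p q = 1 + (q + (p + ∑ n ∈ RR, (cf n : ℂ) * p ^ e0 n * q ^ e1 n)) := by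
  have a0 : e0 0 = 0 := by decide
  have a1 : e0 1 = 0 := by decide
  have a6 : e0 6 = 1 := by decide
  have b0 : e1 0 = 0 := by decide
  have b1 : e1 1 = 1 := by decide
  have b6 : e1 6 = 0 := by decide
  rw [PC, sum_split, cf0, cf1, cf6, a0, a1, a6, b0, b1, b6]
  simp

lemma PR_eq (p q : ℝ) : PR p q = 1 + (q + (p + ∑ n ∈ RR, cf n * p ^ e0 n * q ^ e1 n)) := by
  have h := PC_eq p q
  rw [PC_real] at h
  exact_mod_cast h

lemma re_PC_pos {X Y : ℂ} (hX : ‖X‖ ≤ 1 / 2) (hY : ‖Y‖ ≤ 1 / 2) : 0 < (PC (X ^ 2) (Y ^ 2)).re := by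
  have hp : ‖X ^ 2‖ ≤ 1 / 4 := by rw [norm_pow]; nlinarith [norm_nonneg X]
  have hq : ‖Y ^ 2‖ ≤ 1 / 4 := by rw [norm_pow]; nlinarith [norm_nonneg Y]
  generalize X ^ 2 = p at hp
  generalize Y ^ 2 = q at hq
  have hE : ‖∑ n ∈ RR, (cf n : ℂ) * p ^ e0 n * q ^ e1 n‖ ≤ 18 * dl := by
    refine (norm_sum_le _ _).trans ((Finset.sum_le_card_nsmul _ _ dl fun n hn => ?_).trans ?_)
    · rw [norm_mul, norm_mul, norm_pow, norm_pow, Complex.norm_real, Real.norm_eq_abs]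
      have h1 : ‖p‖ ^ e0 n ≤ 1 := pow_le_one₀ (norm_nonneg _) (by linarith)
      have h2 : ‖q‖ ^ e1 n ≤ 1 := pow_le_one₀ (norm_nonneg _) (by linarith)
      calc |cf n| * ‖p‖ ^ e0 n * ‖q‖ ^ e1 n ≤ dl * 1 * 1 := by
            have := cf_small n hn
            have := dl_pos
            gcongr
        _ = dl := by ring
    · rw [card_RR]; simp
  rw [PC_eq]
  simp only [add_re, one_re]
  have h1 := (abs_le.1 ((abs_re_le_norm p).trans hp)).1
  have h2 := (abs_le.1 ((abs_re_le_norm q).trans hq)).1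
  have h3 := (abs_le.1 ((abs_re_le_norm _).trans hE)).1
  have h4 : 18 * dl < 1 / 4 := by unfold dl; norm_num
  linarith

/-- the value at purely imaginary points -/
def HH (z : ℂ) : ℝ := PR (-z.re ^ 2) (-z.im ^ 2)

lemma HH_cont : Continuous HH := by
  have : HH = (fun z : ℝ × ℝ => PR z.1 z.2) ∘ fun z : ℂ => (-z.re ^ 2, -z.im ^ 2) := rfl
  rw [this]
  exact PR_cont.comp (by fun_prop)

lemma PC_im (a b : ℝ) : PC ((I * a) ^ 2) ((I * b) ^ 2) = (HH (a + b * I) : ℝ) := by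
  rw [HH, ← PC_real]
  congr 1
  · simp [mul_pow]
  · simp [mul_pow]

lemma HH_ray {u : ℂ} (hu : u ∈ sphere (0 : ℂ) 1) (t : ℝ) :
    HH (t * u) = 1 - t ^ 2 +
      ∑ n ∈ RR, cf n * (-u.re ^ 2) ^ e0 n * (-u.im ^ 2) ^ e1 n * (t ^ 2) ^ (e0 n + e1 n) := by
  have h1 : u.re ^ 2 + u.im ^ 2 = 1 := by
    have h : ‖u‖ = 1 := by simpa using hu
    have := Complex.sq_norm u
    rw [h, Complex.normSq_apply] at this
    nlinarith
  have ha : -((t : ℂ) * u).re ^ 2 = -u.re ^ 2 * t ^ 2 := by simp; ring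
  have hb : -((t : ℂ) * u).im ^ 2 = -u.im ^ 2 * t ^ 2 := by simp; ring
  rw [HH, PR_eq, ha, hb]
  have : ∑ n ∈ RR, cf n * (-u.re ^ 2 * t ^ 2) ^ e0 n * (-u.im ^ 2 * t ^ 2) ^ e1 n =
      ∑ n ∈ RR, cf n * (-u.re ^ 2) ^ e0 n * (-u.im ^ 2) ^ e1 n * (t ^ 2) ^ (e0 n + e1 n) :=
    Finset.sum_congr rfl fun n _ => by rw [mul_pow, mul_pow, pow_add]; ring
  rw [this]
  linear_combination (-t ^ 2) * h1

lemma HH_zero : HH 0 = 1 := by
  have h1s : (1 : ℂ) ∈ sphere (0 : ℂ) 1 := by simp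
  have h := HH_ray h1s 0
  rw [Finset.sum_eq_zero fun n hn => by
    rw [show ((0 : ℝ) ^ 2) = 0 by norm_num, zero_pow (deg_RR n hn).1, mul_zero]] at h
  simpa using h

lemma HH_anti {u : ℂ} (hu : u ∈ sphere (0 : ℂ) 1) {t t' : ℝ} (h0 : 0 ≤ t) (h : t ≤ t')
    (h2 : t' ≤ 2) : HH (t' * u) ≤ HH (t * u) - (t' ^ 2 - t ^ 2) / 2 := by
  have hn : ‖u‖ = 1 := by simpa using hu
  have hre : |u.re| ≤ 1 := hn ▸ abs_re_le_norm u
  have him : |u.im| ≤ 1 := hn ▸ abs_im_le_norm u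
  have hs : t ^ 2 ≤ t' ^ 2 := by nlinarith
  have hs0 : 0 ≤ t ^ 2 := by positivity
  have hs4 : t' ^ 2 ≤ 4 := by nlinarith
  rw [HH_ray hu, HH_ray hu]
  generalize t ^ 2 = s at hs hs0
  generalize t' ^ 2 = s' at hs hs4
  have key : ∑ n ∈ RR, cf n * (-u.re ^ 2) ^ e0 n * (-u.im ^ 2) ^ e1 n * s' ^ (e0 n + e1 n) -
      ∑ n ∈ RR, cf n * (-u.re ^ 2) ^ e0 n * (-u.im ^ 2) ^ e1 n * s ^ (e0 n + e1 n) ≤
        18 * (dl * (1280 * (s' - s))) := by
    rw [← Finset.sum_sub_distrib]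
    refine (Finset.sum_le_card_nsmul _ _ (dl * (1280 * (s' - s))) fun n hn => ?_).trans ?_
    · rw [← mul_sub]
      refine (le_abs_self _).trans ?_
      rw [abs_mul, abs_mul, abs_mul, abs_pow, abs_pow, abs_neg, abs_neg, abs_pow, abs_pow]
      have h1 : (|u.re| ^ 2) ^ e0 n ≤ 1 :=
        pow_le_one₀ (by positivity) (pow_le_one₀ (abs_nonneg _) hre)
      have h2 : (|u.im| ^ 2) ^ e1 n ≤ 1 :=
        pow_le_one₀ (by positivity) (pow_le_one₀ (abs_nonneg _) him)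
      have h3 : |s' ^ (e0 n + e1 n) - s ^ (e0 n + e1 n)| ≤ 1280 * (s' - s) := by
        refine (abs_pow_sub_pow_le _ _ _).trans ?_
        have hk := (deg_RR n hn).2
        have hk' : ((e0 n + e1 n : ℕ) : ℝ) ≤ 5 := by exact_mod_cast hk
        have hm : max |s'| |s| ≤ 4 := by
          rw [abs_of_nonneg hs0, abs_of_nonneg (hs0.trans hs)]
          exact max_le hs4 (hs.trans hs4)
        have hm' : max |s'| |s| ^ (e0 n + e1 n - 1) ≤ 4 ^ 4 :=
          (pow_le_pow_left₀ ((abs_nonneg _).trans (le_max_left _ _)) hm _).trans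
            (pow_le_pow_right₀ (by norm_num) (by omega))
        rw [abs_of_nonneg (sub_nonneg.2 hs)]
        calc (s' - s) * ((e0 n + e1 n : ℕ) : ℝ) * max |s'| |s| ^ (e0 n + e1 n - 1)
            ≤ (s' - s) * 5 * 4 ^ 4 := by
              have := sub_nonneg.2 hs
              gcongr
          _ = 1280 * (s' - s) := by ring
      calc |cf n| * (|u.re| ^ 2) ^ e0 n * (|u.im| ^ 2) ^ e1 n *
            |s' ^ (e0 n + e1 n) - s ^ (e0 n + e1 n)| ≤ dl * 1 * 1 * (1280 * (s' - s)) := by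
            have := cf_small n hn
            have := dl_pos
            gcongr
        _ = dl * (1280 * (s' - s)) := by ring
    · rw [card_RR]; simp
  have h4 : 18 * (dl * (1280 * (s' - s))) ≤ (s' - s) / 2 := by
    have := sub_nonneg.2 hs
    unfold dl; nlinarith
  linarith

/-- the radius of the imaginary oval -/
lemma exists_rho (hS : StarS) : ∃ ρ : ℂ → ℝ, ContinuousOn ρ (sphere 0 1) ∧
    ∀ u ∈ sphere (0 : ℂ) 1, 0 < ρ u ∧ HH (ρ u * u) = 0 ∧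
      (∀ t : ℝ, 0 ≤ t → t ≤ ρ u → 0 ≤ HH (t * u)) ∧
      ∀ t : ℝ, 0 ≤ t → t < 2 → 0 < HH (t * u) → t < ρ u := by
  have hnorm : ∀ u ∈ sphere (0 : ℂ) 1, ∀ t : ℝ, ‖(t : ℂ) * u‖ ^ 2 = t ^ 2 := by
    intro u hu t
    have hn : ‖u‖ = 1 := by simpa using hu
    rw [norm_mul, hn, mul_one, Complex.norm_real, Real.norm_eq_abs, sq_abs]
  have htwo : ∀ u ∈ sphere (0 : ℂ) 1, HH ((2 : ℝ) * u) < 0 := by
    intro u hu
    have := HH_anti hu (t := 0) (t' := 2) le_rfl (by norm_num) le_rfl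
    rw [Complex.ofReal_zero, zero_mul, HH_zero] at this
    linarith
  have hc : Continuous fun z : ℂ => max (-HH z) (‖z‖ ^ 2 - 4) :=
    HH_cont.neg.max (by fun_prop)
  obtain ⟨⟨ρ, hρ, h⟩, -⟩ := hS (fun z => max (-HH z) (‖z‖ ^ 2 - 4)) hc (by
    intro u hu
    have hcu : Continuous fun t : ℝ => HH (t * u) := HH_cont.comp (by fun_prop)
    obtain ⟨r, ⟨hr0, hr2⟩, hr⟩ := intermediate_value_Ioo' (a := (0 : ℝ)) (b := 2) (by norm_num)
      hcu.continuousOn (show (0 : ℝ) ∈ Ioo (HH ((2 : ℝ) * u)) (HH ((0 : ℝ) * u)) from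
        ⟨htwo u hu, by rw [Complex.ofReal_zero, zero_mul, HH_zero]; norm_num⟩)
    dsimp only at hr
    refine ⟨r, hr0, fun t h0 ht => ?_, ?_, fun t ht => ?_⟩
    · have := HH_anti hu h0 ht.le hr2.le
      show max _ _ < 0
      rw [hnorm u hu]
      exact max_lt (by nlinarith) (by nlinarith)
    · show max _ _ = 0
      rw [hnorm u hu, hr, neg_zero]
      exact max_eq_left (by nlinarith)
    · show 0 < max _ _
      rw [hnorm u hu]
      by_cases h2 : t ≤ 2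
      · have := HH_anti hu hr0.le ht.le h2
        exact lt_max_of_lt_left (by nlinarith)
      · exact lt_max_of_lt_right (by nlinarith))
  refine ⟨ρ, hρ, fun u hu => ?_⟩
  obtain ⟨h1, h2, h3⟩ := h u hu
  have hle : ∀ t : ℝ, 0 ≤ t → t ≤ ρ u → 0 ≤ HH (t * u) := by
    intro t h0 ht
    have : max (-HH (t * u)) (‖(t : ℂ) * u‖ ^ 2 - 4) ≤ 0 := by
      rcases ht.lt_or_eq with h4 | h4
      · exact ((h3 t h0).2 h4).le
      · rw [h4]; exact h2.le
    linarith [le_max_left (-HH (t * u)) (‖(t : ℂ) * u‖ ^ 2 - 4)]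
  have hlt : ρ u < 2 := not_le.1 fun h4 => absurd (hle 2 (by norm_num) h4) (not_le.2 (htwo u hu))
  refine ⟨h1, ?_, hle, fun t h0 ht hH => (h3 t h0).1 ?_⟩
  · rw [hnorm u hu] at h2
    rcases max_eq_iff.1 h2 with h4 | h4
    · linarith [h4.1]
    · nlinarith [h4.1]
  · show max _ _ < 0
    rw [hnorm u hu]
    exact max_lt (by linarith) (by nlinarith)

lemma aeval_eq (hB : BasicS) (l X Y : ℂ) :
    aeval (![l * X, l * Y, l] : V) (tp D2) = (l ^ 5) ^ 2 * PC (X ^ 2) (Y ^ 2) := by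
  rw [(hB D2).2.1, PC, Finset.mul_sum]
  refine Finset.sum_congr rfl fun n _ => ?_
  have h5 : ∀ n : Fin 21, e0 n + e1 n + (5 - e0 n - e1 n) = 5 := by decide
  have hl : l ^ 5 = l ^ e0 n * l ^ e1 n * l ^ (5 - e0 n - e1 n) := by
    rw [← pow_add, ← pow_add, h5]
  have hx : xi D2 n (![l * X, l * Y, l] : V) =
      (dl : ℂ) ^ (4 * D2.nu n) * (l ^ 5 * X ^ e0 n * Y ^ e1 n) := by
    rw [xi, Fin.prod_univ_three, hl]
    simp only [ex, Matrix.cons_val_zero, Matrix.cons_val_one, Matrix.cons_val, if_true,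
      Fin.reduceEq, if_false, mul_pow]
    ring
  rw [hx, cf]
  push_cast
  ring

/-- the point over `(l X : l Y : l)` on the sheet of the principal root -/
def pt (l X Y : ℂ) : V × ℂ := (![l * X, l * Y, l], l ^ 5 * PC (X ^ 2) (Y ^ 2) ^ (2⁻¹ : ℂ))

lemma pt_mem (hB : BasicS) {l X Y : ℂ} (hl : l ≠ 0) (h : X.im ≠ 0 ∨ Y.im ≠ 0) :
    pt l X Y ∈ MM (tp D2) := by
  refine ⟨⟨fun h0 => hl (by simpa [pt] using congrFun h0 2), ?_⟩, ?_⟩
  · show (l ^ 5 * PC (X ^ 2) (Y ^ 2) ^ (2⁻¹ : ℂ)) ^ 2 = aeval (![l * X, l * Y, l] : V) (tp D2)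
    rw [aeval_eq hB, mul_pow, Complex.cpow_ofNat_inv_pow]
  · rintro ⟨m, hm, hs, -⟩
    have h0 : conj (m * (l * X)) = m * (l * X) := by simpa [pt] using congrFun hs 0
    have h1 : conj (m * (l * Y)) = m * (l * Y) := by simpa [pt] using congrFun hs 1
    have h2 : conj (m * l) = m * l := by simpa [pt] using congrFun hs 2
    have hml : m * l ≠ 0 := mul_ne_zero hm hl
    rw [← mul_assoc, map_mul, h2] at h0 h1
    rcases h with h | h
    · exact h (conj_eq_iff_im.1 (mul_left_cancel₀ hml h0))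
    · exact h (conj_eq_iff_im.1 (mul_left_cancel₀ hml h1))

lemma pt_cont {A : Type} [TopologicalSpace A] {l X Y : A → ℂ} (hl : Continuous l)
    (hX : Continuous X) (hY : Continuous Y) (h : ∀ a, 0 ≤ (PC (X a ^ 2) (Y a ^ 2)).re) :
    Continuous fun a => pt (l a) (X a) (Y a) := by
  have hP : Continuous fun a => PC (X a ^ 2) (Y a ^ 2) := by unfold PC; fun_prop
  have hR : Continuous fun a => PC (X a ^ 2) (Y a ^ 2) ^ (2⁻¹ : ℂ) :=
    continuous_iff_continuousAt.2 fun a =>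
      (continuousAt_cpow_const_of_re_pos (Or.inl (h a)) (by simp)).comp_of_eq hP.continuousAt rfl
  refine Continuous.prodMk (continuous_pi fun i => ?_) ((hl.pow 5).mul hR)
  fin_cases i
  · exact hl.mul hX
  · exact hl.mul hY
  · exact hl

/-- the neighbourhood -/
def UU : Set (V × ℂ) :=
  {q | 2 * ‖q.1 0‖ < ‖q.1 2‖ ∧ 2 * ‖q.1 1‖ < ‖q.1 2‖ ∧ 0 < (q.2 * conj (q.1 2) ^ 5).re}

lemma UU_open : IsOpen UU := by
  have h0 : IsOpen {q : V × ℂ | 2 * ‖q.1 0‖ < ‖q.1 2‖} := isOpen_lt (by fun_prop) (by fun_prop)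
  have h1 : IsOpen {q : V × ℂ | 2 * ‖q.1 1‖ < ‖q.1 2‖} := isOpen_lt (by fun_prop) (by fun_prop)
  have h2 : IsOpen {q : V × ℂ | 0 < (q.2 * conj (q.1 2) ^ 5).re} :=
    isOpen_lt continuous_const (continuous_re.comp (continuous_snd.mul
      ((continuous_conj.comp ((continuous_apply 2).comp continuous_fst)).pow 5)))
  exact h0.inter (h1.inter h2)

lemma UU_ne {q : V × ℂ} (h : q ∈ UU) : q.1 2 ≠ 0 := by
  have h1 := h.1
  have := norm_nonneg (q.1 0)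
  exact norm_pos_iff.1 (by linarith)

lemma UU_small {q : V × ℂ} (h : q ∈ UU) : ‖q.1 0 / q.1 2‖ ≤ 1 / 2 ∧ ‖q.1 1 / q.1 2‖ ≤ 1 / 2 := by
  have hp := norm_pos_iff.2 (UU_ne h)
  rw [norm_div, norm_div, div_le_iff₀ hp, div_le_iff₀ hp]
  exact ⟨by linarith [h.1], by linarith [h.2.1]⟩

lemma UU_vec {q : V × ℂ} (h : q ∈ UU) :
    (![q.1 2 * (q.1 0 / q.1 2), q.1 2 * (q.1 1 / q.1 2), q.1 2] : V) = q.1 := by
  have := UU_ne h
  funext i
  fin_cases i
  · show q.1 2 * (q.1 0 / q.1 2) = q.1 0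
    field_simp
  · show q.1 2 * (q.1 1 / q.1 2) = q.1 1
    field_simp
  · rfl

lemma UU_root (hB : BasicS) {q : V × ℂ} (h : q ∈ UU) (hY : q ∈ YY (tp D2)) :
    0 < (q.2 / q.1 2 ^ 5).re ∧
      (q.2 / q.1 2 ^ 5) ^ 2 = PC ((q.1 0 / q.1 2) ^ 2) ((q.1 1 / q.1 2) ^ 2) := by
  have hne := UU_ne h
  have h5 : q.1 2 ^ 5 ≠ 0 := pow_ne_zero _ hne
  constructor
  · have h1 := h.2.2
    rw [← map_pow] at h1
    rw [div_eq_mul_inv, Complex.inv_def, ← mul_assoc, re_mul_ofReal]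
    exact mul_pos h1 (inv_pos.2 (normSq_pos.2 h5))
  · have h1 := hY.2
    rw [← UU_vec h, aeval_eq hB] at h1
    rw [div_pow, h1]
    field_simp

lemma pt_self (hB : BasicS) {q : V × ℂ} (h : q ∈ UU) (hY : q ∈ YY (tp D2)) :
    pt (q.1 2) (q.1 0 / q.1 2) (q.1 1 / q.1 2) = q := by
  obtain ⟨h1, h2⟩ := UU_root hB h hY
  have h5 : q.1 2 ^ 5 ≠ 0 := pow_ne_zero _ (UU_ne h)
  refine Prod.ext (UU_vec h) ?_
  show q.1 2 ^ 5 * PC ((q.1 0 / q.1 2) ^ 2) ((q.1 1 / q.1 2) ^ 2) ^ (2⁻¹ : ℂ) = q.2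
  rw [← h2, sq_cpow_two_inv h1, mul_div_cancel₀ _ h5]

/-- the imaginary parts as one complex number -/
def bb (q : V × ℂ) : ℂ := (q.1 0 / q.1 2).im + (q.1 1 / q.1 2).im * I

lemma bb_ne (hB : BasicS) {q : V × ℂ} (h : q ∈ UU ∩ MM (tp D2)) : bb q ≠ 0 := by
  intro h0
  have ha : (q.1 0 / q.1 2).im = 0 := by simpa [bb] using congrArg re h0
  have hb : (q.1 1 / q.1 2).im = 0 := by simpa [bb] using congrArg im h0
  obtain ⟨h1, h2⟩ := UU_root hB h.1 h.2.1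
  have hne := UU_ne h.1
  refine h.2.2 ⟨(q.1 2)⁻¹, inv_ne_zero hne, ?_, ?_⟩
  · funext i
    show conj ((q.1 2)⁻¹ * q.1 i) = (q.1 2)⁻¹ * q.1 i
    rw [inv_mul_eq_div]
    fin_cases i
    · exact conj_eq_iff_im.2 ha
    · exact conj_eq_iff_im.2 hb
    · show conj (q.1 2 / q.1 2) = q.1 2 / q.1 2
      rw [div_self hne, map_one]
  · rw [inv_pow, inv_mul_eq_div]
    have e0 : q.1 0 / q.1 2 = ((q.1 0 / q.1 2).re : ℂ) := by apply Complex.ext <;> simp [ha]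
    have e1 : q.1 1 / q.1 2 = ((q.1 1 / q.1 2).re : ℂ) := by apply Complex.ext <;> simp [hb]
    rw [e0, e1, ← ofReal_pow, ← ofReal_pow, PC_real] at h2
    have h3 := congrArg im h2
    rw [ofReal_im, sq, mul_im] at h3
    have h4 : (q.2 / q.1 2 ^ 5).re * (q.2 / q.1 2 ^ 5).im = 0 := by linarith
    exact (mul_eq_zero.1 h4).resolve_left h1.ne'

lemma norm_shrink {τ : ℝ} (h0 : 0 ≤ τ) (h1 : τ ≤ 1) (X : ℂ) :
    ‖((τ * X.re : ℝ) : ℂ) + I * ((1 * X.im : ℝ) : ℂ)‖ ≤ ‖X‖ := by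
  refine (pow_le_pow_iff_left₀ (norm_nonneg _) (norm_nonneg _) two_ne_zero).1 ?_
  rw [Complex.sq_norm, Complex.sq_norm, normSq_apply, normSq_apply]
  simp only [add_re, ofReal_re, mul_re, I_re, I_im, ofReal_im, add_im, mul_im]
  have h2 : τ * τ ≤ 1 := by nlinarith
  nlinarith [mul_self_nonneg X.re]

lemma HH_bb {q : V × ℂ} (h : q ∈ UU) : 0 < HH (bb q) ∧ ‖bb q‖ < 2 := by
  obtain ⟨h0, h1⟩ := UU_small h
  have a0 : ‖I * ((q.1 0 / q.1 2).im : ℂ)‖ ≤ 1 / 2 := by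
    rw [norm_mul, norm_I, one_mul, Complex.norm_real]; exact (abs_im_le_norm _).trans h0
  have a1 : ‖I * ((q.1 1 / q.1 2).im : ℂ)‖ ≤ 1 / 2 := by
    rw [norm_mul, norm_I, one_mul, Complex.norm_real]; exact (abs_im_le_norm _).trans h1
  constructor
  · have := re_PC_pos a0 a1
    rwa [PC_im, ofReal_re] at this
  · rw [norm_mul, norm_I, one_mul] at a0 a1
    refine (norm_add_le _ _).trans_lt ?_
    rw [norm_mul, norm_I, mul_one]
    linarith

def t1 (t : ℝ) : ℝ := max 0 (1 - 2 * t)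

def t2 (t : ℝ) : ℝ := max 0 (2 * t - 1)

/-- the factor of the imaginary parts -/
def sc (ρ : ℂ → ℝ) (t : ℝ) (q : V × ℂ) : ℝ := 1 - t2 t + t2 t * (ρ (dir (bb q)) / ‖bb q‖)

/-- the moved affine coordinates -/
def mv (ρ : ℂ → ℝ) (i : Fin 3) (t : ℝ) (q : V × ℂ) : ℂ :=
  ((t1 t * (q.1 i / q.1 2).re : ℝ) : ℂ) + I * ((sc ρ t q * (q.1 i / q.1 2).im : ℝ) : ℂ)

lemma mv_im (ρ : ℂ → ℝ) (i : Fin 3) (t : ℝ) (q : V × ℂ) :
    (mv ρ i t q).im = sc ρ t q * (q.1 i / q.1 2).im := by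
  simp only [mv, add_im, ofReal_im, mul_im, I_re, I_im, ofReal_re]; ring

lemma mv_zero (ρ : ℂ → ℝ) (i : Fin 3) (q : V × ℂ) : mv ρ i 0 q = q.1 i / q.1 2 := by
  have h1 : t1 0 = 1 := by simp [t1]
  have h2 : t2 0 = 0 := by simp [t2]
  rw [mv, sc, h1, h2, one_mul, sub_zero, zero_mul, add_zero, one_mul, mul_comm I, re_add_im]

lemma PC_mv (ρ : ℂ → ℝ) {t : ℝ} (ht : 1 / 2 ≤ t) (q : V × ℂ) :
    PC (mv ρ 0 t q ^ 2) (mv ρ 1 t q ^ 2) =
      (HH ((sc ρ t q * ‖bb q‖ : ℝ) * dir (bb q)) : ℝ) := by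
  have h1 : t1 t = 0 := max_eq_left (by linarith)
  rw [mv, mv, h1, zero_mul, zero_mul, ofReal_zero, zero_add, zero_add, PC_im, ofReal_mul (sc ρ t q) ‖_‖,
    mul_assoc, norm_mul_dir, bb]
  congr 2
  push_cast
  ring

end N2A

open N2A StarA

theorem n2S : N2S := by
  intro hB hS
  obtain ⟨ρ, hρ, h⟩ := exists_rho hS
  have hp : aeval (![0, 0, 1] : V) (tp D2) = 1 := by
    have h1 := aeval_eq hB 1 0 0
    have h2 := PC_im 0 0
    simp only [ofReal_zero, mul_zero, zero_mul, add_zero, HH_zero, ofReal_one] at h1 h2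
    rw [h1, h2]; simp
  refine ⟨(![0, 0, 1], 1), ⟨fun h0 => by simpa using congrFun h0 2, by rw [hp]; simp⟩,
    ⟨1, one_ne_zero, ?_, by simp⟩, UU, UU_open, ⟨by simp, by simp, by simp⟩, ?_⟩
  · funext i
    fin_cases i <;> simp
  have hb : ∀ q : ↥(UU ∩ MM (tp D2)), bb q.1 ≠ 0 := fun q => bb_ne hB q.2
  have hlt : ∀ q : ↥(UU ∩ MM (tp D2)), ‖bb q.1‖ < ρ (dir (bb q.1)) := fun q =>
    (h _ (dir_mem (hb q))).2.2.2 _ (norm_nonneg _) (HH_bb q.2.1).2 (by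
      rw [norm_mul_dir]; exact (HH_bb q.2.1).1)
  have ht2 : ∀ t : unitInterval, 0 ≤ t2 t ∧ t2 t ≤ 1 := fun t =>
    ⟨le_max_left _ _, max_le zero_le_one (by linarith [t.2.2])⟩
  have hsc : ∀ (t : unitInterval) (q : ↥(UU ∩ MM (tp D2))), 0 < sc ρ t q.1 ∧
      sc ρ t q.1 * ‖bb q.1‖ ≤ ρ (dir (bb q.1)) := by
    intro t q
    have h0 := norm_pos_iff.2 (hb q)
    have h1 := hlt q
    have h2 : 1 < ρ (dir (bb q.1)) / ‖bb q.1‖ := (one_lt_div h0).2 h1
    obtain ⟨h3, h4⟩ := ht2 t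
    refine ⟨by unfold sc; nlinarith, ?_⟩
    rw [sc, add_mul, mul_assoc, div_mul_cancel₀ _ h0.ne']
    nlinarith
  have hco : ∀ i, Continuous fun q : ↥(UU ∩ MM (tp D2)) => q.1.1 i := fun i =>
    (continuous_apply i).comp (continuous_fst.comp continuous_subtype_val)
  have hq : ∀ i, Continuous fun q : ↥(UU ∩ MM (tp D2)) => q.1.1 i / q.1.1 2 := fun i =>
    (hco i).div (hco 2) fun q => UU_ne q.2.1
  have hbc : Continuous fun q : ↥(UU ∩ MM (tp D2)) => bb q.1 :=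
    (continuous_ofReal.comp (continuous_im.comp (hq 0))).add
      ((continuous_ofReal.comp (continuous_im.comp (hq 1))).mul continuous_const)
  have hrc : Continuous fun q : ↥(UU ∩ MM (tp D2)) => ρ (dir (bb q.1)) / ‖bb q.1‖ :=
    (continuous_iff_continuousAt.2 fun q =>
      (rho_dir_cont hρ (hb q)).comp_of_eq hbc.continuousAt rfl).div hbc.norm
        fun q => norm_ne_zero_iff.2 (hb q)
  have htc : Continuous fun z : unitInterval × ↥(UU ∩ MM (tp D2)) => (z.1 : ℝ) :=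
    continuous_subtype_val.comp continuous_fst
  have h1c : Continuous fun z : unitInterval × ↥(UU ∩ MM (tp D2)) => t1 z.1 :=
    continuous_const.max (continuous_const.sub (continuous_const.mul htc))
  have h2c : Continuous fun z : unitInterval × ↥(UU ∩ MM (tp D2)) => t2 z.1 :=
    continuous_const.max ((continuous_const.mul htc).sub continuous_const)
  have hsc' : Continuous fun z : unitInterval × ↥(UU ∩ MM (tp D2)) => sc ρ z.1 z.2.1 :=
    (continuous_const.sub h2c).add (h2c.mul (hrc.comp continuous_snd))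
  have hmv : ∀ i, Continuous fun z : unitInterval × ↥(UU ∩ MM (tp D2)) => mv ρ i z.1 z.2.1 :=
    fun i => (continuous_ofReal.comp (h1c.mul (continuous_re.comp ((hq i).comp continuous_snd)))).add
      (continuous_const.mul (continuous_ofReal.comp
        (hsc'.mul (continuous_im.comp ((hq i).comp continuous_snd)))))
  have hre : ∀ z : unitInterval × ↥(UU ∩ MM (tp D2)),
      0 ≤ (PC (mv ρ 0 z.1 z.2.1 ^ 2) (mv ρ 1 z.1 z.2.1 ^ 2)).re := by
    rintro ⟨t, q⟩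
    dsimp only
    rcases le_total (t : ℝ) (1 / 2) with ht | ht
    · have e2 : t2 t = 0 := max_eq_left (by linarith)
      have e3 : sc ρ t q.1 = 1 := by rw [sc, e2]; ring
      have a0 : 0 ≤ t1 t := le_max_left _ _
      have a1 : t1 t ≤ 1 := max_le zero_le_one (by linarith [t.2.1])
      obtain ⟨s0, s1⟩ := UU_small q.2.1
      refine (re_PC_pos ?_ ?_).le
      · rw [mv, e3]; exact (norm_shrink a0 a1 _).trans s0
      · rw [mv, e3]; exact (norm_shrink a0 a1 _).trans s1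
    · rw [PC_mv ρ ht, ofReal_re]
      exact (h _ (dir_mem (hb q))).2.2.1 _ (mul_nonneg (hsc t q).1.le (norm_nonneg _)) (hsc t q).2
  have hmem : ∀ z : unitInterval × ↥(UU ∩ MM (tp D2)),
      pt (z.2.1.1 2) (mv ρ 0 z.1 z.2.1) (mv ρ 1 z.1 z.2.1) ∈ MM (tp D2) := by
    rintro ⟨t, q⟩
    refine pt_mem hB (UU_ne q.2.1) ?_
    rw [mv_im, mv_im]
    by_contra hcon
    rw [not_or, not_not, not_not] at hcon
    have a0 := (mul_eq_zero.1 hcon.1).resolve_left (hsc t q).1.ne'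
    have a1 := (mul_eq_zero.1 hcon.2).resolve_left (hsc t q).1.ne'
    exact hb q (by rw [bb, a0, a1]; simp)
  let H : C(unitInterval × ↥(UU ∩ MM (tp D2)), ↥(MM (tp D2))) :=
    ⟨fun z => ⟨_, hmem z⟩, (pt_cont ((hco 2).comp continuous_snd) (hmv 0) (hmv 1) hre).subtype_mk _⟩
  refine ⟨H.comp ⟨fun q => (1, q), by fun_prop⟩, ⟨⟨H, fun q => Subtype.ext ?_, fun _ => rfl⟩⟩,
    fun q => ?_⟩
  · show pt (q.1.1 2) (mv ρ 0 0 q.1) (mv ρ 1 0 q.1) = q.1
    rw [mv_zero, mv_zero]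
    exact pt_self hB q.2.1 q.2.2.1
  · show q.1.1 2 ^ 5 * PC (mv ρ 0 1 q.1 ^ 2) (mv ρ 1 1 q.1 ^ 2) ^ (2⁻¹ : ℂ) = 0
    have e2 : t2 1 = 1 := by norm_num [t2]
    have e3 : sc ρ 1 q.1 * ‖bb q.1‖ = ρ (dir (bb q.1)) := by
      rw [sc, e2, sub_self, zero_add, one_mul, div_mul_cancel₀ _ (norm_ne_zero_iff.2 (hb q))]
    rw [PC_mv ρ (by norm_num), e3, (h _ (dir_mem (hb q))).2.1, ofReal_zero,
      Complex.zero_cpow (by norm_num), mul_zero]

end

end Pool.Agent.MP_6600f1_ag.ce
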