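import Pool.Agent.MP_6600f1_ag.ce.NV_1

/-! The chart functions do not vanish off the real points. -/

namespace Pool.Agent.MP_6600f1_ag.ce

open MvPolynomial Metric Set Complex Filter Topology
open scoped ComplexConjugate Real

noncomputable section

namespace NVL

theorem xi_ne {x : V} {n : Fin 21} (h : ∀ j, ex n j ≠ 0 → x j ≠ 0) : xi D1 n x ≠ 0 := by
  have hd : (dl : ℂ) ≠ 0 := by
    rw [Ne, ofReal_eq_zero]; unfold dl; norm_num
  refine mul_ne_zero (pow_ne_zero _ hd) (Finset.prod_ne_zero_iff.2 (fun j _ => ?_))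
  by_cases h0 : ex n j = 0
  · simp [h0]
  · exact pow_ne_zero _ (h j h0)

theorem xi_zero {x : V} {n : Fin 21} {i : Fin 3} (h : ex n i ≠ 0) (hx : x i = 0) :
    xi D1 n x = 0 :=
  mul_eq_zero_of_right _ (Finset.prod_eq_zero (Finset.mem_univ i) (by simp [hx, h]))

theorem ph_congr {u u' : V} {n : Fin 21} {i : Fin 3} (h : ex n i = 0)
    (hu : ∀ j, j ≠ i → u' j = u j) : ph u' n = ph u n := by
  refine Finset.prod_congr rfl (fun j _ => ?_)
  by_cases hj : j = i
  · simp [hj, h]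
  · rw [hu j hj]

theorem im_norm (hP : PhS) {x u : V} (hu : Pol x u) (z : ℂ) (n : Fin 21) :
    z * conj (xi D1 n x) = (‖xi D1 n x‖ : ℂ) * (z * conj (ph u n)) := by
  have h := (hP.2.1 x u n hu).2
  generalize ‖xi D1 n x‖ = r at *
  rw [h, map_mul, conj_ofReal]
  ring

theorem ab_norm (hP : PhS) {x u : V} (hu : Pol x u) (n n' : Fin 21) :
    xi D1 n x * conj (xi D1 n' x) =
      ((‖xi D1 n x‖ * ‖xi D1 n' x‖ : ℝ) : ℂ) * (ph u n * conj (ph u n')) := by
  rw [im_norm hP hu]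
  have h := (hP.2.1 x u n hu).2
  generalize ‖xi D1 n x‖ = r at *
  rw [h]
  push_cast
  ring

theorem hab_of (hP : PhS) {x u : V} (hu : Pol x u) {n n' : Fin 21} (h1 : xi D1 n x ≠ 0)
    (h2 : xi D1 n' x ≠ 0) (h : (xi D1 n x * conj (xi D1 n' x)).im = 0) :
    (ph u n * conj (ph u n')).im = 0 := by
  rw [ab_norm hP hu, im_ofReal_mul] at h
  exact (mul_eq_zero.1 h).resolve_left (mul_ne_zero (norm_ne_zero_iff.2 h1) (norm_ne_zero_iff.2 h2))

theorem hm_of (hP : PhS) {x u : V} (hu : Pol x u) {n : Fin 21} {w : ℂ} (h1 : xi D1 n x ≠ 0)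
    (h : (w * conj (xi D1 n x)).im = 0) : (w * conj (ph u n)).im = 0 := by
  rw [im_norm hP hu, im_ofReal_mul] at h
  exact (mul_eq_zero.1 h).resolve_left (norm_ne_zero_iff.2 h1)

/-- Where the first chart function vanishes, the second is a real multiple of the zone form. -/
theorem fb_eq {t : Fin 25} {p : V × ℂ} (h : fa t p = 0) :
    fb t p = (if St (tm t) then (XI (ta t) p * conj (XI (tb t) p)).re else 1) *
      (p.2 * conj (XI (tm t) p)).im := by
  unfold fb
  split_ifs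
  · have h' : (XI (ta t) p * conj (XI (tb t) p)).im = 0 := h
    rw [mul_assoc (p.2 * _), mul_im, h']
    ring
  · rw [one_mul]

theorem real_of_corner (hP : PhS) {t : Fin 25} {x : V} {w : ℂ} (hx : x ≠ 0)
    (hV : x ∈ VS D1 (D1.vs t)) (hw : w ^ 2 = aeval x (tp D1)) {j : Fin 3}
    (hj : ∀ i, i ≠ j → x i = 0) : RealPt (x, w) := by
  obtain ⟨u0, hu0⟩ := hP.1 x
  have hu : Pol x (fun _ => u0 j) := by
    refine ⟨fun _ => hu0.1 j, fun i => ?_⟩
    by_cases h : i = j
    · rw [h]; exact hu0.2 j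
    · simp [hj i h]
  have hd : dd (fun _ => u0 j) = 0 := by simp [dd, Complex.mul_conj]
  have h3 : ∀ n n', (ph (fun _ => u0 j) n * conj (ph (fun _ => u0 j) n')).im = 0 := by
    intro n n'
    have := hP.2.2.1 _ n n' hu.1
    rw [hd, mul_zero] at this
    exact abs_nonpos_iff.1 this
  obtain ⟨R, E, hR, hRs, hE, hEi, -, heq⟩ := key hP hx hu hV hw (h3 _ _)
  obtain ⟨e1, e2⟩ := parts heq
  obtain ⟨i, hi, hi'⟩ := neg_side t j
  have hm0 : ‖xi D1 (tm t) x‖ = 0 := by rw [xi_zero hi' (hj i hi), norm_zero]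
  have hu1 := unit_parts (norm_mu hP hu (tm t) (tb t))
  rw [hd, mul_zero, abs_nonpos_iff] at hEi
  rw [h3] at e1 e2 hu1
  have hS := (heavy le_rfl hRs).resolve_left (by rw [hm0]; simpa using hR.ne')
  rw [hm0] at e1 e2
  refine hP.2.2.2.2.2.2.1 x _ w (tm t) hu hd ?_
  generalize w * conj (ph (fun _ => u0 j) (tm t)) = z at *
  have hu2 : (ph (fun _ => u0 j) (tm t) * conj (ph (fun _ => u0 j) (tb t))).re ^ 2 = 1 := by
    linarith
  rw [hu2] at e1 e2
  have a1 := (abs_le.1 ((abs_re_le_norm E).trans hE)).1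
  have a2 := mul_le_mul_of_nonneg_right dl_sq.2 (sq_nonneg R)
  have a3 := pow_pos hR 2
  have b1 : 0 < (z ^ 2).re := by linarith
  have b2 : (z ^ 2).im = 0 := by linarith
  rw [sq, mul_re] at b1
  rw [sq, mul_im] at b2
  by_contra h0
  have b3 : z.re = 0 := by
    refine (mul_eq_zero.1 (show z.re * z.im = 0 by linarith)).resolve_right h0
  rw [b3] at b1
  linarith [mul_self_nonneg z.im]

theorem third : ∀ k k' : Fin 3, k ≠ k' → ∃ k'', ∀ l, l ≠ k'' → l = k ∨ l = k' := by decide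

theorem other : ∀ i j : Fin 3, j ≠ i → ∃ l, ∀ i', i' ≠ l → i' = i ∨ i' = j := by decide

end NVL

open NVL in
theorem nvS : NVS := by
  intro _ hP t ⟨x, w⟩ ⟨⟨hx, hw⟩, hnr⟩ hV hG h0
  have ha : fa t (x, w) = 0 := by simpa [ff] using congrArg Complex.re h0
  have hb : fb t (x, w) = 0 := by simpa [ff] using congrArg Complex.im h0
  simp only at hx hw hV hG
  refine hnr ?_
  obtain ⟨u, hu⟩ := hP.1 x
  rw [fb_eq ha] at hb
  rcases hG with hT | ⟨i, k, k', hi, hk, e1, e2⟩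
  · have hn : ∀ n, xi D1 n x ≠ 0 := fun n => xi_ne (fun j _ => hT j)
    refine real_of_phases hP hx hu hV hw (hab_of hP hu (hn _) (hn _) ha) (hm_of hP hu (hn _) ?_)
    refine (mul_eq_zero.1 hb).resolve_left ?_
    split_ifs
    · intro h
      exact mul_ne_zero (hn (ta t)) ((map_ne_zero (starRingEnd ℂ)).2 (hn (tb t)))
        (Complex.ext h ha)
    · exact one_ne_zero
  by_cases hc : ∃ j, j ≠ i ∧ x j = 0
  · obtain ⟨j, hj, hj0⟩ := hc
    obtain ⟨l, hl⟩ := other i j hj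
    exact real_of_corner hP hx hV hw (j := l)
      (fun i' h => by rcases hl i' h with rfl | rfl <;> assumption)
  have hn : ∀ n, ex n i = 0 → xi D1 n x ≠ 0 := fun n h => xi_ne (fun j hj h0 =>
    hc ⟨j, fun hji => hj (hji ▸ h), h0⟩)
  obtain ⟨k'', hk''⟩ := third k k' hk
  have hex : ∀ l, l ≠ k'' → ex (D1.tr t l) i = 0 := fun l h => by
    rcases hk'' l h with rfl | rfl <;> assumption
  have h8 := fun z hz => hP.2.2.2.2.2.2.2.1 x t i k'' z hi hex hz u hu
  have hzone : ex (tm t) i = 0 → ∀ u', Pol x u' → (w * conj (ph u' (tm t))).im = 0 := by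
    intro h u' hu'
    rw [if_neg (fun hs => star_int t i hs h), one_mul] at hb
    exact hm_of hP hu' (hn _ h) hb
  fin_cases k''
  · obtain ⟨v, hv⟩ := hP.1 (fun _ => w)
    obtain ⟨u', hu', -, h2⟩ := h8 (v 0) (hv.1 0)
    refine real_of_phases hP hx hu' hV hw
      (hab_of hP hu' (hn _ (hex 1 (by decide))) (hn _ (hex 2 (by decide))) ha) ?_
    have h3 : ph u' (tm t) = v 0 := h2
    have h4 : w = (‖w‖ : ℂ) * v 0 := hv.2 0
    rw [h3, h4, mul_assoc, mul_conj_one (hv.1 0)]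
    simp
  · obtain ⟨u', hu', h1, h2⟩ := h8 (ph u (tb t)) (hP.2.1 x u _ hu).1
    refine real_of_phases hP hx hu' hV hw ?_ (hzone (hex 0 (by decide)) u' hu')
    have h3 : ph u' (ta t) = ph u (tb t) := h2
    have h4 : ph u' (tb t) = ph u (tb t) := ph_congr (hex 2 (by decide)) h1
    rw [h3, h4, mul_conj_one (hP.2.1 x u _ hu).1]
    simp
  · obtain ⟨u', hu', h1, h2⟩ := h8 (ph u (ta t)) (hP.2.1 x u _ hu).1
    refine real_of_phases hP hx hu' hV hw ?_ (hzone (hex 0 (by decide)) u' hu')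
    have h3 : ph u' (tb t) = ph u (ta t) := h2
    have h4 : ph u' (ta t) = ph u (ta t) := ph_congr (hex 1 (by decide)) h1
    rw [h3, h4, mul_conj_one (hP.2.1 x u _ hu).1]
    simp

end

end Pool.Agent.MP_6600f1_ag.ce
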