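import Pool.Agent.MP_6600f1_ag.ce.Spec

/-! The equation of the surface in the chart of a triangle, in terms of phases. -/

namespace Pool.Agent.MP_6600f1_ag.ce

open MvPolynomial Metric Set Complex Filter Topology
open scoped ComplexConjugate Real

noncomputable section

namespace NVL

theorem tri_sign : ∀ t : Fin 25, tm t ∈ D1.ngl ∧ ta t ∉ D1.ngl ∧ tb t ∉ D1.ngl ∧ ta t ≠ tb t := by
  decide

theorem star_int : ∀ (t : Fin 25) (i : Fin 3), St (tm t) → ex (tm t) i ≠ 0 := by decide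

theorem neg_side : ∀ (t : Fin 25) (j : Fin 3), ∃ i, i ≠ j ∧ ex (tm t) i ≠ 0 := by decide

theorem dl_sq : 0 < dl ^ 2 ∧ dl ^ 2 ≤ 1 / 100000 := by
  unfold dl
  constructor <;> norm_num

theorem mul_conj_one {z : ℂ} (h : ‖z‖ = 1) : z * conj z = 1 := by
  rw [Complex.mul_conj, Complex.normSq_eq_norm_sq, h]; simp

theorem sq_one_of_real {z : ℂ} (h : ‖z‖ = 1) (hi : z.im = 0) : z ^ 2 = 1 := by
  have h1 := mul_conj_one h
  rw [Complex.conj_eq_iff_im.2 hi] at h1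
  rw [sq, h1]

/-- The equation of the surface in the chart of a triangle. -/
theorem key (hP : PhS) {t : Fin 25} {x u : V} {w : ℂ} (hx : x ≠ 0) (hu : Pol x u)
    (hV : x ∈ VS D1 (D1.vs t)) (hw : w ^ 2 = aeval x (tp D1))
    (hab : (ph u (ta t) * conj (ph u (tb t))).im = 0) :
    ∃ (R : ℝ) (E : ℂ), 0 < R ∧
      (R = ‖xi D1 (tm t) x‖ ∨ R = ‖xi D1 (ta t) x‖ ∨ R = ‖xi D1 (tb t) x‖) ∧
      ‖E‖ ≤ 21 * dl ^ 2 * R ^ 2 ∧ |E.im| ≤ 210 * dl ^ 2 * R ^ 2 * dd u ∧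
      dd u ≤ 6 * |(ph u (tm t) * conj (ph u (tb t))).im| ∧
      ((w * conj (ph u (tm t))) ^ 2 + (‖xi D1 (tm t) x‖ : ℂ) ^ 2) *
          (ph u (tm t) * conj (ph u (tb t))) ^ 2 =
        (‖xi D1 (ta t) x‖ : ℂ) ^ 2 + (‖xi D1 (tb t) x‖ : ℂ) ^ 2 + E := by
  obtain ⟨-, h2, -, h4, h5, h6, -⟩ := hP
  obtain ⟨n, hn, hn0, -, hE1, hE2⟩ := h5 x u (D1.vs t) (tb t) hx hu hV
  obtain ⟨s1, s2, s3, s4⟩ := tri_sign t
  have hma : tm t ≠ ta t := fun h => s2 (h ▸ s1)
  have hmb : tm t ≠ tb t := fun h => s3 (h ▸ s1)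
  obtain ⟨nm, em⟩ := h2 x u (tm t) hu
  obtain ⟨na, ea⟩ := h2 x u (ta t) hu
  obtain ⟨nb, eb⟩ := h2 x u (tb t) hu
  refine ⟨‖xi D1 n x‖, Er (D1.vs t) x * conj (ph u (tb t)) ^ 2, norm_pos_iff.2 hn0, ?_, ?_, hE2,
    ?_, ?_⟩
  · simp only [TD.vs, Finset.mem_insert, Finset.mem_singleton] at hn
    rcases hn with rfl | rfl | rfl
    · exact Or.inl rfl
    · exact Or.inr (Or.inl rfl)
    · exact Or.inr (Or.inr rfl)
  · rw [norm_mul, norm_pow, Complex.norm_conj, nb]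
    simpa using hE1
  · have := h4 u t 1 0 2 hu.1 (by decide) (by decide) (by decide)
    have h' : (ph u (D1.tr t 1) * conj (ph u (D1.tr t 2))).im = 0 := hab
    rw [h'] at this
    simpa [tm, tb] using this
  · have hF := h6 x (D1.vs t)
    have hs : D1.vs t = {tm t, ta t, tb t} := rfl
    rw [hs, Finset.sum_insert (by simp [hma, hmb]), Finset.sum_insert (by simp [s4]),
      Finset.sum_singleton, ← hs, ← hw] at hF
    simp only [sg, s1, s2, s3, if_true, if_false] at hF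
    have c1 := mul_conj_one nm
    have c2 := mul_conj_one nb
    have c3 := sq_one_of_real (z := ph u (ta t) * conj (ph u (tb t)))
      (by rw [norm_mul, Complex.norm_conj, na, nb, one_mul]) hab
    generalize (‖xi D1 (tm t) x‖ : ℂ) = rm at *
    generalize (‖xi D1 (ta t) x‖ : ℂ) = ra at *
    generalize (‖xi D1 (tb t) x‖ : ℂ) = rb at *
    rw [em, ea, eb] at hF
    push_cast at hF
    generalize ph u (tm t) = M at *
    generalize ph u (ta t) = A at *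
    generalize ph u (tb t) = B at *
    linear_combination (conj B) ^ 2 * hF + w ^ 2 * (conj B) ^ 2 * (M * conj M + 1) * c1 +
      ra ^ 2 * c3 + rb ^ 2 * (B * conj B + 1) * c2

theorem abs_mul_le_left {a b : ℝ} (hb : |b| ≤ 1) : a * b ≤ |a| := by
  have h1 := le_abs_self (a * b)
  rw [abs_mul] at h1
  exact h1.trans (mul_le_of_le_one_right (abs_nonneg a) hb)

theorem real_nv {S P R δ er ei mr mi : ℝ} (hδ' : δ ≤ 1 / 100000) (hR : 0 < R)
    (hP : 0 ≤ P) (hS : R ≤ S ∨ R ≤ P) (hS0 : 0 ≤ S) (h1 : |er| ≤ 21 * δ * R)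
    (h2 : |ei| ≤ 1260 * δ * R * |mi|) (hm : mr ^ 2 + mi ^ 2 = 1)
    (e1 : S * (mr ^ 2 - mi ^ 2) = P + er) (e2 : S * (2 * mr * mi) = ei) : mi = 0 := by
  by_contra h0
  have hmi : 0 < |mi| := abs_pos.2 h0
  have a1 := abs_le.1 h1
  have hδR := mul_le_mul_of_nonneg_right hδ' hR.le
  have a2 : R / 2 ≤ S := by
    rcases hS with h | h
    · linarith
    · have := mul_le_of_le_one_right hS0 (show mr ^ 2 - mi ^ 2 ≤ 1 by linarith [sq_nonneg mi])
      linarith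
  have a3 : S * (2 * |mr|) ≤ 1260 * δ * R := by
    refine le_of_mul_le_mul_right ?_ hmi
    rw [← e2, abs_mul, abs_mul, abs_mul, abs_of_nonneg hS0, abs_two] at h2
    linarith
  have a4 : |mr| ≤ 1 / 4 := by
    have := mul_le_mul_of_nonneg_right a2 (abs_nonneg mr)
    refine le_of_mul_le_mul_left ?_ hR
    linarith
  have a5 : mr ^ 2 ≤ (1 / 4) ^ 2 := by
    rw [← sq_abs]; exact pow_le_pow_left₀ (abs_nonneg mr) a4 2
  have := mul_le_mul_of_nonneg_left (show mr ^ 2 - mi ^ 2 ≤ -7 / 8 by linarith) hS0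
  linarith

theorem real_loop {rm P R δ er ei mr mi zr zi : ℝ} (hδ : 0 < δ) (hδ' : δ ≤ 1 / 100000)
    (hR : 0 < R) (hS : R ≤ rm ∨ R ≤ P) (hP : 0 ≤ P) (h1 : |er| ≤ 21 * δ * R)
    (h1' : |ei| ≤ 21 * δ * R) (h2 : |ei| ≤ 1260 * δ * R * |mi|) (hm : mr ^ 2 + mi ^ 2 = 1)
    (hz : 0 < zr) (hmr : 1 / 4 ≤ mr ^ 2) (hmi : mi ≠ 0)
    (e1 : (zr + rm) * (mr ^ 2 - mi ^ 2) - zi * (2 * mr * mi) = P + er)
    (e2 : (zr + rm) * (2 * mr * mi) + zi * (mr ^ 2 - mi ^ 2) = ei) : zi * (mr * mi) < 0 := by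
  have a1 := abs_le.1 h1
  have hδR := mul_le_mul_of_nonneg_right hδ' hR.le
  obtain ⟨c, hc⟩ : ∃ c, c = mr ^ 2 - mi ^ 2 := ⟨_, rfl⟩
  obtain ⟨s, hs⟩ : ∃ s, s = 2 * mr * mi := ⟨_, rfl⟩
  have hcs : c ^ 2 + s ^ 2 = 1 := by
    rw [hc, hs]; linear_combination (mr ^ 2 + mi ^ 2 + 1) * hm
  rw [← hc, ← hs] at e1 e2
  have b1 : zr + rm = (P + er) * c + ei * s := by
    linear_combination c * e1 + s * e2 - (zr + rm) * hcs
  have b2 : zi = ei * c - (P + er) * s := by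
    linear_combination c * e2 - s * e1 - zi * hcs
  have c1 : |c| ≤ 1 := by rw [← sq_le_one_iff_abs_le_one]; linarith [sq_nonneg s]
  have c2 : |s| ≤ 1 := by rw [← sq_le_one_iff_abs_le_one]; linarith [sq_nonneg c]
  have c3 : ei * s ≤ |ei| := abs_mul_le_left c2
  have a2 : R / 2 ≤ P + er := by
    rcases hS with h | h
    · have d1 : (P + er) * c ≤ |P + er| := abs_mul_le_left c1
      rcases abs_cases (P + er) with d2 | d2
      · linarith
      · linarith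
    · linarith
  have d3 : |mi| ≤ |s| := by
    rw [hs, abs_mul, abs_mul, abs_two]
    have : 1 / 2 ≤ |mr| := by
      refine (pow_le_pow_iff_left₀ (by norm_num) (abs_nonneg _) two_ne_zero).1 ?_
      rw [sq_abs]; linarith
    have := mul_le_mul_of_nonneg_right this (abs_nonneg mi)
    linarith
  have d4 : 0 < |s| := lt_of_lt_of_le (abs_pos.2 hmi) d3
  have d6 : |s| * |s| = s ^ 2 := by rw [← sq, sq_abs]
  have d5 : ei * s * c ≤ 1260 * δ * R * s ^ 2 := by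
    have t0 : ei * s * c ≤ |ei * s| := abs_mul_le_left c1
    have t1 : 1260 * δ * R * |mi| ≤ 1260 * δ * R * |s| := by gcongr
    have t2 := mul_le_mul_of_nonneg_right (h2.trans t1) d4.le
    rw [abs_mul] at t0
    rw [← d6]
    linarith
  have d7 : 0 < s ^ 2 := by rw [← d6]; positivity
  have d8 : zi * s < 0 := by
    have t1 := mul_le_mul_of_nonneg_right a2 d7.le
    have t2 := mul_le_mul_of_nonneg_right hδR d7.le
    have t3 := mul_pos hR d7
    rw [b2]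
    linarith
  rw [hs] at d8
  linarith

/-- real and imaginary parts of the chart equation -/
theorem parts {z μ E : ℂ} {rm ra rb : ℝ}
    (h : (z + (rm : ℂ) ^ 2) * μ ^ 2 = (ra : ℂ) ^ 2 + (rb : ℂ) ^ 2 + E) :
    (z.re + rm ^ 2) * (μ.re ^ 2 - μ.im ^ 2) - z.im * (2 * μ.re * μ.im) = ra ^ 2 + rb ^ 2 + E.re ∧
    (z.re + rm ^ 2) * (2 * μ.re * μ.im) + z.im * (μ.re ^ 2 - μ.im ^ 2) = E.im := by
  have h1 := congrArg Complex.re h
  have h2 := congrArg Complex.im h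
  simp only [sq, mul_re, mul_im, add_re, add_im, ofReal_re, ofReal_im] at h1 h2
  constructor
  · linear_combination h1
  · linear_combination h2

theorem unit_parts {μ : ℂ} (h : ‖μ‖ = 1) : μ.re ^ 2 + μ.im ^ 2 = 1 := by
  have := Complex.sq_norm μ
  rw [h, Complex.normSq_apply] at this
  linarith

theorem heavy {R rm ra rb z : ℝ} (hz : 0 ≤ z) (h : R = rm ∨ R = ra ∨ R = rb) :
    R ^ 2 ≤ z + rm ^ 2 ∨ R ^ 2 ≤ ra ^ 2 + rb ^ 2 := by
  rcases h with rfl | rfl | rfl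
  · exact Or.inl (by linarith)
  · exact Or.inr (by linarith [sq_nonneg rb])
  · exact Or.inr (by linarith [sq_nonneg ra])

theorem norm_mu (hP : PhS) {x u : V} (hu : Pol x u) (n n' : Fin 21) :
    ‖ph u n * conj (ph u n')‖ = 1 := by
  rw [norm_mul, Complex.norm_conj, (hP.2.1 x u n hu).1, (hP.2.1 x u n' hu).1, one_mul]

theorem im_bound {E : ℂ} {R D m : ℝ} (h : |E.im| ≤ 210 * dl ^ 2 * R ^ 2 * D) (hD : D ≤ 6 * m) :
    |E.im| ≤ 1260 * dl ^ 2 * R ^ 2 * m := by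
  have : 210 * dl ^ 2 * R ^ 2 * D ≤ 210 * dl ^ 2 * R ^ 2 * (6 * m) := by gcongr
  linarith

/-- If both normalised chart functions vanish, the point is real. -/
theorem real_of_phases (hP : PhS) {t : Fin 25} {x u : V} {w : ℂ} (hx : x ≠ 0) (hu : Pol x u)
    (hV : x ∈ VS D1 (D1.vs t)) (hw : w ^ 2 = aeval x (tp D1))
    (hab : (ph u (ta t) * conj (ph u (tb t))).im = 0) (hm : (w * conj (ph u (tm t))).im = 0) :
    RealPt (x, w) := by
  obtain ⟨R, E, hR, hRs, hE, hEi, hdd, heq⟩ := key hP hx hu hV hw hab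
  obtain ⟨e1, e2⟩ := parts heq
  have z1 : ((w * conj (ph u (tm t))) ^ 2).im = 0 := by rw [sq, mul_im, hm]; ring
  have z2 : 0 ≤ ((w * conj (ph u (tm t))) ^ 2).re := by
    rw [sq, mul_re, hm]; linarith [mul_self_nonneg (w * conj (ph u (tm t))).re]
  rw [z1] at e1 e2
  have h0 := real_nv dl_sq.2 (pow_pos hR 2) (by positivity) (heavy z2 hRs) (by positivity)
    ((abs_re_le_norm E).trans hE) (im_bound hEi hdd) (unit_parts (norm_mu hP hu _ _))
    (by linarith) (by linarith)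
  rw [h0] at hdd
  have hd0 : dd u = 0 := le_antisymm (by simpa using hdd) (by unfold dd; positivity)
  exact hP.2.2.2.2.2.2.1 x u w (tm t) hu hd0 hm

/-- The sign of the second chart function where the first vanishes. -/
theorem sign_of_phases (hP : PhS) {t : Fin 25} {x u : V} {w : ℂ} (hx : x ≠ 0) (hu : Pol x u)
    (hV : x ∈ VS D1 (D1.vs t)) (hw : w ^ 2 = aeval x (tp D1))
    (hab : (ph u (ta t) * conj (ph u (tb t))).im = 0)
    (hz : 0 < ((w * conj (ph u (tm t))) ^ 2).re)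
    (h1 : 1 / 4 ≤ (ph u (tm t) * conj (ph u (tb t))).re ^ 2)
    (h2 : (ph u (tm t) * conj (ph u (tb t))).im ≠ 0) :
    ((w * conj (ph u (tm t))) ^ 2).im * ((ph u (tm t) * conj (ph u (tb t))).re *
      (ph u (tm t) * conj (ph u (tb t))).im) < 0 := by
  obtain ⟨R, E, hR, hRs, hE, hEi, hdd, heq⟩ := key hP hx hu hV hw hab
  obtain ⟨e1, e2⟩ := parts heq
  exact real_loop dl_sq.1 dl_sq.2 (pow_pos hR 2) (by simpa using heavy le_rfl hRs) (by positivity)
    ((abs_re_le_norm E).trans hE) ((abs_im_le_norm E).trans hE) (im_bound hEi hdd)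
    (unit_parts (norm_mu hP hu _ _)) hz h1 h2 e1 e2

end NVL

end

end Pool.Agent.MP_6600f1_ag.ce
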