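import Mathlib
import Pool.Agent.MP_6600f1_ag.ce.Spec

/-! The ovals that belong to the negative vertices on the sides of the triangle. -/

namespace Pool.Agent.MP_6600f1_ag.ce

open MvPolynomial Metric Set

noncomputable section

namespace ovb

/-- one normalised term in the chart -/
def tT (a : ℕ) (al de : ℝ) (w : ℂ) : ℝ :=
  w.im ^ (2 * a) * Real.exp (al + (2 * de * w.re + 10 * a * |w.re|))

lemma tT_nonneg (a : ℕ) (al de : ℝ) (w : ℂ) : 0 ≤ tT a al de w := by
  unfold tT; rw [pow_mul]; positivity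

lemma tT_cont (a : ℕ) (al de : ℝ) : Continuous (tT a al de) := by
  unfold tT; fun_prop

lemma tT_smul (a : ℕ) (al de l : ℝ) (hl : 0 ≤ l) (w : ℂ) :
    tT a al de (l * w) = l ^ (2 * a) * w.im ^ (2 * a) *
      Real.exp (al + l * (2 * de * w.re + 10 * a * |w.re|)) := by
  unfold tT
  simp only [Complex.mul_im, Complex.mul_re, Complex.ofReal_re, Complex.ofReal_im, zero_mul,
    add_zero, sub_zero, abs_mul, abs_of_nonneg hl, mul_pow]
  congr 2; ring

lemma tT_conv (a : ℕ) (al de l : ℝ) (hde : |de| ≤ 5) (h0 : 0 ≤ l) (h1 : l ≤ 1) (w : ℂ) :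
    tT a al de (l * w) ≤ l * tT a al de w + (1 - l) * tT a al de 0 := by
  rw [tT_smul a al de l h0]
  unfold tT
  set B := 2 * de * w.re + 10 * a * |w.re| with hB
  rcases Nat.eq_zero_or_pos a with rfl | ha
  · have := convexOn_exp.2 (mem_univ (al + B)) (mem_univ al) h0 (sub_nonneg.2 h1) (by ring)
    simp only [smul_eq_mul] at this
    have e : l * (al + B) + (1 - l) * al = al + l * B := by ring
    rw [e] at this
    simpa using this
  · have ha' : (1 : ℝ) ≤ a := by exact_mod_cast ha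
    have hB0 : 0 ≤ B := by
      have h2 : |de * w.re| ≤ 5 * |w.re| := by
        rw [abs_mul]; exact mul_le_mul_of_nonneg_right hde (abs_nonneg _)
      have h3 := neg_abs_le (de * w.re)
      have h4 := abs_nonneg w.re
      nlinarith
    have hz : (0 : ℂ).im ^ (2 * a) = 0 := by simp [ha.ne']
    rw [hz, zero_mul, mul_zero, add_zero]
    have hp : l ^ (2 * a) ≤ l := pow_le_of_le_one h0 h1 (by omega)
    have he : Real.exp (al + l * B) ≤ Real.exp (al + B) := Real.exp_le_exp.2 (by nlinarith)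
    have hw : 0 ≤ w.im ^ (2 * a) := by rw [pow_mul]; positivity
    calc l ^ (2 * a) * w.im ^ (2 * a) * Real.exp (al + l * B)
        ≤ l * w.im ^ (2 * a) * Real.exp (al + B) := by gcongr
      _ = _ := by ring

lemma tT_neg (a : ℕ) (al de l : ℝ) (ha : a ≤ 5) (hde : |de| ≤ 5) (h0 : 0 ≤ l) (h1 : l ≤ 1)
    (w : ℂ) : tT a al de w - tT a al de (l * w) ≤ tT a al de w * ((1 - l) * (10 + 60 * |w.re|)) := by
  have hT := tT_nonneg a al de w
  rw [tT_smul a al de l h0]
  unfold tT at *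
  set B := 2 * de * w.re + 10 * a * |w.re| with hB
  have ha' : (a : ℝ) ≤ 5 := by exact_mod_cast ha
  have hB1 : B ≤ 60 * |w.re| := by
    have h2 : |de * w.re| ≤ 5 * |w.re| := by
      rw [abs_mul]; exact mul_le_mul_of_nonneg_right hde (abs_nonneg _)
    have h3 := le_abs_self (de * w.re)
    have h4 := abs_nonneg w.re
    nlinarith
  have e : Real.exp (al + l * B) = Real.exp (al + B) * Real.exp (-((1 - l) * B)) := by
    rw [← Real.exp_add]; congr 1; ring
  have h4 := abs_nonneg w.re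
  have hb : 1 - (1 - l) * (60 * |w.re|) ≤ Real.exp (-((1 - l) * B)) := by
    have := Real.add_one_le_exp (-((1 - l) * B))
    nlinarith
  have hp : 1 - 10 * (1 - l) ≤ l ^ (2 * a) := by
    have := one_add_mul_le_pow (a := l - 1) (by linarith) (2 * a)
    have e2 : 1 + (l - 1) = l := by ring
    rw [e2] at this
    push_cast at this
    nlinarith
  have hp0 : 0 ≤ l ^ (2 * a) := by positivity
  have hp1 : l ^ (2 * a) ≤ 1 := pow_le_one₀ h0 h1
  have hx : 0 ≤ (1 - l) * (60 * |w.re|) := mul_nonneg (by linarith) (by positivity)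
  have key : 1 - (1 - l) * (10 + 60 * |w.re|) ≤ l ^ (2 * a) * Real.exp (-((1 - l) * B)) := by
    nlinarith
  rw [e]
  nlinarith

lemma ray (ψ : ℂ → ℝ) (hc : Continuous ψ) (h0 : ψ 0 < 0)
    (hs : ∀ w, ψ w ≤ 0 → ∀ l : ℝ, 0 ≤ l → l < 1 → ψ (l * w) < 0) (u : ℂ)
    (hu : ∃ t : ℝ, 0 ≤ t ∧ 0 < ψ (t * u)) :
    ∃ r : ℝ, 0 < r ∧ (∀ t : ℝ, 0 ≤ t → t < r → ψ (t * u) < 0) ∧
      ψ (r * u) = 0 ∧ ∀ t : ℝ, r < t → 0 < ψ (t * u) := by
  obtain ⟨T, hT0, hT⟩ := hu
  have hd : ∀ r t : ℝ, ψ (r * u) ≤ 0 → 0 ≤ t → t < r → ψ (t * u) < 0 := by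
    intro r t hr ht htr
    have hr0 : 0 < r := lt_of_le_of_lt ht htr
    have := hs _ hr (t / r) (by positivity) ((div_lt_one hr0).2 htr)
    have e : ((t / r : ℝ) : ℂ) * (r * u) = t * u := by
      have : (r : ℂ) ≠ 0 := by exact_mod_cast hr0.ne'
      push_cast; field_simp
    rwa [e] at this
  have hg : Continuous fun t : ℝ => ψ (t * u) := by fun_prop
  obtain ⟨r, hr, hr0⟩ : (0 : ℝ) ∈ (fun t : ℝ => ψ (t * u)) '' Icc 0 T :=
    intermediate_value_Icc hT0 hg.continuousOn ⟨by simpa using h0.le, hT.le⟩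
  have hr0' : ψ (r * u) = 0 := hr0
  refine ⟨r, ?_, fun t ht htr => hd r t hr0'.le ht htr, hr0', fun t ht => ?_⟩
  · rcases hr.1.eq_or_lt with h | h
    · rw [← h] at hr0'; simp at hr0'; exact absurd hr0' h0.ne
    · exact h
  · by_contra hn
    exact absurd hr0' (hd t r (not_lt.1 hn) hr.1 ht).ne

def LL : ℝ := 8 * Real.log 10

lemma dl_eq : dl = Real.exp (-LL) := by
  unfold dl LL
  rw [Real.exp_neg, show (8 : ℝ) * Real.log 10 = ((8 : ℕ) : ℝ) * Real.log 10 by norm_num,
    Real.exp_nat_mul, Real.exp_log (by norm_num)]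
  norm_num

lemma LL_pos : 0 < LL := by unfold LL; have := Real.log_pos (show (1 : ℝ) < 10 by norm_num); linarith

lemma LL_le : LL ≤ 72 := by
  unfold LL; have := Real.log_le_sub_one_of_pos (show (0 : ℝ) < 10 by norm_num); linarith

/-- the real monomials -/
def xr (D : TD) (n : Fin 21) (y : Fin 3 → ℝ) : ℝ := dl ^ (4 * D.nu n) * ∏ l, y l ^ ex n l

lemma norm_xi (D : TD) (n : Fin 21) (y : Fin 3 → ℝ) : ‖xi D n (cx y)‖ = |xr D n y| := by
  have : xi D n (cx y) = (xr D n y : ℂ) := by unfold xi xr cx; push_cast; rfl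
  rw [this, Complex.norm_real, Real.norm_eq_abs]

lemma eval_tp (D : TD) (y : Fin 3 → ℝ) : eval y (tp D) = ∑ n, sg D n * xr D n y ^ 2 := by
  unfold tp xr
  simp only [map_sum, map_mul, eval_C, map_prod, map_pow, eval_X]
  refine Finset.sum_congr rfl fun n _ => ?_
  rw [mul_pow, ← pow_mul, ← Finset.prod_pow, mul_assoc]
  congr 2
  · congr 1; ring
  · exact Finset.prod_congr rfl fun l _ => by rw [← pow_mul, mul_comm]

lemma PP_eq (D : TD) (y : Fin 3 → ℝ) : PP D (cx y) = ∑ n with n ∉ D.ngl, xr D n y ^ 2 := by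
  unfold PP
  exact Finset.sum_congr rfl fun n _ => by rw [norm_xi, sq_abs]

lemma ex_sum : ∀ n : Fin 21, ∑ l, ex n l = 5 := by decide

lemma ex_le : ∀ (n : Fin 21) (l : Fin 3), ex n l ≤ 5 := by decide

lemma xr_smul (D : TD) (n : Fin 21) (r : ℝ) (y : Fin 3 → ℝ) :
    xr D n (r • y) = r ^ 5 * xr D n y := by
  unfold xr
  simp only [Pi.smul_apply, smul_eq_mul, mul_pow, Finset.prod_mul_distrib,
    Finset.prod_pow_eq_pow_sum, ex_sum]
  ring

/-- the chart -/
def ch (i j : Fin 3) (c : ℤ) (w : ℂ) : Fin 3 → ℝ := fun l =>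
  if l = i then w.im * Real.exp (5 * |w.re|) else if l = j then Real.exp (w.re - c * LL) else 1

lemma ch_cont (i j : Fin 3) (c : ℤ) : Continuous (ch i j c) := by
  refine continuous_pi fun l => ?_
  unfold ch
  split_ifs <;> fun_prop

lemma xr_ch (D : TD) (n : Fin 21) {i j : Fin 3} (hij : i ≠ j) (c : ℤ) (w : ℂ) :
    xr D n (ch i j c w) ^ 2 = w.im ^ (2 * ex n i) * Real.exp (-(8 * D.nu n * LL) +
      10 * ex n i * |w.re| + 2 * ex n j * (w.re - c * LL)) := by
  unfold xr
  rw [Fintype.prod_eq_mul i j hij (by intro l hl; simp [ch, hl.1, hl.2])]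
  have e1 : ch i j c w i = w.im * Real.exp (5 * |w.re|) := by simp [ch]
  have e2 : ch i j c w j = Real.exp (w.re - c * LL) := by simp [ch, hij.symm]
  rw [e1, e2, dl_eq, mul_pow w.im, ← Real.exp_nat_mul, ← Real.exp_nat_mul, ← Real.exp_nat_mul,
    mul_comm 2 (ex n i), pow_mul]
  have e3 : ∀ p A B C : ℝ, (Real.exp A * (p * Real.exp B * Real.exp C)) ^ 2 =
      p ^ 2 * Real.exp (2 * A + 2 * B + 2 * C) := by
    intro p A B C
    rw [two_mul A, two_mul B, two_mul C]; simp only [Real.exp_add]; ring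
  rw [e3]; congr 2; push_cast; ring

def hh (D : TD) (m : Fin 21) (j : Fin 3) (c : ℤ) (n : Fin 21) : ℤ :=
  4 * ((D.nu n : ℤ) - D.nu m) + c * ((ex n j : ℤ) - ex m j)

def YT (D : TD) (m : Fin 21) (i j : Fin 3) (c : ℤ) (n : Fin 21) : ℂ → ℝ :=
  tT (ex n i) (-(2 * LL * hh D m j c n)) ((ex n j : ℝ) - ex m j)

lemma xr_YT (D : TD) (m n : Fin 21) {i j : Fin 3} (hij : i ≠ j) (hm : ex m i = 0) (c : ℤ) (w : ℂ) :
    xr D n (ch i j c w) ^ 2 = YT D m i j c n w * xr D m (ch i j c w) ^ 2 := by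
  rw [xr_ch D n hij, xr_ch D m hij, hm]
  unfold YT tT hh
  rw [mul_zero, pow_zero, one_mul, mul_assoc (w.im ^ _), ← Real.exp_add]
  congr 2; push_cast; ring

lemma xr_pos (D : TD) (m : Fin 21) {i j : Fin 3} (hij : i ≠ j) (hm : ex m i = 0) (c : ℤ) (w : ℂ) :
    0 < xr D m (ch i j c w) ^ 2 := by
  rw [xr_ch D m hij, hm, mul_zero, pow_zero, one_mul]; positivity

lemma de_le (m n : Fin 21) (j : Fin 3) : |(ex n j : ℝ) - ex m j| ≤ 5 := by
  have h1 : (ex n j : ℝ) ≤ 5 := by exact_mod_cast ex_le n j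
  have h2 : (ex m j : ℝ) ≤ 5 := by exact_mod_cast ex_le m j
  have h3 : (0 : ℝ) ≤ ex n j := by positivity
  have h4 : (0 : ℝ) ≤ ex m j := by positivity
  rw [abs_le]; constructor <;> linarith

lemma split (D : TD) (m : Fin 21) (hm : m ∈ D.ngl) (f : Fin 21 → ℝ) :
    ∑ n, sg D n * f n =
      ∑ n with n ∉ D.ngl, f n - f m - ∑ n with (n ∈ D.ngl ∧ n ≠ m), f n := by
  rw [Finset.sum_filter, Finset.sum_filter]
  have e : f m = ∑ n, if n = m then f n else 0 := by simp
  rw [e, ← Finset.sum_sub_distrib, ← Finset.sum_sub_distrib]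
  refine Finset.sum_congr rfl fun n _ => ?_
  unfold sg
  by_cases h1 : n = m
  · subst h1; simp [hm]
  · by_cases h2 : n ∈ D.ngl <;> simp [h1, h2]

lemma sum_le (p : Fin 21 → Prop) [DecidablePred p] (f : Fin 21 → ℝ) (b : ℝ) (hb : 0 ≤ b)
    (h : ∀ n, p n → f n ≤ b) : ∑ n with p n, f n ≤ 21 * b := by
  have h1 := Finset.sum_le_card_nsmul (Finset.univ.filter p) f b
    (fun n hn => h n (Finset.mem_filter.1 hn).2)
  have h2 : (Finset.univ.filter p).card ≤ 21 := by
    simpa using Finset.card_filter_le (Finset.univ : Finset (Fin 21)) p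
  have h3 : ((Finset.univ.filter p).card : ℝ) ≤ 21 := by exact_mod_cast h2
  rw [nsmul_eq_mul] at h1
  nlinarith

/-- the data for a side vertex -/
def Cert (D : TD) (m : Fin 21) (i j : Fin 3) (c : ℤ) (np nm n0 : Fin 21) : Prop :=
  i ≠ j ∧ ex m i = 0 ∧ (∀ l, l ≠ i → ex m l ≠ 0) ∧
  (∀ n, n ∉ D.ngl → ex n i = 0 → 1 ≤ hh D m j c n) ∧
  (np ∉ D.ngl ∧ ex np i = 0 ∧ ex np j = ex m j + 1 ∧ hh D m j c np ≤ 200) ∧
  (nm ∉ D.ngl ∧ ex nm i = 0 ∧ ex m j = ex nm j + 1 ∧ hh D m j c nm ≤ 200) ∧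
  n0 ∉ D.ngl ∧ ex n0 i ≠ 0

instance (D : TD) (m : Fin 21) (i j : Fin 3) (c : ℤ) (np nm n0 : Fin 21) :
    Decidable (Cert D m i j c np nm n0) := by unfold Cert; infer_instance

lemma third : ∀ i j : Fin 3, ∃ k, k ≠ i ∧ k ≠ j := by decide

lemma three : ∀ i j k l : Fin 3, i ≠ j → k ≠ i → k ≠ j → l ≠ i → l ≠ j → l = k := by decide

theorem ov {D : TD} {m : Fin 21} {i j : Fin 3} {c : ℤ} {np nm n0 : Fin 21}
    (hC : Cert D m i j c np nm n0) (hS : StarS) (hD : DomS D) (hm : m ∈ D.ngl) : Ov D m := by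
  obtain ⟨hij, hmi, hml, hh1, ⟨p1, p2, p3, p4⟩, ⟨q1, q2, q3, q4⟩, r1, r2⟩ := hC
  set Y := YT D m i j c with hY
  set P : ℂ → ℝ := fun w => ∑ n with n ∉ D.ngl, Y n w with hP
  set N : ℂ → ℝ := fun w => ∑ n with (n ∈ D.ngl ∧ n ≠ m), Y n w with hN
  set ψ : ℂ → ℝ := fun w => max (P w - 1 - N w) (P w - 2) with hψ
  have hY0 : ∀ n w, 0 ≤ Y n w := fun n w => tT_nonneg _ _ _ _
  have hM := xr_pos D m hij hmi c
  have hYm : ∀ w, Y m w = 1 := fun w =>
    mul_right_cancel₀ (hM w).ne' (by rw [← xr_YT D m m hij hmi, one_mul])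
  have hF : ∀ w, eval (ch i j c w) (tp D) = (P w - 1 - N w) * xr D m (ch i j c w) ^ 2 := by
    intro w
    rw [eval_tp, ← hYm w, ← split D m hm fun n => Y n w, Finset.sum_mul]
    exact Finset.sum_congr rfl fun n _ => by rw [xr_YT D m n hij hmi, mul_assoc]
  have hPP : ∀ w, PP D (cx (ch i j c w)) = P w * xr D m (ch i j c w) ^ 2 := by
    intro w
    rw [PP_eq, Finset.sum_mul]
    exact Finset.sum_congr rfl fun n _ => xr_YT D m n hij hmi c w
  have hdl : dl = 1 / 10 ^ 8 := rfl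
  have hdom : ∀ w, P w ≤ 2 → ¬ Lt D m (cx (ch i j c w)) ∧
      ∀ n, n ∈ D.ngl ∧ n ≠ m → Y n w ≤ 4 / 10 ^ 16 := by
    intro w hw
    have hMw := hM w
    have := hD.1 m hm (cx (ch i j c w))
      (by rw [← norm_ne_zero_iff, norm_xi, abs_ne_zero]; intro h; simp [h] at hMw)
      (by rw [hPP, norm_xi, sq_abs]; exact mul_le_mul_of_nonneg_right hw hMw.le)
    refine ⟨this.1, fun n hn => ?_⟩
    have h2 := this.2 n hn.1 hn.2
    rw [norm_xi, norm_xi] at h2
    have h3 := pow_le_pow_left₀ (abs_nonneg _) h2 2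
    rw [mul_pow, sq_abs, sq_abs, xr_YT D m n hij hmi, hdl] at h3
    have h4 := le_of_mul_le_mul_right h3 hMw
    exact h4.trans (by norm_num)
  have hsing : ∀ n w, n ∉ D.ngl → Y n w ≤ P w := fun n w hn =>
    Finset.single_le_sum (f := fun n => Y n w) (fun n _ => hY0 n w)
      (Finset.mem_filter.2 ⟨Finset.mem_univ _, hn⟩)
  have hre : ∀ w, P w ≤ 2 → |w.re| ≤ 15000 := by
    intro w hw
    have a1 := (hsing np w p1).trans hw
    have a2 := (hsing nm w q1).trans hw
    simp only [hY, YT, tT, p2, q2, p3, mul_zero, pow_zero, one_mul] at a1 a2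
    rw [q3] at a2
    have b1 := (Real.add_one_le_exp _).trans a1
    have b2 := (Real.add_one_le_exp _).trans a2
    have c1 : (hh D m j c np : ℝ) ≤ 200 := by exact_mod_cast p4
    have c2 : (hh D m j c nm : ℝ) ≤ 200 := by exact_mod_cast q4
    have d1 := LL_pos
    have d2 := LL_le
    push_cast at b1 b2
    rw [abs_le]; constructor <;> nlinarith
  have hP0 : P 0 ≤ 21 * (1 / 10 ^ 16) := by
    refine sum_le _ _ _ (by norm_num) fun n hn => ?_
    by_cases h : ex n i = 0
    · have c1 : (1 : ℝ) ≤ hh D m j c n := by exact_mod_cast hh1 n hn h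
      have d1 := LL_pos
      have e : (1 : ℝ) / 10 ^ 16 = Real.exp (-LL + -LL) := by
        rw [Real.exp_add, ← dl_eq, hdl]; norm_num
      rw [e]
      simp only [hY, YT, tT, h, mul_zero, pow_zero, one_mul, Complex.zero_re, abs_zero, add_zero]
      exact Real.exp_le_exp.2 (by nlinarith)
    · simp [hY, YT, tT, h]
  have hN0 : ∀ w, 0 ≤ N w := fun w => Finset.sum_nonneg fun n _ => hY0 n w
  have hc : Continuous ψ := by
    have h1 : Continuous P := continuous_finsetSum _ fun n _ => tT_cont _ _ _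
    have h2 : Continuous N := continuous_finsetSum _ fun n _ => tT_cont _ _ _
    exact ((h1.sub continuous_const).sub h2).max (h1.sub continuous_const)
  have hle : ∀ w, ψ w ≤ 0 → P w - 1 - N w ≤ 0 ∧ P w ≤ 2 := fun w hw =>
    ⟨(le_max_left _ _).trans hw, by linarith [(le_max_right _ _).trans hw]⟩
  have hs : ∀ w, ψ w ≤ 0 → ∀ l : ℝ, 0 ≤ l → l < 1 → ψ (l * w) < 0 := by
    intro w hw l l0 l1
    obtain ⟨w1, w2⟩ := hle w hw
    have a1 : P (l * w) ≤ l * P w + (1 - l) * P 0 := by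
      simp only [hP, Finset.mul_sum, ← Finset.sum_add_distrib]
      exact Finset.sum_le_sum fun n _ => tT_conv _ _ _ _ (de_le m n j) l0 l1.le w
    have a2 : N w - N (l * w) ≤ 21 * (4 / 10 ^ 16 * ((1 - l) * 10 ^ 6)) := by
      simp only [hN, ← Finset.sum_sub_distrib]
      have hl : 0 ≤ 1 - l := by linarith
      refine sum_le _ _ _ (by positivity) fun n hn => ?_
      refine (tT_neg _ _ _ _ (ex_le n i) (de_le m n j) l0 l1.le w).trans ?_
      have b1 := (hdom w w2).2 n hn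
      have b2 := hre w w2
      exact mul_le_mul b1 (mul_le_mul_of_nonneg_left (by linarith) hl) (by positivity)
        (by norm_num)
    have a3 := hN0 w
    refine max_lt ?_ ?_ <;> nlinarith
  have h0 : ψ 0 < 0 := max_lt (by linarith [hN0 0]) (by linarith)
  have hu : ∀ u ∈ sphere (0 : ℂ) 1, ∃ t : ℝ, 0 ≤ t ∧ 0 < ψ (t * u) := by
    intro u hu
    by_cases h : u.re = 0
    · have him : u.im ^ 2 = 1 := by
        have := Complex.sq_norm u
        rw [mem_sphere_zero_iff_norm.1 hu, Complex.normSq_apply, h] at this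
        linarith
      set E := Real.exp (-(2 * LL * hh D m j c n0)) with hE
      have hE0 : 0 < E := Real.exp_pos _
      have ht : (1 : ℝ) ≤ 1 + 3 / E := by have : 0 < 3 / E := by positivity
                                          linarith
      refine ⟨1 + 3 / E, by linarith, lt_max_of_lt_right ?_⟩
      have b1 := hsing n0 ((1 + 3 / E : ℝ) * u) r1
      have b2 : Y n0 ((1 + 3 / E : ℝ) * u) = (1 + 3 / E) ^ (2 * ex n0 i) * E := by
        simp only [hY, YT]
        rw [tT_smul _ _ _ _ (by linarith), pow_mul u.im, him, h]; simp [hE]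
      have b3 : 1 + 3 / E ≤ (1 + 3 / E) ^ (2 * ex n0 i) := le_self_pow₀ ht (by omega)
      have b4 : (1 + 3 / E) * E = E + 3 := by field_simp
      nlinarith
    · have h1 : 0 < |u.re| := abs_pos.2 h
      refine ⟨15001 / |u.re|, by positivity, ?_⟩
      by_contra hn
      have := hre _ (hle _ (not_lt.1 hn)).2
      rw [Complex.re_ofReal_mul, abs_mul, abs_of_pos (by positivity), div_mul_cancel₀ _ h1.ne']
        at this
      linarith
  obtain ⟨-, Φ, f1, f2, f3, f4⟩ := hS ψ hc fun u hu' => ray ψ hc h0 hs u (hu u hu')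
  obtain ⟨k, ki, kj⟩ := third i j
  have ei : ∀ w, ch i j c w i = w.im * Real.exp (5 * |w.re|) := fun w => by simp [ch]
  have ej : ∀ w, ch i j c w j = Real.exp (w.re - c * LL) := fun w => by simp [ch, hij.symm]
  have ek : ∀ w, ch i j c w k = 1 := fun w => by simp [ch, ki, kj]
  refine ⟨fun a => ch i j c (Φ a), (ch_cont i j c).comp_continuousOn f1, fun a ha => ?_,
    fun a ha b hb l hl => ?_, fun a ha => ?_, fun y hy hpos hy0 => ?_⟩
  · have h1 : Φ a ∈ {z | ψ z ≤ 0} := f3 ▸ mem_image_of_mem Φ ha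
    obtain ⟨w1, w2⟩ := hle _ h1
    refine ⟨⟨fun h => ?_, ?_, (hdom _ w2).1⟩, fun l hl => ?_⟩
    · have := congrFun h k
      simp [ek] at this
    · rw [hF]; exact mul_nonpos_of_nonpos_of_nonneg w1 (hM _).le
    · have : l ≠ i := fun h => hl (h ▸ hmi)
      simp only [ch, this, if_false]
      split_ifs
      · exact Real.exp_pos _
      · exact one_pos
  · have h1 := congrFun hl k
    simp only [Pi.smul_apply, ek, smul_eq_mul, mul_one] at h1
    subst h1
    rw [one_smul] at hl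
    have h2 := congrFun hl j
    have h3 := congrFun hl i
    simp only [ej, Real.exp_eq_exp, sub_left_inj] at h2
    simp only [ei, h2] at h3
    exact f2 ha hb (Complex.ext h2 (mul_right_cancel₀ (Real.exp_pos _).ne' h3))
  · have h1 : Φ a ∈ {z | ψ z = 0} := f4 ▸ mem_image_of_mem Φ ha
    have h2 : ψ (Φ a) = 0 := h1
    obtain ⟨w1, w2⟩ := hle _ h2.le
    have h3 : N (Φ a) ≤ 21 * (4 / 10 ^ 16) := sum_le _ _ _ (by norm_num) (hdom _ w2).2
    rw [hF]
    rcases max_choice (P (Φ a) - 1 - N (Φ a)) (P (Φ a) - 2) with h | h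
    · have : P (Φ a) - 1 - N (Φ a) = 0 := h ▸ h2
      rw [this, zero_mul]
    · have : P (Φ a) - 2 = 0 := h ▸ h2
      linarith
  · have yk := hpos k (hml k ki)
    have yj := hpos j (hml j hij.symm)
    set s := Real.log (y j / y k) + c * LL with hs'
    set w : ℂ := ⟨s, y i / y k * Real.exp (-(5 * |s|))⟩ with hw
    have hy' : y = y k • ch i j c w := by
      funext l
      simp only [Pi.smul_apply, smul_eq_mul]
      by_cases h1 : l = i
      · rw [h1, ei]
        simp only [hw]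
        rw [mul_assoc, ← Real.exp_add, neg_add_cancel, Real.exp_zero]; field_simp
      · by_cases h2 : l = j
        · rw [h2, ej]
          simp only [hw, hs', add_sub_cancel_right]
          rw [Real.exp_log (by positivity)]; field_simp
        · rw [three i j k l hij ki kj h1 h2, ek, mul_one]
    have hr : 0 < (y k ^ 5) ^ 2 := by positivity
    have a1 : eval y (tp D) = (y k ^ 5) ^ 2 * eval (ch i j c w) (tp D) := by
      rw [eval_tp, eval_tp, Finset.mul_sum]
      refine Finset.sum_congr rfl fun n _ => ?_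
      conv_lhs => rw [hy', xr_smul]
      ring
    have a2 : PP D (cx y) = (y k ^ 5) ^ 2 * PP D (cx (ch i j c w)) := by
      rw [PP_eq, PP_eq, Finset.mul_sum]
      refine Finset.sum_congr rfl fun n _ => ?_
      conv_lhs => rw [hy', xr_smul]
      ring
    have a3 : xr D m y ^ 2 = (y k ^ 5) ^ 2 * xr D m (ch i j c w) ^ 2 := by
      conv_lhs => rw [hy', xr_smul]
      ring
    have a4 := (hD.2.1 m hm y hy).2
    rw [norm_xi, sq_abs, a2, a3, hPP] at a4
    rw [a1, hF] at hy0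
    have b1 : P w - 1 - N w = 0 := by
      rcases mul_eq_zero.1 hy0 with h | h
      · exact absurd h hr.ne'
      · exact (mul_eq_zero.1 h).resolve_right (hM w).ne'
    have b2 : P w ≤ 2 := by
      have h1 := mul_pos hr (hM w)
      by_contra hn
      nlinarith [not_le.1 hn]
    have b3 : w ∈ Φ '' sphere 0 1 := by
      rw [f4]
      show max _ _ = 0
      rw [b1]; exact max_eq_left (by linarith)
    obtain ⟨a, ha, e⟩ := b3
    exact ⟨a, ha, y k, by simp only [e]; exact hy'⟩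

lemma side1 : ∀ m ∈ D1.ngl, (∃ i, ex m i = 0) →
    m = 1 ∨ m = 3 ∨ m = 6 ∨ m = 10 ∨ m = 15 ∨ m = 19 := by decide

lemma side2 : ∀ m ∈ D2.ngl, (∃ i, ex m i = 0) → m = 2 ∨ m = 4 ∨ m = 10 ∨ m = 19 := by decide

end ovb

open ovb in
theorem ovBS1 : OvBS D1 := by
  intro _ hS hD m hm hi
  rcases side1 m hm hi with rfl | rfl | rfl | rfl | rfl | rfl
  · exact ov (show Cert D1 1 0 1 21 2 0 8 by decide) hS hD hm
  · exact ov (show Cert D1 3 0 1 2 4 2 8 by decide) hS hD hm
  · exact ov (show Cert D1 6 1 0 21 11 0 2 by decide) hS hD hm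
  · exact ov (show Cert D1 10 2 0 37 14 5 0 by decide) hS hD hm
  · exact ov (show Cert D1 15 1 0 2 18 11 2 by decide) hS hD hm
  · exact ov (show Cert D1 19 2 0 (-37) 20 17 0 by decide) hS hD hm

open ovb in
theorem ovBS2 : OvBS D2 := by
  intro _ hS hD m hm hi
  rcases side2 m hm hi with rfl | rfl | rfl | rfl
  · exact ov (show Cert D2 2 0 1 (-15) 3 1 6 by decide) hS hD hm
  · exact ov (show Cert D2 4 0 1 (-65) 5 3 6 by decide) hS hD hm
  · exact ov (show Cert D2 10 2 0 (-83) 14 5 0 by decide) hS hD hm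
  · exact ov (show Cert D2 19 2 0 (-113) 20 17 0 by decide) hS hD hm

end

end Pool.Agent.MP_6600f1_ag.ce
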