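import Mathlib
import Pool.Agent.MP_6600f1_ag.ce.Spec

/-! The ovals round the interior negative vertices. -/

namespace Pool.Agent.MP_6600f1_ag.ce

open MvPolynomial Metric Set Complex

noncomputable section

namespace OvI

/-- one sign change on a ray -/
theorem ray (S T : Finset (Fin 21)) (A b : Fin 21 → ℝ) (hA : ∀ n, 0 < A n)
    (hS : ∀ n ∈ S, A n ≤ 1 / 10 ^ 16) (hT : ∀ n ∈ T, Real.exp (-72000) ≤ A n)
    (P Q ψ : ℝ → ℝ) (hP : ∀ t, P t = ∑ n ∈ S, A n * Real.exp (b n * t))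
    (hQ : ∀ t, Q t = ∑ n ∈ T, A n * Real.exp (b n * t))
    (hψ : ∀ t, ψ t = max (P t - 1 - Q t) (P t - 2))
    (hd : ∀ t, P t ≤ 2 → ∀ n ∈ T, A n * Real.exp (b n * t) ≤ 4 / 10 ^ 16)
    (hb : ∃ n, (n ∈ S ∨ n ∈ T) ∧ 0 < b n) :
    ∃ r : ℝ, 0 < r ∧ (∀ t : ℝ, 0 ≤ t → t < r → ψ t < 0) ∧ ψ r = 0 ∧ ∀ t : ℝ, r < t → 0 < ψ t := by
  have hy : ∀ n t, 0 < A n * Real.exp (b n * t) := fun n t => mul_pos (hA n) (Real.exp_pos _)
  have hcard : ∀ U : Finset (Fin 21), (U.card : ℝ) ≤ 21 := fun U => by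
    have := Finset.card_le_univ U
    rw [Fintype.card_fin] at this
    exact_mod_cast this
  have hsum : ∀ (U : Finset (Fin 21)) (f : Fin 21 → ℝ) (c : ℝ), 0 ≤ c → (∀ n ∈ U, f n ≤ c) →
      ∑ n ∈ U, f n ≤ 21 * c := fun U f c hc h => by
    have h1 := Finset.sum_le_card_nsmul U f c h
    rw [nsmul_eq_mul] at h1
    exact h1.trans (mul_le_mul_of_nonneg_right (hcard U) hc)
  have hQ0 : ∀ t, 0 ≤ Q t := fun t => by
    rw [hQ]
    exact Finset.sum_nonneg fun n _ => (hy n t).le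
  have hP0 : P 0 ≤ 21 * (1 / 10 ^ 16) := by
    rw [hP]
    exact hsum _ _ _ (by positivity) fun n hn => by simpa using hS n hn
  have hc : Continuous ψ := by
    have h1 : Continuous P := by
      rw [funext hP]
      fun_prop
    have h2 : Continuous Q := by
      rw [funext hQ]
      fun_prop
    rw [funext hψ]
    fun_prop
  have h0 : ψ 0 < 0 := by
    rw [hψ]
    have := hQ0 0
    exact max_lt (by linarith) (by linarith)
  have hbig : ∃ t, 0 ≤ t ∧ 0 ≤ ψ t := by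
    obtain ⟨n, hn, hbn⟩ := hb
    have hAn := hA n
    refine ⟨2 / (A n * b n), by positivity, ?_⟩
    by_contra hneg
    rw [hψ, not_le, max_lt_iff] at hneg
    have h1 : P (2 / (A n * b n)) ≤ 2 := by linarith [hneg.2]
    have h2 : A n * Real.exp (b n * (2 / (A n * b n))) ≤ 2 := by
      rcases hn with hn | hn
      · refine le_trans ?_ h1
        rw [hP]
        exact Finset.single_le_sum (f := fun k => A k * Real.exp (b k * (2 / (A n * b n))))
          (fun k _ => (hy k _).le) hn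
      · exact (hd _ h1 n hn).trans (by norm_num)
    have h3 := mul_le_mul_of_nonneg_left (Real.add_one_le_exp (b n * (2 / (A n * b n)))) hAn.le
    have h4 : A n * (b n * (2 / (A n * b n)) + 1) = 2 + A n := by field_simp
    linarith
  have hz : ∀ t, 0 ≤ t → 0 ≤ ψ t → ∃ s, (0 ≤ s ∧ ψ s = 0) ∧ s ≤ t := fun t ht h => by
    obtain ⟨s, hs, h1⟩ := intermediate_value_Icc ht hc.continuousOn ⟨h0.le, h⟩
    exact ⟨s, ⟨hs.1, h1⟩, hs.2⟩
  have hcl : IsClosed {t : ℝ | 0 ≤ t ∧ ψ t = 0} :=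
    (isClosed_le continuous_const continuous_id).inter (isClosed_eq hc continuous_const)
  have hbd : BddBelow {t : ℝ | 0 ≤ t ∧ ψ t = 0} := ⟨0, fun t ht => ht.1⟩
  have hne : {t : ℝ | 0 ≤ t ∧ ψ t = 0}.Nonempty := by
    obtain ⟨t, h1, h2⟩ := hbig
    obtain ⟨s, hs, -⟩ := hz t h1 h2
    exact ⟨s, hs⟩
  obtain ⟨hr0, hr⟩ := hcl.csInf_mem hne hbd
  set r := sInf {t : ℝ | 0 ≤ t ∧ ψ t = 0} with hrd
  have hrp : 0 < r := lt_of_le_of_ne hr0 fun h => by
    rw [← h] at hr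
    linarith
  refine ⟨r, hrp, fun t h1 h2 => ?_, hr, fun t ht => ?_⟩
  · by_contra h
    obtain ⟨s, hs, h3⟩ := hz t h1 (not_lt.1 h)
    have : r ≤ s := csInf_le hbd hs
    linarith
  rw [hψ] at hr ⊢
  by_cases h2 : 2 < P t
  · exact lt_max_of_lt_right (by linarith)
  refine lt_max_of_lt_left ?_
  have a1 : P r - 2 ≤ 0 := hr ▸ le_max_right _ _
  have a2 : P r - 1 - Q r ≤ 0 := hr ▸ le_max_left _ _
  have a3 : Q r ≤ 21 * (4 / 10 ^ 16) := by
    rw [hQ]
    exact hsum _ _ _ (by positivity) (hd r (by linarith))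
  have a4 : P r - 1 - Q r = 0 := by
    rcases max_choice (P r - 1 - Q r) (P r - 2) with h | h <;> linarith
  have a5 : (t - r) * (P r - P 0) ≤ r * (P t - P r) := by
    rw [hP, hP, hP, ← Finset.sum_sub_distrib, ← Finset.sum_sub_distrib, Finset.mul_sum,
      Finset.mul_sum]
    refine Finset.sum_le_sum fun n _ => ?_
    have e1 : Real.exp (b n * t) = Real.exp (b n * r) * Real.exp (b n * (t - r)) := by
      rw [← Real.exp_add]
      ring_nf
    have e2 : Real.exp (b n * 0) = Real.exp (b n * r) * Real.exp (-(b n * r)) := by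
      rw [← Real.exp_add]
      ring_nf
    have f1 := mul_le_mul_of_nonneg_left (Real.add_one_le_exp (b n * (t - r)))
      (mul_pos hrp (hy n r)).le
    have f2 := mul_le_mul_of_nonneg_left (Real.add_one_le_exp (-(b n * r)))
      (mul_pos (sub_pos.2 ht) (hy n r)).le
    rw [e1, e2]
    nlinarith
  have a6 : r * (Q t - Q r) ≤ 21 * ((t - r) * (72000 * (4 / 10 ^ 16))) := by
    rw [hQ, hQ, ← Finset.sum_sub_distrib, Finset.mul_sum]
    have htr := sub_pos.2 ht
    refine hsum _ _ _ (by positivity) fun n hn => ?_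
    have e1 : Real.exp (b n * r) = Real.exp (b n * t) * Real.exp (-(b n * (t - r))) := by
      rw [← Real.exp_add]
      ring_nf
    have f1 := mul_le_mul_of_nonneg_left (Real.add_one_le_exp (-(b n * (t - r))))
      (mul_pos hrp (hy n t)).le
    have f2 := hd t (not_lt.1 h2) n hn
    have f3 : b n * r ≤ 72000 := by
      by_cases hb0 : b n ≤ 0
      · nlinarith
      have g1 := mul_le_mul_of_nonneg_right (hT n hn) (Real.exp_pos (b n * t)).le
      rw [← Real.exp_add] at g1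
      have g2 : Real.exp (-72000 + b n * t) ≤ 1 := by linarith
      rw [Real.exp_le_one_iff] at g2
      nlinarith
    have f4 : b n * r * (A n * Real.exp (b n * t)) ≤ 72000 * (4 / 10 ^ 16) :=
      (mul_le_mul_of_nonneg_right f3 (hy n t).le).trans (by linarith)
    have f5 := mul_le_mul_of_nonneg_left f4 htr.le
    rw [e1]
    nlinarith
  have a7 := hQ0 r
  have a8 : (t - r) * (1 / 2) ≤ (t - r) * (P r - P 0) :=
    mul_le_mul_of_nonneg_left (by linarith) (sub_pos.2 ht).le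
  have a9 : 0 < r * (P t - 1 - Q t) := by nlinarith [sub_pos.2 ht]
  exact (mul_pos_iff_of_pos_left hrp).1 a9

def LL : ℝ := Real.log dl

theorem exp_LL : Real.exp LL = dl := Real.exp_log (by unfold dl; positivity)

theorem LL_neg : LL < 0 := Real.log_neg (by unfold dl; positivity) (by unfold dl; norm_num)

theorem LL_ge : -72 ≤ LL := by
  have h : Real.log 10 ≤ 10 - 1 := Real.log_le_sub_one_of_pos (by norm_num)
  rw [LL, dl, one_div, Real.log_inv, Real.log_pow]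
  push_cast
  linarith

/-- the logarithmic chart -/
def ch (c0 c1 : ℤ) (z : ℂ) : Fin 3 → ℝ :=
  ![Real.exp (LL * c0 + z.re), Real.exp (LL * c1 + z.im), 1]

def hh (D : TD) (c0 c1 : ℤ) (n : Fin 21) (z : ℂ) : ℝ :=
  LL * (4 * D.nu n + c0 * e0 n + c1 * e1 n) + e0 n * z.re + e1 n * z.im

theorem ex_sum : ∀ n : Fin 21, e0 n + e1 n + (5 - e0 n - e1 n) = 5 := by decide

theorem xi_ch (D : TD) (c0 c1 : ℤ) (n : Fin 21) (z : ℂ) (l : ℝ) :
    xi D n (cx (l • ch c0 c1 z)) = ((l ^ 5 * Real.exp (hh D c0 c1 n z) : ℝ) : ℂ) := by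
  have h1 : Real.exp (hh D c0 c1 n z) = dl ^ (4 * D.nu n) *
      (Real.exp (LL * c0 + z.re) ^ e0 n * Real.exp (LL * c1 + z.im) ^ e1 n) := by
    rw [← exp_LL, ← Real.exp_nat_mul, ← Real.exp_nat_mul, ← Real.exp_nat_mul, ← Real.exp_add,
      ← Real.exp_add, hh]
    congr 1
    push_cast
    ring
  have h2 : l ^ 5 = l ^ e0 n * l ^ e1 n * l ^ (5 - e0 n - e1 n) := by
    rw [← pow_add, ← pow_add, ex_sum]
  rw [h1, h2, xi, Fin.prod_univ_three]
  simp only [cx, ch, ex, Pi.smul_apply, smul_eq_mul, Matrix.cons_val_zero, Matrix.cons_val_one,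
    Matrix.cons_val_two, Matrix.head_cons, Matrix.tail_cons, if_true, one_ne_zero, if_false,
    show (2 : Fin 3) ≠ 0 by decide, show (2 : Fin 3) ≠ 1 by decide]
  push_cast
  ring

def yy (D : TD) (c0 c1 : ℤ) (m n : Fin 21) (z : ℂ) : ℝ :=
  Real.exp (2 * (hh D c0 c1 n z - hh D c0 c1 m z))

def SP (D : TD) : Finset (Fin 21) := Finset.univ.filter fun n => n ∉ D.ngl

def SN (D : TD) (m : Fin 21) : Finset (Fin 21) :=
  (Finset.univ.filter fun n => n ∈ D.ngl).erase m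

theorem norm_sq (D : TD) (c0 c1 : ℤ) (m n : Fin 21) (z : ℂ) (l : ℝ) :
    (l ^ 5 * Real.exp (hh D c0 c1 n z)) ^ 2 =
      (l ^ 5 * Real.exp (hh D c0 c1 m z)) ^ 2 * yy D c0 c1 m n z := by
  have : Real.exp (hh D c0 c1 n z) ^ 2 = Real.exp (hh D c0 c1 m z) ^ 2 * yy D c0 c1 m n z := by
    rw [yy, ← Real.exp_nat_mul, ← Real.exp_nat_mul, ← Real.exp_add]
    congr 1
    push_cast
    ring
  rw [mul_pow, mul_pow, this]
  ring

theorem nxi (D : TD) (c0 c1 : ℤ) (n : Fin 21) (z : ℂ) (l : ℝ) :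
    ‖xi D n (cx (l • ch c0 c1 z))‖ ^ 2 = (l ^ 5 * Real.exp (hh D c0 c1 n z)) ^ 2 := by
  rw [xi_ch, Complex.norm_real, Real.norm_eq_abs, sq_abs]

theorem pp_ch (D : TD) (c0 c1 : ℤ) (m : Fin 21) (z : ℂ) (l : ℝ) :
    PP D (cx (l • ch c0 c1 z)) =
      (l ^ 5 * Real.exp (hh D c0 c1 m z)) ^ 2 * ∑ n ∈ SP D, yy D c0 c1 m n z := by
  rw [PP, Finset.mul_sum]
  exact Finset.sum_congr rfl fun n _ => by rw [nxi, norm_sq D c0 c1 m]

theorem ev_ch (hB : BasicS) (D : TD) (c0 c1 : ℤ) (m : Fin 21) (hm : m ∈ D.ngl) (z : ℂ) (l : ℝ) :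
    eval (l • ch c0 c1 z) (tp D) = (l ^ 5 * Real.exp (hh D c0 c1 m z)) ^ 2 *
      (∑ n ∈ SP D, yy D c0 c1 m n z - 1 - ∑ n ∈ SN D m, yy D c0 c1 m n z) := by
  obtain ⟨-, h1, h2, -⟩ := hB D
  have h3 : eval (l • ch c0 c1 z) (tp D) =
      ∑ n, sg D n * (l ^ 5 * Real.exp (hh D c0 c1 n z)) ^ 2 := by
    apply Complex.ofReal_injective
    rw [h2, h1, Complex.ofReal_sum]
    exact Finset.sum_congr rfl fun n _ => by
      rw [xi_ch, Complex.ofReal_mul (sg D n), Complex.ofReal_pow]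
  have h4 : ∑ n, sg D n * yy D c0 c1 m n z =
      ∑ n ∈ SP D, yy D c0 c1 m n z - 1 - ∑ n ∈ SN D m, yy D c0 c1 m n z := by
    rw [← Finset.sum_filter_add_sum_filter_not Finset.univ fun n => n ∈ D.ngl,
      ← Finset.add_sum_erase _ _ (show m ∈ Finset.univ.filter fun n => n ∈ D.ngl by simpa using hm)]
    have e1 : ∑ n ∈ SN D m, sg D n * yy D c0 c1 m n z = -∑ n ∈ SN D m, yy D c0 c1 m n z := by
      rw [← Finset.sum_neg_distrib]
      refine Finset.sum_congr rfl fun n hn => ?_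
      have : n ∈ D.ngl := by simpa using Finset.mem_of_mem_erase hn
      simp [sg, this]
    have e2 : ∑ n ∈ SP D, sg D n * yy D c0 c1 m n z = ∑ n ∈ SP D, yy D c0 c1 m n z := by
      refine Finset.sum_congr rfl fun n hn => ?_
      have : n ∉ D.ngl := by simpa [SP] using hn
      simp [sg, this]
    have e3 : sg D m * yy D c0 c1 m m z = -1 := by simp [sg, hm, yy]
    rw [SN] at e1
    rw [SP] at e2
    rw [e1, e2, e3, SN, SP]
    ring
  rw [h3, ← h4, Finset.mul_sum]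
  exact Finset.sum_congr rfl fun n _ => by
    rw [norm_sq D c0 c1 m]
    ring

/-- the certificate for the centre -/
def Cert (D : TD) (m : Fin 21) (c0 c1 : ℤ) : Prop := ∀ n, n ≠ m →
  1 ≤ 4 * ((D.nu n : ℤ) - D.nu m) + c0 * ((e0 n : ℤ) - e0 m) + c1 * ((e1 n : ℤ) - e1 m) ∧
  4 * ((D.nu n : ℤ) - D.nu m) + c0 * ((e0 n : ℤ) - e0 m) + c1 * ((e1 n : ℤ) - e1 m) ≤ 500

instance (D : TD) (m : Fin 21) (c0 c1 : ℤ) : Decidable (Cert D m c0 c1) := by
  unfold Cert
  infer_instance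

theorem corner (m : Fin 21) (hi : ∀ i, ex m i ≠ 0) (u : ℂ) (hu : u ≠ 0) :
    ∃ n, 0 < ((e0 n : ℝ) - e0 m) * u.re + ((e1 n : ℝ) - e1 m) * u.im := by
  have h0 : 1 ≤ e0 m := Nat.one_le_iff_ne_zero.2 (hi 0)
  have h1 : 1 ≤ e1 m := Nat.one_le_iff_ne_zero.2 (hi 1)
  have h2 : e0 m + e1 m + 1 ≤ 5 := by
    have := hi 2
    simp only [ex, show (2 : Fin 3) ≠ 0 by decide, show (2 : Fin 3) ≠ 1 by decide, if_false] at this
    omega
  have r0 : (1 : ℝ) ≤ e0 m := by exact_mod_cast h0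
  have r1 : (1 : ℝ) ≤ e1 m := by exact_mod_cast h1
  have r2 : (e0 m : ℝ) + e1 m + 1 ≤ 5 := by exact_mod_cast h2
  by_contra h
  push Not at h
  have a := h 0
  have b := h 5
  have c := h 20
  rw [show e0 0 = 0 by decide, show e1 0 = 0 by decide] at a
  rw [show e0 5 = 0 by decide, show e1 5 = 5 by decide] at b
  rw [show e0 20 = 5 by decide, show e1 20 = 0 by decide] at c
  push_cast at a b c
  set s := (e0 m : ℝ) * u.re + e1 m * u.im with hs
  have s0 : 0 ≤ s := by linarith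
  have s1 : 5 * u.im ≤ s := by linarith
  have s2 : 5 * u.re ≤ s := by linarith
  have s3 : s = 0 := by nlinarith
  have s4 : u.re = 0 := by nlinarith
  have s5 : u.im = 0 := by nlinarith
  exact hu (Complex.ext s4 s5)

theorem ov (hB : BasicS) (hS : StarS) (D : TD) (hD : DomS D) (m : Fin 21) (hm : m ∈ D.ngl)
    (hi : ∀ i, ex m i ≠ 0) (c0 c1 : ℤ) (hc : Cert D m c0 c1) : Ov D m := by
  have hpos : ∀ (z : ℂ) (l : ℝ), 0 < l → 0 < (l ^ 5 * Real.exp (hh D c0 c1 m z)) ^ 2 :=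
    fun z l hl => by positivity
  have hxm : ∀ z, xi D m (cx ((1 : ℝ) • ch c0 c1 z)) ≠ 0 := fun z h => by
    have := nxi D c0 c1 m z 1
    rw [h] at this
    have h2 := hpos z 1 one_pos
    rw [← this] at h2
    simp at h2
  have hdom : ∀ z, ∑ n ∈ SP D, yy D c0 c1 m n z ≤ 2 →
      ¬ Lt D m (cx ((1 : ℝ) • ch c0 c1 z)) ∧ ∀ n ∈ SN D m, yy D c0 c1 m n z ≤ 4 / 10 ^ 16 := by
    intro z hz
    obtain ⟨h1, h2⟩ := hD.1 m hm _ (hxm z) (by
      rw [pp_ch D c0 c1 m, nxi]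
      nlinarith [hpos z 1 one_pos])
    refine ⟨h1, fun n hn => ?_⟩
    have h3 := h2 n (by simpa using Finset.mem_of_mem_erase hn) (Finset.ne_of_mem_erase hn)
    have h4 := pow_le_pow_left₀ (norm_nonneg _) h3 2
    rw [mul_pow, nxi, nxi, norm_sq D c0 c1 m, dl] at h4
    refine le_of_mul_le_mul_left ?_ (hpos z 1 one_pos)
    linarith
  set ψ : ℂ → ℝ := fun z => max (∑ n ∈ SP D, yy D c0 c1 m n z - 1 - ∑ n ∈ SN D m, yy D c0 c1 m n z)
    (∑ n ∈ SP D, yy D c0 c1 m n z - 2) with hψ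
  have hcy : ∀ n, Continuous (yy D c0 c1 m n) := fun n => by
    unfold yy hh
    fun_prop
  have hcψ : Continuous ψ := by
    rw [hψ]
    fun_prop
  obtain ⟨-, Φ, hΦc, hΦi, hΦb, hΦs⟩ := hS ψ hcψ fun u hu => by
    have hu0 : u ≠ 0 := by
      rintro rfl
      simp at hu
    have hy : ∀ n (t : ℝ), yy D c0 c1 m n (t * u) = yy D c0 c1 m n 0 *
        Real.exp (2 * (((e0 n : ℝ) - e0 m) * u.re + ((e1 n : ℝ) - e1 m) * u.im) * t) := by
      intro n t
      rw [yy, yy, ← Real.exp_add]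
      congr 1
      simp only [hh, Complex.re_ofReal_mul, Complex.im_ofReal_mul, Complex.zero_re, Complex.zero_im]
      ring
    have hk : ∀ n, n ≠ m → 1000 * LL ≤ 2 * (hh D c0 c1 n 0 - hh D c0 c1 m 0) ∧
        2 * (hh D c0 c1 n 0 - hh D c0 c1 m 0) ≤ 2 * LL := by
      intro n hn
      obtain ⟨k1, k2⟩ := hc n hn
      have k3 : (1 : ℝ) ≤ 4 * ((D.nu n : ℝ) - D.nu m) + c0 * ((e0 n : ℝ) - e0 m) +
        c1 * ((e1 n : ℝ) - e1 m) := by exact_mod_cast k1
      have k4 : 4 * ((D.nu n : ℝ) - D.nu m) + c0 * ((e0 n : ℝ) - e0 m) +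
        c1 * ((e1 n : ℝ) - e1 m) ≤ 500 := by exact_mod_cast k2
      simp only [hh, Complex.zero_re, Complex.zero_im]
      constructor <;> nlinarith [LL_neg]
    refine ray (SP D) (SN D m) (fun n => yy D c0 c1 m n 0)
      (fun n => 2 * (((e0 n : ℝ) - e0 m) * u.re + ((e1 n : ℝ) - e1 m) * u.im))
      (fun n => Real.exp_pos _) (fun n hn => ?_) (fun n hn => ?_)
      (fun t => ∑ n ∈ SP D, yy D c0 c1 m n (t * u)) (fun t => ∑ n ∈ SN D m, yy D c0 c1 m n (t * u))
      (fun t => ψ (t * u)) (fun t => Finset.sum_congr rfl fun n _ => hy n t)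
      (fun t => Finset.sum_congr rfl fun n _ => hy n t) (fun t => rfl) (fun t ht n hn => ?_) ?_
    · have hn' : n ≠ m := by
        rintro rfl
        simp [SP, hm] at hn
      refine (Real.exp_le_exp.2 (hk n hn').2).trans (le_of_eq ?_)
      rw [two_mul, Real.exp_add, exp_LL, dl]
      norm_num
    · exact Real.exp_le_exp.2 (le_trans (by linarith [LL_ge]) (hk n (Finset.ne_of_mem_erase hn)).1)
    · rw [← hy]
      exact (hdom _ ht).2 n hn
    · obtain ⟨n, hn⟩ := corner m hi u hu0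
      refine ⟨n, ?_, by linarith⟩
      have hn' : n ≠ m := by
        rintro rfl
        simp at hn
      by_cases h : n ∈ D.ngl
      · exact Or.inr (by simp [SN, h, hn'])
      · exact Or.inl (by simp [SP, h])
  have hch : Continuous (ch c0 c1) := by
    refine continuous_pi fun i => ?_
    fin_cases i <;> simp only [ch] <;> simp <;> fun_prop
  have hcp : ∀ z i, 0 < ch c0 c1 z i := fun z i => by
    fin_cases i <;> simp [ch, Real.exp_pos]
  refine ⟨fun a => ch c0 c1 (Φ a), hch.comp_continuousOn hΦc, fun a ha => ⟨?_, fun i _ => hcp _ i⟩,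
    fun a ha b hb l hl => ?_, fun a ha => ?_, fun y hy hp he => ?_⟩
  · have h1 : ψ (Φ a) ≤ 0 := by
      have : Φ a ∈ Φ '' closedBall 0 1 := ⟨a, ha, rfl⟩
      rwa [hΦb] at this
    rw [hψ, max_le_iff] at h1
    refine ⟨fun h => (hcp (Φ a) 0).ne' (congrFun h 0), ?_, ?_⟩
    · have := ev_ch hB D c0 c1 m hm (Φ a) 1
      rw [one_smul] at this
      rw [this]
      exact mul_nonpos_of_nonneg_of_nonpos (hpos _ 1 one_pos).le h1.1
    · have := (hdom (Φ a) (by linarith [h1.2])).1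
      rwa [one_smul] at this
  · have h2 := congrFun hl 2
    have h0 := congrFun hl 0
    have h1 := congrFun hl 1
    simp only [ch, Pi.smul_apply, smul_eq_mul, Matrix.cons_val_zero, Matrix.cons_val_one,
      Matrix.cons_val_two, Matrix.head_cons, Matrix.tail_cons, mul_one] at h0 h1 h2
    rw [← h2, one_mul, Real.exp_eq_exp] at h0 h1
    exact hΦi ha hb (Complex.ext (by linarith) (by linarith))
  · have h1 : ψ (Φ a) = 0 := by
      have : Φ a ∈ Φ '' sphere 0 1 := ⟨a, ha, rfl⟩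
      rwa [hΦs] at this
    simp only [hψ] at h1
    have a1 := h1 ▸ le_max_left _ _
    have a2 := h1 ▸ le_max_right _ _
    have a3 := Finset.sum_le_card_nsmul _ _ _ (hdom (Φ a) (by linarith)).2
    have a4 : ((SN D m).card : ℝ) ≤ 21 := by
      have := Finset.card_le_univ (SN D m)
      rw [Fintype.card_fin] at this
      exact_mod_cast this
    rw [nsmul_eq_mul] at a3
    have := ev_ch hB D c0 c1 m hm (Φ a) 1
    rw [one_smul] at this
    rw [this]
    refine mul_eq_zero_of_right _ ?_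
    rcases max_choice (∑ n ∈ SP D, yy D c0 c1 m n (Φ a) - 1 - ∑ n ∈ SN D m, yy D c0 c1 m n (Φ a))
      (∑ n ∈ SP D, yy D c0 c1 m n (Φ a) - 2) with h | h <;> linarith
  · have p0 := hp 0 (hi 0)
    have p1 := hp 1 (hi 1)
    have p2 := hp 2 (hi 2)
    obtain ⟨z, hz⟩ : ∃ z, y = y 2 • ch c0 c1 z := by
      refine ⟨⟨Real.log (y 0 / y 2) - LL * c0, Real.log (y 1 / y 2) - LL * c1⟩, funext fun i => ?_⟩
      fin_cases i
      · simp [ch, Real.exp_log (div_pos p0 p2)]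
        field_simp
      · simp [ch, Real.exp_log (div_pos p1 p2)]
        field_simp
      · simp [ch]
    have h1 := (hD.2.1 m hm y hy).2
    rw [hz, pp_ch D c0 c1 m, nxi] at h1
    rw [hz, ev_ch hB D c0 c1 m hm] at he
    have h2 := (mul_eq_zero.1 he).resolve_left (hpos z _ p2).ne'
    have h3 : ∑ n ∈ SP D, yy D c0 c1 m n z ≤ 2 :=
      le_of_mul_le_mul_left (by linarith) (hpos z _ p2)
    have h4 : z ∈ Φ '' sphere 0 1 := by
      rw [hΦs]
      change max _ _ = _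
      rw [h2]
      exact max_eq_left (by linarith)
    obtain ⟨a, ha, rfl⟩ := h4
    exact ⟨a, ha, y 2, hz⟩

end OvI

theorem ovIS1 : OvIS D1 := by
  intro hB hS hD m hm hi
  have h : m = 7 ∨ m = 9 ∨ m = 13 ∨ m = 16 := by
    revert m
    decide
  rcases h with rfl | rfl | rfl | rfl
  · exact OvI.ov hB hS D1 hD _ hm hi 29 29 (by decide)
  · exact OvI.ov hB hS D1 hD _ hm hi 13 (-18) (by decide)
  · exact OvI.ov hB hS D1 hD _ hm hi (-2) (-2) (by decide)
  · exact OvI.ov hB hS D1 hD _ hm hi (-18) 13 (by decide)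

theorem ovIS2 : OvIS D2 := by
  intro hB hS hD m hm hi
  have h : m = 7 ∨ m = 8 ∨ m = 12 ∨ m = 13 ∨ m = 16 := by
    revert m
    decide
  rcases h with rfl | rfl | rfl | rfl | rfl
  · exact OvI.ov hB hS D2 hD _ hm hi (-58) (-28) (by decide)
  · exact OvI.ov hB hS D2 hD _ hm hi (-105) (-59) (by decide)
  · exact OvI.ov hB hS D2 hD _ hm hi (-149) (-74) (by decide)
  · exact OvI.ov hB hS D2 hD _ hm hi (-193) (-103) (by decide)
  · exact OvI.ov hB hS D2 hD _ hm hi (-216) (-110) (by decide)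

end

end Pool.Agent.MP_6600f1_ag.ce
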