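import Mathlib
import Pool.Agent.MP_6600f1_ag.ce.Spec

/-! The slit conditions for the links of kinds 1 and 2. -/

namespace Pool.Agent.MP_6600f1_ag.ce

open MvPolynomial Metric Set Complex
open scoped ComplexConjugate Real

noncomputable section

namespace pnp

lemma slit (f g : ℂ) (hf : f ≠ 0) (hg : g ≠ 0) (hi : g.im = f.im)
    (hs : f.im = 0 → 0 ≤ f.re * g.re) : g / f ∈ slitPlane := by
  by_contra h
  rw [mem_slitPlane_iff] at h
  push Not at h
  obtain ⟨h1, h2⟩ := h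
  have e : g = (g / f) * f := by field_simp
  generalize g / f = q at h1 h2 e
  have er : g.re = q.re * f.re := by rw [e, mul_re, h2]; ring
  have ei : g.im = q.re * f.im := by rw [e, mul_im, h2]; ring
  have f0 : f.im = 0 := by
    have : (1 - q.re) * f.im = 0 := by linarith
    rcases mul_eq_zero.1 this with h | h
    · linarith
    · exact h
  have fr : f.re ≠ 0 := fun h => hf (Complex.ext (by simpa using h) (by simpa using f0))
  have h3 := hs f0
  rw [er] at h3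
  have h4 : 0 < f.re * f.re := mul_self_pos.2 fr
  have h5 : q.re = 0 := by
    by_contra h6
    have : q.re < 0 := lt_of_le_of_ne h1 h6
    nlinarith
  apply hg
  apply Complex.ext
  · simp [er, h5]
  · simp [ei, h5]

lemma dl_pos : 0 < dl := by unfold dl; positivity

lemma dl_sq : dl ^ 2 ≤ 1 / 10 ^ 5 := by unfold dl; norm_num

lemma ineqN (er ei ar ai r R s rm Ere Eim d δ : ℝ) (hδ : 0 ≤ δ) (hδ' : δ ≤ 1 / 10 ^ 5)
    (he : er ^ 2 + ei ^ 2 = 1) (ha : ar ^ 2 + ai ^ 2 = 1) (hR : 0 < R)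
    (h1 : r ^ 2 * (er ^ 2 - ei ^ 2) = s ^ 2 + rm ^ 2 - Ere) (h2 : r ^ 2 * (2 * er * ei) = -Eim)
    (h3 : |Ere| ≤ 21 * δ * R ^ 2) (h4 : |Eim| ≤ 210 * δ * R ^ 2 * d)
    (h5 : d ≤ 6 * (|ai| + |ei|)) (h6 : R = rm ∨ R = r) :
    0 ≤ (ai * er - ar * ei) * (ai * er + ar * ei) := by
  have hR2 : 0 < R ^ 2 := by positivity
  have h3' := abs_le.1 h3
  have hδR : 21 * δ * R ^ 2 ≤ R ^ 2 / 2 := by nlinarith
  have hr : R ^ 2 / 2 ≤ r ^ 2 := by
    rcases h6 with h | h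
    · have : r ^ 2 * (er ^ 2 - ei ^ 2) ≤ r ^ 2 := by
        have : er ^ 2 - ei ^ 2 ≤ 1 := by nlinarith [sq_nonneg ei]
        nlinarith [sq_nonneg r]
      rw [← h] at h1
      nlinarith [sq_nonneg s]
    · rw [← h]; linarith
  have hr2 : 0 < r ^ 2 := by linarith
  have h7 : -(1 / 2 : ℝ) ≤ er ^ 2 - ei ^ 2 := by
    by_contra hh
    push Not at hh
    have a1 : r ^ 2 * (er ^ 2 - ei ^ 2) < r ^ 2 * (-(1 / 2 : ℝ)) := mul_lt_mul_of_pos_left hh hr2
    have a2 : 21 * δ * R ^ 2 ≤ R ^ 2 / 4 := by nlinarith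
    nlinarith [sq_nonneg s, sq_nonneg rm]
  have h8 : 1 / 4 ≤ er ^ 2 := by linarith
  have h9 : 1 / 2 ≤ |er| := by
    by_contra hh
    push Not at hh
    have := sq_abs er
    nlinarith [abs_nonneg er]
  have h10 : r ^ 2 * (2 * |er| * |ei|) = |Eim| := by
    have := congrArg abs h2
    rw [abs_neg, abs_mul, abs_mul, abs_mul, abs_of_pos hr2, abs_two] at this
    exact this
  have hs : 0 ≤ |ai| + |ei| := by positivity
  have h11 : |Eim| ≤ r ^ 2 * ((|ai| + |ei|) / 4) := by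
    have b1 : 210 * δ * R ^ 2 * d ≤ 210 * δ * R ^ 2 * (6 * (|ai| + |ei|)) :=
      mul_le_mul_of_nonneg_left h5 (by positivity)
    have b2 : 210 * δ * R ^ 2 * 6 ≤ r ^ 2 / 4 := by nlinarith
    have b3 := mul_le_mul_of_nonneg_right b2 hs
    nlinarith
  have h12 : 2 * |er| * |ei| ≤ (|ai| + |ei|) / 4 := by
    rw [← h10] at h11
    exact le_of_mul_le_mul_left h11 hr2
  have h13 : 3 * |ei| ≤ |ai| := by nlinarith [abs_nonneg ei]
  have h14 : 9 * ei ^ 2 ≤ ai ^ 2 := by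
    rw [← sq_abs ei, ← sq_abs ai]
    nlinarith [abs_nonneg ei]
  have h15 : ar ^ 2 * ei ^ 2 ≤ ei ^ 2 := by nlinarith [sq_nonneg ai, sq_nonneg ei]
  have h16 : ai ^ 2 / 4 ≤ ai ^ 2 * er ^ 2 := by nlinarith [sq_nonneg ai]
  nlinarith [sq_nonneg ei]

lemma ineqP (wr wi tr ti ra rb R Ere Eim d δ : ℝ) (hδ : 0 ≤ δ) (hδ' : δ ≤ 1 / 10 ^ 5)
    (ht : tr ^ 2 + ti ^ 2 = 1) (hR : 0 < R)
    (h1 : wr ^ 2 - wi ^ 2 = ra ^ 2 + rb ^ 2 + Ere) (h2 : 2 * wr * wi = Eim)
    (h3 : |Ere| ≤ 21 * δ * R ^ 2) (h4 : |Eim| ≤ 210 * δ * R ^ 2 * d)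
    (h5 : d ≤ 6 * |ti|) (h6 : R = ra ∨ R = rb) :
    (wi * tr - wr * ti) * (wi * tr + wr * ti) ≤ 0 := by
  have hR2 : 0 < R ^ 2 := by positivity
  have h3' := abs_le.1 h3
  have hδR : 21 * δ * R ^ 2 ≤ R ^ 2 / 2 := by nlinarith
  have hr : R ^ 2 / 2 ≤ wr ^ 2 := by
    rcases h6 with h | h <;> rw [← h] at h1 <;>
      nlinarith [sq_nonneg wi, sq_nonneg ra, sq_nonneg rb]
  have hw : 0 < |wr| := by
    apply abs_pos.2
    intro h
    rw [h] at hr
    nlinarith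
  have h10 : 2 * |wr| * |wi| = |Eim| := by
    rw [← h2, abs_mul, abs_mul, abs_two]
  have h11 : |Eim| ≤ wr ^ 2 * |ti| := by
    have b1 : 210 * δ * R ^ 2 * d ≤ 210 * δ * R ^ 2 * (6 * |ti|) :=
      mul_le_mul_of_nonneg_left h5 (by positivity)
    have b2 : 210 * δ * R ^ 2 * 6 ≤ wr ^ 2 := by nlinarith
    have b3 := mul_le_mul_of_nonneg_right b2 (abs_nonneg ti)
    nlinarith
  have h12 : |wi| ≤ |wr| * |ti| := by
    rw [← h10, ← sq_abs wr] at h11
    have : |wr| * (2 * |wi|) ≤ |wr| * (|wr| * |ti|) := by nlinarith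
    have := le_of_mul_le_mul_left this hw
    nlinarith [abs_nonneg wi]
  have h13 : wi ^ 2 ≤ wr ^ 2 * ti ^ 2 := by
    rw [← sq_abs wi, ← sq_abs wr, ← sq_abs ti, ← mul_pow]
    exact pow_le_pow_left₀ (abs_nonneg _) h12 2
  have h14 : wi ^ 2 * tr ^ 2 ≤ wi ^ 2 := by nlinarith [sq_nonneg wi, sq_nonneg ti]
  nlinarith

lemma ph_mul (u : V) (a b c e : Fin 21) (h : ∀ i, ex a i + ex b i = ex c i + ex e i) :
    ph u a * ph u b = ph u c * ph u e := by
  unfold ph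
  rw [← Finset.prod_mul_distrib, ← Finset.prod_mul_distrib]
  refine Finset.prod_congr rfl fun i _ => ?_
  rw [← pow_add, ← pow_add, h i]

lemma xi_ne (n : Fin 21) (x : V) : xi D1 n x ≠ 0 ↔ ∀ i, ex n i ≠ 0 → x i ≠ 0 := by
  unfold xi
  have : (dl : ℂ) ≠ 0 := by exact_mod_cast dl_pos.ne'
  rw [mul_ne_zero_iff, Finset.prod_ne_zero_iff]
  constructor
  · rintro ⟨-, h⟩ i hi h0
    exact h i (Finset.mem_univ _) (by rw [h0, zero_pow hi])
  · intro h
    refine ⟨pow_ne_zero _ this, fun i _ => ?_⟩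
    by_cases hi : ex n i = 0
    · rw [hi, pow_zero]; exact one_ne_zero
    · exact pow_ne_zero _ (h i hi)

lemma unit_conj {z : ℂ} (h : ‖z‖ = 1) : z * conj z = 1 := by
  rw [mul_conj, normSq_eq_norm_sq, h]; norm_num

lemma unit_sq {z : ℂ} (h : ‖z‖ = 1) : z.re ^ 2 + z.im ^ 2 = 1 := by
  have := Complex.sq_norm z
  rw [h, normSq_apply] at this
  nlinarith

lemma sgn : ∀ t, tm t ∈ D1.ngl ∧ ta t ∉ D1.ngl ∧ tb t ∉ D1.ngl ∧ tm t ≠ tb t ∧ ta t ≠ tb t := by
  decide +kernel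

lemma cmbN : ∀ t t', kd t t' = 1 → kd t' t = 1 ∧ tm t = tm t' ∧ ¬ St (tm t) ∧
    (tb t = ta t' ∨ tb t' = ta t) ∧ (tb t = ta t' →
      D1.vs t ∩ D1.vs t' = {tm t, tb t} ∧
        ∀ i, ex (ta t) i + ex (tb t') i = ex (tm t) i + ex (tm t) i) := by
  decide +kernel

lemma cmbP : ∀ t t', kd t t' = 2 → kd t' t = 2 ∧ ta t = tb t' ∧ tb t = ta t' ∧
    D1.vs t ∩ D1.vs t' = {ta t, tb t} ∧ (¬ St (tm t) ∨ ¬ St (tm t')) := by
  decide +kernel

lemma cmbP1 : ∀ t t', kd t t' = 2 → St (tm t') →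
    ∀ i, ex (tm t) i + ex (tm t') i = ex (ta t) i + ex (tb t) i := by
  decide +kernel

lemma cmbP2 : ∀ t t', kd t t' = 2 → ¬ St (tm t) → ¬ St (tm t') →
    ((∀ i, ex (tm t) i + ex (tm t') i = ex (ta t) i + ex (ta t) i) ∨
      (∀ i, ex (tm t) i + ex (tm t') i = ex (tb t) i + ex (tb t) i)) := by
  decide +kernel

lemma cmbP3 : ∀ t t', kd t t' = 2 → ¬ St (tm t) → ¬ St (tm t') →
    ∀ i, ex (tm t) i = 0 → ex (ta t) i = 0 ∨ ex (tb t) i = 0 := by
  decide +kernel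

lemma im_scale (r s : ℝ) (a b : ℂ) :
    ((r : ℂ) * a * conj ((s : ℂ) * b)).im = r * s * (a * conj b).im := by
  simp [mul_im, mul_re]; ring

lemma coreN (hB : BasicS) (hP : PhS) (t t' : Fin 25) (hk : kd t t' = 1) (hn : tb t = ta t')
    (p : V × ℂ) (hp : p ∈ DD t) (hp' : p ∈ DD t') (h0 : fb t p = 0) :
    0 ≤ fa t p * fa t' p := by
  obtain ⟨x, w⟩ := p
  obtain ⟨-, hm, hst, -, hc⟩ := cmbN t t' hk
  obtain ⟨hS, hex⟩ := hc hn
  obtain ⟨s1, s2, s3, s4, -⟩ := sgn t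
  obtain ⟨P1, P2, -, P4, P5, P6, -⟩ := hP
  by_cases z1 : fa t (x, w) = 0
  · rw [z1]; simp
  by_cases z2 : fa t' (x, w) = 0
  · rw [z2]; simp
  have nA : xi D1 (ta t) x ≠ 0 := fun h => z1 (by simp [fa, XI, h])
  have nB : xi D1 (tb t') x ≠ 0 := fun h => z2 (by simp [fa, XI, h])
  have nm : xi D1 (tm t) x ≠ 0 := by
    rw [xi_ne] at nA nB ⊢
    intro i hi
    have := hex i
    by_cases h : ex (ta t) i = 0
    · exact nB i (by omega)
    · exact nA i h
  obtain ⟨u, hu⟩ := P1 x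
  have hx0 : x ≠ 0 := hp.1.1.1
  have hw : w ^ 2 = aeval x (tp D1) := hp.1.1.2
  have hV : x ∈ VS D1 {tm t, tb t} := by
    rw [← hS, ← (hB D1).2.2.2.2.2.1]
    exact ⟨hp.2.1, hp'.2.1⟩
  obtain ⟨n, hnS, hn0, -, hE1, hE2⟩ := P5 x u {tm t, tb t} (tm t) hx0 hu hV
  have hF := P6 x {tm t, tb t}
  rw [Finset.sum_pair s4, ← hw] at hF
  have g1 : sg D1 (tm t) = -1 := by simp [sg, s1]
  have g2 : sg D1 (tb t) = 1 := by simp [sg, s3]
  rw [g1, g2] at hF
  have hd := P4 u t 1 2 0 hu.1 (by decide) (by decide) (by decide)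
  obtain ⟨um, xm⟩ := P2 x u (tm t) hu
  obtain ⟨un, xn⟩ := P2 x u (tb t) hu
  obtain ⟨uA, xA⟩ := P2 x u (ta t) hu
  obtain ⟨uB, xB⟩ := P2 x u (tb t') hu
  have hprod := ph_mul u _ _ _ _ hex
  have hR : ‖xi D1 n x‖ = ‖xi D1 (tm t) x‖ ∨ ‖xi D1 n x‖ = ‖xi D1 (tb t) x‖ := by
    rcases Finset.mem_insert.1 hnS with h | h
    · left; rw [h]
    · right; rw [Finset.mem_singleton.1 h]
  have hRp : 0 < ‖xi D1 n x‖ := norm_pos_iff.2 hn0
  have hmp : 0 < ‖xi D1 (tm t) x‖ := norm_pos_iff.2 nm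
  have e1 : fa t (x, w) = ‖xi D1 (ta t) x‖ * ‖xi D1 (tb t) x‖ *
      (ph u (ta t) * conj (ph u (tb t))).im := by
    rw [← im_scale, ← xA, ← xn]; rfl
  have e2 : fa t' (x, w) = ‖xi D1 (tb t) x‖ * ‖xi D1 (tb t') x‖ *
      (ph u (tb t) * conj (ph u (tb t'))).im := by
    rw [← im_scale, ← xB, ← xn, hn]; rfl
  have e3 : (w * conj (ph u (tm t))).im = 0 := by
    have : fb t (x, w) = 1 * ‖xi D1 (tm t) x‖ * (w * conj (ph u (tm t))).im := by
      rw [← im_scale, ← xm]; simp [fb, hst, XI]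
    rw [h0] at this
    have := (mul_eq_zero.1 this.symm).resolve_left (by rw [one_mul]; exact hmp.ne')
    exact this
  change dd u ≤ 6 * (|(ph u (ta t) * conj (ph u (tm t))).im| +
    |(ph u (tb t) * conj (ph u (tm t))).im|) at hd
  rw [xm, xn] at hF
  rw [e1, e2]
  generalize ‖xi D1 n x‖ = R at *
  generalize ‖xi D1 (tm t) x‖ = rm at *
  have q1 := norm_nonneg (xi D1 (tb t) x)
  have q2 := norm_nonneg (xi D1 (ta t) x)
  have q3 := norm_nonneg (xi D1 (tb t') x)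
  generalize ‖xi D1 (tb t) x‖ = r at *
  generalize ‖xi D1 (ta t) x‖ = rA at *
  generalize ‖xi D1 (tb t') x‖ = rB at *
  generalize ph u (tm t) = μ at *
  generalize ph u (tb t) = ν at *
  generalize ph u (ta t) = α at *
  generalize ph u (tb t') = β at *
  generalize Er {tm t, tb t} x = E at *
  have cμ := unit_conj um
  have cα := unit_conj uA
  have k1 : α * conj ν = (α * conj μ) * conj (ν * conj μ) := by
    rw [map_mul, conj_conj]; linear_combination (-(α * conj ν)) * cμ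
  have k2 : ν * conj β = (α * conj μ) * (ν * conj μ) := by
    have := congrArg conj hprod
    rw [map_mul, map_mul] at this
    linear_combination (α * ν) * this - (ν * conj β) * cα
  have k3 : (r : ℂ) ^ 2 * (ν * conj μ) ^ 2 =
      (w * conj μ) ^ 2 + (rm : ℂ) ^ 2 - E * conj μ ^ 2 := by
    push_cast at hF
    linear_combination (-(conj μ) ^ 2) * hF + (rm : ℂ) ^ 2 * (μ * conj μ + 1) * cμ
  have ua : ‖α * conj μ‖ = 1 := by rw [norm_mul, norm_conj, uA, um, one_mul]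
  have ue : ‖ν * conj μ‖ = 1 := by rw [norm_mul, norm_conj, un, um, one_mul]
  have uE : |(E * conj μ ^ 2).re| ≤ 21 * dl ^ 2 * R ^ 2 := by
    refine (abs_re_le_norm _).trans ?_
    rw [norm_mul, norm_pow, norm_conj, um, one_pow, mul_one]
    exact hE1
  rw [k1, k2]
  generalize α * conj μ = a at *
  generalize ν * conj μ = η at *
  generalize w * conj μ = s at *
  generalize E * conj μ ^ 2 = E' at *
  have k4 := congrArg Complex.re k3
  have k5 := congrArg Complex.im k3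
  simp only [pow_two, mul_re, mul_im, ofReal_re, ofReal_im, add_re, add_im, sub_re, sub_im,
    e3] at k4 k5
  have key := ineqN η.re η.im a.re a.im r R s.re rm E'.re E'.im (dd u) (dl ^ 2) (by positivity)
    dl_sq (unit_sq ue) (unit_sq ua) hRp (by linarith) (by linarith) uE hE2 hd hR
  have k6 : (a * conj η).im = a.im * η.re - a.re * η.im := by simp [mul_im]; ring
  have k7 : (a * η).im = a.im * η.re + a.re * η.im := by simp [mul_im]; ring
  rw [k6, k7]
  have : 0 ≤ rA * r * (r * rB) := by positivity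
  nlinarith [mul_nonneg this key]

lemma ph_congr (u u' : V) (i : Fin 3) (n : Fin 21) (h : ∀ j, j ≠ i → u' j = u j)
    (hn : ex n i = 0) : ph u' n = ph u n := by
  unfold ph
  refine Finset.prod_congr rfl fun j _ => ?_
  by_cases hj : j = i
  · rw [hj, hn, pow_zero, pow_zero]
  · rw [h j hj]

lemma fin3 : ∀ k : Fin 3, k = 0 ∨ k = 1 ∨ k = 2 := by decide

lemma good_phase (hP : PhS) (t t' : Fin 25) (hk : kd t t' = 2) (hst : ¬ St (tm t))
    (x : V) (w : ℂ) (h0 : fa t (x, w) = 0) (z1 : fb t (x, w) ≠ 0) (z2 : fb t' (x, w) ≠ 0) :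
    ∃ u, Pol x u ∧ (ph u (ta t) * conj (ph u (tb t))).im = 0 := by
  obtain ⟨-, ha, hb, -, -⟩ := cmbP t t' hk
  obtain ⟨P1, P2, -, -, -, -, -, P8, -⟩ := hP
  obtain ⟨u, hu⟩ := P1 x
  by_cases hz : xi D1 (ta t) x ≠ 0 ∧ xi D1 (tb t) x ≠ 0
  · refine ⟨u, hu, ?_⟩
    have e1 : fa t (x, w) = ‖xi D1 (ta t) x‖ * ‖xi D1 (tb t) x‖ *
        (ph u (ta t) * conj (ph u (tb t))).im := by
      rw [← im_scale, ← (P2 x u _ hu).2, ← (P2 x u _ hu).2]; rfl
    rw [h0] at e1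
    exact (mul_eq_zero.1 e1.symm).resolve_left
      (mul_ne_zero (norm_ne_zero_iff.2 hz.1) (norm_ne_zero_iff.2 hz.2))
  have hst' : ¬ St (tm t') := by
    intro h
    apply z2
    rcases not_and_or.1 hz with h1 | h1
    · rw [ha] at h1; simp [fb, h, XI, not_not.1 h1]
    · rw [hb] at h1; simp [fb, h, XI, not_not.1 h1]
  have nm : xi D1 (tm t) x ≠ 0 := fun h => z1 (by simp [fb, hst, XI, h])
  have hi : ∃ i, x i = 0 := by
    by_contra hh
    push Not at hh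
    exact hz ⟨(xi_ne _ _).2 fun i _ => hh i, (xi_ne _ _).2 fun i _ => hh i⟩
  obtain ⟨i, hi⟩ := hi
  have hmi : ex (tm t) i = 0 := by
    by_contra hh
    exact (xi_ne _ _).1 nm i hh hi
  rcases cmbP3 t t' hk hst hst' i hmi with h | h
  · obtain ⟨u', hu', hj, he⟩ := P8 x t i 2 (ph u (ta t)) hi (fun k' hk' => by
      rcases fin3 k' with rfl | rfl | rfl
      · exact hmi
      · exact h
      · exact absurd rfl hk') (P2 x u _ hu).1 u hu
    refine ⟨u', hu', ?_⟩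
    change ph u' (tb t) = _ at he
    rw [he, ph_congr u u' i _ hj h, unit_conj (P2 x u _ hu).1, one_im]
  · obtain ⟨u', hu', hj, he⟩ := P8 x t i 1 (ph u (tb t)) hi (fun k' hk' => by
      rcases fin3 k' with rfl | rfl | rfl
      · exact hmi
      · exact absurd rfl hk'
      · exact h) (P2 x u _ hu).1 u hu
    refine ⟨u', hu', ?_⟩
    change ph u' (ta t) = _ at he
    rw [he, ph_congr u u' i _ hj h, unit_conj (P2 x u _ hu).1, one_im]

lemma sq_eq {α β : ℂ} (hα : ‖α‖ = 1) (hβ : ‖β‖ = 1) (h : (α * conj β).im = 0) :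
    β ^ 2 = α ^ 2 := by
  have h1 := conj_eq_iff_im.2 h
  rw [map_mul, conj_conj] at h1
  linear_combination (α * β) * h1 - β ^ 2 * unit_conj hα + α ^ 2 * unit_conj hβ

lemma coreP (hB : BasicS) (hP : PhS) (t t' : Fin 25) (hk : kd t t' = 2) (hst : ¬ St (tm t))
    (p : V × ℂ) (hp : p ∈ DD t) (hp' : p ∈ DD t') (h0 : fa t p = 0) :
    fb t p * fb t' p ≤ 0 := by
  obtain ⟨x, w⟩ := p
  by_cases z1 : fb t (x, w) = 0
  · rw [z1]; simp
  by_cases z2 : fb t' (x, w) = 0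
  · rw [z2]; simp
  obtain ⟨u, hu, hab⟩ := good_phase hP t t' hk hst x w h0 z1 z2
  obtain ⟨-, ha, hb, hS, -⟩ := cmbP t t' hk
  obtain ⟨-, s2, s3, -, s5⟩ := sgn t
  obtain ⟨-, P2, -, P4, P5, P6, -⟩ := hP
  have hx0 : x ≠ 0 := hp.1.1.1
  have hw : w ^ 2 = aeval x (tp D1) := hp.1.1.2
  have hV : x ∈ VS D1 {ta t, tb t} := by
    rw [← hS, ← (hB D1).2.2.2.2.2.1]
    exact ⟨hp.2.1, hp'.2.1⟩
  obtain ⟨n, hnS, hn0, -, hE1, hE2⟩ := P5 x u {ta t, tb t} (ta t) hx0 hu hV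
  have hF := P6 x {ta t, tb t}
  rw [Finset.sum_pair s5, ← hw] at hF
  have g1 : sg D1 (ta t) = 1 := by simp [sg, s2]
  have g2 : sg D1 (tb t) = 1 := by simp [sg, s3]
  rw [g1, g2] at hF
  have hd := P4 u t 0 2 1 hu.1 (by decide) (by decide) (by decide)
  obtain ⟨um, xm⟩ := P2 x u (tm t) hu
  obtain ⟨um', xm'⟩ := P2 x u (tm t') hu
  obtain ⟨uA, xA⟩ := P2 x u (ta t) hu
  obtain ⟨uB, xB⟩ := P2 x u (tb t) hu
  have hR : ‖xi D1 n x‖ = ‖xi D1 (ta t) x‖ ∨ ‖xi D1 n x‖ = ‖xi D1 (tb t) x‖ := by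
    rcases Finset.mem_insert.1 hnS with h | h
    · left; rw [h]
    · right; rw [Finset.mem_singleton.1 h]
  have hRp : 0 < ‖xi D1 n x‖ := norm_pos_iff.2 hn0
  have hsq := sq_eq uA uB hab
  have cα := unit_conj uA
  have cβ := unit_conj uB
  have cμ := unit_conj um
  have e1 : fb t (x, w) = 1 * ‖xi D1 (tm t) x‖ * (w * conj (ph u (tm t))).im := by
    rw [← im_scale, ← xm]; simp [fb, hst, XI]
  have e2 : ∃ c : ℝ, 0 ≤ c ∧
      fb t' (x, w) = c * (w * ph u (tm t) * conj (ph u (ta t)) ^ 2).im := by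
    by_cases hst' : St (tm t')
    · have hprod := congrArg conj (ph_mul u _ _ _ _ (cmbP1 t t' hk hst'))
      rw [map_mul, map_mul] at hprod
      refine ⟨‖xi D1 (tm t') x‖ * ‖xi D1 (tb t) x‖ * ‖xi D1 (ta t) x‖, by positivity, ?_⟩
      have : fb t' (x, w) =
          (w * conj (xi D1 (tm t') x) * xi D1 (tb t) x * conj (xi D1 (ta t) x)).im := by
        rw [ha, hb]; simp only [fb, hst', XI, if_true]
      rw [this, ← im_ofReal_mul]
      congr 1
      rw [xm', xA, xB]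
      simp only [map_mul, conj_ofReal, norm_mul, norm_real, norm_norm, um', uA, uB, mul_one]
      push_cast
      generalize (‖xi D1 (tm t') x‖ : ℂ) = r1
      generalize (‖xi D1 (tb t) x‖ : ℂ) = r2
      generalize (‖xi D1 (ta t) x‖ : ℂ) = r3
      linear_combination (r1 * r2 * r3 * w * ph u (tb t) * conj (ph u (ta t)) * ph u (tm t)) * hprod
        - (r1 * r2 * r3 * w * ph u (tb t) * conj (ph u (ta t)) * conj (ph u (tm t'))) * cμ
        + (r1 * r2 * r3 * w * conj (ph u (ta t)) ^ 2 * ph u (tm t)) * cβ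
    · have hprod : ph u (tm t) * ph u (tm t') = ph u (ta t) ^ 2 := by
        rcases cmbP2 t t' hk hst hst' with h | h
        · rw [ph_mul u _ _ _ _ h]; ring
        · rw [ph_mul u _ _ _ _ h, ← hsq]; ring
      have hprod' := congrArg conj hprod
      rw [map_mul, map_pow] at hprod'
      refine ⟨1 * ‖xi D1 (tm t') x‖, by positivity, ?_⟩
      have : fb t' (x, w) = 1 * ‖xi D1 (tm t') x‖ * (w * conj (ph u (tm t'))).im := by
        rw [← im_scale, ← xm']; simp [fb, hst', XI]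
      rw [this]
      congr 2
      linear_combination (w * ph u (tm t)) * hprod' - (w * conj (ph u (tm t'))) * cμ
  obtain ⟨c, hc, e2⟩ := e2
  change dd u ≤ 6 * (|(ph u (tm t) * conj (ph u (ta t))).im| +
    |(ph u (tb t) * conj (ph u (ta t))).im|) at hd
  have hba : (ph u (tb t) * conj (ph u (ta t))).im = 0 := by
    have : (ph u (tb t) * conj (ph u (ta t))).im = -(ph u (ta t) * conj (ph u (tb t))).im := by
      simp [mul_im]; ring
    rw [this, hab, neg_zero]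
  rw [hba, abs_zero, add_zero] at hd
  rw [xA, xB] at hF
  rw [e1, e2]
  have q1 := norm_nonneg (xi D1 (tm t) x)
  clear e1 e2 xm xm' xA xB
  generalize ‖xi D1 n x‖ = R at *
  generalize ‖xi D1 (tm t) x‖ = rm at *
  generalize ‖xi D1 (tb t) x‖ = rb at *
  generalize ‖xi D1 (ta t) x‖ = ra at *
  generalize ph u (tm t) = μ at *
  generalize ph u (tb t) = β at *
  generalize ph u (ta t) = α at *
  generalize Er {ta t, tb t} x = E at *
  have k1 : w * conj μ = (w * conj α) * conj (μ * conj α) := by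
    rw [map_mul, conj_conj]; linear_combination (-(w * conj μ)) * cα
  have k2 : w * μ * conj α ^ 2 = (w * conj α) * (μ * conj α) := by ring
  have k3 : (w * conj α) ^ 2 = (ra : ℂ) ^ 2 + (rb : ℂ) ^ 2 + E * conj α ^ 2 := by
    push_cast at hF
    linear_combination (conj α ^ 2) * hF + (rb : ℂ) ^ 2 * conj α ^ 2 * hsq
      + ((ra : ℂ) ^ 2 + (rb : ℂ) ^ 2) * (α * conj α + 1) * cα
  have ut : ‖μ * conj α‖ = 1 := by rw [norm_mul, norm_conj, uA, um, one_mul]
  have uE : |(E * conj α ^ 2).re| ≤ 21 * dl ^ 2 * R ^ 2 := by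
    refine (abs_re_le_norm _).trans ?_
    rw [norm_mul, norm_pow, norm_conj, uA, one_pow, mul_one]
    exact hE1
  rw [k1, k2]
  generalize w * conj α = ω at *
  generalize μ * conj α = θ at *
  generalize E * conj α ^ 2 = E' at *
  have k4 := congrArg Complex.re k3
  have k5 := congrArg Complex.im k3
  simp only [pow_two, mul_re, mul_im, ofReal_re, ofReal_im, add_re, add_im] at k4 k5
  have key := ineqP ω.re ω.im θ.re θ.im ra rb R E'.re E'.im (dd u) (dl ^ 2) (by positivity)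
    dl_sq (unit_sq ut) hRp (by linarith) (by linarith) uE hE2 hd hR
  have k6 : (ω * conj θ).im = ω.im * θ.re - ω.re * θ.im := by simp [mul_im]; ring
  have k7 : (ω * θ).im = ω.im * θ.re + ω.re * θ.im := by simp [mul_im]; ring
  rw [k6, k7]
  have : 0 ≤ rm * c := by positivity
  nlinarith [mul_nonneg this (neg_nonneg.2 key)]

lemma ff_re (t : Fin 25) (p : V × ℂ) : (ff t p).re = fa t p := by simp [ff]

lemma ff_im (t : Fin 25) (p : V × ℂ) : (ff t p).im = fb t p := by simp [ff]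

end pnp

open pnp

theorem pnS : PNS := by
  intro hB hP t t' hk p hp
  obtain ⟨hk', hm, hst, hn, -⟩ := cmbN t t' hk
  have hfb : fb t' p = fb t p := by simp only [fb, ← hm, hst, if_false]
  refine slit _ _ hp.1.2.2 hp.2.2.2 (by rw [ff_im, ff_im, hfb]) fun h => ?_
  rw [ff_im] at h
  rw [ff_re, ff_re]
  rcases hn with hn | hn
  · exact coreN hB hP t t' hk hn p hp.1 hp.2 h
  · rw [mul_comm]
    exact coreN hB hP t' t hk' hn p hp.2 hp.1 (hfb.trans h)

theorem ppS : PPS := by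
  intro hB hP t t' hk p hp
  obtain ⟨hk', ha, hb, -, hst⟩ := cmbP t t' hk
  have hfa : fa t' p = -fa t p := by
    simp only [fa, ha, hb]
    simp [mul_im]; ring
  have e : -(ff t' p / ff t p) = (-(ff t' p) * I) / (ff t p * I) := by
    rw [mul_div_mul_right _ _ I_ne_zero, neg_div]
  rw [e]
  refine slit _ _ (mul_ne_zero hp.1.2.2 I_ne_zero)
    (mul_ne_zero (neg_ne_zero.2 hp.2.2.2) I_ne_zero) (by simp [ff_re, hfa]) fun h => ?_
  have h0 : fa t p = 0 := by simpa [ff_re] using h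
  have key : fb t p * fb t' p ≤ 0 := by
    rcases hst with hst | hst
    · exact coreP hB hP t t' hk hst p hp.1 hp.2 h0
    · rw [mul_comm]
      exact coreP hB hP t' t hk' hst p hp.2 hp.1 (by rw [hfa, h0, neg_zero])
  simp only [mul_re, I_re, I_im, neg_re, neg_im, ff_im, mul_zero, mul_one, zero_sub, neg_neg]
  linarith

end

end Pool.Agent.MP_6600f1_ag.ce
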