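import Mathlib
import Pool.Agent.MP_6600f1_ag.ce.Spec

/-! The slit conditions for two consecutive triangles of a star. -/

namespace Pool.Agent.MP_6600f1_ag.ce

open MvPolynomial Metric Set Complex
open scoped ComplexConjugate Real

noncomputable section

namespace SSaux

theorem kd3 : ∀ t t' : Fin 25, kd t t' = 3 →
    tm t = tm t' ∧ St (tm t) ∧ tb t = ta t' ∧
    (∀ i, ex (ta t) i + ex (tb t) i + ex (tb t') i = 3 * ex (tm t) i) ∧
    (∀ i, ex (tm t) i ≠ 0) ∧ D1.vs t ∩ D1.vs t' = {tm t, tb t} ∧ tm t ≠ tb t ∧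
    tm t ∈ D1.ngl ∧ tb t ∉ D1.ngl := by
  decide +kernel

/-- a quotient outside the slit plane gives a nonnegative linear relation -/
theorem rel_of_not_slit {z G : ℂ} (h : z / G ∉ slitPlane) :
    ∃ α β : ℝ, 0 ≤ α ∧ 0 ≤ β ∧ 0 < α + β ∧ (α : ℂ) * z + β * G = 0 := by
  by_cases hG : G = 0
  · exact ⟨0, 1, le_rfl, zero_le_one, by norm_num, by simp [hG]⟩
  · rw [mem_slitPlane_iff, not_or, not_lt, not_not] at h
    refine ⟨1, -(z / G).re, zero_le_one, by linarith [h.1], by linarith [h.1], ?_⟩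
    have : z / G = ((z / G).re : ℂ) := by
      apply Complex.ext <;> simp [h.2]
    have h2 : z = ((z / G).re : ℂ) * G := by rw [← this]; field_simp
    push_cast
    linear_combination h2

theorem slit_of_scale {u v a c : ℝ} (ha : 0 < a) (hc : 0 < c)
    (h : ((a * u : ℝ) : ℂ) + (a * c * v : ℝ) * I ≠ 0) :
    ((u : ℂ) + v * I) / (((a * u : ℝ) : ℂ) + (a * c * v : ℝ) * I) ∈ slitPlane ∧
    (((a * u : ℝ) : ℂ) + (a * c * v : ℝ) * I) / ((u : ℂ) + v * I) ∈ slitPlane := by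
  have huv : 0 < u ^ 2 + c * v ^ 2 := by
    by_contra hn
    have h1 : u ^ 2 + c * v ^ 2 ≤ 0 := not_lt.1 hn
    have h2 : 0 ≤ c * v ^ 2 := by positivity
    have hu : u = 0 := by nlinarith [sq_nonneg u]
    have hv : c * v ^ 2 = 0 := by nlinarith [sq_nonneg u]
    have hv' : v = 0 := by
      rcases mul_eq_zero.1 hv with h3 | h3
      · exact absurd h3 hc.ne'
      · exact pow_eq_zero_iff two_ne_zero |>.1 h3
    exact h (by simp [hu, hv'])
  have h' : (u : ℂ) + v * I ≠ 0 := by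
    intro h0
    have hu : u = 0 := by simpa using congrArg Complex.re h0
    have hv : v = 0 := by simpa using congrArg Complex.im h0
    simp [hu, hv] at huv
  constructor
  · left
    rw [Complex.div_re, ← add_div]
    apply div_pos _ (normSq_pos.2 h)
    simp only [add_re, ofReal_re, mul_re, I_re, ofReal_im, I_im, add_im, mul_im]
    nlinarith [mul_pos ha huv]
  · left
    rw [Complex.div_re, ← add_div]
    apply div_pos _ (normSq_pos.2 h')
    simp only [add_re, ofReal_re, mul_re, I_re, ofReal_im, I_im, add_im, mul_im]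
    nlinarith [mul_pos ha huv]

theorem step1 {a b y1 y2 r e1 e2 d α β : ℝ}
    (hy : y1 ^ 2 + y2 ^ 2 = 1) (hr : 0 ≤ r) (hd0 : 0 ≤ d)
    (he1 : |e1| ≤ (1 + r) / 10 ^ 6) (he3 : |e2| ≤ (1 + r) / 10 ^ 6 * d)
    (hα : 0 ≤ α) (hβ : 0 ≤ β) (hαβ : 0 < α + β)
    (E1 : α * y2 + β * ((a ^ 2 + b ^ 2 + 1) * y2 + (y2 * (r + e1) + y1 * e2)) = 0) :
    |y2| ≤ d / 10 ^ 5 := by
  have hy1 : |y1| ≤ 1 := by rw [← sq_le_one_iff_abs_le_one]; nlinarith [sq_nonneg y2]
  have he1' := abs_le.1 he1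
  obtain ⟨T, hT⟩ : ∃ T, T = a ^ 2 + b ^ 2 + 1 + (r + e1) := ⟨_, rfl⟩
  have hT1 : (1 + r) / 2 ≤ T := by linarith [sq_nonneg a, sq_nonneg b, he1'.1]
  have hT0 : 1 / 2 ≤ T := by linarith
  have hS : 0 < α + β * T := by nlinarith [mul_le_mul_of_nonneg_left hT0 hβ]
  have e : y2 * (α + β * T) = -(β * (y1 * e2)) := by rw [hT]; linear_combination E1
  have e' : |y2| * (α + β * T) = β * (|y1| * |e2|) := by
    have := congrArg abs e
    rwa [abs_mul, abs_of_pos hS, abs_neg, abs_mul, abs_of_nonneg hβ, abs_mul] at this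
  have b1 : |y1| * |e2| ≤ T * (d / 10 ^ 5) := by
    calc |y1| * |e2| ≤ 1 * ((1 + r) / 10 ^ 6 * d) :=
          mul_le_mul hy1 he3 (abs_nonneg _) zero_le_one
      _ = (1 + r) / 2 * (d / (5 * 10 ^ 5)) := by ring
      _ ≤ T * (d / 10 ^ 5) := by
          apply mul_le_mul hT1 _ (by positivity) (by linarith)
          apply div_le_div_of_nonneg_left hd0 <;> norm_num
  have b2 : |y2| * (α + β * T) ≤ d / 10 ^ 5 * (α + β * T) := by
    rw [e']
    have h1 := mul_le_mul_of_nonneg_left b1 hβ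
    have h3 : 0 ≤ d / 10 ^ 5 * α := by positivity
    linarith
  exact le_of_mul_le_mul_right b2 hS

theorem step3 {a b y1 y2 α β : ℝ} (hy : y1 ^ 2 + y2 ^ 2 = 1) (s1 : |y2| ≤ 2 / 10 ^ 5)
    (hα : 0 ≤ α) (hβ : 0 ≤ β) (hαβ : 0 < α + β)
    (E2 : α * (a * y2 + b * y1) + β * (2 * b * y1) = 0) : |b| ≤ 2 * |a| * |y2| := by
  have hy2 : y2 ^ 2 ≤ (2 / 10 ^ 5) ^ 2 := by
    rw [← sq_abs]; exact pow_le_pow_left₀ (abs_nonneg _) s1 2
  have s2 : 1 / 2 ≤ |y1| := by
    apply abs_le_of_sq_le_sq' _ (abs_nonneg _) |>.2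
    rw [sq_abs]; norm_num at hy2 ⊢; linarith
  have hp : 0 < α + 2 * β := by linarith
  have e : b * y1 * (α + 2 * β) = -(α * (a * y2)) := by linear_combination E2
  have e' : |b| * |y1| * (α + 2 * β) = α * (|a| * |y2|) := by
    have := congrArg abs e
    rwa [abs_mul, abs_of_pos hp, abs_neg, abs_mul, abs_mul, abs_of_nonneg hα, abs_mul] at this
  have h0 : 0 ≤ |a| * |y2| := by positivity
  have b2 : |b| * |y1| * (α + 2 * β) ≤ |a| * |y2| * (α + 2 * β) := by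
    rw [e']; linarith [mul_nonneg h0 hβ]
  have b3 := le_of_mul_le_mul_right b2 hp
  linarith [mul_le_mul_of_nonneg_left s2 (abs_nonneg b)]

theorem step5 {a b s P Q r e1 e2 d : ℝ} (hPQ : P ^ 2 + Q ^ 2 = 1) (hr : 0 ≤ r)
    (hd0 : 0 ≤ d) (hd : d ≤ 2)
    (he1 : |e1| ≤ (1 + r) / 10 ^ 6) (he2 : |e2| ≤ (1 + r) / 10 ^ 6)
    (he3 : |e2| ≤ (1 + r) / 10 ^ 6 * d)
    (hre : a ^ 2 - b ^ 2 + 1 = P * (r + e1) - Q * e2)
    (him : 2 * a * b = Q * (r + e1) + P * e2)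
    (s0 : 0 ≤ s) (s1 : s ≤ d / 10 ^ 5) (s3 : |b| ≤ 2 * |a| * s) :
    |Q| ≤ d / 10 ^ 3 ∧ 0 < P := by
  have he1' := abs_le.1 he1
  have hb2 : b ^ 2 ≤ a ^ 2 / 2 := by
    have h0 : s ≤ 1 / 4 := by linarith
    have h1 : |b| ≤ |a| / 2 := by linarith [mul_le_mul_of_nonneg_left h0 (abs_nonneg a)]
    have h2 := pow_le_pow_left₀ (abs_nonneg b) h1 2
    rw [sq_abs, div_pow, sq_abs] at h2
    linarith [sq_nonneg a]
  have hP1 : |P| ≤ 1 := by rw [← sq_le_one_iff_abs_le_one]; linarith [sq_nonneg Q]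
  have hQ1 : |Q| ≤ 1 := by rw [← sq_le_one_iff_abs_le_one]; linarith [sq_nonneg P]
  have hQe : |Q * e2| ≤ (1 + r) / 10 ^ 6 := by
    rw [abs_mul]; linarith [mul_le_mul_of_nonneg_right hQ1 (abs_nonneg e2)]
  have hQe' := abs_le.1 hQe
  have hPr : P * (r + e1) ≤ r + (1 + r) / 10 ^ 6 := by
    calc P * (r + e1) ≤ |P * (r + e1)| := le_abs_self _
      _ = |P| * |r + e1| := abs_mul _ _
      _ ≤ 1 * (r + (1 + r) / 10 ^ 6) := by
          apply mul_le_mul hP1 _ (abs_nonneg _) zero_le_one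
          rw [abs_le]; constructor <;> linarith [he1'.1, he1'.2]
      _ = _ := one_mul _
  have k1 : 1 + a ^ 2 / 2 ≤ r + 2 * ((1 + r) / 10 ^ 6) := by linarith [hQe'.1]
  have hr1 : 1 / 2 ≤ r := by linarith [sq_nonneg a]
  have ha2 : a ^ 2 ≤ 4 * r := by linarith
  have hre1 : r / 2 ≤ r + e1 := by linarith [he1'.1]
  have hQs : |Q| ≤ d / 10 ^ 3 := by
    have e : Q * (r + e1) = 2 * a * b - P * e2 := by linarith
    have t1 : |2 * a * b| ≤ 16 * r * (d / 10 ^ 5) := by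
      rw [abs_mul, abs_mul, abs_two]
      calc 2 * |a| * |b| ≤ 2 * |a| * (2 * |a| * s) :=
            mul_le_mul_of_nonneg_left s3 (by positivity)
        _ = 4 * |a| ^ 2 * s := by ring
        _ ≤ 4 * (4 * r) * (d / 10 ^ 5) := by
            rw [sq_abs]
            apply mul_le_mul _ s1 s0 (by positivity)
            linarith
        _ = _ := by ring
    have t2 : |P * e2| ≤ 3 * r / 10 ^ 6 * d := by
      rw [abs_mul]
      calc |P| * |e2| ≤ 1 * ((1 + r) / 10 ^ 6 * d) :=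
            mul_le_mul hP1 he3 (abs_nonneg _) zero_le_one
        _ ≤ 3 * r / 10 ^ 6 * d := by
            rw [one_mul]; apply mul_le_mul_of_nonneg_right _ hd0; linarith
    have t3 : |Q| * (r + e1) ≤ 16 * r * (d / 10 ^ 5) + 3 * r / 10 ^ 6 * d := by
      have : |Q * (r + e1)| ≤ |2 * a * b| + |P * e2| := by rw [e]; exact abs_sub _ _
      rw [abs_mul, abs_of_nonneg (by linarith : 0 ≤ r + e1)] at this
      linarith
    have t4 : |Q| * (r / 2) ≤ d / 10 ^ 3 * (r / 2) := by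
      have h5 := mul_le_mul_of_nonneg_left hre1 (abs_nonneg Q)
      have h6 : 0 ≤ r * d := by positivity
      linarith
    exact le_of_mul_le_mul_right t4 (by linarith)
  refine ⟨hQs, ?_⟩
  by_contra hn
  have hn' : P ≤ 0 := not_lt.1 hn
  have hQ2 : Q ^ 2 ≤ (1 / 2) ^ 2 := by
    rw [← sq_abs]; exact pow_le_pow_left₀ (abs_nonneg _) (by linarith) 2
  have hP2 : 1 / 2 ≤ |P| := by
    apply abs_le_of_sq_le_sq' _ (abs_nonneg _) |>.2
    rw [sq_abs]; linarith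
  rw [abs_of_nonpos hn'] at hP2
  have h7 : 1 / 2 * (r / 2) ≤ -P * (r + e1) :=
    mul_le_mul hP2 hre1 (by linarith) (by linarith)
  linarith [sq_nonneg a, hQe'.1]

/-- the real core of the estimate -/
theorem core_real {a b y1 y2 h1 h2 r e1 e2 d α β : ℝ}
    (hy : y1 ^ 2 + y2 ^ 2 = 1) (hh : h1 ^ 2 + h2 ^ 2 = 1) (hr : 0 ≤ r)
    (hd0 : 0 ≤ d) (hd : d ≤ 2)
    (he1 : |e1| ≤ (1 + r) / 10 ^ 6) (he2 : |e2| ≤ (1 + r) / 10 ^ 6)
    (he3 : |e2| ≤ (1 + r) / 10 ^ 6 * d)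
    (hre : a ^ 2 - b ^ 2 + 1 = (h1 ^ 2 - h2 ^ 2) * (r + e1) - 2 * h1 * h2 * e2)
    (him : 2 * a * b = 2 * h1 * h2 * (r + e1) + (h1 ^ 2 - h2 ^ 2) * e2)
    (hα : 0 ≤ α) (hβ : 0 ≤ β) (hαβ : 0 < α + β)
    (E1 : α * y2 + β * ((a ^ 2 + b ^ 2 + 1) * y2 + (y2 * (r + e1) + y1 * e2)) = 0)
    (E2 : α * (a * y2 + b * y1) + β * (2 * b * y1) = 0) :
    |y2| ≤ d / 10 ^ 5 ∧ |h2| ≤ d / 10 ^ 3 ∧ |b| ≤ 2 * |a| * |y2| := by
  have s1 := step1 hy hr hd0 he1 he3 hα hβ hαβ E1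
  have s3 := step3 hy (by linarith) hα hβ hαβ E2
  have hPQ : (h1 ^ 2 - h2 ^ 2) ^ 2 + (2 * h1 * h2) ^ 2 = 1 := by
    linear_combination (h1 ^ 2 + h2 ^ 2 + 1) * hh
  obtain ⟨hQ, hP⟩ := step5 hPQ hr hd0 hd he1 he2 he3 hre him (abs_nonneg _) s1 s3
  refine ⟨s1, ?_, s3⟩
  have hh1 : 1 / 2 ≤ |h1| := by
    apply abs_le_of_sq_le_sq' _ (abs_nonneg _) |>.2
    rw [sq_abs]; linarith
  rw [abs_mul, abs_mul, abs_two] at hQ
  linarith [mul_le_mul_of_nonneg_right hh1 (abs_nonneg h2)]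

theorem sq_of_norm {y : ℂ} (hy : ‖y‖ = 1) : y.re ^ 2 + y.im ^ 2 = 1 := by
  have := Complex.sq_norm y
  rw [hy, normSq_apply] at this; linarith

theorem conj_mul_of_norm {y : ℂ} (hy : ‖y‖ = 1) : conj y * y = 1 := by
  rw [conj_mul', hy]; simp

/-- the core estimate -/
theorem core {W y η ε : ℂ} {r d α β : ℝ} (hy : ‖y‖ = 1) (hη : ‖η‖ = 1) (hr : 0 ≤ r)
    (hd0 : 0 ≤ d) (hd : d ≤ 2) (he : ‖ε‖ ≤ (1 + r) / 10 ^ 6)
    (he3 : |ε.im| ≤ (1 + r) / 10 ^ 6 * d) (hW : W ^ 2 + 1 = η ^ 2 * (r + ε))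
    (hα : 0 ≤ α) (hβ : 0 ≤ β) (hαβ : 0 < α + β)
    (E : (α : ℂ) * (y.im + (W * y).im * I) +
      β * (-I * (conj η * (W + I) + conj (conj η * (W - I))) *
        ((y * conj η).im + (W * (y * conj η)).im * I)) = 0) :
    |y.im| ≤ d / 10 ^ 5 ∧ |η.im| ≤ d / 10 ^ 3 ∧ |W.im| ≤ 2 * |W.re| * |y.im| := by
  have hy' := sq_of_norm hy
  have hη' := sq_of_norm hη
  have hD : conj η ^ 2 * (W ^ 2 + 1) = r + ε := by
    rw [hW, ← mul_assoc, ← mul_pow, conj_mul_of_norm hη]; simp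
  have hre := congrArg Complex.re hW
  have him := congrArg Complex.im hW
  have D1 := congrArg Complex.re hD
  have D2 := congrArg Complex.im hD
  have E1 := congrArg Complex.re E
  have E2 := congrArg Complex.im E
  simp only [sq, add_re, add_im, mul_re, mul_im, one_re, one_im, ofReal_re, ofReal_im, neg_re,
    neg_im, I_re, I_im, conj_re, conj_im, sub_re, sub_im, zero_re, zero_im] at hre him E1 E2 D1 D2
  have he1 := (abs_re_le_norm ε).trans he
  have he2 := (abs_im_le_norm ε).trans he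
  refine core_real (α := α) (β := β) hy' hη' hr hd0 hd he1 he2 he3 ?_ ?_ hα hβ hαβ ?_ ?_
  · linear_combination hre
  · linear_combination him
  · linear_combination E1 - β * (W.re ^ 2 + W.im ^ 2 + 1) * y.im * hη' - β * y.im * D1 -
      β * y.re * D2
  · linear_combination E2 - β * (2 * W.im * y.re) * hη'

theorem xi_ne {x : V} (hx : Tor x) (n : Fin 21) : xi D1 n x ≠ 0 := by
  unfold xi
  refine mul_ne_zero (pow_ne_zero _ ?_) (Finset.prod_ne_zero_iff.2 fun i _ => pow_ne_zero _ (hx i))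
  unfold dl; norm_num

theorem xi_eq_zero {x : V} {i : Fin 3} (hx : x i = 0) {n : Fin 21} (hn : ex n i ≠ 0) :
    xi D1 n x = 0 := by
  unfold xi
  rw [Finset.prod_eq_zero (Finset.mem_univ i) (by rw [hx, zero_pow hn]), mul_zero]

theorem ph_rel (u : V) {A n B m : Fin 21} (h : ∀ i, ex A i + ex n i + ex B i = 3 * ex m i) :
    ph u A * ph u n * ph u B = ph u m ^ 3 := by
  unfold ph
  rw [← Finset.prod_mul_distrib, ← Finset.prod_mul_distrib, ← Finset.prod_pow]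
  refine Finset.prod_congr rfl fun i _ => ?_
  rw [← pow_add, ← pow_add, h i, ← pow_mul, mul_comm]

theorem dd_le {u : V} (hu : Un u) : 0 ≤ dd u ∧ dd u ≤ 2 := by
  unfold dd
  refine ⟨by positivity, ?_⟩
  have h : ∀ i, |(u i * conj (u 2)).im| ≤ 1 := fun i => by
    refine (abs_im_le_norm _).trans ?_
    rw [norm_mul, RCLike.norm_conj, hu i, hu 2, one_mul]
  linarith [h 0, h 1]

theorem div_unit {a b : ℂ} (hb : ‖b‖ = 1) : a / b = a * conj b := by
  have h := conj_mul_of_norm hb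
  have hb0 : b ≠ 0 := by intro h0; simp [h0] at hb
  field_simp
  linear_combination (-a) * h

theorem im_mul_le {a b : ℂ} (ha : ‖a‖ = 1) (hb : ‖b‖ = 1) :
    |(a * conj b).im| ≤ |a.im| + |b.im| := by
  have h1 : |a.re| ≤ 1 := ha ▸ abs_re_le_norm a
  have h2 : |b.re| ≤ 1 := hb ▸ abs_re_le_norm b
  have e : (a * conj b).im = a.im * b.re - a.re * b.im := by simp; ring
  rw [e]
  refine (abs_sub _ _).trans ?_
  rw [abs_mul, abs_mul]
  linarith [mul_le_mul_of_nonneg_left h2 (abs_nonneg a.im),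
    mul_le_mul_of_nonneg_right h1 (abs_nonneg b.im)]

/-- the star function in polar form -/
theorem ff_polar {t : Fin 25} (ht : St (tm t)) (p : V × ℂ) {a b c : ℝ} {A B M : ℂ}
    (hA : XI (ta t) p = a * A) (hB : XI (tb t) p = b * B) (hM : XI (tm t) p = c * M)
    (hc : c ≠ 0) (hM1 : ‖M‖ = 1) :
    ff t p = ((a * b * (A * conj B).im : ℝ) : ℂ) +
      (a * b * c ^ 2 * (WW t p * (A * conj B)).im : ℝ) * I := by
  have hM0 : M ≠ 0 := by intro h0; simp [h0] at hM1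
  have hc' : (c : ℂ) ≠ 0 := ofReal_ne_zero.2 hc
  have hw : p.2 * conj (XI (tm t) p) = ((c ^ 2 : ℝ) : ℂ) * WW t p := by
    unfold WW
    rw [hM, map_mul, conj_ofReal]
    have h := conj_mul_of_norm hM1
    push_cast
    field_simp
    linear_combination p.2 * h
  have e1 : XI (ta t) p * conj (XI (tb t) p) = ((a * b : ℝ) : ℂ) * (A * conj B) := by
    rw [hA, hB, map_mul, conj_ofReal]; push_cast; ring
  have e2 : p.2 * conj (XI (tm t) p) * XI (ta t) p * conj (XI (tb t) p) =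
      ((a * b * c ^ 2 : ℝ) : ℂ) * (WW t p * (A * conj B)) := by
    rw [mul_assoc, e1, hw]; push_cast; ring
  unfold ff fa fb
  rw [if_pos ht, e1, e2, im_ofReal_mul, im_ofReal_mul]

end SSaux

open SSaux in
theorem ssS : SSS := by
  rintro hB ⟨P1, P2, -, P4, P5, P6, P7, -, P9⟩ t t' hk p ⟨hp, hp'⟩
  obtain ⟨-, -, -, -, -, hVS, -⟩ := hB D1
  obtain ⟨hm, hSt, hn, hex, hex0, hvs, hmn, hneg, hpos⟩ := kd3 t t' hk
  obtain ⟨⟨⟨hx0, hw⟩, hnr⟩, hV, hf⟩ := hp
  obtain ⟨-, hV', hf'⟩ := hp'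
  have hSt' : St (tm t') := hm ▸ hSt
  have hT : Tor p.1 := by
    intro i hi
    have z1 : XI (tm t) p = 0 := xi_eq_zero hi (hex0 i)
    have z2 : XI (tm t') p = 0 := hm ▸ z1
    have hA : ex (ta t) i = 0 ∧ ex (tb t) i = 0 := by
      by_contra hc
      apply hf
      have : XI (ta t) p * conj (XI (tb t) p) = 0 := by
        rcases not_and_or.1 hc with h | h
        · rw [show XI (ta t) p = 0 from xi_eq_zero hi h, zero_mul]
        · rw [show XI (tb t) p = 0 from xi_eq_zero hi h, map_zero, mul_zero]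
      unfold ff fa fb
      rw [if_pos hSt, this, z1]; simp
    have hB' : ex (tb t') i = 0 := by
      by_contra hc
      apply hf'
      unfold ff fa fb
      rw [if_pos hSt', z2, show XI (tb t') p = 0 from xi_eq_zero hi hc]; simp
    have := hex i
    have := hex0 i
    omega
  obtain ⟨u, hu⟩ := P1 p.1
  have hph : ∀ n, ‖ph u n‖ = 1 := fun n => (P2 _ _ n hu).1
  have hxi : ∀ n, XI n p = (‖XI n p‖ : ℝ) * ph u n := fun n => (P2 _ _ n hu).2
  have hpos' : ∀ n, 0 < ‖XI n p‖ := fun n => norm_pos_iff.2 (xi_ne hT n)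
  have hpz : ∀ n, pz (XI n p) = ph u n := fun n => by
    unfold pz
    have h0 : ((‖XI n p‖ : ℝ) : ℂ) ≠ 0 := ofReal_ne_zero.2 (hpos' n).ne'
    rw [div_eq_iff h0, mul_comm]; exact hxi n
  have heta : eta t p = ph u (tb t) * conj (ph u (tm t)) := by
    unfold eta; rw [hpz, hpz, div_unit (hph _)]
  have hppi : ppi t p = ph u (ta t) * conj (ph u (tb t)) := by
    unfold ppi; rw [hpz, hpz, div_unit (hph _)]
  have hη : ‖eta t p‖ = 1 := by rw [heta, norm_mul, RCLike.norm_conj, hph, hph, one_mul]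
  have hπ : ‖ppi t p‖ = 1 := by rw [hppi, norm_mul, RCLike.norm_conj, hph, hph, one_mul]
  have hc2 : 0 < ‖XI (tm t) p‖ ^ 2 := pow_pos (hpos' _) 2
  refine ⟨hT, ?_, ?_, ?_⟩
  · have e := ff_polar hSt p (hxi _) (hxi _) (hxi _) (hpos' _).ne' (hph _)
    rw [← hppi] at e
    have e0 : Phi t 0 p = ((ppi t p).im : ℂ) + (WW t p * ppi t p).im * I := by
      unfold Phi; rw [pow_zero, mul_one]
    rw [e] at hf
    rw [e0, e]
    exact (slit_of_scale (mul_pos (hpos' _) (hpos' _)) hc2 hf).1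
  · intro j hj
    by_contra hs
    obtain ⟨α, β, hα, hβ, hαβ, E⟩ := rel_of_not_slit hs
    have hc := conj_mul_of_norm hη
    obtain ⟨y, hy⟩ : ∃ y, y = ppi t p * eta t p ^ (j + 1) := ⟨_, rfl⟩
    have hy1 : ‖y‖ = 1 := by rw [hy, norm_mul, norm_pow, hπ, hη]; simp
    have hy2 : ppi t p * eta t p ^ j = y * conj (eta t p) := by
      rw [hy]; linear_combination (-(ppi t p * eta t p ^ j)) * hc
    unfold Phi gg at E
    rw [← hy, hy2] at E
    have hS : p.1 ∈ VS D1 {tm t, tb t} := by rw [← hvs, ← hVS]; exact ⟨hV, hV'⟩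
    obtain ⟨n1, hn1, -, -, b1, b2⟩ := P5 p.1 u _ (tb t) hx0 hu hS
    obtain ⟨hd0, hd2⟩ := dd_le hu.1
    obtain ⟨c, hcd⟩ : ∃ c, c = ‖XI (tm t) p‖ := ⟨_, rfl⟩
    obtain ⟨b, hbd⟩ : ∃ b, b = ‖XI (tb t) p‖ := ⟨_, rfl⟩
    have hc0 : 0 < c := hcd ▸ hpos' _
    have hb0 : 0 < b := hbd ▸ hpos' _
    have hK : ‖xi D1 n1 p.1‖ ^ 2 ≤ c ^ 2 + b ^ 2 := by
      rcases Finset.mem_insert.1 hn1 with h | h
      · rw [h, hcd]; exact le_add_of_nonneg_right (sq_nonneg _)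
      · rw [Finset.mem_singleton.1 h, hbd]; exact le_add_of_nonneg_left (sq_nonneg _)
    obtain ⟨Z, hZ⟩ : ∃ Z, Z = Er {tm t, tb t} p.1 := ⟨_, rfl⟩
    rw [← hZ] at b1 b2
    have hdl : dl ^ 2 = 1 / 10 ^ 16 := by unfold dl; norm_num
    rw [hdl] at b1 b2
    have hK' : ‖xi D1 n1 p.1‖ ^ 2 ≤ (1 + b ^ 2 / c ^ 2) * c ^ 2 := by
      rw [add_mul, one_mul, div_mul_cancel₀ _ (pow_pos hc0 2).ne']; exact hK
    have hr : 0 ≤ b ^ 2 / c ^ 2 := by positivity
    have hK0 : 0 ≤ (1 + b ^ 2 / c ^ 2) * c ^ 2 := by positivity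
    have hF : p.2 ^ 2 = -XI (tm t) p ^ 2 + XI (tb t) p ^ 2 + Z := by
      rw [hw, P6 p.1 {tm t, tb t}, Finset.sum_pair hmn, ← hZ]
      unfold sg XI
      rw [if_pos hneg, if_neg hpos]; push_cast; ring
    have hcc : (c : ℂ) ≠ 0 := ofReal_ne_zero.2 hc0.ne'
    have hM := conj_mul_of_norm (hph (tm t))
    have hN := conj_mul_of_norm (hph (tb t))
    have hM0 : ph u (tm t) ≠ 0 := by intro h0; simp [h0] at hM
    have hWW : WW t p = ((c⁻¹ : ℝ) : ℂ) * (p.2 * conj (ph u (tm t))) := by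
      unfold WW
      rw [hxi (tm t), ← hcd]
      push_cast
      field_simp
      linear_combination (-p.2) * hM
    have hW : WW t p ^ 2 + 1 = eta t p ^ 2 * (((b ^ 2 / c ^ 2 : ℝ) : ℂ) +
        (((c ^ 2)⁻¹ : ℝ) : ℂ) * (Z * conj (ph u (tb t)) ^ 2)) := by
      rw [hxi (tm t), hxi (tb t), ← hcd, ← hbd] at hF
      rw [hWW, heta]
      push_cast
      field_simp
      linear_combination (conj (ph u (tm t))) ^ 2 * hF -
        (c : ℂ) ^ 2 * (conj (ph u (tm t)) * ph u (tm t) + 1) * hM -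
        conj (ph u (tm t)) ^ 2 * Z * (conj (ph u (tb t)) * ph u (tb t) + 1) * hN
    have he : ‖(((c ^ 2)⁻¹ : ℝ) : ℂ) * (Z * conj (ph u (tb t)) ^ 2)‖ ≤
        (1 + b ^ 2 / c ^ 2) / 10 ^ 6 := by
      rw [norm_mul, norm_mul, norm_pow, RCLike.norm_conj, hph, one_pow, mul_one, norm_real,
        Real.norm_of_nonneg (by positivity), inv_mul_le_iff₀ (by positivity)]
      linarith
    have he3 : |((((c ^ 2)⁻¹ : ℝ) : ℂ) * (Z * conj (ph u (tb t)) ^ 2)).im| ≤
        (1 + b ^ 2 / c ^ 2) / 10 ^ 6 * dd u := by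
      rw [im_ofReal_mul, abs_mul, abs_of_nonneg (by positivity), inv_mul_le_iff₀ (by positivity)]
      linarith [mul_le_mul_of_nonneg_right hK' hd0, mul_nonneg hK0 hd0]
    obtain ⟨c1, c2, c3⟩ := core hy1 hη hr hd0 hd2 he he3 hW hα hβ hαβ E
    have q1 := P4 u t 1 0 2 hu.1 (by decide) (by decide) (by decide)
    have q2 : |(ppi t p).im| ≤ |y.im| + 3 * |(eta t p).im| := by
      have e : ppi t p = y * conj (eta t p ^ (j + 1)) := by
        rw [hy, mul_assoc, map_pow, ← mul_pow, mul_comm (eta t p), hc]; simp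
      have h1 := im_mul_le (b := eta t p ^ (j + 1)) hy1 (by rw [norm_pow, hη, one_pow])
      have h2 := P9 (eta t p) ((j + 1 : ℕ) : ℤ) hη
      rw [zpow_natCast, Int.cast_natCast, Nat.abs_cast] at h2
      have h3 : ((j + 1 : ℕ) : ℝ) ≤ 3 := by exact_mod_cast hj
      rw [e]
      linarith [mul_le_mul_of_nonneg_right h3 (abs_nonneg (eta t p).im)]
    have q3 : |(ph u (tm t) * conj (ph u (tb t))).im| = |(eta t p).im| := by
      rw [heta, ← abs_neg, ← conj_im]; simp [mul_comm]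
    have q4 : dd u ≤ 6 * (|(ppi t p).im| + |(eta t p).im|) := by
      rw [← q3, hppi]; exact q1
    have hd : dd u = 0 := by linarith
    have hy0 : |y.im| = 0 := le_antisymm (by linarith) (abs_nonneg _)
    rw [hy0, mul_zero, hWW, im_ofReal_mul, abs_nonpos_iff] at c3
    exact hnr (P7 p.1 u p.2 (tm t) hu hd
      ((mul_eq_zero.1 c3).resolve_left (inv_pos.2 hc0).ne'))
  · have e := ff_polar hSt' p (hxi _) (hxi _) (hxi _) (hpos' _).ne' (hph _)
    have hWW : WW t' p = WW t p := by unfold WW; rw [hm]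
    have e3 : ppi t p * eta t p ^ 3 = ph u (ta t') * conj (ph u (tb t')) := by
      have r := ph_rel u hex
      have hM := conj_mul_of_norm (hph (tm t))
      have hN := conj_mul_of_norm (hph (tb t))
      have hB := conj_mul_of_norm (hph (tb t'))
      rw [hppi, heta, ← hn]
      generalize ph u (ta t) = A at *
      generalize ph u (tb t) = N at *
      generalize ph u (tb t') = B at *
      generalize ph u (tm t) = M at *
      have h3 : conj M ^ 3 * M ^ 3 = 1 := by rw [← mul_pow, hM, one_pow]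
      linear_combination (A * N ^ 2 * conj M ^ 3) * hN - (A * N ^ 2 * conj M ^ 3) * hB +
        (N * conj B * conj M ^ 3) * r + (N * conj B) * h3
    have e0 : Phi t 3 p = ((ph u (ta t') * conj (ph u (tb t'))).im : ℂ) +
        (WW t' p * (ph u (ta t') * conj (ph u (tb t')))).im * I := by
      unfold Phi; rw [e3, hWW]
    rw [e] at hf'
    rw [e0, e]
    exact (slit_of_scale (mul_pos (hpos' _) (hpos' _)) (pow_pos (hpos' _) 2) hf').2

end

end Pool.Agent.MP_6600f1_ag.ce
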