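import Pool.Agent.MP_6600f1_ag.ce.Spec

/-! The property `NN` is carried along equivariant homeomorphisms. -/

namespace Pool.Agent.MP_6600f1_ag.ce

open MvPolynomial Set

theorem nn_of_homeo {F G : Form} (Ψ : V × ℂ ≃ₜ V × ℂ) (hY : ∀ p, Ψ p ∈ YY G ↔ p ∈ YY F)
    (hR : ∀ p, RealPt (Ψ p) ↔ RealPt p) (hw : ∀ p, (Ψ p).2 = 0 → p.2 = 0) (h : NN G) : NN F := by
  obtain ⟨p, pY, pR, U, oU, pU, g, hg, g0⟩ := h
  have hM : ∀ p, Ψ p ∈ MM G ↔ p ∈ MM F := fun p => and_congr (hY p) (not_congr (hR p))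
  let a : C(↥(Ψ ⁻¹' U ∩ MM F), ↥(U ∩ MM G)) :=
    ⟨fun q => ⟨Ψ q.1, q.2.1, (hM _).2 q.2.2⟩, by fun_prop⟩
  let b : C(↥(MM G), ↥(MM F)) :=
    ⟨fun q => ⟨Ψ.symm q.1, (hM _).1 (by simp)⟩, by fun_prop⟩
  refine ⟨Ψ.symm p, (hY _).1 (by simpa using pY), (hR _).1 (by simpa using pR), Ψ ⁻¹' U,
    oU.preimage Ψ.continuous, by simpa using pU, b.comp (g.comp a), ?_, fun q => hw _ ?_⟩
  · have := (ContinuousMap.Homotopic.refl b).comp (hg.comp (ContinuousMap.Homotopic.refl a))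
    convert this using 1
    ext q : 2
    exact (Ψ.symm_apply_apply q.1).symm
  · simpa [b] using g0 (a q)

theorem tnS : TNS := by
  refine ⟨fun F G φ h1 h2 h3 => nn_of_homeo (φ.prodCongr (.refl ℂ)) (fun p => ?_) (fun p => ?_)
    fun _ h => h, fun G c hc => ?_⟩
  · have z : φ 0 = 0 := by simpa using h1 0 0
    exact and_congr (not_congr ⟨fun e => φ.injective (e.trans z.symm), fun e => by
      simp [show p.1 = 0 from e, z]⟩) (by simp [h3])
  · refine exists_congr fun l => and_congr_right fun _ => and_congr_left fun _ => ?_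
    change star (l • φ p.1) = l • φ p.1 ↔ _
    rw [← h1, ← h2, φ.injective.eq_iff]
  · have s0 : ((√c : ℝ) : ℂ) ≠ 0 := by simpa using (Real.sqrt_pos.2 hc).ne'
    have s2 : ((√c : ℝ) : ℂ) ^ 2 = c := by rw [← Complex.ofReal_pow, Real.sq_sqrt hc.le]
    refine nn_of_homeo ((Homeomorph.refl V).prodCongr (Homeomorph.mulLeft₀ _ s0).symm)
      (fun p => and_congr_right fun _ => ?_) (fun p => ?_) fun p h => ?_
    · change (((√c : ℝ) : ℂ)⁻¹ * p.2) ^ 2 = aeval p.1 G ↔ _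
      rw [mul_pow, inv_pow, s2, inv_mul_eq_iff_eq_mul₀ (by simpa using hc.ne'), map_smul,
        Complex.real_smul]
    · refine exists_congr fun l => and_congr_right fun _ => and_congr_right fun _ => ?_
      change (l ^ 5 * (((√c : ℝ) : ℂ)⁻¹ * p.2)).im = 0 ↔ _
      rw [mul_left_comm, ← Complex.ofReal_inv, Complex.im_ofReal_mul]
      simp [(Real.sqrt_pos.2 hc).ne']
    · have h' : ((√c : ℝ) : ℂ)⁻¹ * p.2 = 0 := h
      simpa [s0] using h'

end Pool.Agent.MP_6600f1_ag.ce
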