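import Pool.Agent.MP_6600f1_ag.ce.Spec
import Pool.Agent.MP_6600f1_ag.Alg

/-! The 28 discs obtained from the discs of the negative vertices by sign changes, and density of
the real points in the torus with `w ≠ 0`. -/

namespace Pool.Agent.MP_6600f1_ag.ce

open MvPolynomial Metric Set Complex

noncomputable section

namespace unn

theorem sum_ex (n : Fin 21) : ∑ i, ex n i = 5 := by
  revert n; decide

theorem eval_tp (T : TD) (y : Fin 3 → ℝ) :
    eval y (tp T) = ∑ n, sg T n * dl ^ (8 * T.nu n) * ∏ i, |y i| ^ (2 * ex n i) := by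
  simp only [tp, map_sum, map_mul, eval_C, map_prod, map_pow, eval_X, pow_mul, sq_abs]

theorem norm_xi (T : TD) (n : Fin 21) (y : Fin 3 → ℝ) :
    ‖xi T n (cx y)‖ = |dl| ^ (4 * T.nu n) * ∏ i, |y i| ^ ex n i := by
  simp only [xi, cx, norm_mul, norm_pow, norm_prod, norm_real, Real.norm_eq_abs]

theorem eval_sc (T : TD) {l : ℝ} {y y' : Fin 3 → ℝ} (h : ∀ i, |y' i| = |l| * |y i|) :
    eval y' (tp T) = |l| ^ 10 * eval y (tp T) := by
  rw [eval_tp, eval_tp, Finset.mul_sum]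
  refine Finset.sum_congr rfl fun n _ => ?_
  simp only [h, mul_pow, Finset.prod_mul_distrib, Finset.prod_pow_eq_pow_sum, ← Finset.mul_sum,
    sum_ex]
  ring

theorem xi_sc (T : TD) (n : Fin 21) {l : ℝ} {y y' : Fin 3 → ℝ} (h : ∀ i, |y' i| = |l| * |y i|) :
    ‖xi T n (cx y')‖ = |l| ^ 5 * ‖xi T n (cx y)‖ := by
  rw [norm_xi, norm_xi]
  simp only [h, mul_pow, Finset.prod_mul_distrib, Finset.prod_pow_eq_pow_sum, sum_ex]
  ring

theorem kk_sc {T : TD} {m : Fin 21} {l : ℝ} (hl : l ≠ 0) {y y' : Fin 3 → ℝ}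
    (h : ∀ i, |y' i| = |l| * |y i|) (hy : y ∈ KK T m) : y' ∈ KK T m := by
  have hl' : 0 < |l| := abs_pos.2 hl
  refine ⟨fun e => hy.1 (funext fun i => ?_), ?_, fun ⟨n', hn⟩ => hy.2.2 ⟨n', ?_⟩⟩
  · have := h i
    rw [e] at this
    simpa [hl] using this
  · rw [eval_sc T h]
    exact mul_nonpos_of_nonneg_of_nonpos (by positivity) hy.2.1
  · rw [xi_sc T _ h, xi_sc T _ h, mul_left_comm] at hn
    exact lt_of_mul_lt_mul_left hn (by positivity)

/-- change of signs -/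
def act (s : Fin 3 → Bool) (y : Fin 3 → ℝ) : Fin 3 → ℝ := fun i => if s i then -y i else y i

theorem abs_act (s : Fin 3 → Bool) (y : Fin 3 → ℝ) (i : Fin 3) : |act s y i| = |y i| := by
  unfold act; split_ifs <;> simp

theorem act_act (s : Fin 3 → Bool) (y : Fin 3 → ℝ) : act s (act s y) = y := by
  funext i; unfold act; split_ifs <;> simp

theorem act_smul (s : Fin 3 → Bool) (l : ℝ) (y : Fin 3 → ℝ) : act s (l • y) = l • act s y := by
  funext i; simp only [act, Pi.smul_apply, smul_eq_mul]; split_ifs <;> simp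

/-- the last coordinate with a nonzero exponent -/
def lc (m : Fin 21) : Fin 3 := if ex m 2 ≠ 0 then 2 else if ex m 1 ≠ 0 then 1 else 0

theorem ex_lc (m : Fin 21) : ex m (lc m) ≠ 0 := by
  revert m; decide

/-- the index set of the ovals -/
def idx (T : TD) : Finset (Fin 21 × (Fin 3 → Bool)) :=
  Finset.univ.filter fun q => q.1 ∈ T.ngl ∧ q.2 (lc q.1) = false ∧ ∀ i, ex q.1 i = 0 → q.2 i = false

theorem unn_of_card (T : TD) (hc : (idx T).card = 28) : UnnS T := by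
  intro _ hD hO
  classical
  have hO' : ∀ m : Fin 21, ∃ Δ : ℂ → Fin 3 → ℝ, m ∈ T.ngl → ContinuousOn Δ (closedBall 0 1) ∧
      (∀ a ∈ closedBall (0 : ℂ) 1, Δ a ∈ KK T m ∧ ∀ i, ex m i ≠ 0 → 0 < Δ a i) ∧
      (∀ a ∈ closedBall (0 : ℂ) 1, ∀ b ∈ closedBall (0 : ℂ) 1, ∀ l : ℝ, Δ a = l • Δ b → a = b) ∧
      (∀ a ∈ sphere (0 : ℂ) 1, eval (Δ a) (tp T) = 0) ∧
      ∀ y ∈ KK T m, (∀ i, ex m i ≠ 0 → 0 < y i) → eval y (tp T) = 0 →
        ∃ a ∈ sphere (0 : ℂ) 1, ∃ l : ℝ, y = l • Δ a := by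
    intro m
    by_cases hm : m ∈ T.ngl
    · obtain ⟨Δ, h⟩ := hO m hm
      exact ⟨Δ, fun _ => h⟩
    · exact ⟨fun _ => 0, fun h => absurd h hm⟩
  choose Δ hΔ using hO'
  let e : Fin 28 ≃ ↥(idx T) := ((idx T).equivFinOfCardEq hc).symm
  have he : ∀ j, (e j).1.1 ∈ T.ngl ∧ (e j).1.2 (lc (e j).1.1) = false ∧
      ∀ i, ex (e j).1.1 i = 0 → (e j).1.2 i = false := fun j => (Finset.mem_filter.1 (e j).2).2
  have hne : ∀ j, ∀ a ∈ closedBall (0 : ℂ) 1, act (e j).1.2 (Δ (e j).1.1 a) ≠ 0 := by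
    intro j a ha h0
    have h1 := (((hΔ _ (he j).1).2.1 a ha).2 _ (ex_lc _)).ne'
    have h2 := abs_act (e j).1.2 (Δ (e j).1.1 a) (lc (e j).1.1)
    rw [h0] at h2
    exact h1 (by simpa using h2.symm)
  refine ⟨fun j a => act (e j).1.2 (Δ (e j).1.1 a), fun j => ?_, hne, ?_, fun v hv => ⟨?_, ?_⟩⟩
  · refine continuousOn_pi.2 fun i => ?_
    have hc := continuousOn_pi.1 (hΔ _ (he j).1).1 i
    simp only [act]
    split_ifs
    · exact hc.neg
    · exact hc
  · intro j j' a ha b hb l hl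
    beta_reduce at hl
    have hl0 : l ≠ 0 := fun h => hne j a ha (by rw [hl, h, zero_smul])
    have ha' := (hΔ _ (he j).1).2.1 a ha
    have hb' := (hΔ _ (he j').1).2.1 b hb
    have hab : ∀ i, |Δ (e j).1.1 a i| = |l| * |Δ (e j').1.1 b i| := fun i => by
      rw [← abs_act (e j).1.2, ← abs_act (e j').1.2 (Δ _ b), hl, Pi.smul_apply, smul_eq_mul,
        abs_mul]
    have hm : (e j).1.1 = (e j').1.1 :=
      hD.2.2.2 _ (he j).1 _ (he j').1 _ ha'.1 (kk_sc hl0 hab hb'.1)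
    have hj := he j
    have hj' := he j'
    have hinj := (hΔ _ (he j).1).2.2.1 a ha b hb l
    rw [← hm] at hj' hb' hl
    have hlp : 0 < l := by
      have h1 := congrFun hl (lc (e j).1.1)
      simp only [act, hj.2.1, hj'.2.1, Pi.smul_apply, smul_eq_mul, Bool.false_eq_true,
        if_false] at h1
      have h2 := ha'.2 _ (ex_lc _)
      have h3 := hb'.2 _ (ex_lc _)
      rw [h1] at h2
      exact (pos_iff_pos_of_mul_pos h2).2 h3
    have hs : (e j).1.2 = (e j').1.2 := by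
      funext i
      by_cases hi : ex (e j).1.1 i = 0
      · rw [hj.2.2 i hi, hj'.2.2 i hi]
      · have h1 := congrFun hl i
        have h2 := ha'.2 i hi
        have h3 := mul_pos hlp (hb'.2 i hi)
        simp only [act, Pi.smul_apply, smul_eq_mul] at h1
        cases h4 : (e j).1.2 i <;> cases h5 : (e j').1.2 i <;> simp only [h4, h5] at h1 ⊢
        · simp at h1; linarith
        · simp at h1; linarith
    refine ⟨e.injective (Subtype.ext (Prod.ext hm hs)), hinj ?_⟩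
    rw [← hs, ← act_smul] at hl
    rw [← act_act (e j).1.2 (Δ _ a), hl, act_act]
  · intro h0
    obtain ⟨m, hm, hvm⟩ := hD.2.2.1 v hv h0.le
    have hx := (hD.2.1 m hm v hvm).1
    have hvi : ∀ i, ex m i ≠ 0 → v i ≠ 0 := fun i hi h => hx (by
      rw [xi, Finset.prod_eq_zero (Finset.mem_univ i) (by simp [cx, h, hi]), mul_zero])
    obtain ⟨ε, hε, hεp⟩ : ∃ ε : ℝ, ε * ε = 1 ∧ 0 < ε * v (lc m) := by
      rcases (hvi _ (ex_lc m)).lt_or_gt with h | h
      · exact ⟨-1, by norm_num, by linarith⟩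
      · exact ⟨1, by norm_num, by linarith⟩
    have hε0 : ε ≠ 0 := fun h => by simp [h] at hε
    let s : Fin 3 → Bool := fun i => decide (ex m i ≠ 0 ∧ ε * v i < 0)
    have hq : (m, s) ∈ idx T := Finset.mem_filter.2 ⟨Finset.mem_univ _, hm,
      by simp [s, hεp.le], fun i hi => by simp only at hi; simp [s, hi]⟩
    have hy : ∀ i, |act s (ε • v) i| = |ε| * |v i| := fun i => by
      rw [abs_act, Pi.smul_apply, smul_eq_mul, abs_mul]
    obtain ⟨a, ha, l, hl⟩ := (hΔ m hm).2.2.2.2 (act s (ε • v)) (kk_sc hε0 hy hvm) (fun i hi => by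
      have h1 : ε * v i ≠ 0 := mul_ne_zero hε0 (hvi i hi)
      simp only [act, s, Pi.smul_apply, smul_eq_mul, decide_eq_true_eq]
      split_ifs with h
      · linarith [h.2]
      · exact lt_of_le_of_ne (not_lt.1 fun h' => h ⟨hi, h'⟩) h1.symm) (by
      rw [eval_sc T hy, h0, mul_zero])
    refine ⟨e.symm ⟨(m, s), hq⟩, a, ha, ε * l, ?_⟩
    simp only [Equiv.apply_symm_apply]
    rw [mul_smul, ← act_smul, ← hl, act_act, smul_smul, hε, one_smul]
  · rintro ⟨j, a, ha, l, rfl⟩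
    beta_reduce
    rw [eval_sc T (l := l) (y := Δ (e j).1.1 a) fun i => by
      rw [Pi.smul_apply, smul_eq_mul, abs_mul, abs_act], (hΔ _ (he j).1).2.2.2.1 a ha, mul_zero]

end unn

theorem unnS1 : UnnS D1 := unn.unn_of_card D1 (by decide)

theorem unnS2 : UnnS D2 := unn.unn_of_card D2 (by decide)

theorem densS : DensS := by
  intro hB hN p hp ⟨l, hl, hs, hw⟩ U hU hpU
  have hh := (hB D1).1
  have hr := (hB D1).2.2.1
  set y : Fin 3 → ℝ := fun i => ((l • p.1) i).re with hy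
  have hcx : cx y = l • p.1 := funext fun i => by
    have := congrFun hs i
    rw [Pi.star_apply] at this
    exact conj_eq_iff_re.1 this
  set ω : ℝ := (l ^ 5 * p.2).re with hω
  have hωc : (ω : ℂ) = l ^ 5 * p.2 := Complex.ext (by simp only [ofReal_re, hω]) (by
    rw [ofReal_im, hw])
  have hF : eval y (tp D1) = ω ^ 2 := by
    apply ofReal_injective
    rw [hr, hcx, aeval_smul hh, ← hp.2, ofReal_pow, hωc]
    ring
  have hy0 : y ≠ 0 := fun h => hp.1 (by
    have : l • p.1 = 0 := by rw [← hcx, h]; funext i; simp [cx]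
    exact (smul_eq_zero.1 this).resolve_left hl)
  obtain ⟨σ, hσ, hσω⟩ : ∃ σ : ℝ, σ * σ = 1 ∧ σ * |ω| = ω := by
    rcases le_total 0 ω with h | h
    · exact ⟨1, by norm_num, by rw [abs_of_nonneg h, one_mul]⟩
    · exact ⟨-1, by norm_num, by rw [abs_of_nonpos h]; ring⟩
  let φ : (Fin 3 → ℝ) → V × ℂ := fun z =>
    (l⁻¹ • cx z, (l ^ 5)⁻¹ * ((σ * √(eval z (tp D1)) : ℝ) : ℂ))
  have hce : Continuous fun z : Fin 3 → ℝ => eval z (tp D1) := continuous_eval _
  have hφ : Continuous φ := by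
    refine Continuous.prodMk (continuous_pi fun i => ?_) ?_
    · exact continuous_const.mul (continuous_ofReal.comp (continuous_apply i))
    · exact continuous_const.mul (continuous_ofReal.comp (continuous_const.mul hce.sqrt))
  have hφy : φ y = p := by
    refine Prod.ext ?_ ?_
    · show l⁻¹ • cx y = p.1
      rw [hcx, inv_smul_smul₀ hl]
    · show (l ^ 5)⁻¹ * ((σ * √(eval y (tp D1)) : ℝ) : ℂ) = p.2
      rw [hF, Real.sqrt_sq_eq_abs, hσω, hωc, inv_mul_cancel_left₀ (pow_ne_zero _ hl)]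
  have hW : IsOpen (φ ⁻¹' U) := hU.preimage hφ
  have hyW : y ∈ φ ⁻¹' U := by rw [mem_preimage, hφy]; exact hpU
  have h1 : ∃ z ∈ φ ⁻¹' U, 0 < eval z (tp D1) := by
    by_contra hcon
    push Not at hcon
    have h0 : eval y (tp D1) = 0 := le_antisymm (hcon y hyW) (by rw [hF]; positivity)
    have hmax : IsLocalMax (fun z : Fin 3 → ℝ => eval z (tp D1)) y :=
      Filter.eventually_of_mem (hW.mem_nhds hyW) fun z hz => by
        show eval z (tp D1) ≤ eval y (tp D1)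
        rw [h0]; exact hcon z hz
    exact hN.rn y hy0 (sg_of_D h0 (hmax.hasFDerivAt_eq_zero (hasFDerivAt_eval _ y)))
  have hd : Dense (univ.pi fun _ : Fin 3 => ({0}ᶜ : Set ℝ)) :=
    dense_pi univ fun _ _ => dense_compl_singleton 0
  obtain ⟨z, hz, hzW, hzF⟩ := hd.exists_mem_open
    (hW.inter (isOpen_lt continuous_const hce)) (by
      obtain ⟨z, h, h'⟩ := h1
      exact ⟨z, h, h'⟩)
  have hz' : ∀ i, z i ≠ 0 := fun i => hz i (mem_univ i)
  have hzF' : 0 < eval z (tp D1) := hzF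
  have hT : Tor (φ z).1 := fun i => by
    show l⁻¹ * ((z i : ℝ) : ℂ) ≠ 0
    exact mul_ne_zero (inv_ne_zero hl) (ofReal_ne_zero.2 (hz' i))
  refine ⟨φ z, hzW, ⟨fun h => hT 0 (congrFun h 0), ?_⟩, ⟨l, hl, ?_, ?_⟩, hT, ?_⟩
  · show ((l ^ 5)⁻¹ * ((σ * √(eval z (tp D1)) : ℝ) : ℂ)) ^ 2 = aeval (l⁻¹ • cx z) (tp D1)
    rw [aeval_smul hh, ← hr, mul_pow, ← ofReal_pow, mul_pow, Real.sq_sqrt hzF'.le, sq σ, hσ,
      one_mul]
    ring
  · show star (l • l⁻¹ • cx z) = l • l⁻¹ • cx z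
    rw [smul_inv_smul₀ hl]
    funext i
    exact conj_ofReal _
  · show (l ^ 5 * ((l ^ 5)⁻¹ * ((σ * √(eval z (tp D1)) : ℝ) : ℂ))).im = 0
    rw [mul_inv_cancel_left₀ (pow_ne_zero _ hl), ofReal_im]
  · refine mul_ne_zero (inv_ne_zero (pow_ne_zero _ hl)) (ofReal_ne_zero.2 (mul_ne_zero ?_ ?_))
    · intro h; simp [h] at hσ
    · exact (Real.sqrt_pos.2 hzF').ne'

end

end Pool.Agent.MP_6600f1_ag.ce
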